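import Mathlib

set_option autoImplicit false

namespace Pool.Agent.Ghys

open Filter Topology Set

/-- `g` moves every point by less than `ε`. -/
def Sm (ε : ℝ) (g : ℝ ≃o ℝ) : Prop := ∀ x, |g x - x| < ε

/-- `g` commutes with `x ↦ x + 1`. -/
def Per (g : ℝ ≃o ℝ) : Prop := ∀ x, g (x + 1) = g x + 1

/-- `Γ` is a closed group of increasing homeomorphisms of the line commuting with `x ↦ x + 1`. -/
structure Ok (Γ : Subgroup (ℝ ≃o ℝ)) : Prop where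
  per : ∀ g ∈ Γ, Per g
  clo : ∀ f : ℝ ≃o ℝ, Per f → (∀ ε > 0, ∃ g ∈ Γ, ∀ x, |g x - f x| < ε) → f ∈ Γ

/-- `n` points `p 0 < ... < p (n-1) < p 0 + 1`. -/
def Cn (n : ℕ) (p : Fin n → ℝ) : Prop := StrictMono p ∧ ∀ i j, p i < p j + 1

/-- transitivity on `Cn n` -/
def TR (Γ : Subgroup (ℝ ≃o ℝ)) (n : ℕ) : Prop :=
  ∀ p q : Fin n → ℝ, Cn n p → Cn n q → ∃ g ∈ Γ, ∀ i, g (p i) = q i

/-- micro-transitivity on `Cn n` -/
def EE (Γ : Subgroup (ℝ ≃o ℝ)) (n : ℕ) : Prop :=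
  ∀ p : Fin n → ℝ, Cn n p → ∀ ε > 0, ∃ η > 0, ∀ q : Fin n → ℝ, Cn n q →
    (∀ i, |q i - p i| < η) → ∃ g ∈ Γ, Sm ε g ∧ ∀ i, g (p i) = q i

/-- local density of local orbits on `Cn n` -/
def LD (Γ : Subgroup (ℝ ≃o ℝ)) (n : ℕ) : Prop :=
  ∀ p : Fin n → ℝ, Cn n p → ∀ ε > 0, ∃ η > 0, ∀ q : Fin n → ℝ, Cn n q →
    (∀ i, |q i - p i| < η) → ∀ τ > 0, ∃ g ∈ Γ, Sm ε g ∧ ∀ i, |g (p i) - q i| < τ

/-- small elements fixing `n` points move every other point -/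
def MM (Γ : Subgroup (ℝ ≃o ℝ)) (n : ℕ) : Prop :=
  ∀ (p : Fin n → ℝ) (y : ℝ), Cn (n + 1) (Fin.snoc p y : Fin (n + 1) → ℝ) → ∀ δ > 0,
    ∃ g ∈ Γ, Sm δ g ∧ (∀ i, g (p i) = p i) ∧ g y ≠ y

/-- `Γ` contains every homeomorphism commuting with `x ↦ x + 1` -/
def Full (Γ : Subgroup (ℝ ≃o ℝ)) : Prop := ∀ f : ℝ ≃o ℝ, Per f → f ∈ Γ

/-- `σ` is a pointwise limit of `ε`-small elements of `Γ` -/
def Approx (Γ : Subgroup (ℝ ≃o ℝ)) (ε : ℝ) (σ : ℝ → ℝ) : Prop :=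
  ∀ F : Finset ℝ, ∀ τ > 0, ∃ g ∈ Γ, Sm ε g ∧ ∀ x ∈ F, |g x - σ x| < τ

/-- Local compactness: all pointwise limits of small elements are continuous -/
def LC (Γ : Subgroup (ℝ ≃o ℝ)) : Prop := ∃ e > 0, ∀ σ, Approx Γ e σ → Continuous σ

/-- proximality -/
def Prox (Γ : Subgroup (ℝ ≃o ℝ)) : Prop :=
  ∀ a b : ℝ, a < b → b < a + 1 → ∀ c d : ℝ, c < d → ∃ g ∈ Γ, c < g a ∧ g b < d

/-- small elements fixing `n` points are trivial -/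
def Rigid (Γ : Subgroup (ℝ ≃o ℝ)) (n : ℕ) : Prop :=
  ∀ p : Fin n → ℝ, Cn n p → ∃ δ > 0, ∀ g ∈ Γ, Sm δ g → (∀ i, g (p i) = p i) → g = 1

/-- the orbits on `Cn n` are dense -/
def DN (Γ : Subgroup (ℝ ≃o ℝ)) (n : ℕ) : Prop :=
  ∀ p q : Fin n → ℝ, Cn n p → Cn n q → ∀ τ > 0, ∃ g ∈ Γ, ∀ i, |g (p i) - q i| < τ

/-- a point can be moved up by a definite small amount by elements which are almost trivial
outside of a small neighbourhood -/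
def UpMove (Γ : Subgroup (ℝ ≃o ℝ)) : Prop :=
  ∀ w ε : ℝ, 0 < ε → ∃ w', w < w' ∧ w' < w + ε ∧ ∀ δ > 0, ∃ κ ∈ Γ, |κ w - w'| < δ ∧
    ∀ x, (∀ k : ℤ, ε ≤ |x - w - k|) → |κ x - x| < δ

def DownMove (Γ : Subgroup (ℝ ≃o ℝ)) : Prop :=
  ∀ w ε : ℝ, 0 < ε → ∃ w', w' < w ∧ w - ε < w' ∧ ∀ δ > 0, ∃ κ ∈ Γ, |κ w - w'| < δ ∧
    ∀ x, (∀ k : ℤ, ε ≤ |x - w - k|) → |κ x - x| < δ

/-- `y` is the value of `σ` at a continuity point -/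
def CV (σ : ℝ → ℝ) (y : ℝ) : Prop := ∃ c, ContinuousAt σ c ∧ σ c = y

/-- `z` lies in the interior of a jump of `σ` -/
def JV (σ : ℝ → ℝ) (z : ℝ) : Prop := ∃ d, Function.leftLim σ d < z ∧ z < Function.rightLim σ d

/-- the subgroup of `Γ` fixing the points `p i` -/
def Fx (Γ : Subgroup (ℝ ≃o ℝ)) {n : ℕ} (p : Fin n → ℝ) : Subgroup (ℝ ≃o ℝ) where
  carrier := {g | g ∈ Γ ∧ ∀ i, g (p i) = p i}
  mul_mem' := by
    rintro a b ⟨ha, ha'⟩ ⟨hb, hb'⟩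
    refine ⟨Γ.mul_mem ha hb, fun i => ?_⟩
    show a (b (p i)) = p i
    rw [hb', ha']
  one_mem' := ⟨Γ.one_mem, fun i => rfl⟩
  inv_mem' := by
    rintro a ⟨ha, ha'⟩
    refine ⟨Γ.inv_mem ha, fun i => ?_⟩
    show a.symm (p i) = p i
    rw [OrderIso.symm_apply_eq, ha']

/-- the subgroup generated by the `ε`-small elements of `K` -/
def Gen (K : Subgroup (ℝ ≃o ℝ)) (ε : ℝ) : Subgroup (ℝ ≃o ℝ) :=
  Subgroup.closure {g | g ∈ K ∧ Sm ε g}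

/-- the stabiliser of `y` in `K` -/
def St (K : Subgroup (ℝ ≃o ℝ)) (y : ℝ) : Subgroup (ℝ ≃o ℝ) where
  carrier := {g | g ∈ K ∧ g y = y}
  mul_mem' := by
    rintro a b ⟨ha, ha'⟩ ⟨hb, hb'⟩
    refine ⟨K.mul_mem ha hb, ?_⟩
    show a (b y) = y
    rw [hb', ha']
  one_mem' := ⟨K.one_mem, rfl⟩
  inv_mem' := by
    rintro a ⟨ha, ha'⟩
    refine ⟨K.inv_mem ha, ?_⟩
    show a.symm y = y
    rw [OrderIso.symm_apply_eq, ha']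

/-- `f` is the lift of a linear fractional map of the projective line -/
def Mob (f : ℝ ≃o ℝ) : Prop :=
  ∃ a b c d : ℝ, a * d - b * c = 1 ∧ ∀ t : ℝ,
    Real.cos (Real.pi * f t) * (c * Real.cos (Real.pi * t) + d * Real.sin (Real.pi * t)) =
      Real.sin (Real.pi * f t) * (a * Real.cos (Real.pi * t) + b * Real.sin (Real.pi * t))

/-- local density of the orbit of `y` under the `e`-small elements fixing the points `p i` -/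
def FLD (Γ : Subgroup (ℝ ≃o ℝ)) {n : ℕ} (p : Fin n → ℝ) (y e : ℝ) : Prop :=
  ∃ η > 0, ∀ y' : ℝ, |y' - y| < η → ∀ τ > 0, ∃ κ ∈ Γ, Sm e κ ∧ (∀ i, κ (p i) = p i) ∧
    |κ y - y'| < τ

/-- the points `x i` are pairwise distinct modulo `1` -/
def IM {n : ℕ} (x : Fin n → ℝ) : Prop := ∀ i j, i ≠ j → ∀ k : ℤ, x i ≠ x j + k

/-- the order at `+∞` -/
def Lt (g h : ℝ ≃o ℝ) : Prop := ∀ᶠ x in atTop, g x < h x

end Pool.Agent.Ghys
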