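import Mathlib
import Pool.Agent.Ghys.Defs

set_option autoImplicit false

namespace Pool.Agent.Ghys

open Filter Topology Set

theorem mul_app (g h : ℝ ≃o ℝ) (x : ℝ) : (g * h) x = g (h x) := rfl

theorem one_app (x : ℝ) : (1 : ℝ ≃o ℝ) x = x := rfl

theorem inv_app_self (g : ℝ ≃o ℝ) (x : ℝ) : g⁻¹ (g x) = x := g.symm_apply_apply x

theorem app_inv_self (g : ℝ ≃o ℝ) (x : ℝ) : g (g⁻¹ x) = x := g.apply_symm_apply x

theorem inv_eq_iff (g : ℝ ≃o ℝ) (x y : ℝ) : g⁻¹ x = y ↔ x = g y := g.symm_apply_eq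

theorem Sm.mono {a b : ℝ} {g : ℝ ≃o ℝ} (h : Sm a g) (hab : a ≤ b) : Sm b g :=
  fun x => lt_of_lt_of_le (h x) hab

theorem Sm.mul {a b : ℝ} {g h : ℝ ≃o ℝ} (hg : Sm a g) (hh : Sm b h) : Sm (a + b) (g * h) := by
  intro x
  have h1 := hg (h x)
  have h2 := hh x
  rw [mul_app]
  calc |g (h x) - x| = |(g (h x) - h x) + (h x - x)| := by ring_nf
    _ ≤ |g (h x) - h x| + |h x - x| := abs_add_le _ _
    _ < a + b := by linarith

theorem Sm.inv {a : ℝ} {g : ℝ ≃o ℝ} (hg : Sm a g) : Sm a g⁻¹ := by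
  intro x
  have h1 := hg (g⁻¹ x)
  rw [app_inv_self] at h1
  rwa [abs_sub_comm]

theorem Sm.one {a : ℝ} (ha : 0 < a) : Sm a (1 : ℝ ≃o ℝ) := by
  intro x
  simpa [one_app] using ha

theorem Sm.conj_small {a b : ℝ} {g u : ℝ ≃o ℝ} (hg : Sm a g) (hu : Sm b u) :
    Sm (a + 2 * b) (u * g * u⁻¹) := by
  have := (hu.mul hg).mul hu.inv
  refine this.mono ?_
  linarith

theorem Per.one : Per (1 : ℝ ≃o ℝ) := fun _ => rfl

theorem Per.mul {g h : ℝ ≃o ℝ} (hg : Per g) (hh : Per h) : Per (g * h) := by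
  intro x
  rw [mul_app, mul_app, hh, hg]

theorem Per.inv {g : ℝ ≃o ℝ} (hg : Per g) : Per g⁻¹ := by
  intro x
  rw [inv_eq_iff, hg, app_inv_self]

theorem Per.add_int {g : ℝ ≃o ℝ} (hg : Per g) (x : ℝ) (k : ℤ) : g (x + k) = g x + k := by
  have hnat : ∀ (n : ℕ) (y : ℝ), g (y + n) = g y + n := by
    intro n
    induction n with
    | zero => intro y; simp
    | succ n ih =>
      intro y
      have : y + ((n + 1 : ℕ) : ℝ) = (y + n) + 1 := by push_cast; ring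
      rw [this, hg, ih]; push_cast; ring
  rcases Int.eq_nat_or_neg k with ⟨n, rfl | rfl⟩
  · exact_mod_cast hnat n x
  · have := hnat n (x + ((-(n : ℤ) : ℤ) : ℝ))
    have h2 : x + ((-(n : ℤ) : ℤ) : ℝ) + (n : ℝ) = x := by push_cast; ring
    rw [h2] at this
    rw [this]; push_cast; ring

theorem Per.sub_int {g : ℝ ≃o ℝ} (hg : Per g) (x : ℝ) (k : ℤ) : g (x - k) = g x - k := by
  have := hg.add_int x (-k)
  push_cast at this
  simpa [sub_eq_add_neg] using this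

/-- uniform continuity -/
theorem Per.uc {g : ℝ ≃o ℝ} (hg : Per g) {ε : ℝ} (hε : 0 < ε) :
    ∃ δ > 0, ∀ x y, |x - y| < δ → |g x - g y| < ε := by
  have hc : UniformContinuousOn g (Icc (-1) 2) :=
    isCompact_Icc.uniformContinuousOn_of_continuous g.continuous.continuousOn
  rw [Metric.uniformContinuousOn_iff] at hc
  obtain ⟨δ, hδ, h⟩ := hc ε hε
  refine ⟨min δ 1, lt_min hδ one_pos, fun x y hxy => ?_⟩
  have h1 : |x - y| < δ := lt_of_lt_of_le hxy (min_le_left _ _)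
  have h2 : |x - y| < 1 := lt_of_lt_of_le hxy (min_le_right _ _)
  set k := ⌊x⌋ with hk
  have hx0 : (k : ℝ) ≤ x := Int.floor_le x
  have hx1 : x < k + 1 := Int.lt_floor_add_one x
  rw [abs_lt] at h2
  have := h (x - k) (by constructor <;> linarith) (y - k) (by constructor <;> linarith)
    (by rw [Real.dist_eq]; convert h1 using 2; ring)
  rw [Real.dist_eq, hg.sub_int, hg.sub_int] at this
  convert this using 2; ring

theorem Sm.conj {h : ℝ ≃o ℝ} (hh : Per h) {ε : ℝ} (hε : 0 < ε) :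
    ∃ δ > 0, ∀ g : ℝ ≃o ℝ, Sm δ g → Sm ε (h * g * h⁻¹) := by
  obtain ⟨δ, hδ, H⟩ := hh.uc hε
  refine ⟨δ, hδ, fun g hg x => ?_⟩
  have := H (g (h⁻¹ x)) (h⁻¹ x) (hg _)
  rwa [app_inv_self] at this

theorem Cn.lt {n : ℕ} {p : Fin n → ℝ} (h : Cn n p) (i j : Fin n) : p i < p j + 1 := h.2 i j

theorem Cn.map {n : ℕ} {p : Fin n → ℝ} (h : Cn n p) {g : ℝ ≃o ℝ} (hg : Per g) :
    Cn n (fun i => g (p i)) := by
  refine ⟨fun i j hij => g.strictMono (h.1 hij), fun i j => ?_⟩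
  show g (p i) < g (p j) + 1
  rw [← hg]
  exact g.strictMono (h.2 i j)

theorem isOpen_Cn (n : ℕ) : IsOpen {q : Fin n → ℝ | Cn n q} := by
  have : {q : Fin n → ℝ | Cn n q} =
      ⋂ (i : Fin n) (j : Fin n), ({q : Fin n → ℝ | i < j → q i < q j} ∩ {q | q i < q j + 1}) := by
    ext q
    simp only [Set.mem_ofPred_eq, Set.mem_iInter, Set.mem_inter_iff, Cn]
    constructor
    · rintro ⟨h1, h2⟩ i j
      exact ⟨fun h => h1 h, h2 i j⟩
    · intro h
      exact ⟨fun i j hij => (h i j).1 hij, fun i j => (h i j).2⟩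
  rw [this]
  refine isOpen_iInter_of_finite fun i => isOpen_iInter_of_finite fun j => IsOpen.inter ?_ ?_
  · by_cases hij : i < j
    · simp only [hij, forall_true_left]
      exact isOpen_lt (continuous_apply i) (continuous_apply j)
    · simp [hij]
  · exact isOpen_lt (continuous_apply i) ((continuous_apply j).add continuous_const)

/-- the condition `Cn` is open -/
theorem Cn.open_nhd {n : ℕ} {p : Fin n → ℝ} (hp : Cn n p) :
    ∃ η > 0, ∀ q : Fin n → ℝ, (∀ i, |q i - p i| < η) → Cn n q := by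
  obtain ⟨η, hη, h⟩ := Metric.isOpen_iff.1 (isOpen_Cn n) p hp
  refine ⟨η, hη, fun q hq => h ?_⟩
  rw [Metric.mem_ball, dist_pi_lt_iff hη]
  intro i
  rw [Real.dist_eq]
  exact hq i

/-! ### Approximable functions -/

variable {Γ : Subgroup (ℝ ≃o ℝ)} {ε : ℝ} {σ : ℝ → ℝ}

theorem Approx.mono {ε' : ℝ} (h : Approx Γ ε σ) (hε : ε ≤ ε') : Approx Γ ε' σ := by
  intro F τ hτ
  obtain ⟨g, hg, h1, h2⟩ := h F τ hτ
  exact ⟨g, hg, h1.mono hε, h2⟩

theorem Approx.monotone (h : Approx Γ ε σ) : Monotone σ := by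
  intro x y hxy
  by_contra hlt
  push Not at hlt
  obtain ⟨g, -, -, h2⟩ := h {x, y} ((σ x - σ y) / 2) (by linarith)
  have hx := h2 x (by simp)
  have hy := h2 y (by simp)
  have := g.monotone hxy
  rw [abs_lt] at hx hy
  linarith

theorem Approx.abs_le (h : Approx Γ ε σ) (x : ℝ) : |σ x - x| ≤ ε := by
  by_contra hlt
  push Not at hlt
  obtain ⟨g, -, h1, h2⟩ := h {x} (|σ x - x| - ε) (by linarith)
  have hx := h2 x (by simp)
  have h3 := h1 x
  have : |σ x - x| ≤ |g x - σ x| + |g x - x| := by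
    rw [abs_sub_comm (g x) (σ x)]
    calc |σ x - x| = |(σ x - g x) + (g x - x)| := by ring_nf
      _ ≤ _ := abs_add_le _ _
  linarith

theorem Approx.add_one (hΓ : Ok Γ) (h : Approx Γ ε σ) (x : ℝ) : σ (x + 1) = σ x + 1 := by
  by_contra hne
  have hpos : 0 < |σ (x + 1) - (σ x + 1)| := abs_pos.2 (sub_ne_zero.2 hne)
  obtain ⟨g, hg, -, h2⟩ := h {x, x + 1} (|σ (x + 1) - (σ x + 1)| / 2) (by linarith)
  have hx := h2 x (by simp)
  have hy := h2 (x + 1) (by simp)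
  rw [hΓ.per g hg] at hy
  have : |σ (x + 1) - (σ x + 1)| ≤ |g x + 1 - σ (x + 1)| + |g x - σ x| := by
    rw [abs_sub_comm (g x + 1)]
    calc |σ (x + 1) - (σ x + 1)| = |(σ (x + 1) - (g x + 1)) + (g x - σ x)| := by ring_nf
      _ ≤ _ := abs_add_le _ _
  linarith

theorem Approx.add_int (hΓ : Ok Γ) (h : Approx Γ ε σ) (x : ℝ) (k : ℤ) : σ (x + k) = σ x + k := by
  have hnat : ∀ (n : ℕ) (y : ℝ), σ (y + n) = σ y + n := by
    intro n
    induction n with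
    | zero => intro y; simp
    | succ n ih =>
      intro y
      have : y + ((n + 1 : ℕ) : ℝ) = (y + n) + 1 := by push_cast; ring
      rw [this, h.add_one hΓ, ih]; push_cast; ring
  rcases Int.eq_nat_or_neg k with ⟨n, rfl | rfl⟩
  · exact_mod_cast hnat n x
  · have := hnat n (x + ((-(n : ℤ) : ℤ) : ℝ))
    have h2 : x + ((-(n : ℤ) : ℤ) : ℝ) + (n : ℝ) = x := by push_cast; ring
    rw [h2] at this
    rw [this]; push_cast; ring

/-- left composition with an element of `Γ` -/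
theorem Approx.comp_left (hΓ : Ok Γ) (h : Approx Γ ε σ) {u : ℝ ≃o ℝ} (hu : u ∈ Γ) {δ : ℝ}
    (hδ : Sm δ u) : Approx Γ (ε + δ) (fun x => u (σ x)) := by
  intro F τ hτ
  obtain ⟨ω, hω, hu'⟩ := (hΓ.per u hu).uc hτ
  obtain ⟨g, hg, h1, h2⟩ := h F ω hω
  refine ⟨u * g, Γ.mul_mem hu hg, ?_, fun x hx => ?_⟩
  · rw [add_comm]; exact hδ.mul h1
  · exact hu' _ _ (h2 x hx)

/-- right composition with an element of `Γ` -/
theorem Approx.comp_right (h : Approx Γ ε σ) {u : ℝ ≃o ℝ} (hu : u ∈ Γ) {δ : ℝ}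
    (hδ : Sm δ u) : Approx Γ (ε + δ) (fun x => σ (u x)) := by
  intro F τ hτ
  classical
  obtain ⟨g, hg, h1, h2⟩ := h (F.image u) τ hτ
  refine ⟨g * u, Γ.mul_mem hg hu, h1.mul hδ, fun x hx => ?_⟩
  exact h2 (u x) (Finset.mem_image_of_mem _ hx)

/-- conjugation, with an arbitrary bound -/
theorem Approx.conj' (hΓ : Ok Γ) (h : Approx Γ ε σ) {u : ℝ ≃o ℝ} (hu : u ∈ Γ) {δ : ℝ}
    (hδ : ∀ g : ℝ ≃o ℝ, Sm ε g → Sm δ (u * g * u⁻¹)) :
    Approx Γ δ (fun x => u (σ (u⁻¹ x))) := by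
  intro F τ hτ
  classical
  obtain ⟨ω, hω, hu'⟩ := (hΓ.per u hu).uc hτ
  obtain ⟨g, hg, h1, h2⟩ := h (F.image (fun x => u⁻¹ x)) ω hω
  refine ⟨u * g * u⁻¹, Γ.mul_mem (Γ.mul_mem hu hg) (Γ.inv_mem hu), hδ g h1, fun x hx => ?_⟩
  exact hu' _ _ (h2 _ (Finset.mem_image_of_mem (fun x => u⁻¹ x) hx))

end Pool.Agent.Ghys
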