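import Mathlib
import Pool.Agent.Ghys.Basic

set_option autoImplicit false

namespace Pool.Agent.Ghys

open Filter Topology Set

variable {Γ : Subgroup (ℝ ≃o ℝ)}


theorem circle_closed (G : Set (AddCircle (1:ℝ) ≃ₜ AddCircle (1:ℝ)))
    (f : AddCircle (1:ℝ) ≃ₜ AddCircle (1:ℝ)) (F : ℝ ≃o ℝ)
    (hf : ∀ t : ℝ, f ((t : ℝ) : AddCircle (1:ℝ)) = ((F t : ℝ) : AddCircle (1:ℝ)))
    (h : ∀ ε > 0, ∃ g ∈ G, ∃ F' : ℝ ≃o ℝ,
      (∀ t : ℝ, g ((t : ℝ) : AddCircle (1:ℝ)) = ((F' t : ℝ) : AddCircle (1:ℝ))) ∧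
      ∀ x, |F' x - F x| < ε) :
    (ContinuousMap.mk (⇑f) f.continuous : C(AddCircle (1:ℝ), AddCircle (1:ℝ))) ∈ closure
      ((fun g : AddCircle (1:ℝ) ≃ₜ AddCircle (1:ℝ) =>
        (ContinuousMap.mk (⇑g) g.continuous : C(AddCircle (1:ℝ), AddCircle (1:ℝ)))) '' G) := by
  rw [Metric.mem_closure_iff]
  intro ε hε
  obtain ⟨g, hg, F', hF', hs⟩ := h ε hε
  refine ⟨_, Set.mem_image_of_mem _ hg, ?_⟩
  rw [ContinuousMap.dist_lt_iff hε]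
  intro x
  induction x using QuotientAddGroup.induction_on with
  | H t =>
    show dist (f ((t : ℝ) : AddCircle (1:ℝ))) (g ((t : ℝ) : AddCircle (1:ℝ))) < ε
    rw [hf, hF', dist_eq_norm, ← AddCircle.coe_sub]
    refine lt_of_le_of_lt ?_ (hs t)
    rw [abs_sub_comm, ← Real.norm_eq_abs]
    exact QuotientAddGroup.norm_mk_le_norm


end Pool.Agent.Ghys
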