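import Mathlib
import Pool.Agent.Ghys.Basic

set_option autoImplicit false

namespace Pool.Agent.Ghys

open Filter Topology Set

variable {Γ : Subgroup (ℝ ≃o ℝ)}


theorem circle_of_line_map (F : ℝ ≃o ℝ) (hF : Per F) :
    ∃ f : AddCircle (1:ℝ) → AddCircle (1:ℝ), Continuous f ∧
      ∀ t : ℝ, f ((t : ℝ) : AddCircle (1:ℝ)) = ((F t : ℝ) : AddCircle (1:ℝ)) := by
  have hsurj : ∀ x : AddCircle (1:ℝ), ∃ t : ℝ, ((t : ℝ) : AddCircle (1:ℝ)) = x := fun x =>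
    QuotientAddGroup.mk_surjective x
  choose out hout using hsurj
  have hkey : ∀ t : ℝ, ((F (out ((t : ℝ) : AddCircle (1:ℝ))) : ℝ) : AddCircle (1:ℝ)) =
      ((F t : ℝ) : AddCircle (1:ℝ)) := by
    intro t
    have h1 := hout ((t : ℝ) : AddCircle (1:ℝ))
    have h2 : ((out ((t : ℝ) : AddCircle (1:ℝ)) - t : ℝ) : AddCircle (1:ℝ)) = 0 := by
      rw [AddCircle.coe_sub, h1, sub_self]
    rw [AddCircle.coe_eq_zero_iff] at h2
    obtain ⟨k, hk⟩ := h2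
    have h3 : out ((t : ℝ) : AddCircle (1:ℝ)) = t + k := by
      have h4 : (k:ℝ) = k • (1:ℝ) := by simp
      rw [h4, hk]
      ring
    rw [h3, hF.add_int, AddCircle.coe_add]
    have h5 : ((k : ℝ) : AddCircle (1:ℝ)) = 0 := by
      rw [AddCircle.coe_eq_zero_iff]
      exact ⟨k, by simp⟩
    rw [h5, add_zero]
  refine ⟨fun x => ((F (out x) : ℝ) : AddCircle (1:ℝ)), ?_, hkey⟩
  have hq : IsQuotientMap (fun t : ℝ => ((t : ℝ) : AddCircle (1:ℝ))) :=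
    QuotientAddGroup.isQuotientMap_mk _
  rw [hq.continuous_iff]
  have h6 : (fun x : AddCircle (1:ℝ) => ((F (out x) : ℝ) : AddCircle (1:ℝ))) ∘
      (fun t : ℝ => ((t : ℝ) : AddCircle (1:ℝ))) = fun t : ℝ => ((F t : ℝ) : AddCircle (1:ℝ)) := by
    ext t
    exact hkey t
  rw [h6]
  exact hq.continuous.comp F.continuous

theorem circle_of_line (F : ℝ ≃o ℝ) (hF : Per F) :
    ∃ f : AddCircle (1:ℝ) ≃ₜ AddCircle (1:ℝ),
      ∀ t : ℝ, f ((t : ℝ) : AddCircle (1:ℝ)) = ((F t : ℝ) : AddCircle (1:ℝ)) := by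
  obtain ⟨f, hf, hft⟩ := circle_of_line_map F hF
  obtain ⟨g, hg, hgt⟩ := circle_of_line_map F⁻¹ hF.inv
  refine ⟨{ toFun := f, invFun := g, left_inv := ?_, right_inv := ?_,
            continuous_toFun := hf, continuous_invFun := hg }, hft⟩
  · intro x
    obtain ⟨t, rfl⟩ : ∃ t : ℝ, ((t : ℝ) : AddCircle (1:ℝ)) = x := QuotientAddGroup.mk_surjective x
    rw [hft, hgt, inv_app_self]
  · intro x
    obtain ⟨t, rfl⟩ : ∃ t : ℝ, ((t : ℝ) : AddCircle (1:ℝ)) = x := QuotientAddGroup.mk_surjective x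
    rw [hgt, hft, app_inv_self]


end Pool.Agent.Ghys
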