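import Mathlib
import Pool.Agent.Ghys.Basic

set_option autoImplicit false

namespace Pool.Agent.Ghys

open Filter Topology Set

variable {Γ : Subgroup (ℝ ≃o ℝ)}


theorem cov_lift (f : AddCircle (1:ℝ) ≃ₜ AddCircle (1:ℝ)) (k : ℕ) (hk : 0 < k) (g : ℝ ≃o ℝ)
    (hg : Per g)
    (h : ∀ t : ℝ, k • f ((t : ℝ) : AddCircle (1:ℝ)) = ((g (k * t) : ℝ) : AddCircle (1:ℝ))) :
    ∃ (F : ℝ ≃o ℝ) (c : ℤ), Per F ∧
      (∀ t : ℝ, f ((t : ℝ) : AddCircle (1:ℝ)) = ((F t : ℝ) : AddCircle (1:ℝ))) ∧
      ∀ t, k * F t = g (k * t) + c := by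
  have hk' : (0:ℝ) < k := Nat.cast_pos.2 hk
  have hk0 : (k:ℝ) ≠ 0 := ne_of_gt hk'
  haveI : Fact ((0:ℝ) < 1) := ⟨one_pos⟩
  have hcoe : ∀ (x : ℝ), k • ((x / k : ℝ) : AddCircle (1:ℝ)) = (x : AddCircle (1:ℝ)) := by
    intro x
    rw [← AddCircle.coe_nsmul, nsmul_eq_mul]
    congr 1
    field_simp
  let u : ℝ → AddCircle (1:ℝ) := fun t =>
    f ((t : ℝ) : AddCircle (1:ℝ)) - ((g (k * t) / k : ℝ) : AddCircle (1:ℝ))
  have hcq : Continuous (fun t : ℝ => (t : AddCircle (1:ℝ))) := AddCircle.continuous_mk' 1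
  have hu : Continuous u := by
    refine (f.continuous.comp hcq).sub (hcq.comp ?_)
    exact (g.continuous.comp (continuous_const.mul continuous_id)).div_const _
  have hku : ∀ t, k • u t = 0 := by
    intro t
    show k • (f ((t : ℝ) : AddCircle (1:ℝ)) - ((g (k * t) / k : ℝ) : AddCircle (1:ℝ))) = 0
    rw [smul_sub, h t, hcoe, sub_self]
  have hfin : {x : AddCircle (1:ℝ) | k • x = 0}.Finite := by
    refine ((Set.finite_lt_nat k).image
      (fun m : ℕ => (((m:ℝ) / k * 1 : ℝ) : AddCircle (1:ℝ)))).subset ?_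
    intro x hx
    obtain ⟨m, hm, hmx⟩ := (AddCircle.nsmul_eq_zero_iff hk).1 hx
    exact ⟨m, hm, hmx⟩
  have hconst : ∀ t, u t = u 0 := by
    intro t
    exact isPreconnected_univ.constant_of_mapsTo hfin.isDiscrete hu.continuousOn
      (fun x _ => hku x) (mem_univ t) (mem_univ 0)
  obtain ⟨m, hm, hmu⟩ := (AddCircle.nsmul_eq_zero_iff hk).1 (hku 0)
  -- the order isomorphism
  let F : ℝ ≃o ℝ :=
    { toFun := fun t => (g (k * t) + m) / k
      invFun := fun s => g.symm (k * s - m) / k
      left_inv := by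
        intro t
        show g.symm (k * ((g (k * t) + m) / k) - m) / k = t
        have : (k:ℝ) * ((g (k * t) + m) / k) - m = g (k * t) := by field_simp; ring
        rw [this, g.symm_apply_apply]
        field_simp
      right_inv := by
        intro s
        show (g (k * (g.symm (k * s - m) / k)) + m) / k = s
        have : (k:ℝ) * (g.symm (k * s - m) / k) = g.symm (k * s - m) := by field_simp
        rw [this, g.apply_symm_apply]
        field_simp
        ring
      map_rel_iff' := by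
        intro a b
        show (g (k * a) + m) / k ≤ (g (k * b) + m) / k ↔ a ≤ b
        rw [div_le_div_iff_of_pos_right hk', add_le_add_iff_right, g.le_iff_le,
          mul_le_mul_iff_right₀ hk'] }
  have hF : ∀ t, F t = (g (k * t) + m) / k := fun t => rfl
  refine ⟨F, m, ?_, ?_, ?_⟩
  · intro t
    rw [hF, hF]
    have : g (k * (t + 1)) = g (k * t) + k := by
      have := hg.add_int (k * t) (k : ℤ)
      push_cast at this
      rw [← this]
      congr 1
      ring
    rw [this]
    field_simp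
    ring
  · intro t
    have h1 : f ((t : ℝ) : AddCircle (1:ℝ)) = u t + ((g (k * t) / k : ℝ) : AddCircle (1:ℝ)) := by
      show _ = f ((t : ℝ) : AddCircle (1:ℝ)) - _ + _
      rw [sub_add_cancel]
    rw [h1, hconst t, ← hmu, hF, ← AddCircle.coe_add]
    congr 1
    field_simp
    ring
  · intro t
    rw [hF]
    push_cast
    field_simp


end Pool.Agent.Ghys
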