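import Mathlib
import Pool.Agent.Ghys.Basic

set_option autoImplicit false

namespace Pool.Agent.Ghys

open Filter Topology Set

variable {Γ : Subgroup (ℝ ≃o ℝ)}


theorem lift_of_circle (f : AddCircle (1:ℝ) ≃ₜ AddCircle (1:ℝ)) (F : ℝ → ℝ) (hc : Continuous F)
    (hm : StrictMono F) (hF : ∀ t : ℝ, f ((t : ℝ) : AddCircle (1:ℝ)) = ((F t : ℝ) : AddCircle (1:ℝ))) :
    ∃ F' : ℝ ≃o ℝ, Per F' ∧ ∀ t, F' t = F t := by
  have hint : ∀ x y : ℝ, ((x : ℝ) : AddCircle (1 : ℝ)) = ((y : ℝ) : AddCircle (1 : ℝ)) →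
      ∃ n : ℤ, x - y = n := by
    intro x y hxy
    have h1 : ((x - y : ℝ) : AddCircle (1 : ℝ)) = 0 := by
      rw [AddCircle.coe_sub, hxy, sub_self]
    rw [AddCircle.coe_eq_zero_iff] at h1
    obtain ⟨n, hn⟩ := h1
    refine ⟨n, ?_⟩
    rw [← hn]
    simp
  have hper1 : ∀ t : ℝ, ((t + 1 : ℝ) : AddCircle (1 : ℝ)) = ((t : ℝ) : AddCircle (1 : ℝ)) := by
    intro t
    rw [AddCircle.coe_add]
    have : ((1 : ℝ) : AddCircle (1 : ℝ)) = 0 := AddCircle.coe_period 1
    rw [this, add_zero]
  have hone : ∀ t : ℝ, F (t + 1) = F t + 1 := by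
    intro t
    have h1 : ((F (t + 1) : ℝ) : AddCircle (1 : ℝ)) = ((F t : ℝ) : AddCircle (1 : ℝ)) := by
      rw [← hF, ← hF, hper1]
    obtain ⟨n, hn⟩ := hint _ _ h1
    have h2 : F t < F (t + 1) := hm (by linarith)
    have h3 : (0 : ℝ) < n := by linarith
    have h3' : (0 : ℤ) < n := by exact_mod_cast h3
    by_cases h4 : n = 1
    · rw [h4] at hn
      push_cast at hn
      linarith
    · exfalso
      have h5 : (2 : ℤ) ≤ n := by omega
      have h6 : (2 : ℝ) ≤ n := by exact_mod_cast h5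
      have h7 : F t + 1 ∈ F '' Icc t (t + 1) :=
        intermediate_value_Icc (by linarith) hc.continuousOn ⟨by linarith, by linarith⟩
      obtain ⟨u, hu, hFu⟩ := h7
      have h8 : ((F u : ℝ) : AddCircle (1 : ℝ)) = ((F t : ℝ) : AddCircle (1 : ℝ)) := by
        rw [hFu, hper1]
      rw [← hF, ← hF] at h8
      obtain ⟨k, hk⟩ := hint _ _ (f.injective h8)
      have h9 : t < u := by
        rcases lt_or_eq_of_le hu.1 with h | h
        · exact h
        · rw [← h] at hFu
          linarith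
      have h10 : u < t + 1 := by
        rcases lt_or_eq_of_le hu.2 with h | h
        · exact h
        · rw [h] at hFu
          linarith
      have h11 : (0 : ℝ) < k := by linarith
      have h12 : (k : ℝ) < 1 := by linarith
      have h11' : (0 : ℤ) < k := by exact_mod_cast h11
      have h12' : k < (1 : ℤ) := by exact_mod_cast h12
      omega
  have hnat : ∀ (n : ℕ) (t : ℝ), F (t + n) = F t + n := by
    intro n
    induction n with
    | zero => intro t; simp
    | succ n ih =>
      intro t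
      have e : t + ((n + 1 : ℕ) : ℝ) = (t + n) + 1 := by push_cast; ring
      rw [e, hone, ih]
      push_cast
      ring
  have hsurj : Function.Surjective F := by
    intro y
    obtain ⟨n, hn⟩ := exists_nat_gt (|y - F 0|)
    rw [abs_lt] at hn
    refine mem_range_of_exists_le_of_exists_ge hc ⟨-(n : ℝ), ?_⟩ ⟨(n : ℝ), ?_⟩
    · have h1 := hnat n (-(n : ℝ))
      rw [neg_add_cancel] at h1
      linarith
    · have h1 := hnat n 0
      rw [zero_add] at h1
      linarith
  refine ⟨hm.orderIsoOfSurjective F hsurj, ?_, fun t => rfl⟩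
  intro t
  exact hone t


end Pool.Agent.Ghys
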