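import Mathlib
import Pool.Agent.Ghys.Basic

set_option autoImplicit false

namespace Pool.Agent.Ghys

open Filter Topology Set

variable {Γ : Subgroup (ℝ ≃o ℝ)}


theorem mob_lift_par (a b c d r C S x y : ℝ) (h : a * d - b * c = 1) (hC : r * C = a + d)
    (hS : r * S = c - b) :
    r * ((x * C - y * S) * (a * x + b * y) + (y * C + x * S) * (c * x + d * y)) =
      (a * x + b * y) ^ 2 + (c * x + d * y) ^ 2 + (x ^ 2 + y ^ 2) := by
  linear_combination (x * (a * x + b * y) + y * (c * x + d * y)) * hC +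
    (x * (c * x + d * y) - y * (a * x + b * y)) * hS + (x ^ 2 + y ^ 2) * h

theorem mob_lift_angle (φ X Y D N : ℝ) (hD : 0 < D) (hDd : D = Real.cos φ * X + Real.sin φ * Y)
    (hN : N = Real.cos φ * Y - Real.sin φ * X) :
    ∃ l : ℝ, 0 < l ∧ Real.cos (φ + Real.arctan (N / D)) = l * X ∧
      Real.sin (φ + Real.arctan (N / D)) = l * Y := by
  have h1 := Real.cos_arctan_pos (N / D)
  have h2 : Real.sin (Real.arctan (N / D)) = (N / D) * Real.cos (Real.arctan (N / D)) := by
    have h3 := Real.tan_arctan (N / D)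
    rw [Real.tan_eq_sin_div_cos, div_eq_iff h1.ne'] at h3
    exact h3
  have hsq := Real.sin_sq_add_cos_sq φ
  refine ⟨Real.cos (Real.arctan (N / D)) / D, div_pos h1 hD, ?_, ?_⟩
  · rw [Real.cos_add, h2]
    have h4 : D * Real.cos φ - N * Real.sin φ = X := by
      rw [hDd, hN]
      linear_combination X * hsq
    field_simp
    linear_combination h4
  · rw [Real.sin_add, h2]
    have h4 : D * Real.sin φ + N * Real.cos φ = Y := by
      rw [hDd, hN]
      linear_combination Y * hsq
    field_simp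
    linear_combination h4

theorem mob_lift (a b c d : ℝ) (h : a * d - b * c = 1) :
    ∃ g : ℝ ≃o ℝ, Per g ∧ ∀ t : ℝ,
      Real.cos (Real.pi * g t) * (c * Real.cos (Real.pi * t) + d * Real.sin (Real.pi * t)) =
        Real.sin (Real.pi * g t) * (a * Real.cos (Real.pi * t) + b * Real.sin (Real.pi * t)) := by
  have hpi := Real.pi_pos
  obtain ⟨z, hz⟩ : ∃ z : ℂ, z = ⟨a + d, c - b⟩ := ⟨_, rfl⟩
  have hz0 : z ≠ 0 := by
    intro h0
    have h1 : z.re = 0 := by rw [h0]; rfl
    have h2 : z.im = 0 := by rw [h0]; rfl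
    rw [hz] at h1 h2
    have h1' : a + d = 0 := h1
    have h2' : c - b = 0 := h2
    have e1 : d = -a := by linarith
    have e2 : c = b := by linarith
    rw [e1, e2] at h
    nlinarith [sq_nonneg a, sq_nonneg b]
  obtain ⟨r, hr⟩ : ∃ r, r = ‖z‖ := ⟨_, rfl⟩
  have hr0 : 0 < r := by rw [hr]; exact norm_pos_iff.2 hz0
  obtain ⟨θ, hθ⟩ : ∃ θ, θ = Complex.arg z := ⟨_, rfl⟩
  have hC : r * Real.cos θ = a + d := by
    rw [hθ, Complex.cos_arg hz0, hr, mul_div_cancel₀ _ (norm_ne_zero_iff.2 hz0), hz]
  have hS : r * Real.sin θ = c - b := by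
    rw [hθ, Complex.sin_arg, hr, mul_div_cancel₀ _ (norm_ne_zero_iff.2 hz0), hz]
  obtain ⟨X, hX⟩ : ∃ X : ℝ → ℝ, X = fun t => a * Real.cos (Real.pi * t) + b * Real.sin (Real.pi * t) :=
    ⟨_, rfl⟩
  obtain ⟨Y, hY⟩ : ∃ Y : ℝ → ℝ, Y = fun t => c * Real.cos (Real.pi * t) + d * Real.sin (Real.pi * t) :=
    ⟨_, rfl⟩
  obtain ⟨D, hD⟩ : ∃ D : ℝ → ℝ, D = fun t => Real.cos (Real.pi * t + θ) * X t
    + Real.sin (Real.pi * t + θ) * Y t := ⟨_, rfl⟩
  obtain ⟨N, hN⟩ : ∃ N : ℝ → ℝ, N = fun t => Real.cos (Real.pi * t + θ) * Y t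
    - Real.sin (Real.pi * t + θ) * X t := ⟨_, rfl⟩
  have hDpos : ∀ t, 0 < D t := by
    intro t
    have h1 := mob_lift_par a b c d r (Real.cos θ) (Real.sin θ) (Real.cos (Real.pi * t))
      (Real.sin (Real.pi * t)) h hC hS
    have h2 : r * D t = (X t) ^ 2 + (Y t) ^ 2 + 1 := by
      rw [hD, hX, hY]
      simp only [Real.cos_add, Real.sin_add]
      rw [h1, Real.cos_sq_add_sin_sq]
    have h3 : 0 < r * D t := by rw [h2]; positivity
    exact (mul_pos_iff_of_pos_left hr0).1 h3
  have hXc : Continuous X := by rw [hX]; fun_prop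
  have hYc : Continuous Y := by rw [hY]; fun_prop
  have hDc : Continuous D := by rw [hD]; fun_prop
  have hNc : Continuous N := by rw [hN]; fun_prop
  obtain ⟨f, hf⟩ : ∃ f : ℝ → ℝ, f = fun t => t + θ / Real.pi + Real.arctan (N t / D t) / Real.pi :=
    ⟨_, rfl⟩
  have hfc : Continuous f := by
    rw [hf]
    have h1 : Continuous (fun t => N t / D t) := hNc.div hDc fun t => (hDpos t).ne'
    exact (continuous_id.add continuous_const).add
      ((Real.continuous_arctan.comp h1).div_const _)
  have hang : ∀ t, ∃ l : ℝ, 0 < l ∧ Real.cos (Real.pi * f t) = l * X t ∧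
      Real.sin (Real.pi * f t) = l * Y t := by
    intro t
    have h1 : Real.pi * f t = (Real.pi * t + θ) + Real.arctan (N t / D t) := by
      rw [hf]
      show Real.pi * (t + θ / Real.pi + Real.arctan (N t / D t) / Real.pi) = _
      field_simp
    rw [h1]
    exact mob_lift_angle (Real.pi * t + θ) (X t) (Y t) (D t) (N t) (hDpos t) (by rw [hD]) (by rw [hN])
  have hcos1 : ∀ t, Real.cos (Real.pi * (t + 1)) = -Real.cos (Real.pi * t) := by
    intro t
    rw [mul_add, mul_one, Real.cos_add_pi]
  have hsin1 : ∀ t, Real.sin (Real.pi * (t + 1)) = -Real.sin (Real.pi * t) := by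
    intro t
    rw [mul_add, mul_one, Real.sin_add_pi]
  have hX1 : ∀ t, X (t + 1) = -X t := by
    intro t
    rw [hX]
    simp only [hcos1, hsin1]
    ring
  have hY1 : ∀ t, Y (t + 1) = -Y t := by
    intro t
    rw [hY]
    simp only [hcos1, hsin1]
    ring
  have hcos2 : ∀ t, Real.cos (Real.pi * (t + 1) + θ) = -Real.cos (Real.pi * t + θ) := by
    intro t
    rw [mul_add, mul_one, add_right_comm, Real.cos_add_pi]
  have hsin2 : ∀ t, Real.sin (Real.pi * (t + 1) + θ) = -Real.sin (Real.pi * t + θ) := by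
    intro t
    rw [mul_add, mul_one, add_right_comm, Real.sin_add_pi]
  have hD1 : ∀ t, D (t + 1) = D t := by
    intro t
    rw [hD]
    simp only [hcos2, hsin2, hX1, hY1]
    ring
  have hN1 : ∀ t, N (t + 1) = N t := by
    intro t
    rw [hN]
    simp only [hcos2, hsin2, hX1, hY1]
    ring
  have hper : ∀ t, f (t + 1) = f t + 1 := by
    intro t
    rw [hf]
    show t + 1 + θ / Real.pi + Real.arctan (N (t + 1) / D (t + 1)) / Real.pi =
      t + θ / Real.pi + Real.arctan (N t / D t) / Real.pi + 1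
    rw [hD1, hN1]
    ring
  have hperZ : ∀ (n : ℤ) t, f (t + n) = f t + n := by
    intro n t
    induction n using Int.induction_on with
    | zero => simp
    | succ n ih =>
      have h1 : t + (((n : ℤ) + 1 : ℤ) : ℝ) = (t + ((n : ℤ) : ℝ)) + 1 := by push_cast; ring
      rw [h1, hper, ih]
      push_cast
      ring
    | pred n ih =>
      have h1 := hper (t + ((-(n : ℤ) - 1 : ℤ) : ℝ))
      have h2 : t + ((-(n : ℤ) - 1 : ℤ) : ℝ) + 1 = t + ((-(n : ℤ) : ℤ) : ℝ) := by push_cast; ring
      rw [h2, ih] at h1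
      push_cast at h1 ⊢
      linarith
  have hinj : Function.Injective f := by
    intro s t hst
    obtain ⟨l, hl, h1, h2⟩ := hang s
    obtain ⟨m, hm, h3, h4⟩ := hang t
    rw [hst, h3] at h1
    rw [hst, h4] at h2
    rw [hX] at h1
    rw [hY] at h2
    have h1' : m * (a * Real.cos (Real.pi * t) + b * Real.sin (Real.pi * t)) =
      l * (a * Real.cos (Real.pi * s) + b * Real.sin (Real.pi * s)) := h1
    have h2' : m * (c * Real.cos (Real.pi * t) + d * Real.sin (Real.pi * t)) =
      l * (c * Real.cos (Real.pi * s) + d * Real.sin (Real.pi * s)) := h2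
    have e1 : m * Real.cos (Real.pi * t) = l * Real.cos (Real.pi * s) := by
      linear_combination d * h1' - b * h2' + (l * Real.cos (Real.pi * s) - m * Real.cos (Real.pi * t)) * h
    have e2 : m * Real.sin (Real.pi * t) = l * Real.sin (Real.pi * s) := by
      linear_combination a * h2' - c * h1' + (l * Real.sin (Real.pi * s) - m * Real.sin (Real.pi * t)) * h
    have h5 : m ^ 2 = l ^ 2 := by
      have h6 := Real.cos_sq_add_sin_sq (Real.pi * t)
      have h7 := Real.cos_sq_add_sin_sq (Real.pi * s)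
      have h8 : m ^ 2 * (Real.cos (Real.pi * t) ^ 2 + Real.sin (Real.pi * t) ^ 2) =
          l ^ 2 * (Real.cos (Real.pi * s) ^ 2 + Real.sin (Real.pi * s) ^ 2) := by
        linear_combination (m * Real.cos (Real.pi * t) + l * Real.cos (Real.pi * s)) * e1
          + (m * Real.sin (Real.pi * t) + l * Real.sin (Real.pi * s)) * e2
      rw [h6, h7] at h8
      linarith
    have h6 : m = l := by
      have h7 : (m - l) * (m + l) = 0 := by linear_combination h5
      rcases mul_eq_zero.1 h7 with h8 | h8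
      · linarith
      · linarith
    rw [h6] at e1 e2
    have e3 := mul_left_cancel₀ hl.ne' e1
    have e4 := mul_left_cancel₀ hl.ne' e2
    have h9 : Real.cos (Real.pi * t - Real.pi * s) = 1 := by
      rw [Real.cos_sub, e3, e4]
      have := Real.cos_sq_add_sin_sq (Real.pi * s)
      linarith
    rw [Real.cos_eq_one_iff] at h9
    obtain ⟨n, hn⟩ := h9
    have h10 : t = s + ((2 * n : ℤ) : ℝ) := by
      push_cast
      have h11 : Real.pi * (t - s - 2 * n) = 0 := by linarith
      rcases mul_eq_zero.1 h11 with h12 | h12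
      · exact absurd h12 hpi.ne'
      · linarith
    have h11 := hperZ (2 * n) s
    rw [← h10, ← hst] at h11
    have h12 : ((2 * n : ℤ) : ℝ) = 0 := by linarith
    rw [h10, h12, add_zero]
  have hmono : StrictMono f := by
    rcases hfc.strictMono_of_inj hinj with h1 | h1
    · exact h1
    · exfalso
      have h2 : f (0 + 1) < f 0 := h1 (by norm_num)
      rw [hper] at h2
      linarith
  have hat : ∀ x : ℝ, -(1 / 2) ≤ Real.arctan x / Real.pi ∧ Real.arctan x / Real.pi ≤ 1 / 2 := by
    intro x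
    have h1 := Real.neg_pi_div_two_lt_arctan x
    have h2 := Real.arctan_lt_pi_div_two x
    rw [le_div_iff₀ hpi, div_le_iff₀ hpi]
    constructor <;> linarith
  have hsurj : Function.Surjective f := by
    apply hfc.surjective
    · apply tendsto_atTop_mono (f := fun t => t + (θ / Real.pi - 1 / 2))
      · intro t
        rw [hf]
        have := (hat (N t / D t)).1
        show t + (θ / Real.pi - 1 / 2) ≤ t + θ / Real.pi + Real.arctan (N t / D t) / Real.pi
        linarith
      · exact tendsto_atTop_add_const_right _ _ tendsto_id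
    · apply tendsto_atBot_mono (f := fun t => t + (θ / Real.pi + 1 / 2))
      · intro t
        rw [hf]
        have := (hat (N t / D t)).2
        show t + θ / Real.pi + Real.arctan (N t / D t) / Real.pi ≤ t + (θ / Real.pi + 1 / 2)
        linarith
      · exact tendsto_atBot_add_const_right _ _ tendsto_id
  refine ⟨StrictMono.orderIsoOfSurjective f hmono hsurj, hper, ?_⟩
  intro t
  obtain ⟨l, hl, h1, h2⟩ := hang t
  show Real.cos (Real.pi * f t) * _ = Real.sin (Real.pi * f t) * _
  rw [h1, h2, hX, hY]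
  ring



end Pool.Agent.Ghys
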