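import Mathlib
import Pool.Agent.Ghys.Basic
import Pool.Agent.Ghys.L_lift_of_circle
import Pool.Agent.Ghys.L_circle_of_line
import Pool.Agent.Ghys.L_circle_closed
import Pool.Agent.Ghys.L_cov_lift
import Pool.Agent.Ghys.L_mob_lift
set_option autoImplicit false

namespace Pool.Agent.Ghys

open Filter Topology Set

variable {Γ : Subgroup (ℝ ≃o ℝ)}

/-- abbreviation for the circle -/
abbrev Circ := AddCircle (1:ℝ)

/-- `F` is a lift of `f` -/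
def Lifts (F : ℝ ≃o ℝ) (f : AddCircle (1:ℝ) ≃ₜ AddCircle (1:ℝ)) : Prop :=
  ∀ t : ℝ, f ((t : ℝ) : AddCircle (1:ℝ)) = ((F t : ℝ) : AddCircle (1:ℝ))

theorem circ_ext {f g : AddCircle (1:ℝ) ≃ₜ AddCircle (1:ℝ)}
    (h : ∀ t : ℝ, f ((t : ℝ) : AddCircle (1:ℝ)) = g ((t : ℝ) : AddCircle (1:ℝ))) : f = g := by
  ext x
  obtain ⟨t, rfl⟩ := QuotientAddGroup.mk_surjective x
  exact h t

theorem Lifts.unique {F : ℝ ≃o ℝ} {f g : AddCircle (1:ℝ) ≃ₜ AddCircle (1:ℝ)} (hf : Lifts F f)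
    (hg : Lifts F g) : f = g := circ_ext fun t => (hf t).trans (hg t).symm

theorem Lifts.symm {F : ℝ ≃o ℝ} {f : AddCircle (1:ℝ) ≃ₜ AddCircle (1:ℝ)} (hf : Lifts F f) :
    Lifts F⁻¹ f.symm := by
  intro t
  have := hf (F⁻¹ t)
  rw [app_inv_self] at this
  rw [← this, Homeomorph.symm_apply_apply]

theorem Lifts.comp {F F' : ℝ ≃o ℝ} {f f' : AddCircle (1:ℝ) ≃ₜ AddCircle (1:ℝ)} (hf : Lifts F f)
    (hf' : Lifts F' f') : Lifts (F * F') (f'.trans f) := by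
  intro t
  show f (f' t) = ((F (F' t) : ℝ) : AddCircle (1:ℝ))
  rw [hf', hf]

theorem coe_eq_iff (s t : ℝ) : ((s : ℝ) : AddCircle (1:ℝ)) = ((t : ℝ) : AddCircle (1:ℝ)) ↔
    ∃ n : ℤ, s = t + n := by
  constructor
  · intro h
    have h2 : ((s - t : ℝ) : AddCircle (1:ℝ)) = 0 := by
      rw [AddCircle.coe_sub, h, sub_self]
    rw [AddCircle.coe_eq_zero_iff] at h2
    obtain ⟨n, hn⟩ := h2
    refine ⟨n, ?_⟩
    simp at hn
    linarith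
  · rintro ⟨n, rfl⟩
    rw [AddCircle.coe_add]
    have : ((n : ℝ) : AddCircle (1:ℝ)) = 0 := by
      rw [AddCircle.coe_eq_zero_iff]
      exact ⟨n, by simp⟩
    rw [this, add_zero]

/-- the group of lifts -/
def lifts (G : Set (AddCircle (1:ℝ) ≃ₜ AddCircle (1:ℝ)))
    (h1 : Homeomorph.refl (AddCircle (1:ℝ)) ∈ G)
    (h2 : ∀ f ∈ G, ∀ g ∈ G, f.trans g ∈ G)
    (h3 : ∀ f ∈ G, f.symm ∈ G) : Subgroup (ℝ ≃o ℝ) where
  carrier := {F | Per F ∧ ∃ f ∈ G, Lifts F f}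
  mul_mem' := by
    rintro a b ⟨ha, f, hf, hf'⟩ ⟨hb, g, hg, hg'⟩
    exact ⟨ha.mul hb, g.trans f, h2 g hg f hf, hf'.comp hg'⟩
  one_mem' := ⟨Per.one, _, h1, fun t => rfl⟩
  inv_mem' := by
    rintro a ⟨ha, f, hf, hf'⟩
    exact ⟨ha.inv, f.symm, h3 f hf, hf'.symm⟩

section

variable {G : Set (AddCircle (1:ℝ) ≃ₜ AddCircle (1:ℝ))}
    (h1 : Homeomorph.refl (AddCircle (1:ℝ)) ∈ G)
    (h2 : ∀ f ∈ G, ∀ g ∈ G, f.trans g ∈ G)
    (h3 : ∀ f ∈ G, f.symm ∈ G)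
    (h4 : ∀ f ∈ G, ∃ F : ℝ → ℝ, Continuous F ∧ StrictMono F ∧
          ∀ t : ℝ, f ((t : ℝ) : AddCircle (1:ℝ)) = ((F t : ℝ) : AddCircle (1:ℝ)))
    (h5 : ∀ f : AddCircle (1:ℝ) ≃ₜ AddCircle (1:ℝ),
          (∃ F : ℝ → ℝ, Continuous F ∧ StrictMono F ∧
            ∀ t : ℝ, f ((t : ℝ) : AddCircle (1:ℝ)) = ((F t : ℝ) : AddCircle (1:ℝ))) →
          (ContinuousMap.mk (⇑f) f.continuous : C(AddCircle (1:ℝ), AddCircle (1:ℝ))) ∈ closure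
            ((fun g : AddCircle (1:ℝ) ≃ₜ AddCircle (1:ℝ) =>
                (ContinuousMap.mk (⇑g) g.continuous : C(AddCircle (1:ℝ), AddCircle (1:ℝ)))) '' G) →
          f ∈ G)
    (h6 : ∀ x y : AddCircle (1:ℝ), ∃ g ∈ G, g x = y)

include h1 h2 h3 in
theorem mem_lifts_iff {F : ℝ ≃o ℝ} {f : AddCircle (1:ℝ) ≃ₜ AddCircle (1:ℝ)} (hF : Per F)
    (hf : Lifts F f) : F ∈ lifts G h1 h2 h3 ↔ f ∈ G := by
  constructor
  · rintro ⟨-, g, hg, hg'⟩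
    rwa [hf.unique hg']
  · intro h
    exact ⟨hF, f, h, hf⟩

include h4 in
theorem exists_lift {f : AddCircle (1:ℝ) ≃ₜ AddCircle (1:ℝ)} (hf : f ∈ G) :
    ∃ F : ℝ ≃o ℝ, Per F ∧ Lifts F f := by
  obtain ⟨F, hc, hm, hF⟩ := h4 f hf
  obtain ⟨F', hP, hF'⟩ := lift_of_circle f F hc hm hF
  exact ⟨F', hP, fun t => by rw [hF t, hF' t]⟩

include h5 in
theorem lifts_ok : Ok (lifts G h1 h2 h3) := by
  refine ⟨fun g hg => hg.1, fun f hf happ => ?_⟩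
  obtain ⟨fb, hfb⟩ := circle_of_line f hf
  refine (mem_lifts_iff h1 h2 h3 hf hfb).2 (h5 fb ⟨f, f.continuous, f.strictMono, hfb⟩ ?_)
  refine circle_closed G fb f hfb fun ε hε => ?_
  obtain ⟨g, ⟨-, gb, hgb, hgb'⟩, hg⟩ := happ ε hε
  exact ⟨gb, hgb, g, hgb', hg⟩

theorem addRight_per (c : ℝ) : Per (OrderIso.addRight c) := by
  intro x
  show (x + 1) + c = (x + c) + 1
  ring

include h4 h6 in
theorem lifts_TR : TR (lifts G h1 h2 h3) 1 := by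
  intro p q _ _
  obtain ⟨g, hg, hgx⟩ := h6 ((p 0 : ℝ) : AddCircle (1:ℝ)) ((q 0 : ℝ) : AddCircle (1:ℝ))
  obtain ⟨F, hF, hL⟩ := exists_lift h4 hg
  rw [hL] at hgx
  obtain ⟨n, hn⟩ := (coe_eq_iff _ _).1 hgx
  refine ⟨OrderIso.addRight (-(n:ℝ)) * F, ?_, ?_⟩
  · refine (mem_lifts_iff h1 h2 h3 ((addRight_per _).mul hF) ?_).2 hg
    intro t
    rw [hL t, coe_eq_iff]
    refine ⟨n, ?_⟩
    rw [mul_app]
    simp
  · intro i
    have : i = 0 := Subsingleton.elim _ _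
    subst this
    rw [mul_app, hn]
    simp

theorem lifts_one : ∃ t ∈ lifts G h1 h2 h3, ∀ x : ℝ, (t : ℝ ≃o ℝ) x = x + 1 := by
  refine ⟨OrderIso.addRight 1, ?_, fun x => by simp⟩
  refine (mem_lifts_iff h1 h2 h3 (addRight_per _) ?_).2 h1
  intro t
  show ((t : ℝ) : AddCircle (1:ℝ)) = _
  rw [coe_eq_iff]
  exact ⟨-1, by simp⟩

end

/-- a model map: the alternatives with a `k`-fold cover -/
theorem cover_lift {k : ℕ} (hk : 0 < k) {Θ : ℝ ≃o ℝ} (hΘ : ∀ x, Θ (x + k) = Θ x + 1) :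
    ∃ (H : ℝ ≃o ℝ) (h : AddCircle (1:ℝ) ≃ₜ AddCircle (1:ℝ)), Per H ∧ Lifts H h ∧
      ∀ t, H t = Θ (k * t) := by
  have hk' : (0:ℝ) < k := by exact_mod_cast hk
  let H : ℝ ≃o ℝ := Θ * OrderIso.mulLeft₀ (k:ℝ) hk'
  have hH : ∀ t, H t = Θ (k * t) := fun t => rfl
  have hP : Per H := by
    intro t
    rw [hH, hH, mul_add, mul_one, hΘ]
  obtain ⟨h, hh⟩ := circle_of_line H hP
  exact ⟨H, h, hP, hh, hH⟩

theorem conj_smul {k : ℕ} {Θ H F : ℝ ≃o ℝ} (hH : ∀ t, H t = Θ (k * t))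
    {h f : AddCircle (1:ℝ) ≃ₜ AddCircle (1:ℝ)} (hh : Lifts H h) (hF : Lifts F f) (t : ℝ) :
    k • h.symm (f (h ((t : ℝ) : AddCircle (1:ℝ)))) =
      (((Θ⁻¹ * F * Θ) (k * t) : ℝ) : AddCircle (1:ℝ)) := by
  have h1 : h.symm (f (h ((t : ℝ) : AddCircle (1:ℝ)))) =
      ((H⁻¹ (F (H t)) : ℝ) : AddCircle (1:ℝ)) := by
    rw [hh t, hF (H t), hh.symm]
  rw [h1, ← AddCircle.coe_nsmul]
  congr 1
  rw [mul_app, mul_app, ← hH t, nsmul_eq_mul]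
  rw [eq_comm, inv_eq_iff, ← hH, app_inv_self]

/-- converse: a homeomorphism which is projected to the circle map of `g` has a lift -/
theorem lift_of_proj {k : ℕ} (hk : 0 < k) {Θ H : ℝ ≃o ℝ} (hP : Per H)
    (hH : ∀ t, H t = Θ (k * t)) {h f : AddCircle (1:ℝ) ≃ₜ AddCircle (1:ℝ)} (hh : Lifts H h)
    (g : ℝ ≃o ℝ) (hg : Per g)
    (hfg : ∀ t : ℝ, k • h.symm (f (h ((t : ℝ) : AddCircle (1:ℝ)))) =
      ((g (k * t) : ℝ) : AddCircle (1:ℝ))) :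
    ∃ (F : ℝ ≃o ℝ) (c : ℤ), Per F ∧ Lifts F f ∧ ∀ x, (Θ⁻¹ * F * Θ) x = g x + c := by
  have hk' : (0:ℝ) < k := by exact_mod_cast hk
  obtain ⟨F0, c, hF0, hL0, hc⟩ := cov_lift (h.trans (f.trans h.symm)) k hk g hg hfg
  refine ⟨H * F0 * H⁻¹, c, (hP.mul hF0).mul hP.inv, ?_, ?_⟩
  · have hL : Lifts (H * F0 * H⁻¹) (h.symm.trans ((h.trans (f.trans h.symm)).trans h)) :=
      (hh.comp hL0).comp hh.symm
    have : h.symm.trans ((h.trans (f.trans h.symm)).trans h) = f := by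
      ext x
      simp
    rwa [this] at hL
  · intro x
    have h1 : H⁻¹ (Θ x) = x / k := by
      rw [inv_eq_iff, hH]
      congr 1
      field_simp
    rw [mul_app, mul_app, mul_app, mul_app, h1, hH, inv_eq_iff]
    congr 1
    rw [hc]
    congr 1
    congr 1
    field_simp

theorem cos_shift (x : ℝ) (n : ℤ) :
    Real.cos (Real.pi * (x + n)) = (-1) ^ n * Real.cos (Real.pi * x) := by
  have : Real.pi * (x + n) = Real.pi * x + n * Real.pi := by ring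
  rw [this, Real.cos_add_int_mul_pi]

theorem sin_shift (x : ℝ) (n : ℤ) :
    Real.sin (Real.pi * (x + n)) = (-1) ^ n * Real.sin (Real.pi * x) := by
  have : Real.pi * (x + n) = Real.pi * x + n * Real.pi := by ring
  rw [this, Real.sin_add_int_mul_pi]

end Pool.Agent.Ghys
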