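import Mathlib
import Pool.Agent.Ghys.Basic

set_option autoImplicit false

namespace Pool.Agent.Ghys

open Filter Topology Set

variable {Γ : Subgroup (ℝ ≃o ℝ)}


theorem sort_lemma {n : ℕ} (x : Fin n → ℝ) (hx : IM x) (w : ℝ)
    (hw : ∀ i, ∀ k : ℤ, w ≠ x i + k) :
    ∃ (π : Equiv.Perm (Fin n)) (k : Fin n → ℤ),
      Cn (n + 1) (Fin.snoc (fun j => x (π j) + k j) w : Fin (n + 1) → ℝ) := by
  set r : Fin n → ℝ := fun i => x i + ((-⌈x i - w⌉ : ℤ) : ℝ) with hr
  have hr1 : ∀ i, w - 1 < r i := by
    intro i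
    have h := Int.ceil_lt_add_one (x i - w)
    simp only [hr]
    push_cast
    linarith
  have hr2 : ∀ i, r i < w := by
    intro i
    have h := Int.le_ceil (x i - w)
    have h2 : r i ≤ w := by
      simp only [hr]
      push_cast
      linarith
    exact lt_of_le_of_ne h2 (fun h3 => hw i (-⌈x i - w⌉) h3.symm)
  have hinj : Function.Injective r := by
    intro i j hij
    by_contra hne
    apply hx i j hne (-⌈x j - w⌉ + ⌈x i - w⌉)
    simp only [hr] at hij
    push_cast at hij ⊢
    linarith
  have hmono : StrictMono (r ∘ Tuple.sort r) :=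
    (Tuple.monotone_sort r).strictMono_of_injective (hinj.comp (Tuple.sort r).injective)
  refine ⟨Tuple.sort r, fun j => -⌈x (Tuple.sort r j) - w⌉, ?_⟩
  change Cn (n + 1) (Fin.snoc (fun j => r (Tuple.sort r j)) w : Fin (n + 1) → ℝ)
  have hlo : ∀ i : Fin (n + 1), w - 1 <
      (Fin.snoc (fun j => r (Tuple.sort r j)) w : Fin (n + 1) → ℝ) i := by
    intro i
    refine Fin.lastCases ?_ (fun j => ?_) i
    · rw [Fin.snoc_last]
      linarith
    · rw [Fin.snoc_castSucc]
      exact hr1 _
  have hhi : ∀ i : Fin (n + 1),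
      (Fin.snoc (fun j => r (Tuple.sort r j)) w : Fin (n + 1) → ℝ) i ≤ w := by
    intro i
    refine Fin.lastCases ?_ (fun j => ?_) i
    · rw [Fin.snoc_last]
    · rw [Fin.snoc_castSucc]
      exact (hr2 _).le
  refine ⟨?_, fun i j => ?_⟩
  · intro i j
    refine Fin.lastCases ?_ (fun j' => ?_) j
    · refine Fin.lastCases ?_ (fun i' => ?_) i
      · intro h
        exact absurd h (lt_irrefl _)
      · intro _
        rw [Fin.snoc_last, Fin.snoc_castSucc]
        exact hr2 _
    · refine Fin.lastCases ?_ (fun i' => ?_) i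
      · intro h
        exact absurd h (not_lt.2 (Fin.le_last _))
      · intro h
        rw [Fin.snoc_castSucc, Fin.snoc_castSucc]
        exact hmono (Fin.castSucc_lt_castSucc_iff.1 h)
  · have h1 := hlo j
    have h2 := hhi i
    linarith


end Pool.Agent.Ghys
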