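import Mathlib
import Pool.Agent.Ghys.Basic
import Pool.Agent.Ghys.L_sort_lemma

set_option autoImplicit false

namespace Pool.Agent.Ghys

open Filter Topology Set

variable {Γ : Subgroup (ℝ ≃o ℝ)}


theorem EE_inj (hΓ : Ok Γ) {n : ℕ} (hE : EE Γ n) (x : Fin n → ℝ) (hx : IM x) {ε : ℝ}
    (hε : 0 < ε) :
    ∃ η > 0, ∀ x' : Fin n → ℝ, (∀ i, |x' i - x i| < η) → ∃ g ∈ Γ, Sm ε g ∧ ∀ i, g (x i) = x' i := by
  obtain ⟨w, hw⟩ : ∃ w : ℝ, ∀ i, ∀ k : ℤ, w ≠ x i + k := by
    have hc : (Set.range (fun q : Fin n × ℤ => x q.1 + (q.2 : ℝ))).Countable :=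
      Set.countable_range _
    have hne : Set.range (fun q : Fin n × ℤ => x q.1 + (q.2 : ℝ)) ≠ Set.univ := by
      intro h
      rw [h] at hc
      exact Cardinal.not_countable_real hc
    obtain ⟨w, hw⟩ := (Set.ne_univ_iff_exists_notMem _).1 hne
    exact ⟨w, fun i k h => hw ⟨(i, k), h.symm⟩⟩
  obtain ⟨π, k, hC⟩ := sort_lemma x hx w hw
  have hCn : Cn n (fun j => x (π j) + k j) := by
    refine ⟨fun i j hij => ?_, fun i j => ?_⟩
    · have := hC.1 (show i.castSucc < j.castSucc from hij)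
      simpa using this
    · have := hC.2 i.castSucc j.castSucc
      simpa using this
  obtain ⟨η1, hη1, H1⟩ := hE _ hCn ε hε
  obtain ⟨η2, hη2, H2⟩ := hCn.open_nhd
  refine ⟨min η1 η2, lt_min hη1 hη2, fun x' hx' => ?_⟩
  have hq : ∀ j, |(x' (π j) + k j) - (x (π j) + k j)| < min η1 η2 := by
    intro j
    have := hx' (π j)
    have e : (x' (π j) + k j) - (x (π j) + k j) = x' (π j) - x (π j) := by ring
    rw [e]; exact this
  obtain ⟨g, hg, h1, h2⟩ := H1 (fun j => x' (π j) + k j)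
    (H2 _ (fun j => lt_of_lt_of_le (hq j) (min_le_right _ _)))
    (fun j => lt_of_lt_of_le (hq j) (min_le_left _ _))
  refine ⟨g, hg, h1, fun i => ?_⟩
  have h3 := h2 (π.symm i)
  simp only [Equiv.apply_symm_apply] at h3
  rw [(hΓ.per g hg).add_int] at h3
  linarith


end Pool.Agent.Ghys
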