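import Mathlib
import Pool.Agent.Ghys.Basic

set_option autoImplicit false

namespace Pool.Agent.Ghys

open Filter Topology Set

variable {Γ : Subgroup (ℝ ≃o ℝ)}


theorem complete_aux (F : ℕ → ℝ → ℝ) (hmono : ∀ k, Monotone (F k)) (hcont : ∀ k, Continuous (F k))
    (b : ℕ → ℝ) (hb : Summable b) (h : ∀ k x, |F (k + 1) x - F k x| ≤ b k) :
    ∃ f : ℝ → ℝ, Continuous f ∧ Monotone f ∧ (∀ x, Tendsto (fun k => F k x) atTop (𝓝 (f x))) ∧
      ∀ k x, |F k x - f x| ≤ ∑' m, b (k + m) := by
  have hd : ∀ x n, dist (F n x) (F (n + 1) x) ≤ b n := by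
    intro x n
    rw [Real.dist_eq, abs_sub_comm]
    exact h n x
  have hc : ∀ x, ∃ a, Tendsto (fun k => F k x) atTop (𝓝 a) := fun x =>
    cauchySeq_tendsto_of_complete (cauchySeq_of_dist_le_of_summable b (hd x) hb)
  choose f hf using hc
  have hrate : ∀ k x, |F k x - f x| ≤ ∑' m, b (k + m) := by
    intro k x
    have := dist_le_tsum_of_dist_le_of_tendsto b (hd x) hb (hf x) k
    rwa [Real.dist_eq] at this
  have hr0 : Tendsto (fun k => ∑' m, b (k + m)) atTop (𝓝 0) := by
    have := tendsto_sum_nat_add b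
    refine this.congr (fun k => ?_)
    congr 1
    funext m
    rw [add_comm]
  refine ⟨f, ?_, ?_, hf, hrate⟩
  · have hu : TendstoUniformly F f atTop := by
      rw [Metric.tendstoUniformly_iff]
      intro ε hε
      filter_upwards [hr0.eventually (gt_mem_nhds hε)] with k hk x
      rw [dist_comm, Real.dist_eq]
      exact lt_of_le_of_lt (hrate k x) hk
    exact hu.continuous (Eventually.of_forall hcont).frequently
  · intro x y hxy
    exact le_of_tendsto_of_tendsto' (hf x) (hf y) (fun k => hmono k hxy)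

theorem complete_left (F F' : ℕ → ℝ → ℝ) (f f' : ℝ → ℝ) (b : ℕ → ℝ)
    (hr0 : Tendsto (fun k => ∑' m, b (k + m)) atTop (𝓝 0))
    (hf : ∀ x, Tendsto (fun k => F k x) atTop (𝓝 (f x)))
    (hf'c : Continuous f') (hrate : ∀ k x, |F' k x - f' x| ≤ ∑' m, b (k + m))
    (hinv : ∀ k x, F' k (F k x) = x) (x : ℝ) : f' (f x) = x := by
  have h1 : Tendsto (fun k => f' (F k x)) atTop (𝓝 (f' (f x))) :=
    (hf'c.tendsto (f x)).comp (hf x)
  have h2 : Tendsto (fun k => f' (F k x)) atTop (𝓝 x) := by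
    rw [tendsto_iff_dist_tendsto_zero]
    refine squeeze_zero (fun _ => dist_nonneg) (fun k => ?_) hr0
    have := hrate k (F k x)
    rw [hinv k x] at this
    rw [dist_comm, Real.dist_eq]
    exact this
  exact tendsto_nhds_unique h1 h2

theorem complete (hΓ : Ok Γ) (P : ℕ → ℝ ≃o ℝ) (hP : ∀ k, P k ∈ Γ) (b : ℕ → ℝ)
    (hb : Summable b) (h1 : ∀ k x, |P (k + 1) x - P k x| ≤ b k)
    (h2 : ∀ k x, |(P (k + 1))⁻¹ x - (P k)⁻¹ x| ≤ b k) :
    ∃ Q ∈ Γ, ∀ x, Tendsto (fun k => P k x) atTop (𝓝 (Q x)) := by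
  obtain ⟨f, hfc, hfm, hf, hfr⟩ := complete_aux (fun k => P k) (fun k => (P k).monotone)
    (fun k => (P k).continuous) b hb h1
  obtain ⟨f', hfc', hfm', hf', hfr'⟩ := complete_aux (fun k x => (P k)⁻¹ x)
    (fun k => ((P k)⁻¹).monotone) (fun k => ((P k)⁻¹).continuous) b hb h2
  have hr0 : Tendsto (fun k => ∑' m, b (k + m)) atTop (𝓝 0) := by
    have := tendsto_sum_nat_add b
    refine this.congr (fun k => ?_)
    congr 1
    funext m
    rw [add_comm]
  have hl : ∀ x, f' (f x) = x := complete_left (fun k => P k) (fun k x => (P k)⁻¹ x) f f' b hr0 hf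
    hfc' hfr' (fun k x => inv_app_self (P k) x)
  have hrr : ∀ x, f (f' x) = x := complete_left (fun k x => (P k)⁻¹ x) (fun k => P k) f' f b hr0 hf'
    hfc hfr (fun k x => app_inv_self (P k) x)
  let Q : ℝ ≃o ℝ :=
    { toFun := f
      invFun := f'
      left_inv := hl
      right_inv := hrr
      map_rel_iff' := by
        intro x y
        constructor
        · intro h
          have := hfm' h
          change f' (f x) ≤ f' (f y) at this
          rwa [hl, hl] at this
        · intro h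
          exact hfm h }
  have hQ : ∀ x, Q x = f x := fun x => rfl
  refine ⟨Q, ?_, fun x => hf x⟩
  apply hΓ.clo Q
  · intro x
    rw [hQ, hQ]
    have e1 : Tendsto (fun k => P k (x + 1)) atTop (𝓝 (f x + 1)) := by
      refine ((hf x).add_const 1).congr (fun k => ?_)
      exact (hΓ.per (P k) (hP k) x).symm
    exact tendsto_nhds_unique (hf (x + 1)) e1
  · intro ε hε
    obtain ⟨k, hk⟩ := (hr0.eventually (gt_mem_nhds hε)).exists
    exact ⟨P k, hP k, fun x => lt_of_le_of_lt (hfr k x) hk⟩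


end Pool.Agent.Ghys
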