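import Mathlib
import Pool.Agent.Ghys.Basic
import Pool.Agent.Ghys.L_complete

set_option autoImplicit false

namespace Pool.Agent.Ghys

open Filter Topology Set

variable {Γ : Subgroup (ℝ ≃o ℝ)}


theorem EE_of_LD (hΓ : Ok Γ) {n : ℕ} (h : LD Γ n) : EE Γ n := by
  classical
  have hrad : ∀ (r : Fin n → ℝ) (δ : ℝ), ∃ ρ : ℝ, Cn n r → 0 < δ →
      (0 < ρ ∧ ρ ≤ δ ∧ ∀ q : Fin n → ℝ, Cn n q → (∀ i, |q i - r i| < ρ) →
        ∀ τ > 0, ∃ g ∈ Γ, Sm δ g ∧ ∀ i, |g (r i) - q i| < τ) := by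
    intro r δ
    by_cases hr : Cn n r
    · by_cases hδ : 0 < δ
      · obtain ⟨η, hη, H⟩ := h r hr δ hδ
        refine ⟨min η δ, fun _ _ => ⟨lt_min hη hδ, min_le_right _ _, fun q hq hqr τ hτ => ?_⟩⟩
        exact H q hq (fun i => lt_of_lt_of_le (hqr i) (min_le_left _ _)) τ hτ
      · exact ⟨0, fun _ hδ' => absurd hδ' hδ⟩
    · exact ⟨0, fun hr' => absurd hr' hr⟩
  choose rad hrad using hrad
  intro p hp ε hε
  set δ0 : ℝ := min (ε / 8) (1 / 2) with hδ0def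
  have hδ0 : 0 < δ0 := lt_min (by linarith) (by norm_num)
  have hδ0ε : δ0 ≤ ε / 8 := min_le_left _ _
  have hδ01 : δ0 ≤ 1 / 2 := min_le_right _ _
  refine ⟨rad p δ0, (hrad p δ0 hp hδ0).1, fun q hq hqp => ?_⟩
  have step : ∀ (k : ℕ) (P Q : ℝ ≃o ℝ) (δ : ℝ),
      ∃ (P' Q' : ℝ ≃o ℝ) (δ' : ℝ),
        (P ∈ Γ ∧ Q ∈ Γ ∧ 0 < δ ∧ (∀ i, |P (p i) - Q (q i)| < rad (fun i => P (p i)) δ) ∧
          (∀ x y, |x - y| < δ → |P⁻¹ x - P⁻¹ y| < (1 / 2 : ℝ) ^ k)) →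
        ((P' ∈ Γ ∧ Q' ∈ Γ ∧ 0 < δ' ∧
          (∀ i, |P' (p i) - Q' (q i)| < rad (fun i => P' (p i)) δ') ∧
          (∀ x y, |x - y| < δ' → |P'⁻¹ x - P'⁻¹ y| < (1 / 2 : ℝ) ^ (k + 1))) ∧
          δ' ≤ δ / 4 ∧ (∀ x, |P' x - P x| ≤ δ) ∧ (∀ x, |Q' x - Q x| ≤ δ) ∧
          (∀ x, |P'⁻¹ x - P⁻¹ x| ≤ (1 / 2 : ℝ) ^ k) ∧
          (∀ x, |Q'⁻¹ x - Q⁻¹ x| ≤ (1 / 2 : ℝ) ^ k)) := by
    intro k P Q δ
    by_cases hinv : (P ∈ Γ ∧ Q ∈ Γ ∧ 0 < δ ∧
          (∀ i, |P (p i) - Q (q i)| < rad (fun i => P (p i)) δ) ∧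
          (∀ x y, |x - y| < δ → |P⁻¹ x - P⁻¹ y| < (1 / 2 : ℝ) ^ k))
    swap
    · exact ⟨P, Q, δ, fun h => absurd h hinv⟩
    obtain ⟨hP, hQ, hδ, hI1, hI2⟩ := hinv
    have hck : (0 : ℝ) < (1 / 2 : ℝ) ^ k := by positivity
    have hck1 : (0 : ℝ) < (1 / 2 : ℝ) ^ (k + 1) := by positivity
    have hPp : Cn n (fun i => P (p i)) := hp.map (hΓ.per P hP)
    have hQq : Cn n (fun i => Q (q i)) := hq.map (hΓ.per Q hQ)
    obtain ⟨ω1, hω1, hu1⟩ := (hΓ.per Q hQ).inv.uc hck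
    set δ1 : ℝ := min ω1 (δ / 2) with hδ1def
    have hδ1 : 0 < δ1 := lt_min hω1 (by linarith)
    have hδ1ω : δ1 ≤ ω1 := min_le_left _ _
    have hδ1δ : δ1 ≤ δ / 2 := min_le_right _ _
    have hr1 := hrad (fun i => Q (q i)) δ1 hQq hδ1
    have hr0 := hrad (fun i => P (p i)) δ hPp hδ
    obtain ⟨g, hg, hgs, hgc⟩ := hr0.2.2 (fun i => Q (q i)) hQq
      (fun i => by rw [abs_sub_comm]; exact hI1 i) _ hr1.1
    have hgP : g * P ∈ Γ := Γ.mul_mem hg hP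
    have hgPp : Cn n (fun i => (g * P) (p i)) := hp.map (hΓ.per _ hgP)
    obtain ⟨ω2, hω2, hu2⟩ := (hΓ.per _ hgP).inv.uc hck1
    set δ2 : ℝ := min ω2 (δ1 / 2) with hδ2def
    have hδ2 : 0 < δ2 := lt_min hω2 (by linarith)
    have hδ2ω : δ2 ≤ ω2 := min_le_left _ _
    have hδ2δ : δ2 ≤ δ1 / 2 := min_le_right _ _
    have hr2 := hrad (fun i => (g * P) (p i)) δ2 hgPp hδ2
    obtain ⟨g', hg', hgs', hgc'⟩ := hr1.2.2 (fun i => (g * P) (p i)) hgPp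
      (fun i => hgc i) _ hr2.1
    refine ⟨g * P, g' * Q, δ2, fun _ => ⟨⟨hgP, Γ.mul_mem hg' hQ, hδ2, fun i => ?_, fun x y hxy => ?_⟩,
      by linarith, fun x => ?_, fun x => ?_, fun x => ?_, fun x => ?_⟩⟩
    · have := hgc' i
      rw [abs_sub_comm] at this
      exact this
    · exact hu2 x y (lt_of_lt_of_le hxy hδ2ω)
    · exact (hgs (P x)).le
    · refine (hgs' (Q x)).le.trans ?_
      linarith
    · have h1 : (g * P)⁻¹ x = P⁻¹ (g⁻¹ x) := by rw [mul_inv_rev]; rfl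
      rw [h1]
      exact (hI2 _ _ (hgs.inv x)).le
    · have h1 : (g' * Q)⁻¹ x = Q⁻¹ (g'⁻¹ x) := by rw [mul_inv_rev]; rfl
      rw [h1]
      exact (hu1 _ _ (lt_of_lt_of_le (hgs'.inv x) hδ1ω)).le
  choose FP FQ FD hF using step
  let S : ℕ → (ℝ ≃o ℝ) × (ℝ ≃o ℝ) × ℝ := fun k => Nat.rec ((1 : ℝ ≃o ℝ), (1 : ℝ ≃o ℝ), δ0)
    (fun k s => (FP k s.1 s.2.1 s.2.2, FQ k s.1 s.2.1 s.2.2, FD k s.1 s.2.1 s.2.2)) k
  have hS0 : S 0 = ((1 : ℝ ≃o ℝ), (1 : ℝ ≃o ℝ), δ0) := rfl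
  have hS1 : ∀ k, S (k + 1) = (FP k (S k).1 (S k).2.1 (S k).2.2, FQ k (S k).1 (S k).2.1 (S k).2.2,
      FD k (S k).1 (S k).2.1 (S k).2.2) := fun k => rfl
  have hinv : ∀ k, ((S k).1 ∈ Γ ∧ (S k).2.1 ∈ Γ ∧ 0 < (S k).2.2 ∧
      (∀ i, |(S k).1 (p i) - (S k).2.1 (q i)| < rad (fun i => (S k).1 (p i)) (S k).2.2) ∧
      (∀ x y, |x - y| < (S k).2.2 → |((S k).1)⁻¹ x - ((S k).1)⁻¹ y| < (1 / 2 : ℝ) ^ k)) := by
    intro k
    induction k with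
    | zero =>
      rw [hS0]
      refine ⟨Γ.one_mem, Γ.one_mem, hδ0, fun i => ?_, fun x y hxy => ?_⟩
      · have := hqp i
        rw [abs_sub_comm] at this
        exact this
      · show |(1 : ℝ ≃o ℝ)⁻¹ x - (1 : ℝ ≃o ℝ)⁻¹ y| < (1 / 2 : ℝ) ^ 0
        rw [inv_one, one_app, one_app, pow_zero]
        exact lt_of_lt_of_le hxy (by show δ0 ≤ 1; linarith)
    | succ k ih =>
      rw [hS1]
      exact (hF k _ _ _ ih).1
  have hst := fun k => (hF k _ _ _ (hinv k)).2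
  have hD : ∀ k, (S (k + 1)).2.2 ≤ (S k).2.2 / 4 := fun k => (hst k).1
  have hDpos : ∀ k, 0 < (S k).2.2 := fun k => (hinv k).2.2.1
  have hDle : ∀ k, (S k).2.2 ≤ (1 / 2 : ℝ) ^ k := by
    intro k
    induction k with
    | zero => rw [hS0, pow_zero]; show δ0 ≤ 1; linarith
    | succ k ih =>
      have h1 := hD k
      have h2 := hDpos k
      have h3 : (1 / 2 : ℝ) ^ (k + 1) = (1 / 2 : ℝ) ^ k / 2 := by rw [pow_succ]; ring
      rw [h3]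
      linarith
  have hsum : Summable (fun k : ℕ => (1 / 2 : ℝ) ^ k) := summable_geometric_two
  obtain ⟨P', hP', hPt⟩ := complete hΓ (fun k => (S k).1) (fun k => (hinv k).1) _ hsum
    (fun k x => ((hst k).2.1 x).trans (hDle k)) (fun k x => (hst k).2.2.2.1 x)
  obtain ⟨Q', hQ', hQt⟩ := complete hΓ (fun k => (S k).2.1) (fun k => (hinv k).2.1) _ hsum
    (fun k x => ((hst k).2.2.1 x).trans (hDle k)) (fun k x => (hst k).2.2.2.2 x)
  have hPb : ∀ k x, |(S k).1 x - x| ≤ 2 * (δ0 - (S k).2.2) := by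
    intro k
    induction k with
    | zero =>
      intro x
      rw [hS0]
      show |(1 : ℝ ≃o ℝ) x - x| ≤ 2 * (δ0 - δ0)
      rw [one_app]; simp
    | succ k ih =>
      intro x
      have h1 := hD k
      have h2 := hDpos k
      have h3 := (hst k).2.1 x
      have h4 := ih x
      have h5 : |(S (k + 1)).1 x - x| ≤ |(S (k + 1)).1 x - (S k).1 x| + |(S k).1 x - x| :=
        abs_sub_le _ _ _
      have h6 : |(S (k + 1)).1 x - (S k).1 x| ≤ (S k).2.2 := h3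
      linarith
  have hQb : ∀ k x, |(S k).2.1 x - x| ≤ 2 * (δ0 - (S k).2.2) := by
    intro k
    induction k with
    | zero =>
      intro x
      rw [hS0]
      show |(1 : ℝ ≃o ℝ) x - x| ≤ 2 * (δ0 - δ0)
      rw [one_app]; simp
    | succ k ih =>
      intro x
      have h1 := hD k
      have h2 := hDpos k
      have h3 := (hst k).2.2.1 x
      have h4 := ih x
      have h5 : |(S (k + 1)).2.1 x - x| ≤ |(S (k + 1)).2.1 x - (S k).2.1 x| + |(S k).2.1 x - x| :=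
        abs_sub_le _ _ _
      have h6 : |(S (k + 1)).2.1 x - (S k).2.1 x| ≤ (S k).2.2 := h3
      linarith
  have hP'b : ∀ x, |P' x - x| ≤ 2 * δ0 := by
    intro x
    refine le_of_tendsto ((hPt x).sub_const x).abs (Eventually.of_forall fun k => ?_)
    have := hPb k x
    have h2 := hDpos k
    show |(S k).1 x - x| ≤ 2 * δ0
    linarith
  have hQ'b : ∀ x, |Q' x - x| ≤ 2 * δ0 := by
    intro x
    refine le_of_tendsto ((hQt x).sub_const x).abs (Eventually.of_forall fun k => ?_)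
    have := hQb k x
    have h2 := hDpos k
    show |(S k).2.1 x - x| ≤ 2 * δ0
    linarith
  have hpq : ∀ i, P' (p i) = Q' (q i) := by
    intro i
    have h1 : Tendsto (fun k => |(S k).1 (p i) - (S k).2.1 (q i)|) atTop
        (𝓝 |P' (p i) - Q' (q i)|) := ((hPt (p i)).sub (hQt (q i))).abs
    have h2 : Tendsto (fun k : ℕ => (1 / 2 : ℝ) ^ k) atTop (𝓝 0) :=
      tendsto_pow_atTop_nhds_zero_of_lt_one (by norm_num) (by norm_num)
    have h3 : |P' (p i) - Q' (q i)| ≤ 0 := by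
      refine le_of_tendsto_of_tendsto h1 h2 (Eventually.of_forall fun k => ?_)
      have h4 := (hinv k).2.2.2.1 i
      have h5 := (hrad (fun i => (S k).1 (p i)) (S k).2.2
        (hp.map (hΓ.per _ (hinv k).1)) (hDpos k)).2.1
      exact (h4.le.trans h5).trans (hDle k)
    exact sub_eq_zero.1 (abs_nonpos_iff.1 h3)
  refine ⟨Q'⁻¹ * P', Γ.mul_mem (Γ.inv_mem hQ') hP', fun x => ?_, fun i => ?_⟩
  · rw [mul_app]
    have h1 := hP'b x
    have h2 := hQ'b (Q'⁻¹ (P' x))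
    rw [app_inv_self, abs_sub_comm] at h2
    have h3 : |Q'⁻¹ (P' x) - x| ≤ |Q'⁻¹ (P' x) - P' x| + |P' x - x| := abs_sub_le _ _ _
    linarith
  · rw [mul_app, hpq, inv_app_self]


end Pool.Agent.Ghys
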