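import Mathlib
import Pool.Agent.Ghys.Basic

set_option autoImplicit false

namespace Pool.Agent.Ghys

open Filter Topology Set

variable {Γ : Subgroup (ℝ ≃o ℝ)}


theorem rigid_close (hΓ : Ok Γ) {n : ℕ} (hE : EE Γ n) (r : Fin n → ℝ) (hr : Cn n r) {δ e : ℝ}
    (he : e ≤ δ / 8) (h : ∀ g ∈ Γ, Sm δ g → (∀ i, g (r i) = r i) → g = 1)
    (σ : ℝ → ℝ) (hσ : Approx Γ e σ) (hs : Cn n (fun i => σ (r i))) (ρ : ℝ) (hρ : 0 < ρ) (hρδ : ρ ≤ δ / 8) :
    ∃ g ∈ Γ, ∀ x, |σ x - g x| < 3 * ρ := by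
  classical
  obtain ⟨η, hη, hE'⟩ := hE _ hs ρ hρ
  obtain ⟨g, hg, hge, hgF⟩ := hσ (Finset.univ.image r) η hη
  refine ⟨g, hg, fun x => ?_⟩
  obtain ⟨g', hg', hge', hgF'⟩ := hσ (insert x (Finset.univ.image r)) (min η ρ) (lt_min hη hρ)
  obtain ⟨v, hv, hvρ, hvs⟩ := hE' (fun i => g (r i)) (hr.map (hΓ.per g hg))
    (fun i => hgF (r i) (Finset.mem_image_of_mem r (Finset.mem_univ i)))
  obtain ⟨v', hv', hvρ', hvs'⟩ := hE' (fun i => g' (r i)) (hr.map (hΓ.per g' hg'))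
    (fun i => lt_of_lt_of_le (hgF' (r i) (Finset.mem_insert_of_mem (Finset.mem_image_of_mem r (Finset.mem_univ i))))
      (min_le_left _ _))
  have hx := lt_of_lt_of_le (hgF' x (Finset.mem_insert_self x _)) (min_le_right _ _)
  have h1 : g⁻¹ * v * v'⁻¹ * g' = 1 := by
    refine h _ (Γ.mul_mem (Γ.mul_mem (Γ.mul_mem (Γ.inv_mem hg) hv) (Γ.inv_mem hv')) hg') ?_ ?_
    · exact (((hge.inv.mul hvρ).mul hvρ'.inv).mul hge').mono (by linarith)
    · intro i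
      rw [mul_app, mul_app, mul_app]
      have e1 : v'⁻¹ (g' (r i)) = σ (r i) := by
        rw [inv_eq_iff]
        exact (hvs' i).symm
      rw [e1]
      have e2 : v (σ (r i)) = g (r i) := hvs i
      rw [e2, inv_app_self]
  have h2 : g⁻¹ (v (v'⁻¹ (g' x))) = x := by
    have := congrArg (fun k : ℝ ≃o ℝ => k x) h1
    simpa [mul_app, one_app] using this
  rw [inv_eq_iff] at h2
  set y := v'⁻¹ (g' x) with hy
  have h3 : v' y = g' x := by rw [hy, app_inv_self]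
  have h4 := hvρ y
  have h5 := hvρ' y
  rw [h2] at h4
  rw [h3] at h5
  rw [abs_lt] at h4 h5 hx ⊢
  constructor <;> linarith

theorem LC_of_rigid_at (hΓ : Ok Γ) {n : ℕ} (hE : EE Γ n) (r : Fin n → ℝ) (hr : Cn n r) {δ : ℝ}
    (hδ : 0 < δ) (h : ∀ g ∈ Γ, Sm δ g → (∀ i, g (r i) = r i) → g = 1) : LC Γ := by
  obtain ⟨η0, hη0, H⟩ := hr.open_nhd
  have he0 : 0 < min (δ / 8) (η0 / 2) := lt_min (by linarith) (by linarith)
  refine ⟨min (δ / 8) (η0 / 2), he0, fun σ hσ => ?_⟩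
  have hs : Cn n (fun i => σ (r i)) := by
    refine H _ (fun i => ?_)
    have h1 := hσ.abs_le (r i)
    have h2 : min (δ / 8) (η0 / 2) ≤ η0 / 2 := min_le_right _ _
    show |σ (r i) - r i| < η0
    linarith
  refine continuous_of_uniform_approx_of_continuous (fun u hu => ?_)
  obtain ⟨ε', hε', hu'⟩ := Metric.mem_uniformity_dist.1 hu
  obtain ⟨g, -, hgx⟩ := rigid_close hΓ hE r hr (min_le_left _ _) h σ hσ hs (min (δ / 8) (ε' / 3))
    (lt_min (by linarith) (by linarith)) (min_le_left _ _)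
  refine ⟨g, g.continuous, fun y => hu' ?_⟩
  rw [Real.dist_eq]
  have h1 := hgx y
  have h2 : min (δ / 8) (ε' / 3) ≤ ε' / 3 := min_le_right _ _
  linarith


end Pool.Agent.Ghys
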