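import Mathlib
import Pool.Agent.Ghys.Basic

set_option autoImplicit false

namespace Pool.Agent.Ghys

open Filter Topology Set

variable {Γ : Subgroup (ℝ ≃o ℝ)}


/-- restriction of the inverse to `[0,1]` -/
noncomputable def cn_res (g : ℝ ≃o ℝ) : C(Set.Icc (0 : ℝ) 1, ℝ) :=
  ⟨fun y => g⁻¹ (y : ℝ), (g⁻¹ : ℝ ≃o ℝ).continuous.comp continuous_subtype_val⟩

theorem cn_res_apply (g : ℝ ≃o ℝ) (y : Set.Icc (0 : ℝ) 1) : cn_res g y = g⁻¹ (y : ℝ) := rfl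

theorem countable_net (hΓ : Ok Γ) {ε : ℝ} (hε : 0 < ε) :
    ∃ D : Set (ℝ ≃o ℝ), D.Countable ∧ (∀ d ∈ D, d ∈ Γ) ∧ ∀ g ∈ Γ, ∃ d ∈ D, Sm ε (d⁻¹ * g) := by
  classical
  set S : Set C(Set.Icc (0 : ℝ) 1, ℝ) := cn_res '' (Γ : Set (ℝ ≃o ℝ)) with hS
  obtain ⟨D', hD'c, hD'd⟩ := TopologicalSpace.exists_countable_dense ↥S
  have hch : ∀ s : ↥S, ∃ g : ℝ ≃o ℝ, g ∈ Γ ∧ cn_res g = s := by
    rintro ⟨s, g, hg, rfl⟩
    exact ⟨g, hg, rfl⟩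
  choose ch hchΓ hchs using hch
  refine ⟨ch '' D', hD'c.image _, ?_, ?_⟩
  · rintro _ ⟨s, -, rfl⟩
    exact hchΓ s
  · intro g hg
    obtain ⟨s, hsD, hs⟩ := hD'd.exists_dist_lt (⟨cn_res g, g, hg, rfl⟩ : ↥S) hε
    refine ⟨ch s, ⟨s, hsD, rfl⟩, ?_⟩
    have hperg : Per g⁻¹ := (hΓ.per g hg).inv
    have hperd : Per (ch s)⁻¹ := (hΓ.per _ (hchΓ s)).inv
    have hclose : ∀ y ∈ Set.Icc (0 : ℝ) 1, |g⁻¹ y - (ch s)⁻¹ y| < ε := by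
      intro y hy
      have h1 : dist (cn_res g ⟨y, hy⟩) ((s : C(Set.Icc (0 : ℝ) 1, ℝ)) ⟨y, hy⟩) ≤
          dist (cn_res g) (s : C(Set.Icc (0 : ℝ) 1, ℝ)) :=
        ContinuousMap.dist_apply_le_dist _
      have h2 : dist (cn_res g) (s : C(Set.Icc (0 : ℝ) 1, ℝ)) < ε := hs
      rw [← hchs s, Real.dist_eq] at h1
      rw [← hchs s] at h2
      exact lt_of_le_of_lt h1 h2
    intro x
    have hx : x = g⁻¹ (g x) := (inv_app_self g x).symm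
    rw [mul_app]
    conv_lhs => rw [hx]
    rw [app_inv_self]
    generalize g x = y
    have hy : y = Int.fract y + (⌊y⌋ : ℝ) := (Int.fract_add_floor y).symm
    have h3 : (ch s)⁻¹ y = (ch s)⁻¹ (Int.fract y) + (⌊y⌋ : ℝ) := by
      conv_lhs => rw [hy]
      exact hperd.add_int _ _
    have h4 : g⁻¹ y = g⁻¹ (Int.fract y) + (⌊y⌋ : ℝ) := by
      conv_lhs => rw [hy]
      exact hperg.add_int _ _
    have h5 := hclose (Int.fract y) ⟨Int.fract_nonneg y, (Int.fract_lt_one y).le⟩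
    rw [h3, h4, abs_sub_comm]
    have h6 : g⁻¹ (Int.fract y) + (⌊y⌋ : ℝ) - ((ch s)⁻¹ (Int.fract y) + (⌊y⌋ : ℝ)) =
        g⁻¹ (Int.fract y) - (ch s)⁻¹ (Int.fract y) := by ring
    rw [h6]
    exact h5


end Pool.Agent.Ghys
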