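import Mathlib
import Pool.Agent.Ghys.Basic
import Pool.Agent.Ghys.L_countable_net

set_option autoImplicit false

namespace Pool.Agent.Ghys

open Filter Topology Set

variable {Γ : Subgroup (ℝ ≃o ℝ)}


theorem LD_of_TR (hΓ : Ok Γ) {n : ℕ} (h : TR Γ n) : LD Γ n := by
  intro p hp ε hε
  obtain ⟨D, hDc, hDΓ, hDnet⟩ := countable_net hΓ (half_pos hε)
  haveI : Countable D := hDc.to_subtype
  let C : Set (Fin n → ℝ) := {q | Cn n q}
  have hCo : IsOpen C := isOpen_Cn n
  let A : (ℝ ≃o ℝ) → Set (Fin n → ℝ) := fun d =>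
    {x | ∃ v ∈ Γ, Sm (ε / 2) v ∧ x = fun i => d (v (p i))}
  let f : Option D → Set (Fin n → ℝ) := fun o => Option.elim o Cᶜ (fun d => closure (A d.1))
  have hfc : ∀ o, IsClosed (f o) := by
    intro o
    cases o with
    | none => exact hCo.isClosed_compl
    | some d => exact isClosed_closure
  have hU : ⋃ o, f o = univ := by
    rw [eq_univ_iff_forall]
    intro q
    rw [mem_iUnion]
    by_cases hq : Cn n q
    · obtain ⟨g, hg, hgq⟩ := h p q hp hq
      obtain ⟨d, hd, hdg⟩ := hDnet g hg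
      refine ⟨some ⟨d, hd⟩, subset_closure ?_⟩
      refine ⟨d⁻¹ * g, Γ.mul_mem (Γ.inv_mem (hDΓ d hd)) hg, hdg, ?_⟩
      funext i
      rw [mul_app, app_inv_self, hgq]
    · exact ⟨none, hq⟩
  have hdense := dense_iUnion_interior_of_closed hfc hU
  obtain ⟨w, hwC, hw⟩ := hdense.inter_open_nonempty C hCo ⟨p, hp⟩
  rw [mem_iUnion] at hw
  obtain ⟨o, ho⟩ := hw
  cases o with
  | none => exact absurd hwC (interior_subset ho)
  | some d =>
    have ho' : w ∈ interior (closure (A d.1)) := ho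
    have hwcl : w ∈ closure (A d.1) := interior_subset ho'
    rw [mem_closure_iff] at hwcl
    obtain ⟨x1, hx1W, v, hv, hvs, hx1⟩ := hwcl _ isOpen_interior ho'
    have hΦ : Continuous (fun x : Fin n → ℝ => (fun i => d.1 (v (x i)) : Fin n → ℝ)) := by
      apply continuous_pi
      intro i
      exact d.1.continuous.comp (v.continuous.comp (continuous_apply i))
    have hΨ : Continuous (fun x : Fin n → ℝ => (fun i => v⁻¹ (d.1⁻¹ (x i)) : Fin n → ℝ)) := by
      apply continuous_pi
      intro i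
      exact (v⁻¹).continuous.comp ((d.1⁻¹).continuous.comp (continuous_apply i))
    have hpre : IsOpen ((fun x : Fin n → ℝ => (fun i => d.1 (v (x i)) : Fin n → ℝ)) ⁻¹'
        (interior (closure (A d.1)))) := isOpen_interior.preimage hΦ
    have hpmem : p ∈ (fun x : Fin n → ℝ => (fun i => d.1 (v (x i)) : Fin n → ℝ)) ⁻¹'
        (interior (closure (A d.1))) := by
      show (fun i => d.1 (v (p i)) : Fin n → ℝ) ∈ interior (closure (A d.1))
      rw [← hx1]
      exact hx1W
    obtain ⟨η, hη, hball⟩ := Metric.isOpen_iff.1 hpre p hpmem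
    refine ⟨η, hη, fun q _ hq τ hτ => ?_⟩
    have hqb : q ∈ Metric.ball p η := by
      rw [Metric.mem_ball, dist_pi_lt_iff hη]
      intro i
      rw [Real.dist_eq]
      exact hq i
    have hq1 : (fun i => d.1 (v (q i)) : Fin n → ℝ) ∈ closure (A d.1) :=
      interior_subset (hball hqb)
    have hq2 := image_closure_subset_closure_image hΨ (mem_image_of_mem _ hq1)
    have hq3 : (fun i => v⁻¹ (d.1⁻¹ (d.1 (v (q i)))) : Fin n → ℝ) = q := by
      funext i
      rw [inv_app_self, inv_app_self]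
    change (fun i => v⁻¹ (d.1⁻¹ (d.1 (v (q i)))) : Fin n → ℝ) ∈ _ at hq2
    rw [hq3, Metric.mem_closure_iff] at hq2
    obtain ⟨z, ⟨y, ⟨v', hv', hv's, hy⟩, hz⟩, hdist⟩ := hq2 τ hτ
    refine ⟨v⁻¹ * v', Γ.mul_mem (Γ.inv_mem hv) hv', ?_, fun i => ?_⟩
    · have := hvs.inv.mul hv's
      rwa [add_halves] at this
    · have h1 := (dist_pi_lt_iff hτ).1 hdist i
      rw [← hz, hy] at h1
      simp only [inv_app_self] at h1
      rw [mul_app, abs_sub_comm, ← Real.dist_eq]
      exact h1


end Pool.Agent.Ghys
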