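import Mathlib
import Pool.Agent.Ghys.Basic

set_option autoImplicit false

namespace Pool.Agent.Ghys

open Filter Topology Set

variable {Γ : Subgroup (ℝ ≃o ℝ)}



theorem cn_init_8112 {k : ℕ} {Q : Fin (k + 1) → ℝ} (h : Cn (k + 1) Q) :
    Cn k (fun i => Q i.castSucc) :=
  ⟨fun _ _ hij => h.1 (Fin.castSucc_lt_castSucc_iff.2 hij), fun i j => h.2 i.castSucc j.castSucc⟩

theorem LD_of_fibre (hΓ : Ok Γ) {m : ℕ} (hE : EE Γ (m + 1))
    (hF : ∀ (p : Fin (m + 1) → ℝ) (y : ℝ), Cn (m + 2) (Fin.snoc p y : Fin (m + 2) → ℝ) →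
      ∀ e > 0, FLD Γ p y e) : LD Γ (m + 2) := by
  intro P hP ε hε
  have hPs : (Fin.snoc (fun i : Fin (m + 1) => P i.castSucc) (P (Fin.last _)) : Fin (m + 2) → ℝ) = P :=
    Fin.snoc_init_self P
  obtain ⟨ηF, hηF, hF1⟩ := hF (fun i : Fin (m + 1) => P i.castSucc) (P (Fin.last _))
    (by rw [hPs]; exact hP) (ε / 2) (by positivity)
  obtain ⟨η1, hη1, hE1⟩ := hE (fun i : Fin (m + 1) => P i.castSucc) (cn_init_8112 hP)
    (min (ε / 2) (ηF / 2)) (lt_min (by positivity) (by positivity))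
  refine ⟨min η1 (ηF / 2), lt_min hη1 (by positivity), ?_⟩
  intro Q hQ hQP τ hτ
  obtain ⟨u, hu, hus, hup⟩ := hE1 (fun i : Fin (m + 1) => Q i.castSucc) (cn_init_8112 hQ)
    (fun i => lt_of_lt_of_le (hQP i.castSucc) (min_le_left _ _))
  obtain ⟨τ', hτ', huc⟩ := (hΓ.per u hu).uc hτ
  have hy' : |u⁻¹ (Q (Fin.last _)) - P (Fin.last _)| < ηF := by
    have h1 := hus.inv (Q (Fin.last _))
    have h2 := hQP (Fin.last _)
    have h3 : min (ε / 2) (ηF / 2) ≤ ηF / 2 := min_le_right _ _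
    have h4 : min η1 (ηF / 2) ≤ ηF / 2 := min_le_right _ _
    calc |u⁻¹ (Q (Fin.last _)) - P (Fin.last _)| =
        |(u⁻¹ (Q (Fin.last _)) - Q (Fin.last _)) + (Q (Fin.last _) - P (Fin.last _))| := by ring_nf
      _ ≤ |u⁻¹ (Q (Fin.last _)) - Q (Fin.last _)| + |Q (Fin.last _) - P (Fin.last _)| :=
        abs_add_le _ _
      _ < ηF := by linarith
  obtain ⟨κ, hκ, hκs, hκp, hκy⟩ := hF1 _ hy' τ' hτ'
  refine ⟨u * κ, Γ.mul_mem hu hκ, ?_, ?_⟩
  · refine (hus.mul hκs).mono ?_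
    have : min (ε / 2) (ηF / 2) ≤ ε / 2 := min_le_left _ _
    linarith
  · intro i
    refine Fin.lastCases ?_ (fun j => ?_) i
    · have := huc _ _ hκy
      rwa [app_inv_self] at this
    · rw [mul_app, hκp j, hup j, sub_self, abs_zero]
      exact hτ


end Pool.Agent.Ghys
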