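import Mathlib
import Pool.Agent.Ghys.Basic
import Pool.Agent.Ghys.L_sort_lemma

set_option autoImplicit false

namespace Pool.Agent.Ghys

open Filter Topology Set

variable {Γ : Subgroup (ℝ ≃o ℝ)}


theorem MM_inj (hΓ : Ok Γ) {n : ℕ} (hM : MM Γ n) (x : Fin n → ℝ) (hx : IM x) (w : ℝ)
    (hw : ∀ i, ∀ k : ℤ, w ≠ x i + k) {δ : ℝ} (hδ : 0 < δ) :
    ∃ g ∈ Γ, Sm δ g ∧ (∀ i, g (x i) = x i) ∧ g w ≠ w := by
  obtain ⟨π, k, hC⟩ := sort_lemma x hx w hw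
  obtain ⟨g, hg, hs, hfix, hne⟩ := hM (fun j => x (π j) + k j) w hC δ hδ
  refine ⟨g, hg, hs, fun i => ?_, hne⟩
  have h1 := hfix (π.symm i)
  simp only [Equiv.apply_symm_apply] at h1
  rw [(hΓ.per g hg).add_int] at h1
  exact add_right_cancel h1


end Pool.Agent.Ghys
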