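import Mathlib
import Pool.Agent.Ghys.Basic

set_option autoImplicit false

namespace Pool.Agent.Ghys

open Filter Topology Set

variable {Γ : Subgroup (ℝ ≃o ℝ)}


theorem TR_of_EE_convex (n : ℕ) : Convex ℝ {q : Fin n → ℝ | Cn n q} := by
  have key : ∀ (a b x y x' y' : ℝ), 0 ≤ a → 0 ≤ b → a + b = 1 → x < x' → y < y' →
      a * x + b * y < a * x' + b * y' := by
    intro a b x y x' y' ha hb hab hx hy
    rcases eq_or_lt_of_le ha with h | h
    · have hb1 : b = 1 := by linarith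
      rw [← h, hb1]
      linarith
    · nlinarith [mul_lt_mul_of_pos_left hx h, mul_le_mul_of_nonneg_left hy.le hb]
  intro q hq q' hq' a b ha hb hab
  refine ⟨fun i j hij => ?_, fun i j => ?_⟩
  · simp only [Pi.add_apply, Pi.smul_apply, smul_eq_mul]
    exact key a b _ _ _ _ ha hb hab (hq.1 hij) (hq'.1 hij)
  · simp only [Pi.add_apply, Pi.smul_apply, smul_eq_mul]
    have := key a b _ _ _ _ ha hb hab (hq.2 i j) (hq'.2 i j)
    linarith

theorem TR_of_EE {n : ℕ} (h : EE Γ n) : TR Γ n := by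
  intro p q hp hq
  -- local transitivity near every point
  have hloc : ∀ q : Fin n → ℝ, Cn n q → ∃ η > 0, ∀ q' ∈ Metric.ball q η, Cn n q' ∧
      ∃ g ∈ Γ, ∀ i, g (q i) = q' i := by
    intro q hq
    obtain ⟨η1, hη1, h1⟩ := h q hq 1 one_pos
    obtain ⟨η2, hη2, h2⟩ := hq.open_nhd
    refine ⟨min η1 η2, lt_min hη1 hη2, fun q' hq' => ?_⟩
    rw [Metric.mem_ball, dist_pi_lt_iff (lt_min hη1 hη2)] at hq'
    have hq'' : ∀ i, |q' i - q i| < min η1 η2 := fun i => by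
      have := hq' i
      rwa [Real.dist_eq] at this
    have hC := h2 q' (fun i => lt_of_lt_of_le (hq'' i) (min_le_right _ _))
    obtain ⟨g, hg, -, hg'⟩ := h1 q' hC (fun i => lt_of_lt_of_le (hq'' i) (min_le_left _ _))
    exact ⟨hC, g, hg, hg'⟩
  set A : Set (Fin n → ℝ) := {q | Cn n q ∧ ∃ g ∈ Γ, ∀ i, g (p i) = q i} with hA
  set B : Set (Fin n → ℝ) := {q | Cn n q ∧ ¬ ∃ g ∈ Γ, ∀ i, g (p i) = q i} with hB
  have hAo : IsOpen A := by
    rw [Metric.isOpen_iff]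
    rintro x ⟨hx, g, hg, hgx⟩
    obtain ⟨η, hη, H⟩ := hloc x hx
    refine ⟨η, hη, fun y hy => ?_⟩
    obtain ⟨hy1, k, hk, hky⟩ := H y hy
    refine ⟨hy1, k * g, Γ.mul_mem hk hg, fun i => ?_⟩
    rw [mul_app, hgx, hky]
  have hBo : IsOpen B := by
    rw [Metric.isOpen_iff]
    rintro x ⟨hx, hx'⟩
    obtain ⟨η, hη, H⟩ := hloc x hx
    refine ⟨η, hη, fun y hy => ?_⟩
    obtain ⟨hy1, k, hk, hky⟩ := H y hy
    refine ⟨hy1, ?_⟩
    rintro ⟨g, hg, hgy⟩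
    apply hx'
    refine ⟨k⁻¹ * g, Γ.mul_mem (Γ.inv_mem hk) hg, fun i => ?_⟩
    rw [mul_app, hgy, ← hky, inv_app_self]
  have hdisj : Disjoint A B := by
    rw [Set.disjoint_left]
    rintro x ⟨-, hx⟩ ⟨-, hx'⟩
    exact hx' hx
  have hsub : {q : Fin n → ℝ | Cn n q} ⊆ A ∪ B := by
    intro x hx
    by_cases hh : ∃ g ∈ Γ, ∀ i, g (p i) = x i
    · exact Or.inl ⟨hx, hh⟩
    · exact Or.inr ⟨hx, hh⟩
  have hpA : p ∈ A := ⟨hp, 1, Γ.one_mem, fun i => rfl⟩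
  have hres := (TR_of_EE_convex n).isPreconnected.subset_left_of_subset_union hAo hBo hdisj hsub
    ⟨p, hp, hpA⟩
  exact (hres hq).2


end Pool.Agent.Ghys
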