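import Mathlib
import Pool.Agent.Ghys.Basic

set_option autoImplicit false

namespace Pool.Agent.Ghys

open Filter Topology Set

variable {Γ : Subgroup (ℝ ≃o ℝ)}


theorem full_of_dense (hΓ : Ok Γ) (h : ∀ n, DN Γ n) : Full Γ := by
  intro f hf
  refine hΓ.clo f hf ?_
  intro ε hε
  obtain ⟨ω, hω, hu⟩ := hf.uc (show (0:ℝ) < ε / 4 by linarith)
  obtain ⟨N0, hN0⟩ := exists_nat_one_div_lt hω
  obtain ⟨N, hNdef⟩ : ∃ N : ℕ, N = N0 + 1 := ⟨_, rfl⟩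
  have hNpos : 0 < N := by omega
  have hNR : (0:ℝ) < (N:ℝ) := by exact_mod_cast hNpos
  have hNω : 1 / (N:ℝ) < ω := by
    rw [hNdef]; push_cast; exact hN0
  have hC : Cn N (fun i : Fin N => ((i : ℕ) : ℝ) / N) := by
    refine ⟨?_, ?_⟩
    · intro i j hij
      have h1 : ((i : ℕ) : ℝ) < ((j : ℕ) : ℝ) := by exact_mod_cast hij
      exact div_lt_div_of_pos_right h1 hNR
    · intro i j
      show ((i : ℕ) : ℝ) / N < ((j : ℕ) : ℝ) / N + 1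
      have h1 : ((i : ℕ) : ℝ) / N < 1 := by
        rw [div_lt_one hNR]
        exact_mod_cast i.2
      have h2 : (0:ℝ) ≤ ((j : ℕ) : ℝ) / N := by positivity
      linarith
  obtain ⟨g, hg, hgq⟩ := h N _ _ hC (hC.map hf) (ε / 4) (by linarith)
  have hgP := hΓ.per g hg
  have key : ∀ j : ℤ, |g ((j:ℝ) / N) - f ((j:ℝ) / N)| < ε / 4 := by
    intro j
    have hNz : (0:ℤ) < (N:ℤ) := by exact_mod_cast hNpos
    have hmod0 : 0 ≤ j % (N:ℤ) := Int.emod_nonneg _ hNz.ne'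
    have hmod1 : j % (N:ℤ) < (N:ℤ) := Int.emod_lt_of_pos _ hNz
    obtain ⟨r, hr⟩ := Int.eq_ofNat_of_zero_le hmod0
    have hrN : r < N := by
      rw [hr] at hmod1; exact_mod_cast hmod1
    have hj : (j:ℝ) / N = (r:ℝ) / N + ((j / (N:ℤ) : ℤ) : ℝ) := by
      have h1 : (N:ℤ) * (j / (N:ℤ)) + (r:ℤ) = j := by
        rw [← hr]; exact Int.mul_ediv_add_emod j N
      have h2 : (N:ℝ) * ((j / (N:ℤ) : ℤ) : ℝ) + (r:ℝ) = (j:ℝ) := by exact_mod_cast h1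
      rw [← h2]
      field_simp
      ring
    rw [hj, hgP.add_int, hf.add_int]
    have h3 := hgq ⟨r, hrN⟩
    have h4 : g ((r:ℝ) / N) + ((j / (N:ℤ) : ℤ) : ℝ) - (f ((r:ℝ) / N) + ((j / (N:ℤ) : ℤ) : ℝ))
        = g ((r:ℝ) / N) - f ((r:ℝ) / N) := by ring
    rw [h4]
    exact h3
  refine ⟨g, hg, fun x => ?_⟩
  obtain ⟨j, hjdef⟩ : ∃ j : ℤ, j = ⌊x * N⌋ := ⟨_, rfl⟩
  have hx1 : (j:ℝ) / N ≤ x := by
    rw [div_le_iff₀ hNR, hjdef]
    exact Int.floor_le _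
  have hx2 : x ≤ ((j + 1 : ℤ):ℝ) / N := by
    rw [le_div_iff₀ hNR, hjdef]
    push_cast
    exact (Int.lt_floor_add_one _).le
  have k1 := key j
  have k2 := key (j + 1)
  have hg1 := g.monotone hx1
  have hg2 := g.monotone hx2
  have hf1 := f.monotone hx1
  have hf2 := f.monotone hx2
  have hω2 : |((j + 1 : ℤ):ℝ) / N - (j:ℝ) / N| < ω := by
    have : ((j + 1 : ℤ):ℝ) / N - (j:ℝ) / N = 1 / (N:ℝ) := by
      push_cast
      ring
    rw [this, abs_of_pos (by positivity)]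
    exact hNω
  have hf3 := hu _ _ hω2
  rw [abs_lt] at k1 k2 hf3 ⊢
  constructor <;> linarith [k1.1, k1.2, k2.1, k2.2, hf3.1, hf3.2]


end Pool.Agent.Ghys
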