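import Mathlib
import Pool.Agent.Ghys.Basic

set_option autoImplicit false

namespace Pool.Agent.Ghys

open Filter Topology Set

variable {Γ : Subgroup (ℝ ≃o ℝ)}


theorem prox_of (hΓ : Ok Γ) (hE : EE Γ 1) (hT : TR Γ 1) (hM : MM Γ 1) : Prox Γ := by
  intro a b hab hba c d hcd
  have hC1 : ∀ x : ℝ, Cn 1 (fun _ : Fin 1 => x) := by
    intro x
    refine ⟨?_, fun i j => by linarith⟩
    intro i j hij
    exact absurd (Subsingleton.elim i j) (ne_of_lt hij)
  let S : Set ℝ := {y | ∃ g ∈ Γ, g a = a ∧ y = g b}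
  have hbS : b ∈ S := ⟨1, Γ.one_mem, rfl, rfl⟩
  have hlow : ∀ y ∈ S, a ≤ y := by
    rintro y ⟨g, -, hga, rfl⟩
    have := g.strictMono hab
    rw [hga] at this
    exact this.le
  have hbdd : BddBelow S := ⟨a, fun y hy => hlow y hy⟩
  have hne : S.Nonempty := ⟨b, hbS⟩
  set s := sInf S with hs
  have has : a ≤ s := le_csInf hne hlow
  have hsb : s ≤ b := csInf_le hbdd hbS
  have hle : ∀ h ∈ Γ, h a = a → h s ≤ s := by
    intro h hh hha
    refine le_csInf hne ?_
    rintro y ⟨g, hg, hga, rfl⟩
    have hmem : (h⁻¹ * g) b ∈ S := by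
      refine ⟨h⁻¹ * g, Γ.mul_mem (Γ.inv_mem hh) hg, ?_, rfl⟩
      rw [mul_app, hga, inv_eq_iff, hha]
    have h1 : s ≤ (h⁻¹ * g) b := csInf_le hbdd hmem
    have h2 := h.monotone h1
    rwa [mul_app, app_inv_self] at h2
  have hsa : s = a := by
    by_contra hne'
    have hlt : a < s := lt_of_le_of_ne has (Ne.symm hne')
    have hCn : Cn (1 + 1) (Fin.snoc (fun _ : Fin 1 => a) s : Fin (1 + 1) → ℝ) := by
      have h0 : (Fin.snoc (fun _ : Fin 1 => a) s : Fin (1 + 1) → ℝ) 0 = a := by
        simp [Fin.snoc]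
      have h1 : (Fin.snoc (fun _ : Fin 1 => a) s : Fin (1 + 1) → ℝ) 1 = s := by
        simp [Fin.snoc]
      refine ⟨?_, ?_⟩
      · intro i j hij
        have hi : i = 0 := by
          rcases i with ⟨i, hi⟩
          rcases j with ⟨j, hj⟩
          have : i < j := hij
          ext; simp; omega
        have hj : j = 1 := by
          rcases i with ⟨i, hi⟩
          rcases j with ⟨j, hj⟩
          have : i < j := hij
          ext; simp; omega
        subst hi; subst hj
        rw [h0, h1]; exact hlt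
      · intro i j
        have hi : i = 0 ∨ i = 1 := by
          rcases i with ⟨i, hi⟩
          have : i = 0 ∨ i = 1 := by omega
          rcases this with rfl | rfl
          · left; rfl
          · right; rfl
        have hj : j = 0 ∨ j = 1 := by
          rcases j with ⟨j, hj⟩
          have : j = 0 ∨ j = 1 := by omega
          rcases this with rfl | rfl
          · left; rfl
          · right; rfl
        rcases hi with rfl | rfl <;> rcases hj with rfl | rfl <;> simp only [h0, h1] <;> linarith
    obtain ⟨g, hg, -, hga, hgs⟩ := hM (fun _ => a) s hCn 1 one_pos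
    have hga' : g a = a := hga 0
    have h1 := hle g hg hga'
    have h2 := hle g⁻¹ (Γ.inv_mem hg) (by rw [inv_eq_iff, hga'])
    have h3 := g.monotone h2
    rw [app_inv_self] at h3
    exact hgs (le_antisymm h1 h3)
  obtain ⟨t, ht, hta⟩ := hT (fun _ => a) (fun _ => (c + d) / 2) (hC1 _) (hC1 _)
  have hta' : t a = (c + d) / 2 := hta 0
  have hlt : a < t⁻¹ d := by
    by_contra hcon
    push Not at hcon
    have := t.monotone hcon
    rw [app_inv_self, hta'] at this
    linarith
  have : sInf S < t⁻¹ d := by rw [← hs, hsa]; exact hlt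
  obtain ⟨y, ⟨g, hg, hga, rfl⟩, hy⟩ := exists_lt_of_csInf_lt hne this
  refine ⟨t * g, Γ.mul_mem ht hg, ?_, ?_⟩
  · rw [mul_app, hga, hta']; linarith
  · rw [mul_app]
    have := t.strictMono hy
    rwa [app_inv_self] at this


end Pool.Agent.Ghys
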