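import Mathlib
import Pool.Agent.Ghys.Basic

set_option autoImplicit false

namespace Pool.Agent.Ghys

open Filter Topology Set

variable {Γ : Subgroup (ℝ ≃o ℝ)}


theorem uc_lemma_Cn1 (t : ℝ) : Cn 1 (fun _ => t) := by
  refine ⟨Subsingleton.strictMono _, fun i j => ?_⟩
  show t < t + 1
  linarith

theorem uc_lemma (hΓ : Ok Γ) (hE : EE Γ 1) (hT : TR Γ 1) (y : ℝ) {ε : ℝ} (hε : 0 < ε) :
    ∃ ε' > 0, ∀ t ∈ Icc (0 : ℝ) 1, ∃ v ∈ Γ, v t = y ∧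
      ∀ g : ℝ ≃o ℝ, Sm ε' g → Sm ε (v * g * v⁻¹) := by
  refine isCompact_Icc.induction_on (p := fun S : Set ℝ => ∃ ε' > 0, ∀ t ∈ S, ∃ v ∈ Γ, v t = y ∧
      ∀ g : ℝ ≃o ℝ, Sm ε' g → Sm ε (v * g * v⁻¹)) ?_ ?_ ?_ ?_
  · exact ⟨1, one_pos, fun t ht => absurd ht (Set.notMem_empty t)⟩
  · rintro s t hst ⟨ε', h1, h2⟩
    exact ⟨ε', h1, fun x hx => h2 x (hst hx)⟩
  · rintro s t ⟨a, ha, h1⟩ ⟨b, hb, h2⟩
    refine ⟨min a b, lt_min ha hb, ?_⟩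
    rintro x (hx | hx)
    · obtain ⟨v, hv, hv1, hv2⟩ := h1 x hx
      exact ⟨v, hv, hv1, fun g hg => hv2 g (hg.mono (min_le_left _ _))⟩
    · obtain ⟨v, hv, hv1, hv2⟩ := h2 x hx
      exact ⟨v, hv, hv1, fun g hg => hv2 g (hg.mono (min_le_right _ _))⟩
  · intro t0 _
    obtain ⟨v0, hv0, hv0y⟩ := hT (fun _ => t0) (fun _ => y) (uc_lemma_Cn1 t0) (uc_lemma_Cn1 y)
    have hv0y' : v0 t0 = y := hv0y 0
    obtain ⟨δ, hδ, hc⟩ := Sm.conj (hΓ.per v0 hv0) hε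
    obtain ⟨η, hη, hE1⟩ := hE (fun _ => t0) (uc_lemma_Cn1 t0) (δ/4) (by positivity)
    refine ⟨Metric.ball t0 η, mem_nhdsWithin_of_mem_nhds (Metric.ball_mem_nhds t0 hη), δ/2,
      by positivity, ?_⟩
    intro t ht
    rw [Metric.mem_ball, Real.dist_eq] at ht
    obtain ⟨u, hu, hus, hut⟩ := hE1 (fun _ => t) (uc_lemma_Cn1 t) (fun _ => ht)
    have hut' : u t0 = t := hut 0
    refine ⟨v0 * u⁻¹, Γ.mul_mem hv0 (Γ.inv_mem hu), ?_, ?_⟩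
    · rw [mul_app, ← hut', inv_app_self, hv0y']
    · intro g hg
      have h1 : v0 * u⁻¹ * g * (v0 * u⁻¹)⁻¹ = v0 * (u⁻¹ * g * u⁻¹⁻¹) * v0⁻¹ := by group
      rw [h1]
      apply hc
      refine (hg.conj_small hus.inv).mono ?_
      linarith


end Pool.Agent.Ghys
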