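import Mathlib
import Pool.Agent.Ghys.Basic
import Pool.Agent.Ghys.L_uc_lemma

set_option autoImplicit false

namespace Pool.Agent.Ghys

open Filter Topology Set

variable {Γ : Subgroup (ℝ ≃o ℝ)}


theorem disc_at (hΓ : Ok Γ) (hE : EE Γ 1) (hT : TR Γ 1) (hN : ¬ LC Γ) (a : ℝ) {ε : ℝ}
    (hε : 0 < ε) : ∃ σ, Approx Γ ε σ ∧ ¬ ContinuousAt σ a := by
  obtain ⟨ε', hε', H⟩ := uc_lemma hΓ hE hT a hε
  have h1 : ∃ σ0, Approx Γ ε' σ0 ∧ ¬ Continuous σ0 := by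
    by_contra hcon
    push Not at hcon
    exact hN ⟨ε', hε', fun σ hσ => hcon σ hσ⟩
  obtain ⟨σ0, hσ0, hnc⟩ := h1
  have h2 : ∃ x0, ¬ ContinuousAt σ0 x0 := by
    by_contra hcon
    push Not at hcon
    exact hnc (continuous_iff_continuousAt.mpr hcon)
  obtain ⟨x0, hx0⟩ := h2
  have h3 : ¬ ContinuousAt σ0 (Int.fract x0) := by
    intro hc
    apply hx0
    have e : σ0 = fun x => σ0 (x - (⌊x0⌋ : ℝ)) + (⌊x0⌋ : ℝ) := by
      funext x
      have := hσ0.add_int hΓ (x - (⌊x0⌋ : ℝ)) ⌊x0⌋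
      rw [sub_add_cancel] at this
      exact this
    rw [e]
    refine ContinuousAt.add ?_ continuousAt_const
    have h4 : ContinuousAt (fun x : ℝ => x - (⌊x0⌋ : ℝ)) x0 := by fun_prop
    refine ContinuousAt.comp (f := fun x : ℝ => x - (⌊x0⌋ : ℝ)) (g := σ0) ?_ h4
    exact hc
  obtain ⟨v, hv, hva, hvS⟩ := H (Int.fract x0) ⟨Int.fract_nonneg _, (Int.fract_lt_one _).le⟩
  refine ⟨fun x => v (σ0 (v⁻¹ x)), hσ0.conj' hΓ hv hvS, fun hc => h3 ?_⟩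
  have e : σ0 = fun x => v⁻¹ ((fun y => v (σ0 (v⁻¹ y))) (v x)) := by
    funext x
    simp only [inv_app_self]
  rw [e]
  have hvc : Continuous v := v.continuous
  have hvc' : Continuous (v⁻¹ : ℝ ≃o ℝ) := (v⁻¹ : ℝ ≃o ℝ).continuous
  have h5 : ContinuousAt (fun y => v (σ0 (v⁻¹ y))) (v (Int.fract x0)) := by rw [hva]; exact hc
  have h6 : ContinuousAt (fun x => (fun y => v (σ0 (v⁻¹ y))) (v x)) (Int.fract x0) :=
    ContinuousAt.comp (f := fun x => v x) (g := fun y => v (σ0 (v⁻¹ y))) h5 hvc.continuousAt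
  exact hvc'.continuousAt.comp h6



end Pool.Agent.Ghys
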