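import Mathlib
import Pool.Agent.Ghys.Basic
import Pool.Agent.Ghys.L_disc_at

set_option autoImplicit false

namespace Pool.Agent.Ghys

open Filter Topology Set

variable {Γ : Subgroup (ℝ ≃o ℝ)}


theorem Cn_snoc_iff {k : ℕ} {p : Fin k → ℝ} {y : ℝ} :
    Cn (k + 1) (Fin.snoc p y : Fin (k + 1) → ℝ) ↔
      Cn k p ∧ (∀ i, p i < y) ∧ (∀ i, y < p i + 1) := by
  constructor
  · intro h
    refine ⟨⟨?_, ?_⟩, ?_, ?_⟩
    · intro i j hij
      have := h.1 (Fin.castSucc_lt_castSucc_iff.mpr hij)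
      simpa using this
    · intro i j
      have := h.2 (Fin.castSucc i) (Fin.castSucc j)
      simpa using this
    · intro i
      have := h.1 (Fin.castSucc_lt_last i)
      simpa using this
    · intro i
      have := h.2 (Fin.last k) (Fin.castSucc i)
      simpa using this
  · rintro ⟨h1, h2, h3⟩
    refine ⟨?_, ?_⟩
    · intro i j
      induction i using Fin.lastCases with
      | last =>
        intro hij
        exact absurd (Fin.le_last j) (not_le.mpr hij)
      | cast i =>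
        induction j using Fin.lastCases with
        | last => intro _; simpa using h2 i
        | cast j =>
          intro hij
          have := h1.1 (Fin.castSucc_lt_castSucc_iff.mp hij)
          simpa using this
    · intro i j
      induction i using Fin.lastCases with
      | last =>
        induction j using Fin.lastCases with
        | last => simp
        | cast j => simpa using h3 j
      | cast i =>
        induction j using Fin.lastCases with
        | last =>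
          have := h2 i
          simp only [Fin.snoc_castSucc, Fin.snoc_last]
          linarith
        | cast j => simpa using h1.2 i j

theorem coupled_transport {n : ℕ} {c : Fin n → ℝ} {a δ s : ℝ}
    (h : ∀ g ∈ Γ, Sm δ g → (∀ i, g (c i) = c i) → g a = a) {u : ℝ ≃o ℝ} (hu : u ∈ Γ)
    (hs : Sm s u) : ∀ g ∈ Γ, Sm (δ - 2 * s) g → (∀ i, g (u (c i)) = u (c i)) → g (u a) = u a := by
  intro g hg hgs hfix
  have h1 := h (u⁻¹ * g * (u⁻¹)⁻¹) (Γ.mul_mem (Γ.mul_mem (Γ.inv_mem hu) hg)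
    (Γ.inv_mem (Γ.inv_mem hu))) ((Sm.conj_small hgs hs.inv).mono (by linarith))
    (by intro i; rw [inv_inv, mul_app, mul_app, hfix, inv_app_self])
  rw [inv_inv, mul_app, mul_app, inv_eq_iff] at h1
  exact h1

theorem dense_contPts {σ : ℝ → ℝ} (hσ : Monotone σ) (x : ℝ) {η : ℝ} (hη : 0 < η) :
    ∃ y, |y - x| < η ∧ ContinuousAt σ y := by
  have hc : {y | ¬ ContinuousAt σ y}.Countable := hσ.countable_not_continuousAt
  have hd := hc.dense_compl ℝ
  obtain ⟨y, hy1, hy2⟩ := hd.exists_dist_lt x hη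
  refine ⟨y, ?_, ?_⟩
  · rw [Real.dist_eq, abs_sub_comm] at hy2
    exact hy2
  · by_contra h
    exact hy1 h

theorem fix_interval (hΓ : Ok Γ) {m : ℕ} (hE : EE Γ (m + 2)) (hE2 : EE Γ 2) (hE1 : EE Γ 1)
    (hT1 : TR Γ 1) (hN : ¬ LC Γ) (c : Fin (m + 2) → ℝ) (a : ℝ)
    (hc : Cn (m + 3) (Fin.snoc c a : Fin (m + 3) → ℝ)) {δ : ℝ} (hδ : 0 < δ)
    (h : ∀ g ∈ Γ, Sm δ g → (∀ i, g (c i) = c i) → g a = a) :
    ∃ (r : Fin (m + 2) → ℝ) (b1 b2 δ1 : ℝ), Cn (m + 2) r ∧ b1 < b2 ∧ 0 < δ1 ∧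
      ∀ g ∈ Γ, Sm δ1 g → (∀ i, g (r i) = r i) → ∀ x ∈ Ioo b1 b2, g x = x := by
  have hcs := Cn_snoc_iff.mp hc
  obtain ⟨hcn, hca, hac⟩ := hcs
  obtain ⟨η0, hη0, hopen⟩ := hcn.open_nhd
  obtain ⟨ε, hεdef⟩ : ∃ ε, ε = min (δ / 32) (η0 / 8) := ⟨_, rfl⟩
  have hεpos : 0 < ε := by rw [hεdef]; exact lt_min (by linarith) (by linarith)
  have hε1 : ε ≤ δ / 32 := by rw [hεdef]; exact min_le_left _ _
  have hε2 : ε ≤ η0 / 8 := by rw [hεdef]; exact min_le_right _ _
  obtain ⟨σ, hσ, hdisc⟩ := disc_at hΓ hE1 hT1 hN a hεpos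
  have hmono : Monotone σ := hσ.monotone
  have hLR : Function.leftLim σ a < Function.rightLim σ a := by
    rw [hmono.continuousAt_iff_leftLim_eq_rightLim] at hdisc
    exact lt_of_le_of_ne (hmono.leftLim_le_rightLim (le_refl a)) hdisc
  -- replace c by c1
  have hpair : Cn 2 ![c (Fin.last (m + 1)), a] := by
    refine ⟨?_, ?_⟩
    · intro i j hij
      fin_cases i <;> fin_cases j <;> simp_all
    · intro i j
      have h1 := hca (Fin.last (m + 1))
      have h2 := hac (Fin.last (m + 1))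
      fin_cases i <;> fin_cases j <;> simp <;> linarith
  obtain ⟨η1, hη1, hE2'⟩ := hE2 _ hpair ε hεpos
  obtain ⟨η2, hη2, hopen2⟩ := hpair.open_nhd
  obtain ⟨c', hc'1, hc'2⟩ := dense_contPts hmono (c (Fin.last (m + 1)))
    (lt_min hη1 hη2)
  obtain ⟨w, hwΓ, hwS, hw⟩ := hE2' ![c', a] (hopen2 _ (by
      intro i
      fin_cases i
      · simpa using lt_of_lt_of_le hc'1 (min_le_right _ _)
      · simpa using hη2)) (by
      intro i
      fin_cases i
      · simpa using lt_of_lt_of_le hc'1 (min_le_left _ _)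
      · simpa using hη1)
  have hw0 : w (c (Fin.last (m + 1))) = c' := by simpa using hw 0
  have hw1 : w a = a := by simpa using hw 1
  obtain ⟨c1, hc1def⟩ : ∃ c1 : Fin (m + 2) → ℝ, c1 = fun i => w (c i) := ⟨_, rfl⟩
  have hc1i : ∀ i, c1 i = w (c i) := fun i => by rw [hc1def]
  have hc1last : c1 (Fin.last (m + 1)) = c' := by rw [hc1i, hw0]
  have hc1Cn : Cn (m + 2) c1 := by rw [hc1def]; exact hcn.map (hΓ.per w hwΓ)
  have hc1a : ∀ i, c1 i < a := by
    intro i
    rw [hc1i, ← hw1]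
    exact w.strictMono (hca i)
  have hac1 : ∀ i, a < c1 i + 1 := by
    intro i
    rw [hc1i, ← hΓ.per w hwΓ, ← hw1]
    apply w.strictMono
    exact hac i
  have hcoup : ∀ g ∈ Γ, Sm (δ - 2 * ε) g → (∀ i, g (c1 i) = c1 i) → g a = a := by
    have := coupled_transport h hwΓ hwS
    rw [hw1] at this
    intro g hg hgs hfix
    exact this g hg hgs (fun i => by rw [← hc1i]; exact hfix i)
  obtain ⟨r, hrdef⟩ : ∃ r : Fin (m + 2) → ℝ, r = fun i => σ (c1 i) := ⟨_, rfl⟩
  have hri : ∀ i, r i = σ (c1 i) := fun i => by rw [hrdef]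
  have hrCn : Cn (m + 2) r := by
    apply hopen
    intro i
    have h1 := hσ.abs_le (c1 i)
    have h2 := hwS (c i)
    rw [← hc1i, ] at h2
    rw [hri]
    have h3 : |σ (c1 i) - c i| ≤ |σ (c1 i) - c1 i| + |c1 i - c i| := by
      have := abs_add_le (σ (c1 i) - c1 i) (c1 i - c i)
      simpa using this
    linarith
  refine ⟨r, Function.leftLim σ a, Function.rightLim σ a, δ / 2, hrCn, hLR, by linarith, ?_⟩
  intro g0 hg0 hg0S hg0fix z' hz'
  obtain ⟨hz1, hz2⟩ := hz'
  -- it suffices to approximate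
  suffices hsuff : ∀ μ > 0, ∃ z'', |z'' - z'| < μ ∧ g0 z'' = z'' by
    have hcl : IsClosed {x | g0 x = x} := isClosed_eq g0.continuous continuous_id
    have : z' ∈ closure {x | g0 x = x} := by
      rw [Metric.mem_closure_iff]
      intro μ hμ
      obtain ⟨z'', h1, h2⟩ := hsuff μ hμ
      refine ⟨z'', h2, ?_⟩
      rw [Real.dist_eq, abs_sub_comm]
      exact h1
    rw [hcl.closure_eq] at this
    exact this
  intro μ0 hμ0
  obtain ⟨μ, hμdef⟩ : ∃ μ, μ = min μ0 ε := ⟨_, rfl⟩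
  have hμ : 0 < μ := by rw [hμdef]; exact lt_min hμ0 hεpos
  have hμμ0 : μ ≤ μ0 := by rw [hμdef]; exact min_le_left _ _
  have hμε : μ ≤ ε := by rw [hμdef]; exact min_le_right _ _
  obtain ⟨η3, hη3, hEr⟩ := hE r hrCn μ hμ
  obtain ⟨ω, hω, hωσ⟩ : ∃ ω > 0, ∀ x, |x - c'| < 2 * ω → |σ x - σ c'| < η3 / 2 := by
    rw [Metric.continuousAt_iff] at hc'2
    obtain ⟨d, hd, hd'⟩ := hc'2 (η3 / 2) (by linarith)
    refine ⟨d / 2, by linarith, fun x hx => ?_⟩
    have := @hd' x (by rw [Real.dist_eq]; linarith)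
    rwa [Real.dist_eq] at this
  -- the tuple t
  have htCn : Cn (m + 2) (Fin.snoc (Fin.init c1) a : Fin (m + 2) → ℝ) := by
    rw [Cn_snoc_iff]
    refine ⟨⟨?_, ?_⟩, ?_, ?_⟩
    · intro i j hij
      exact hc1Cn.1 (Fin.castSucc_lt_castSucc_iff.mpr hij)
    · intro i j
      exact hc1Cn.2 (Fin.castSucc i) (Fin.castSucc j)
    · intro i
      exact hc1a (Fin.castSucc i)
    · intro i
      exact hac1 (Fin.castSucc i)
  obtain ⟨s, hsdef⟩ : ∃ s, s = min ε (ω / 2) := ⟨_, rfl⟩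
  have hs : 0 < s := by rw [hsdef]; exact lt_min hεpos (by linarith)
  have hsε : s ≤ ε := by rw [hsdef]; exact min_le_left _ _
  have hsω : s ≤ ω / 2 := by rw [hsdef]; exact min_le_right _ _
  obtain ⟨η4, hη4, hEt⟩ := hE _ htCn s hs
  obtain ⟨η5, hη5, hopent⟩ := htCn.open_nhd
  obtain ⟨ρ, hρdef⟩ : ∃ ρ, ρ = min η4 η5 := ⟨_, rfl⟩
  have hρ : 0 < ρ := by rw [hρdef]; exact lt_min hη4 hη5
  have hρ4 : ρ ≤ η4 := by rw [hρdef]; exact min_le_left _ _
  have hρ5 : ρ ≤ η5 := by rw [hρdef]; exact min_le_right _ _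
  have hL : σ (a - ρ / 2) ≤ Function.leftLim σ a := hmono.le_leftLim (by linarith)
  have hR : Function.rightLim σ a ≤ σ (a + ρ / 2) := hmono.rightLim_le (by linarith)
  obtain ⟨τ, hτdef⟩ : ∃ τ, τ = min (η3 / 2) (min (z' - Function.leftLim σ a)
    (Function.rightLim σ a - z')) := ⟨_, rfl⟩
  have hτ : 0 < τ := by
    rw [hτdef]
    exact lt_min (by linarith) (lt_min (by linarith) (by linarith))
  have hτ1 : τ ≤ η3 / 2 := by rw [hτdef]; exact min_le_left _ _
  have hτ2 : τ ≤ z' - Function.leftLim σ a := by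
    rw [hτdef]; exact (min_le_right _ _).trans (min_le_left _ _)
  have hτ3 : τ ≤ Function.rightLim σ a - z' := by
    rw [hτdef]; exact (min_le_right _ _).trans (min_le_right _ _)
  classical
  obtain ⟨g, hg, hgS, hgF⟩ := hσ (Finset.univ.image c1 ∪ {c' - ω, c' + ω, a - ρ / 2, a + ρ / 2})
    τ hτ
  have hgc1 : ∀ i, |g (c1 i) - σ (c1 i)| < τ := fun i => hgF _ (by simp)
  have hgm : |g (c' - ω) - σ (c' - ω)| < τ := hgF _ (by simp)
  have hgp : |g (c' + ω) - σ (c' + ω)| < τ := hgF _ (by simp)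
  have hgam : |g (a - ρ / 2) - σ (a - ρ / 2)| < τ := hgF _ (by simp)
  have hgap : |g (a + ρ / 2) - σ (a + ρ / 2)| < τ := hgF _ (by simp)
  rw [abs_lt] at hgm hgp hgam hgap
  have hx1 : a - ρ / 2 < g⁻¹ z' := by
    have : g (a - ρ / 2) < g (g⁻¹ z') := by
      rw [app_inv_self]
      linarith
    exact g.lt_iff_lt.mp this
  have hx2 : g⁻¹ z' < a + ρ / 2 := by
    have : g (g⁻¹ z') < g (a + ρ / 2) := by
      rw [app_inv_self]
      linarith
    exact g.lt_iff_lt.mp this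
  have hclose : ∀ i, |(Fin.snoc (Fin.init c1) (g⁻¹ z') : Fin (m + 2) → ℝ) i -
      (Fin.snoc (Fin.init c1) a : Fin (m + 2) → ℝ) i| < ρ := by
    intro i
    induction i using Fin.lastCases with
    | last =>
      simp only [Fin.snoc_last]
      rw [abs_lt]
      constructor <;> linarith
    | cast i =>
      simp only [Fin.snoc_castSucc, sub_self, abs_zero]
      exact hρ
  obtain ⟨k, hk, hkS, hkt⟩ := hEt (Fin.snoc (Fin.init c1) (g⁻¹ z') : Fin (m + 2) → ℝ)
    (hopent _ (fun i => lt_of_lt_of_le (hclose i) hρ5)) (fun i => lt_of_lt_of_le (hclose i) hρ4)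
  have hka : k a = g⁻¹ z' := by simpa using hkt (Fin.last (m + 1))
  have hkc : ∀ i : Fin (m + 1), k (c1 (Fin.castSucc i)) = c1 (Fin.castSucc i) := by
    intro i
    have := hkt (Fin.castSucc i)
    simpa [Fin.init] using this
  have hhΓ : g * k ∈ Γ := Γ.mul_mem hg hk
  have hhS : Sm (ε + s) (g * k) := hgS.mul hkS
  have hha : (g * k) a = z' := by rw [mul_app, hka, app_inv_self]
  have hhc : ∀ i, |(g * k) (c1 i) - r i| < η3 := by
    intro i
    rw [mul_app, hri]
    induction i using Fin.lastCases with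
    | last =>
      rw [hc1last]
      have h1 := hkS c'
      rw [abs_lt] at h1
      have h2 : g (c' - ω) < g (k c') := g.strictMono (by linarith)
      have h3 : g (k c') < g (c' + ω) := g.strictMono (by linarith)
      have h4 := hωσ (c' - ω) (by
        rw [show c' - ω - c' = -ω by ring, abs_neg, abs_of_pos hω]; linarith)
      have h5 := hωσ (c' + ω) (by
        rw [show c' + ω - c' = ω by ring, abs_of_pos hω]; linarith)
      rw [abs_lt] at h4 h5 ⊢
      constructor <;> linarith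
    | cast i =>
      rw [hkc]
      have := hgc1 (Fin.castSucc i)
      linarith
  obtain ⟨v0, hv0, hv0S, hv0r⟩ := hEr (fun i => (g * k) (c1 i)) (hc1Cn.map (hΓ.per _ hhΓ)) hhc
  have hh'Γ : v0⁻¹ * (g * k) ∈ Γ := Γ.mul_mem (Γ.inv_mem hv0) hhΓ
  have hh'S : Sm (μ + (ε + s)) (v0⁻¹ * (g * k)) := hv0S.inv.mul hhS
  have hh'c : ∀ i, (v0⁻¹ * (g * k)) (c1 i) = r i := by
    intro i
    rw [mul_app, inv_eq_iff]
    exact (hv0r i).symm
  have hh'a : (v0⁻¹ * (g * k)) a = v0⁻¹ z' := by rw [mul_app, hha]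
  have hfin := coupled_transport hcoup hh'Γ hh'S g0 hg0 (hg0S.mono (by linarith))
    (fun i => by rw [hh'c]; exact hg0fix i)
  rw [hh'a] at hfin
  exact ⟨v0⁻¹ z', lt_of_lt_of_le (hv0S.inv z') hμμ0, hfin⟩


end Pool.Agent.Ghys
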