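import Mathlib
import Pool.Agent.Ghys.Basic

set_option autoImplicit false

namespace Pool.Agent.Ghys

open Filter Topology Set

variable {Γ : Subgroup (ℝ ≃o ℝ)}


/-- the tuple `r` is in the closure of the orbit of `p` -/
def Om8104 (Γ : Subgroup (ℝ ≃o ℝ)) {n : ℕ} (p r : Fin n → ℝ) : Prop :=
  Cn n r ∧ ∀ τ > 0, ∃ g ∈ Γ, ∀ i, |g (p i) - r i| < τ

theorem Om8104.limit (hΓ : Ok Γ) {n : ℕ} {p r' : Fin n → ℝ} (hr' : Cn n r')
    (h : ∀ τ > 0, ∃ r, Om8104 Γ p r ∧ ∃ κ ∈ Γ, ∀ i, |κ (r i) - r' i| < τ) : Om8104 Γ p r' := by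
  refine ⟨hr', fun τ hτ => ?_⟩
  obtain ⟨r, hr, κ, hκ, h1⟩ := h (τ / 2) (by linarith)
  obtain ⟨δ, hδ, h2⟩ := (hΓ.per κ hκ).uc (half_pos hτ)
  obtain ⟨g, hg, h3⟩ := hr.2 δ hδ
  refine ⟨κ * g, Γ.mul_mem hκ hg, fun i => ?_⟩
  rw [mul_app]
  have h4 := h2 _ _ (h3 i)
  have h5 := h1 i
  calc |κ (g (p i)) - r' i| = |(κ (g (p i)) - κ (r i)) + (κ (r i) - r' i)| := by ring_nf
    _ ≤ |κ (g (p i)) - κ (r i)| + |κ (r i) - r' i| := abs_add_le _ _
    _ < τ := by linarith

theorem Cn.between {n : ℕ} {r : Fin n → ℝ} {i : Fin n} {a b t : ℝ}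
    (ha : Cn n (Function.update r i a)) (hb : Cn n (Function.update r i b)) (hat : a ≤ t)
    (htb : t ≤ b) : Cn n (Function.update r i t) := by
  refine ⟨fun j k hjk => ?_, fun j k => ?_⟩
  · have h1 := ha.1 hjk
    have h2 := hb.1 hjk
    simp only [Function.update_apply] at *
    split_ifs at * <;> linarith
  · have h1 := ha.2 j k
    have h2 := hb.2 j k
    simp only [Function.update_apply] at *
    split_ifs at * <;> linarith

theorem Cn.gap {n : ℕ} {r : Fin n → ℝ} {i : Fin n} {t : ℝ}
    (h : Cn n (Function.update r i t)) : ∃ ε > 0, ∀ j ≠ i, ∀ k : ℤ, ε ≤ |r j - t - k| := by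
  have hpos : ∀ j, 0 < (if j = i then (1:ℝ) else |(r j - t) - round (r j - t)|) := by
    intro j
    by_cases hj : j = i
    · simp [hj]
    · rw [if_neg hj]
      rw [abs_pos, sub_ne_zero]
      intro heq
      have h1 : -1 < r j - t ∧ r j - t < 1 ∧ r j - t ≠ 0 := by
        have e1 := h.2 j i
        have e2 := h.2 i j
        simp only [Function.update_apply, if_neg hj, if_true] at e1 e2
        refine ⟨by linarith, by linarith, ?_⟩
        rcases lt_or_gt_of_ne hj with h3 | h3
        · have := h.1 h3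
          simp only [Function.update_apply, if_neg hj, if_true] at this
          linarith
        · have := h.1 h3
          simp only [Function.update_apply, if_neg hj, if_true] at this
          intro h0; linarith
      set k := round (r j - t) with hk
      have h2 : (-1 : ℝ) < (k : ℝ) := by rw [← heq]; exact h1.1
      have h3 : (k : ℝ) < 1 := by rw [← heq]; exact h1.2.1
      have h4 : (-1 : ℤ) < k := by exact_mod_cast h2
      have h5 : k < (1 : ℤ) := by exact_mod_cast h3
      have h6 : k = 0 := by omega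
      apply h1.2.2
      rw [heq, h6]; simp
  obtain ⟨j0, -, hj0⟩ := Finset.exists_min_image Finset.univ
    (fun j => if j = i then (1:ℝ) else |(r j - t) - round (r j - t)|) ⟨i, Finset.mem_univ i⟩
  refine ⟨_, hpos j0, fun j hj k => ?_⟩
  have h1 := hj0 j (Finset.mem_univ j)
  simp only [if_neg hj] at h1
  exact h1.trans (round_le _ _)

theorem Om8104.step (hΓ : Ok Γ) (hU : UpMove Γ) (hD : DownMove Γ) {n : ℕ} {p r : Fin n → ℝ}
    (hr : Om8104 Γ p r) (i : Fin n) {t0 : ℝ} (ht0 : Cn n (Function.update r i t0)) :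
    Om8104 Γ p (Function.update r i t0) := by
  have hself : Function.update r i (r i) = r := Function.update_eq_self i r
  have hri : Cn n (Function.update r i (r i)) := by rw [hself]; exact hr.1
  rcases lt_trichotomy (r i) t0 with hlt | heq | hgt
  · -- up
    set T : Set ℝ := {t | r i ≤ t ∧ t ≤ t0 ∧ Om8104 Γ p (Function.update r i t)} with hT
    have hriT : r i ∈ T := ⟨le_refl _, hlt.le, by rw [hself]; exact hr⟩
    have hbdd : BddAbove T := ⟨t0, fun t ht => ht.2.1⟩
    set t1 := sSup T with ht1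
    have h1 : r i ≤ t1 := le_csSup hbdd hriT
    have h2 : t1 ≤ t0 := csSup_le ⟨_, hriT⟩ fun t ht => ht.2.1
    have hC1 : Cn n (Function.update r i t1) := hri.between ht0 h1 h2
    have hO1 : Om8104 Γ p (Function.update r i t1) := by
      apply Om8104.limit hΓ hC1
      intro τ hτ
      obtain ⟨t, ht, htt⟩ := exists_lt_of_lt_csSup ⟨_, hriT⟩ (sub_lt_self t1 hτ)
      refine ⟨_, ht.2.2, 1, Γ.one_mem, fun j => ?_⟩
      rw [one_app]
      have h3 : t ≤ t1 := le_csSup hbdd ht
      simp only [Function.update_apply]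
      split_ifs
      · rw [abs_lt]; constructor <;> linarith
      · simpa using hτ
    rcases h2.eq_or_lt with h3 | h3
    · rwa [h3] at hO1
    · exfalso
      obtain ⟨ε0, hε0, hε⟩ := hC1.gap
      obtain ⟨w', hw1, hw2, hw3⟩ := hU t1 (min ε0 (t0 - t1)) (lt_min hε0 (by linarith))
      have h4 : w' < t1 + (t0 - t1) := lt_of_lt_of_le hw2 (by gcongr; exact min_le_right _ _)
      have hC2 : Cn n (Function.update r i w') := hC1.between ht0 hw1.le (by linarith)
      have hO2 : Om8104 Γ p (Function.update r i w') := by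
        apply Om8104.limit hΓ hC2
        intro τ hτ
        obtain ⟨κ, hκ, k1, k2⟩ := hw3 τ hτ
        refine ⟨_, hO1, κ, hκ, fun j => ?_⟩
        simp only [Function.update_apply]
        split_ifs with hj
        · exact k1
        · exact k2 _ fun k => (min_le_left _ _).trans (hε j hj k)
      have : w' ≤ t1 := le_csSup hbdd ⟨by linarith, by linarith, hO2⟩
      linarith
  · rw [← heq, hself]; exact hr
  · -- down
    set T : Set ℝ := {t | t0 ≤ t ∧ t ≤ r i ∧ Om8104 Γ p (Function.update r i t)} with hT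
    have hriT : r i ∈ T := ⟨hgt.le, le_refl _, by rw [hself]; exact hr⟩
    have hbdd : BddBelow T := ⟨t0, fun t ht => ht.1⟩
    set t1 := sInf T with ht1
    have h1 : t1 ≤ r i := csInf_le hbdd hriT
    have h2 : t0 ≤ t1 := le_csInf ⟨_, hriT⟩ fun t ht => ht.1
    have hC1 : Cn n (Function.update r i t1) := ht0.between hri h2 h1
    have hO1 : Om8104 Γ p (Function.update r i t1) := by
      apply Om8104.limit hΓ hC1
      intro τ hτ
      obtain ⟨t, ht, htt⟩ := exists_lt_of_csInf_lt ⟨_, hriT⟩ (lt_add_of_pos_right t1 hτ)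
      refine ⟨_, ht.2.2, 1, Γ.one_mem, fun j => ?_⟩
      rw [one_app]
      have h3 : t1 ≤ t := csInf_le hbdd ht
      simp only [Function.update_apply]
      split_ifs
      · rw [abs_lt]; constructor <;> linarith
      · simpa using hτ
    rcases h2.eq_or_lt with h3 | h3
    · rwa [← h3] at hO1
    · exfalso
      obtain ⟨ε0, hε0, hε⟩ := hC1.gap
      obtain ⟨w', hw1, hw2, hw3⟩ := hD t1 (min ε0 (t1 - t0)) (lt_min hε0 (by linarith))
      have h4 : t1 - (t1 - t0) < w' := lt_of_le_of_lt (by gcongr; exact min_le_right _ _) hw2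
      have hC2 : Cn n (Function.update r i w') := ht0.between hC1 (by linarith) hw1.le
      have hO2 : Om8104 Γ p (Function.update r i w') := by
        apply Om8104.limit hΓ hC2
        intro τ hτ
        obtain ⟨κ, hκ, k1, k2⟩ := hw3 τ hτ
        refine ⟨_, hO1, κ, hκ, fun j => ?_⟩
        simp only [Function.update_apply]
        split_ifs with hj
        · exact k1
        · exact k2 _ fun k => (min_le_left _ _).trans (hε j hj k)
      have : t1 ≤ w' := csInf_le hbdd ⟨by linarith, by linarith, hO2⟩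
      linarith

theorem Om8104.nhd (hΓ : Ok Γ) (hU : UpMove Γ) (hD : DownMove Γ) {n : ℕ} {p r : Fin n → ℝ}
    (hr : Om8104 Γ p r) : ∃ μ > 0, ∀ q : Fin n → ℝ, (∀ i, |q i - r i| < μ) → Om8104 Γ p q := by
  obtain ⟨μ, hμ, h⟩ := hr.1.open_nhd
  refine ⟨μ, hμ, fun q hq => ?_⟩
  have key : ∀ s : Finset (Fin n), Om8104 Γ p (fun i => if i ∈ s then q i else r i) := by
    intro s
    induction s using Finset.induction_on with
    | empty => simpa using hr
    | insert a s ha ih =>
      have heq : (fun i => if i ∈ insert a s then q i else r i) =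
          Function.update (fun i => if i ∈ s then q i else r i) a (q a) := by
        funext i
        by_cases hi : i = a
        · subst hi; simp
        · simp [Function.update_apply, hi, Finset.mem_insert]
      have hC : Cn n (fun i => if i ∈ insert a s then q i else r i) := by
        apply h
        intro i
        by_cases hi : i ∈ insert a s
        · simp only [if_pos hi]; exact hq i
        · simp only [if_neg hi, sub_self, abs_zero]; exact hμ
      rw [heq] at hC ⊢
      exact ih.step hΓ hU hD a hC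
  have := key Finset.univ
  simpa using this

theorem convex_Cn8104 (n : ℕ) : Convex ℝ {q : Fin n → ℝ | Cn n q} := by
  intro x hx y hy a b ha hb hab
  refine ⟨fun i j hij => ?_, fun i j => ?_⟩
  · have h1 := hx.1 hij
    have h2 := hy.1 hij
    simp only [Pi.add_apply, Pi.smul_apply, smul_eq_mul]
    rcases ha.eq_or_lt with h0 | h0
    · have : b = 1 := by linarith
      rw [← h0, this]; linarith
    · have h3 := mul_lt_mul_of_pos_left h1 h0
      have h4 := mul_le_mul_of_nonneg_left h2.le hb
      linarith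
  · have h1 := hx.2 i j
    have h2 := hy.2 i j
    simp only [Pi.add_apply, Pi.smul_apply, smul_eq_mul]
    rcases ha.eq_or_lt with h0 | h0
    · have : b = 1 := by linarith
      rw [← h0, this]; linarith
    · have h3 := mul_lt_mul_of_pos_left h1 h0
      have h4 := mul_le_mul_of_nonneg_left h2.le hb
      nlinarith

theorem dense_of_moves (hΓ : Ok Γ) (hU : UpMove Γ) (hD : DownMove Γ) (n : ℕ) : DN Γ n := by
  intro p q hp hq
  have hpO : Om8104 Γ p p := ⟨hp, fun τ hτ => ⟨1, Γ.one_mem, fun i => by simpa [one_app] using hτ⟩⟩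
  have hopen : IsOpen {r : Fin n → ℝ | Om8104 Γ p r} := by
    rw [Metric.isOpen_iff]
    intro r hr
    obtain ⟨μ, hμ, h⟩ := Om8104.nhd hΓ hU hD hr
    refine ⟨μ, hμ, fun q hq => h q fun i => ?_⟩
    rw [Metric.mem_ball, dist_pi_lt_iff hμ] at hq
    have := hq i
    rwa [Real.dist_eq] at this
  have hsub : {r : Fin n → ℝ | Cn n r} ⊆ {r : Fin n → ℝ | Om8104 Γ p r} := by
    apply (convex_Cn8104 n).isPreconnected.subset_of_closure_inter_subset hopen ⟨p, hp, hpO⟩
    rintro r ⟨hr1, hr2⟩
    apply Om8104.limit hΓ hr2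
    intro τ hτ
    rw [Metric.mem_closure_iff] at hr1
    obtain ⟨r1, hr3, hr4⟩ := hr1 τ hτ
    refine ⟨r1, hr3, 1, Γ.one_mem, fun i => ?_⟩
    rw [one_app]
    rw [dist_comm, dist_pi_lt_iff hτ] at hr4
    have := hr4 i
    rwa [Real.dist_eq] at this
  exact (hsub hq).2


end Pool.Agent.Ghys
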