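import Mathlib
import Pool.Agent.Ghys.Basic
import Pool.Agent.Ghys.L_dense_of_moves
import Pool.Agent.Ghys.L_full_of_dense

set_option autoImplicit false

namespace Pool.Agent.Ghys

open Filter Topology Set

variable {Γ : Subgroup (ℝ ≃o ℝ)}

theorem full_of_moves (hΓ : Ok Γ) (hU : UpMove Γ) (hD : DownMove Γ) : Full Γ :=
  full_of_dense hΓ (dense_of_moves hΓ hU hD)

end Pool.Agent.Ghys
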