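import Mathlib
import Pool.Agent.Ghys.Basic

set_option autoImplicit false

namespace Pool.Agent.Ghys

open Filter Topology Set

variable {Γ : Subgroup (ℝ ≃o ℝ)}


theorem EE1_8102 (hE : EE Γ 1) (w : ℝ) {ε : ℝ} (hε : 0 < ε) :
    ∃ η > 0, ∀ t, |t - w| < η → ∃ g ∈ Γ, Sm ε g ∧ g w = t := by
  have hCn : ∀ t : ℝ, Cn 1 (fun _ => t) := by
    intro t
    refine ⟨fun i j hij => ?_, fun i j => ?_⟩
    · exact absurd (Subsingleton.elim i j) (ne_of_lt hij)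
    · show t < t + 1
      linarith
  obtain ⟨η, hη, h⟩ := hE (fun _ => w) (hCn w) ε hε
  refine ⟨η, hη, fun t ht => ?_⟩
  obtain ⟨g, hg, hs, hgw⟩ := h (fun _ => t) (hCn t) (fun _ => ht)
  exact ⟨g, hg, hs, hgw 0⟩

theorem moves_core (hΓ : Ok Γ) (hE : EE Γ 1) (hP : Prox Γ) {b1 b2 z z' : ℝ} (hb : b1 < b2)
    (hb' : b2 < b1 + 1) (hz : b2 ≤ z ∧ z ≤ b1 + 1) (hz' : b2 ≤ z' ∧ z' ≤ b1 + 1) (hne : z ≠ z')
    (H : ∀ δ > 0, ∃ κ ∈ Γ, (∀ x, b1 < x → x < b2 → |κ x - x| < δ) ∧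
      ∃ x, |x - z| < δ ∧ |κ x - z'| < δ) :
    ∀ w ε : ℝ, 0 < ε → ∃ w', |w' - w| < ε ∧ 0 < (w' - w) * (z' - z) ∧ ∀ δ > 0, ∃ κ ∈ Γ,
      |κ w - w'| < δ ∧ ∀ x, (∀ k : ℤ, ε ≤ |x - w - k|) → |κ x - x| < δ := by
  intro w ε hε
  set β : ℝ := (b2 - b1) / 4 with hβdef
  have hβ : 0 < β := by rw [hβdef]; linarith
  have hβ4 : b2 - b1 = 4 * β := by rw [hβdef]; ring
  have hβ1 : 4 * β < 1 := by linarith
  obtain ⟨a, ha⟩ : ∃ a, a = b2 - β := ⟨_, rfl⟩
  obtain ⟨b, hbb⟩ : ∃ b, b = b1 + 1 + β := ⟨_, rfl⟩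
  obtain ⟨η, hη, hEE⟩ := EE1_8102 hE w (show 0 < ε / 4 by linarith)
  obtain ⟨h, hh, hha, hhb⟩ := hP a b (by linarith) (by linarith) (w - min η (ε/4)) (w + min η (ε/4)) (by
    have : 0 < min η (ε/4) := lt_min hη (by linarith)
    linarith)
  have hmin1 : min η (ε/4) ≤ η := min_le_left _ _
  have hmin2 : min η (ε/4) ≤ ε/4 := min_le_right _ _
  have hin : ∀ t, a ≤ t → t ≤ b → w - min η (ε/4) < h t ∧ h t < w + min η (ε/4) := by
    intro t ht1 ht2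
    have e1 := h.monotone ht1
    have e2 := h.monotone ht2
    constructor <;> linarith
  obtain ⟨hz1, hz2⟩ := hin z (by linarith [hz.1]) (by linarith [hz.2])
  obtain ⟨hz1', hz2'⟩ := hin z' (by linarith [hz'.1]) (by linarith [hz'.2])
  obtain ⟨u0, hu0, hu0s, hu0w⟩ := hEE (h z) (by rw [abs_lt]; constructor <;> linarith)
  have hu : u0⁻¹ ∈ Γ := Γ.inv_mem hu0
  have hus : Sm (ε/4) u0⁻¹ := hu0s.inv
  have huz : u0⁻¹ (h z) = w := by rw [← hu0w, inv_app_self]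
  obtain ⟨f, hfdef⟩ : ∃ f, f = u0⁻¹ * h := ⟨_, rfl⟩
  have hf : f ∈ Γ := by rw [hfdef]; exact Γ.mul_mem hu hh
  have hfP : Per f := hΓ.per f hf
  have hfz : f z = w := by rw [hfdef, mul_app, huz]
  have hfin : ∀ t, a ≤ t → t ≤ b → |f t - w| < ε / 2 := by
    intro t ht1 ht2
    obtain ⟨e1, e2⟩ := hin t ht1 ht2
    have e3 := hus (h t)
    rw [hfdef, mul_app]
    rw [abs_lt] at e3 ⊢
    constructor <;> linarith
  refine ⟨f z', ?_, ?_, ?_⟩
  · have := hfin z' (by linarith [hz'.1]) (by linarith [hz'.2])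
    linarith
  · rw [← hfz]
    rcases lt_or_gt_of_ne hne with hlt | hgt
    · have := f.strictMono hlt
      exact mul_pos (by linarith) (by linarith)
    · have := f.strictMono hgt
      exact mul_pos_of_neg_of_neg (by linarith) (by linarith)
  · intro δ hδ
    have hs : 0 < min (ε/4) (δ/2) := lt_min (by linarith) (by linarith)
    have hs1 : min (ε/4) (δ/2) ≤ ε/4 := min_le_left _ _
    have hs2 : min (ε/4) (δ/2) ≤ δ/2 := min_le_right _ _
    obtain ⟨η1, hη1, hEE1⟩ := EE1_8102 hE w hs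
    obtain ⟨ω1, hω1, hf1⟩ := hfP.uc hη1
    obtain ⟨ω2, hω2, hf2⟩ := hfP.uc hδ
    obtain ⟨ω3, hω3, hf3⟩ := hfP.uc (show 0 < δ/2 by linarith)
    obtain ⟨κ0, hκ0, hκ0s, x0, hx0, hx0'⟩ := H (min ω1 (min ω2 ω3)) (lt_min hω1 (lt_min hω2 hω3))
    have hm1 : min ω1 (min ω2 ω3) ≤ ω1 := min_le_left _ _
    have hm2 : min ω1 (min ω2 ω3) ≤ ω2 := (min_le_right _ _).trans (min_le_left _ _)
    have hm3 : min ω1 (min ω2 ω3) ≤ ω3 := (min_le_right _ _).trans (min_le_right _ _)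
    have hκP : Per κ0 := hΓ.per κ0 hκ0
    obtain ⟨v, hv, hvs, hvw⟩ := hEE1 (f x0) (by
      rw [← hfz]
      exact hf1 _ _ (lt_of_lt_of_le hx0 hm1))
    refine ⟨f * κ0 * f⁻¹ * v, Γ.mul_mem (Γ.mul_mem (Γ.mul_mem hf hκ0) (Γ.inv_mem hf)) hv, ?_, ?_⟩
    · rw [mul_app, mul_app, mul_app, hvw, inv_app_self]
      exact hf2 _ _ (lt_of_lt_of_le hx0' hm2)
    · intro x hx
      rw [mul_app, mul_app, mul_app]
      obtain ⟨y0, hy0⟩ : ∃ y0, y0 = f⁻¹ (v x) := ⟨_, rfl⟩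
      rw [← hy0]
      have hvx : f y0 = v x := by rw [hy0, app_inv_self]
      set k : ℤ := ⌊y0 - (b - 1)⌋ with hk
      have hk1 : (k : ℝ) ≤ y0 - (b - 1) := Int.floor_le _
      have hk2 : y0 - (b - 1) < k + 1 := Int.lt_floor_add_one _
      have hvs' := hvs x
      have hya : y0 - k < a := by
        by_contra hcon
        push Not at hcon
        have e1 := hfin (y0 - k) hcon (by linarith)
        rw [hfP.sub_int, hvx] at e1
        have e2 := hx k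
        have e3 : |x - w - k| ≤ |v x - x| + |v x - k - w| := by
          rw [abs_sub_comm (v x) x]
          calc |x - w - k| = |(x - v x) + (v x - k - w)| := by ring_nf
            _ ≤ _ := abs_add_le _ _
        linarith
      have hκy : |κ0 (y0 - k) - (y0 - k)| < min ω1 (min ω2 ω3) :=
        hκ0s (y0 - k) (by linarith) (by linarith)
      rw [hκP.sub_int] at hκy
      have hκy' : |κ0 y0 - y0| < ω3 := by
        have e : κ0 y0 - k - (y0 - k) = κ0 y0 - y0 := by ring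
        rw [e] at hκy
        exact lt_of_lt_of_le hκy hm3
      have e4 := hf3 _ _ hκy'
      rw [hvx] at e4
      calc |f (κ0 y0) - x| = |(f (κ0 y0) - v x) + (v x - x)| := by ring_nf
        _ ≤ |f (κ0 y0) - v x| + |v x - x| := abs_add_le _ _
        _ < δ := by linarith


end Pool.Agent.Ghys
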