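import Mathlib
import Pool.Agent.Ghys.Basic
import Pool.Agent.Ghys.L_moves_core

set_option autoImplicit false

namespace Pool.Agent.Ghys

open Filter Topology Set

variable {Γ : Subgroup (ℝ ≃o ℝ)}


theorem mol_point (hΓ : Ok Γ) {b1 b2 θ : ℝ} (hb : b1 < b2)
    (H : ∀ δ > 0, ∃ κ ∈ Γ, (∀ x, b1 < x → x < b2 → |κ x - x| < δ) ∧ ∃ x, θ ≤ |κ x - x|)
    {δ : ℝ} (hδ : 0 < δ) (hδθ : δ ≤ θ) : ∃ κ ∈ Γ, (∀ x, b1 < x → x < b2 → |κ x - x| < δ) ∧
      ∃ x, b2 ≤ x ∧ x ≤ b1 + 1 ∧ b2 - δ ≤ κ x ∧ κ x ≤ b1 + 1 + δ ∧ θ ≤ |κ x - x| := by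
  obtain ⟨κ, hκ, h1, x0, hx0⟩ := H δ hδ
  obtain ⟨k, hk⟩ : ∃ k : ℤ, k = ⌈x0 - b1⌉ - 1 := ⟨_, rfl⟩
  obtain ⟨x, hx⟩ : ∃ x, x = x0 - k := ⟨_, rfl⟩
  have hk1 : b1 < x := by
    have := Int.ceil_lt_add_one (x0 - b1)
    rw [hx, hk]; push_cast; linarith
  have hk2 : x ≤ b1 + 1 := by
    have := Int.le_ceil (x0 - b1)
    rw [hx, hk]; push_cast; linarith
  have hκx : κ x = κ x0 - k := by rw [hx]; exact (hΓ.per κ hκ).sub_int x0 k
  have hθx : θ ≤ |κ x - x| := by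
    rw [hκx, hx]
    have e : κ x0 - k - (x0 - k) = κ x0 - x0 := by ring
    rw [e]; exact hx0
  have hxb2 : b2 ≤ x := by
    by_contra hcon
    push Not at hcon
    have := h1 x hk1 hcon
    linarith
  refine ⟨κ, hκ, h1, x, hxb2, hk2, ?_, ?_, hθx⟩
  · by_contra hcon
    push Not at hcon
    obtain ⟨y, hy1, hy2⟩ := exists_between (max_lt hb (by linarith : κ x + δ < b2))
    have g1 : b1 < y := lt_of_le_of_lt (le_max_left _ _) hy1
    have g2 : κ x + δ < y := lt_of_le_of_lt (le_max_right _ _) hy1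
    have g3 := (abs_lt.1 (h1 y g1 hy2)).1
    have g4 : κ y ≤ κ x := κ.monotone (by linarith)
    linarith
  · by_contra hcon
    push Not at hcon
    obtain ⟨y, hy1, hy2⟩ := exists_between (lt_min hb (by linarith : b1 < κ x - 1 - δ))
    have g1 : y < b2 := lt_of_lt_of_le hy2 (min_le_left _ _)
    have g2 : y < κ x - 1 - δ := lt_of_lt_of_le hy2 (min_le_right _ _)
    have g3 := (abs_lt.1 (h1 y hy1 g1)).2
    have g4 : κ x ≤ κ (y + 1) := κ.monotone (by linarith)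
    rw [hΓ.per κ hκ y] at g4
    linarith

theorem mol_star (hΓ : Ok Γ) {b1 b2 θ : ℝ} (hb : b1 < b2)
    (hθ : 0 < θ)
    (H : ∀ δ > 0, ∃ κ ∈ Γ, (∀ x, b1 < x → x < b2 → |κ x - x| < δ) ∧ ∃ x, θ ≤ |κ x - x|) :
    ∃ z z' : ℝ, b2 ≤ z ∧ z ≤ b1 + 1 ∧ b2 ≤ z' ∧ z' ≤ b1 + 1 ∧ z ≠ z' ∧
      ∀ δ > 0, ∃ κ ∈ Γ, (∀ x, b1 < x → x < b2 → |κ x - x| < δ) ∧
        ∃ x, |x - z| < δ ∧ |κ x - z'| < δ := by
  obtain ⟨d, hd⟩ : ∃ d : ℕ → ℝ, d = fun m : ℕ => min (min θ 1) (1 / ((m : ℝ) + 1)) := ⟨_, rfl⟩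
  have hd0 : ∀ m, 0 < d m := by
    intro m; rw [hd]; positivity
  have hdθ : ∀ m, d m ≤ θ := by
    intro m; rw [hd]; exact (min_le_left _ _).trans (min_le_left _ _)
  have hd1 : ∀ m, d m ≤ 1 := by
    intro m; rw [hd]; exact (min_le_left _ _).trans (min_le_right _ _)
  have hdm : ∀ m, d m ≤ 1 / ((m : ℝ) + 1) := by
    intro m; rw [hd]; exact min_le_right _ _
  have hdlim : Tendsto d atTop (𝓝 0) :=
    squeeze_zero (fun m => (hd0 m).le) hdm tendsto_one_div_add_atTop_nhds_zero_nat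
  choose κ hκ hκ1 x hx1 hx2 hx3 hx4 hx5 using fun m => mol_point hΓ hb H (hd0 m) (hdθ m)
  obtain ⟨a, ha, φ, hφ, hlim⟩ := ((isCompact_Icc (a := b2) (b := b1 + 1)).prod
    (isCompact_Icc (a := b2 - 1) (b := b1 + 2))).tendsto_subseq
    (x := fun m => (x m, κ m (x m))) (fun m => ⟨⟨hx1 m, hx2 m⟩, by
      have := hd1 m
      exact ⟨by have := hx3 m; linarith, by have := hx4 m; linarith⟩⟩)
  have hl1 : Tendsto (fun m => x (φ m)) atTop (𝓝 a.1) :=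
    (continuous_fst.tendsto a).comp hlim
  have hl2 : Tendsto (fun m => κ (φ m) (x (φ m))) atTop (𝓝 a.2) :=
    (continuous_snd.tendsto a).comp hlim
  have hdφ : Tendsto (fun m => d (φ m)) atTop (𝓝 0) := hdlim.comp hφ.tendsto_atTop
  refine ⟨a.1, a.2, ha.1.1, ha.1.2, ?_, ?_, ?_, ?_⟩
  · have h1 : Tendsto (fun m => κ (φ m) (x (φ m)) + d (φ m)) atTop (𝓝 (a.2 + 0)) := hl2.add hdφ
    rw [add_zero] at h1
    exact ge_of_tendsto' h1 (fun m => by have := hx3 (φ m); linarith)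
  · have h1 : Tendsto (fun m => κ (φ m) (x (φ m)) - d (φ m)) atTop (𝓝 (a.2 - 0)) := hl2.sub hdφ
    rw [sub_zero] at h1
    exact le_of_tendsto' h1 (fun m => by have := hx4 (φ m); linarith)
  · intro hne
    have h1 : Tendsto (fun m => |κ (φ m) (x (φ m)) - x (φ m)|) atTop (𝓝 |a.2 - a.1|) :=
      (hl2.sub hl1).abs
    have h2 : θ ≤ |a.2 - a.1| := ge_of_tendsto' h1 (fun m => hx5 (φ m))
    rw [hne, sub_self, abs_zero] at h2
    linarith
  · intro δ hδ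
    have e1 : ∀ᶠ m in atTop, |x (φ m) - a.1| < δ := by
      have := (Metric.tendsto_nhds.1 hl1) δ hδ
      simpa [Real.dist_eq] using this
    have e2 : ∀ᶠ m in atTop, |κ (φ m) (x (φ m)) - a.2| < δ := by
      have := (Metric.tendsto_nhds.1 hl2) δ hδ
      simpa [Real.dist_eq] using this
    have e3 : ∀ᶠ m in atTop, d (φ m) < δ := hdφ.eventually_lt_const hδ
    obtain ⟨m, h1, h2, h3⟩ := (e1.and (e2.and e3)).exists
    exact ⟨κ (φ m), hκ _, fun y hy1 hy2 => (hκ1 (φ m) y hy1 hy2).trans h3, x (φ m), h1, h2⟩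

theorem moves_of_local (hΓ : Ok Γ) (hE : EE Γ 1) (hP : Prox Γ) {b1 b2 θ : ℝ} (hb : b1 < b2)
    (hθ : 0 < θ)
    (H : ∀ δ > 0, ∃ κ ∈ Γ, (∀ x, b1 < x → x < b2 → |κ x - x| < δ) ∧ ∃ x, θ ≤ |κ x - x|) :
    UpMove Γ ∧ DownMove Γ := by
  obtain ⟨b, hbdef⟩ : ∃ b, b = min b2 (b1 + 1 / 2) := ⟨_, rfl⟩
  have hb1 : b1 < b := by rw [hbdef]; exact lt_min hb (by linarith)
  have hb2 : b < b1 + 1 := by
    rw [hbdef]; exact lt_of_le_of_lt (min_le_right _ _) (by linarith)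
  have hbb : b ≤ b2 := by rw [hbdef]; exact min_le_left _ _
  have H' : ∀ δ > 0, ∃ κ ∈ Γ, (∀ x, b1 < x → x < b → |κ x - x| < δ) ∧ ∃ x, θ ≤ |κ x - x| := by
    intro δ hδ
    obtain ⟨κ, h1, h2, h3⟩ := H δ hδ
    exact ⟨κ, h1, fun x hx1 hx2 => h2 x hx1 (lt_of_lt_of_le hx2 hbb), h3⟩
  obtain ⟨z, z', hz1, hz2, hz1', hz2', hne, hS⟩ := mol_star hΓ hb1 hθ H'
  obtain ⟨c1, hc1⟩ : ∃ c1, c1 = b1 + (b - b1) / 4 := ⟨_, rfl⟩
  obtain ⟨c2, hc2⟩ : ∃ c2, c2 = b - (b - b1) / 4 := ⟨_, rfl⟩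
  have hS' : ∀ δ > 0, ∃ κ ∈ Γ, (∀ x, c1 < x → x < c2 → |κ x - x| < δ) ∧
      ∃ x, |x - z'| < δ ∧ |κ x - z| < δ := by
    intro δ hδ
    obtain ⟨δ0, hδ0⟩ : ∃ δ0, δ0 = min δ ((b - b1) / 8) := ⟨_, rfl⟩
    have hδ00 : 0 < δ0 := by rw [hδ0]; exact lt_min hδ (by linarith)
    have hδ01 : δ0 ≤ δ := by rw [hδ0]; exact min_le_left _ _
    have hδ02 : δ0 ≤ (b - b1) / 8 := by rw [hδ0]; exact min_le_right _ _
    obtain ⟨κ, hκ, h1, x0, hx1, hx2⟩ := hS δ0 hδ00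
    refine ⟨κ⁻¹, Γ.inv_mem hκ, fun x hxl hxr => ?_, κ x0, hx2.trans_le hδ01, ?_⟩
    · obtain ⟨y, hy⟩ : ∃ y, y = κ⁻¹ x := ⟨_, rfl⟩
      have hxy : κ y = x := by rw [hy]; exact app_inv_self κ x
      rw [← hy]
      have g1 := (abs_lt.1 (h1 (c1 - δ0) (by linarith) (by linarith))).2
      have g2 : κ (c1 - δ0) < κ y := by rw [hxy]; linarith
      have g3 : c1 - δ0 < y := κ.lt_iff_lt.1 g2
      have g4 := (abs_lt.1 (h1 (c2 + δ0) (by linarith) (by linarith))).1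
      have g5 : κ y < κ (c2 + δ0) := by rw [hxy]; linarith
      have g6 : y < c2 + δ0 := κ.lt_iff_lt.1 g5
      have g7 := h1 y (by linarith) (by linarith)
      rw [hxy, abs_sub_comm] at g7
      exact g7.trans_le hδ01
    · rw [inv_app_self]
      exact hx1.trans_le hδ01
  have hA := moves_core hΓ hE hP hb1 hb2 ⟨hz1, hz2⟩ ⟨hz1', hz2'⟩ hne hS
  have hB := moves_core hΓ hE hP (b1 := c1) (b2 := c2) (z := z') (z' := z) (by linarith)
    (by linarith) ⟨by linarith, by linarith⟩ ⟨by linarith, by linarith⟩ hne.symm hS'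
  rcases lt_or_gt_of_ne hne with h | h
  · constructor
    · intro w ε hε
      obtain ⟨w', h1, h2, h3⟩ := hA w ε hε
      have h4 : 0 < w' - w := pos_of_mul_pos_left h2 (by linarith)
      exact ⟨w', by linarith, by have := (abs_lt.1 h1).2; linarith, h3⟩
    · intro w ε hε
      obtain ⟨w', h1, h2, h3⟩ := hB w ε hε
      have h4 : w' - w < 0 := by
        by_contra hcon
        push Not at hcon
        have : (w' - w) * (z - z') ≤ 0 := mul_nonpos_of_nonneg_of_nonpos hcon (by linarith)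
        linarith
      exact ⟨w', by linarith, by have := (abs_lt.1 h1).1; linarith, h3⟩
  · constructor
    · intro w ε hε
      obtain ⟨w', h1, h2, h3⟩ := hB w ε hε
      have h4 : 0 < w' - w := pos_of_mul_pos_left h2 (by linarith)
      exact ⟨w', by linarith, by have := (abs_lt.1 h1).2; linarith, h3⟩
    · intro w ε hε
      obtain ⟨w', h1, h2, h3⟩ := hA w ε hε
      have h4 : w' - w < 0 := by
        by_contra hcon
        push Not at hcon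
        have : (w' - w) * (z' - z) ≤ 0 := mul_nonpos_of_nonneg_of_nonpos hcon (by linarith)
        linarith
      exact ⟨w', by linarith, by have := (abs_lt.1 h1).1; linarith, h3⟩


end Pool.Agent.Ghys
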