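import Mathlib
import Pool.Agent.Ghys.Basic
import Pool.Agent.Ghys.L_LC_of_rigid_at
import Pool.Agent.Ghys.L_fix_interval
import Pool.Agent.Ghys.L_moves_of_local
import Pool.Agent.Ghys.L_full_of_moves

set_option autoImplicit false

namespace Pool.Agent.Ghys

open Filter Topology Set

variable {Γ : Subgroup (ℝ ≃o ℝ)}


theorem step7 (hΓ : Ok Γ) {m : ℕ} (hE : EE Γ (m + 2)) (hE2 : EE Γ 2) (hE1 : EE Γ 1)
    (hT1 : TR Γ 1) (hP : Prox Γ) (hN : ¬ LC Γ) (hF : ¬ Full Γ) : MM Γ (m + 2) := by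
  intro p y hpy δ hδ
  by_contra hcon
  have hcon' : ∀ g ∈ Γ, Sm δ g → (∀ i, g (p i) = p i) → g y = y := by
    intro g hg hgs hgp
    by_contra hgy
    exact hcon ⟨g, hg, hgs, hgp, hgy⟩
  obtain ⟨r, b1, b2, δ1, hr, hb, hδ1, hfix⟩ := fix_interval hΓ hE hE2 hE1 hT1 hN p y hpy hδ hcon'
  by_cases hall : ∀ g ∈ Γ, Sm δ1 g → (∀ i, g (r i) = r i) → g = 1
  · exact hN (LC_of_rigid_at hΓ hE r hr hδ1 hall)
  · push Not at hall
    obtain ⟨κ, hκ, hκs, hκr, hκ1⟩ := hall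
    obtain ⟨x0, hx0⟩ : ∃ x, κ x ≠ x := by
      by_contra h
      push Not at h
      exact hκ1 (OrderIso.ext (funext h))
    have hθ : 0 < |κ x0 - x0| := abs_pos.2 (sub_ne_zero.2 hx0)
    obtain ⟨hU, hD⟩ := moves_of_local hΓ hE1 hP hb hθ (fun δ' hδ' => ⟨κ, hκ, fun x h1 h2 => by
      rw [hfix κ hκ hκs hκr x ⟨h1, h2⟩, sub_self, abs_zero]; exact hδ', x0, le_rfl⟩)
    exact hF (full_of_moves hΓ hU hD)


end Pool.Agent.Ghys
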