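import Mathlib
import Pool.Agent.Ghys.Basic

set_option autoImplicit false

namespace Pool.Agent.Ghys

open Filter Topology Set

variable {Γ : Subgroup (ℝ ≃o ℝ)}


theorem claimJ (hΓ : Ok Γ) {n : ℕ} (hE : EE Γ n) (hE1 : EE Γ 1) {ε : ℝ} {σ : ℝ → ℝ}
    (hσ : Approx Γ ε σ) (p : Fin n → ℝ) (hp : Cn n p) (hcv : ∀ i, CV σ (p i)) {d z z' : ℝ}
    (hz : Function.leftLim σ d < z ∧ z < Function.rightLim σ d)
    (hz' : Function.leftLim σ d < z' ∧ z' < Function.rightLim σ d) {ρ : ℝ} (hρ : 0 < ρ) :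
    ∃ κ ∈ Γ, Sm (2 * ε + ρ) κ ∧ (∀ i, κ (p i) = p i) ∧ |κ z - z'| < ρ := by
  classical
  have hmono := hσ.monotone
  choose c hcc hcp using hcv
  obtain ⟨hz1, hz2⟩ := hz
  obtain ⟨hz'1, hz'2⟩ := hz'
  generalize hL : Function.leftLim σ d = L at hz1 hz'1
  generalize hR : Function.rightLim σ d = R at hz2 hz'2
  -- `c` is a configuration
  have hc : Cn n c := by
    refine ⟨fun i j hij => ?_, fun i j => ?_⟩
    · by_contra hcon
      push Not at hcon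
      have h1 := hmono hcon
      rw [hcp, hcp] at h1
      exact absurd (hp.1 hij) (not_lt.2 h1)
    · by_contra hcon
      push Not at hcon
      have h1 := hmono hcon
      rw [hσ.add_one hΓ, hcp, hcp] at h1
      exact absurd (hp.2 i j) (not_lt.2 h1)
  obtain ⟨ρ1, hρ1, hρ1m⟩ := exists_between (show (0:ℝ) < min (ρ / 8) (min (z - L) (R - z)) from
    lt_min (by linarith) (lt_min (by linarith) (by linarith)))
  rw [lt_min_iff, lt_min_iff] at hρ1m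
  obtain ⟨hρ1a, hρ1b, hρ1c⟩ := hρ1m
  obtain ⟨η2, hη2, H2⟩ := hE p hp ρ1 hρ1
  have hrr : ∃ r > 0, ∀ i, |σ (c i - r) - p i| < η2 / 2 ∧ |σ (c i + r) - p i| < η2 / 2 := by
    have h1 : ∀ i, ∃ r > 0, ∀ x, |x - c i| ≤ r → |σ x - p i| < η2 / 2 := by
      intro i
      obtain ⟨r, hr, H⟩ := Metric.continuousAt_iff.1 (hcc i) (η2 / 2) (by linarith)
      refine ⟨r / 2, by linarith, fun x hx => ?_⟩
      have := H (x := x) (by rw [Real.dist_eq]; linarith)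
      rwa [Real.dist_eq, hcp] at this
    choose r hr Hr using h1
    obtain ⟨r0, hr0, hr0'⟩ : ∃ r0 > 0, ∀ i, r0 ≤ r i := by
      by_cases hn : Nonempty (Fin n)
      · obtain ⟨i0, hi0⟩ := Finite.exists_min r
        exact ⟨r i0, hr i0, hi0⟩
      · exact ⟨1, one_pos, fun i => (hn ⟨i⟩).elim⟩
    refine ⟨r0, hr0, fun i => ⟨Hr i _ ?_, Hr i _ ?_⟩⟩
    · have : c i - r0 - c i = -r0 := by ring
      rw [this, abs_neg, abs_of_pos hr0]; exact hr0' i
    · have : c i + r0 - c i = r0 := by ring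
      rw [this, abs_of_pos hr0]; exact hr0' i
  obtain ⟨r, hr, Hr⟩ := hrr
  obtain ⟨s, hs, hs1, hs2⟩ : ∃ s : ℝ, 0 < s ∧ s ≤ ρ1 ∧ s ≤ r / 3 :=
    ⟨min ρ1 (r / 3), lt_min hρ1 (by linarith), min_le_left _ _, min_le_right _ _⟩
  obtain ⟨η1, hη1, H1⟩ := hE1 (fun _ => d) ⟨Subsingleton.strictMono _, fun _ _ => by simp⟩ s hs
  have H1' : ∀ t, |t - d| < η1 → ∃ k ∈ Γ, Sm s k ∧ k d = t := by
    intro t ht
    obtain ⟨k, hk, hk1, hk2⟩ := H1 (fun _ => t)
      ⟨Subsingleton.strictMono _, fun _ _ => by simp⟩ (fun _ => ht)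
    exact ⟨k, hk, hk1, hk2 0⟩
  have hdm : σ (d - η1 / 2) ≤ L := by
    rw [← hL]; exact hmono.le_leftLim (by linarith)
  have hdp : R ≤ σ (d + η1 / 2) := by
    rw [← hR]; exact hmono.rightLim_le (by linarith)
  obtain ⟨τ, hτ, hτm⟩ := exists_between (show (0:ℝ) < min (η2 / 2) (min (z - L - ρ1)
    (min (R - z - ρ1) (min (z' - L) (R - z')))) from
    lt_min (by linarith) (lt_min (by linarith) (lt_min (by linarith)
      (lt_min (by linarith) (by linarith)))))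
  rw [lt_min_iff, lt_min_iff, lt_min_iff, lt_min_iff] at hτm
  obtain ⟨hτ1, hτ2, hτ3, hτ4, hτ5⟩ := hτm
  obtain ⟨g, hg, hg1, hg2⟩ := hσ ((Finset.univ.image c) ∪ (Finset.univ.image (fun i => c i - r)) ∪
    (Finset.univ.image (fun i => c i + r)) ∪ {d - η1 / 2, d + η1 / 2}) τ hτ
  have hgc : ∀ i, |g (c i) - σ (c i)| < τ := fun i => hg2 _ (by simp)
  have hgm : ∀ i, |g (c i - r) - σ (c i - r)| < τ := fun i => hg2 _ (by simp)
  have hgp : ∀ i, |g (c i + r) - σ (c i + r)| < τ := fun i => hg2 _ (by simp)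
  have hgdm : |g (d - η1 / 2) - σ (d - η1 / 2)| < τ := hg2 _ (by simp)
  have hgdp : |g (d + η1 / 2) - σ (d + η1 / 2)| < τ := hg2 _ (by simp)
  rw [abs_lt] at hgdm hgdp
  have hgPer := hΓ.per g hg
  -- the element `v`
  obtain ⟨v, hv, hv1, hv2⟩ := H2 (fun i => g (c i)) (hc.map hgPer) (fun i => by
    have := hgc i
    rw [hcp] at this
    linarith)
  -- the points `x` and `x'`
  have hvz := hv1 z
  rw [abs_lt] at hvz
  have hx1 : d - η1 / 2 < g⁻¹ (v z) := by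
    have : g (d - η1 / 2) < g (g⁻¹ (v z)) := by
      rw [app_inv_self]; linarith
    exact g.lt_iff_lt.1 this
  have hx2 : g⁻¹ (v z) < d + η1 / 2 := by
    have : g (g⁻¹ (v z)) < g (d + η1 / 2) := by
      rw [app_inv_self]; linarith
    exact g.lt_iff_lt.1 this
  have hx'1 : d - η1 / 2 < g⁻¹ z' := by
    have : g (d - η1 / 2) < g (g⁻¹ z') := by
      rw [app_inv_self]; linarith
    exact g.lt_iff_lt.1 this
  have hx'2 : g⁻¹ z' < d + η1 / 2 := by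
    have : g (g⁻¹ z') < g (d + η1 / 2) := by
      rw [app_inv_self]; linarith
    exact g.lt_iff_lt.1 this
  obtain ⟨k1, hk1, hk1s, hk1d⟩ := H1' (g⁻¹ (v z)) (by rw [abs_lt]; constructor <;> linarith)
  obtain ⟨k2, hk2, hk2s, hk2d⟩ := H1' (g⁻¹ z') (by rw [abs_lt]; constructor <;> linarith)
  have hk : (k2 * k1⁻¹) ∈ Γ := Γ.mul_mem hk2 (Γ.inv_mem hk1)
  have hks : Sm (s + s) (k2 * k1⁻¹) := hk2s.mul hk1s.inv
  have hkx : (k2 * k1⁻¹) (g⁻¹ (v z)) = g⁻¹ z' := by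
    rw [mul_app, ← hk1d, inv_app_self, hk2d]
  generalize k2 * k1⁻¹ = k at hk hks hkx
  have hκ0 : g * k * g⁻¹ ∈ Γ := Γ.mul_mem (Γ.mul_mem hg hk) (Γ.inv_mem hg)
  have hκ0s : Sm (s + s + 2 * ε) (g * k * g⁻¹) := hks.conj_small hg1
  have hκ0z : (g * k * g⁻¹) (v z) = z' := by
    rw [mul_app, mul_app, hkx, app_inv_self]
  have hκ0c : ∀ i, |(g * k * g⁻¹) (g (c i)) - p i| < η2 := by
    intro i
    rw [mul_app, mul_app, inv_app_self]
    have h1 := hks (c i)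
    rw [abs_lt] at h1
    have h2 : g (c i - r) < g (k (c i)) := g.strictMono (by linarith)
    have h3 : g (k (c i)) < g (c i + r) := g.strictMono (by linarith)
    have h4 := hgm i
    have h5 := hgp i
    obtain ⟨h6, h7⟩ := Hr i
    rw [abs_lt] at h4 h5 h6 h7 ⊢
    constructor <;> linarith
  obtain ⟨u0, hu0, hu0s, hu0p⟩ := H2 (fun i => (g * k * g⁻¹) (g (c i)))
    ((hc.map hgPer).map (hΓ.per _ hκ0)) hκ0c
  refine ⟨u0⁻¹ * (g * k * g⁻¹) * v, Γ.mul_mem (Γ.mul_mem (Γ.inv_mem hu0) hκ0) hv, ?_, ?_, ?_⟩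
  · refine ((hu0s.inv.mul hκ0s).mul hv1).mono ?_
    linarith
  · intro i
    rw [mul_app, mul_app, hv2, inv_eq_iff]
    exact (hu0p i).symm
  · rw [mul_app, mul_app, hκ0z]
    have := hu0s.inv z'
    linarith


end Pool.Agent.Ghys
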