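import Mathlib
import Pool.Agent.Ghys.Basic
import Pool.Agent.Ghys.L_uc_lemma

set_option autoImplicit false

namespace Pool.Agent.Ghys

open Filter Topology Set

variable {Γ : Subgroup (ℝ ≃o ℝ)}


theorem h399ll (a b : ℝ ≃o ℝ) {f : ℝ → ℝ} (hf : Monotone f) (c : ℝ) :
    Function.leftLim (fun x => a (f (b x))) c = a (Function.leftLim f (b c)) := by
  have h1 : Tendsto (fun x => b x) (𝓝[<] c) (𝓝[<] (b c)) := by
    refine tendsto_nhdsWithin_iff.2 ⟨?_, ?_⟩
    · exact (b.continuous.tendsto c).mono_left nhdsWithin_le_nhds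
    · filter_upwards [self_mem_nhdsWithin] with x hx
      exact b.strictMono hx
  have h2 : Tendsto (fun x => a (f (b x))) (𝓝[<] c) (𝓝 (a (Function.leftLim f (b c)))) :=
    (a.continuous.tendsto _).comp ((hf.tendsto_leftLim (b c)).comp h1)
  exact leftLim_eq_of_tendsto h2

theorem h399rl (a b : ℝ ≃o ℝ) {f : ℝ → ℝ} (hf : Monotone f) (c : ℝ) :
    Function.rightLim (fun x => a (f (b x))) c = a (Function.rightLim f (b c)) := by
  have h1 : Tendsto (fun x => b x) (𝓝[>] c) (𝓝[>] (b c)) := by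
    refine tendsto_nhdsWithin_iff.2 ⟨?_, ?_⟩
    · exact (b.continuous.tendsto c).mono_left nhdsWithin_le_nhds
    · filter_upwards [self_mem_nhdsWithin] with x hx
      exact b.strictMono hx
  have h2 : Tendsto (fun x => a (f (b x))) (𝓝[>] c) (𝓝 (a (Function.rightLim f (b c)))) :=
    (a.continuous.tendsto _).comp ((hf.tendsto_rightLim (b c)).comp h1)
  exact rightLim_eq_of_tendsto h2

theorem jump_at_value (hΓ : Ok Γ) (hE : EE Γ 1) (hT : TR Γ 1) (hN : ¬ LC Γ) (y : ℝ) {ε : ℝ}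
    (hε : 0 < ε) :
    ∃ (σ : ℝ → ℝ) (d : ℝ), Approx Γ ε σ ∧ Function.leftLim σ d = y ∧ y < Function.rightLim σ d := by
  obtain ⟨ε', hε', huc⟩ := uc_lemma hΓ hE hT y hε
  unfold LC at hN
  push Not at hN
  obtain ⟨σ0, hσ0, hnc⟩ := hN ε' hε'
  have hmono := hσ0.monotone
  rw [continuous_iff_continuousAt] at hnc
  push Not at hnc
  obtain ⟨x0, hx0⟩ := hnc
  have hlt : Function.leftLim σ0 x0 < Function.rightLim σ0 x0 := by
    rcases (hmono.leftLim_le_rightLim (le_refl x0)).lt_or_eq with h | h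
    · exact h
    · exact absurd (hmono.continuousAt_iff_leftLim_eq_rightLim.2 h) hx0
  set ℓ := Function.leftLim σ0 x0 with hℓ
  set k := ⌊ℓ⌋ with hk
  have hk1 : (k : ℝ) ≤ ℓ := Int.floor_le ℓ
  have hk2 : ℓ < k + 1 := Int.lt_floor_add_one ℓ
  obtain ⟨v, hv, hvt, hvs⟩ := huc (ℓ - k) ⟨by linarith, by linarith⟩
  have hAp : Approx Γ ε (fun x => v (σ0 (v⁻¹ x))) := hσ0.conj' hΓ hv hvs
  have hfun : (fun x => v (σ0 (v⁻¹ x))) = fun x =>
      ((OrderIso.addRight (-(k : ℝ))).trans v) (σ0 ((v⁻¹.trans (OrderIso.addRight (k : ℝ))) x)) := by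
    funext x
    show v (σ0 (v⁻¹ x)) = v (σ0 (v⁻¹ x + k) + -k)
    rw [hσ0.add_int hΓ]
    congr 1
    ring
  have hb : (v⁻¹.trans (OrderIso.addRight (k : ℝ))) (v (x0 - k)) = x0 := by
    show v⁻¹ (v (x0 - k)) + k = x0
    rw [inv_app_self]
    ring
  refine ⟨fun x => v (σ0 (v⁻¹ x)), v (x0 - k), hAp, ?_, ?_⟩
  · rw [hfun, h399ll _ _ hmono, hb]
    show v (ℓ + -k) = y
    rw [← hvt]
    congr 1
  · rw [hfun, h399rl _ _ hmono, hb]
    show y < v (Function.rightLim σ0 x0 + -k)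
    rw [← hvt]
    apply v.strictMono
    linarith


end Pool.Agent.Ghys
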