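import Mathlib
import Pool.Agent.Ghys.Basic
import Pool.Agent.Ghys.L_jump_at_value

set_option autoImplicit false

namespace Pool.Agent.Ghys

open Filter Topology Set

variable {Γ : Subgroup (ℝ ≃o ℝ)}


theorem cont_pt_8080 {σ : ℝ → ℝ} (hm : Monotone σ) {a b : ℝ} (hab : a < b) :
    ∃ c, ContinuousAt σ c ∧ a < c ∧ c < b := by
  have hd : Dense ({x | ¬ ContinuousAt σ x}ᶜ : Set ℝ) :=
    Set.Countable.dense_compl ℝ hm.countable_not_continuousAt
  obtain ⟨c, hc, hc'⟩ := hd.exists_between hab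
  refine ⟨c, ?_, hc'.1, hc'.2⟩
  by_contra h
  exact hc h

theorem leftLim_comp_8080 {σ : ℝ → ℝ} (hm : Monotone σ) (u : ℝ ≃o ℝ) (d : ℝ) :
    Function.leftLim (fun x => u (σ x)) d = u (Function.leftLim σ d) := by
  exact leftLim_eq_of_tendsto ((u.continuous.tendsto _).comp (hm.tendsto_leftLim d))

theorem rightLim_comp_8080 {σ : ℝ → ℝ} (hm : Monotone σ) (u : ℝ ≃o ℝ) (d : ℝ) :
    Function.rightLim (fun x => u (σ x)) d = u (Function.rightLim σ d) := by
  exact rightLim_eq_of_tendsto ((u.continuous.tendsto _).comp (hm.tendsto_rightLim d))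

theorem claimP6 (hΓ : Ok Γ) {m : ℕ} (hE : EE Γ (m + 1)) (hE1 : EE Γ 1) (hT1 : TR Γ 1)
    (hN : ¬ LC Γ) (q : Fin m → ℝ) (y : ℝ) (hq : Cn (m + 1) (Fin.snoc q y : Fin (m + 1) → ℝ))
    {e : ℝ} (he : 0 < e) :
    ∃ ℓ > 0, ∀ y1, y < y1 → y1 < y + ℓ → ∃ σ, Approx Γ e σ ∧ (∀ i, CV σ (q i)) ∧ CV σ y ∧
      JV σ y1 := by
  obtain ⟨ηE, hηE, HE⟩ := hE _ hq (e / 8) (by positivity)
  obtain ⟨ηo, hηo, Ho⟩ := hq.open_nhd
  set η0 := min ηE ηo with hη0
  have hη0p : 0 < η0 := lt_min hηE hηo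
  set ε := min (e / 8) (η0 / 4) with hε
  have hεp : 0 < ε := lt_min (by positivity) (by positivity)
  have hε1 : ε ≤ e / 8 := min_le_left _ _
  have hε2 : ε ≤ η0 / 4 := min_le_right _ _
  obtain ⟨σ0, d, hσ0, hd1, hd2⟩ := jump_at_value hΓ hE1 hT1 hN y hεp
  have hm0 := hσ0.monotone
  have hc : ∀ i, ∃ c, ContinuousAt σ0 c ∧ q i - ε < c ∧ c < q i + ε := fun i =>
    cont_pt_8080 hm0 (by linarith)
  choose c hc1 hc2 hc3 using hc
  have hr : ∀ i, |σ0 (c i) - q i| < η0 := by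
    intro i
    have h1 := hσ0.abs_le (c i)
    rw [abs_le] at h1
    have h2 := hc2 i
    have h3 := hc3 i
    rw [abs_lt]; constructor <;> linarith
  have hclose : ∀ i, |(Fin.snoc (fun i => σ0 (c i)) y : Fin (m + 1) → ℝ) i -
      (Fin.snoc q y : Fin (m + 1) → ℝ) i| < η0 := by
    intro i
    refine Fin.lastCases ?_ (fun j => ?_) i
    · simpa using hη0p
    · simpa using hr j
  obtain ⟨w, hw, hwS, hwv⟩ := HE _ (Ho _ fun i => lt_of_lt_of_le (hclose i) (min_le_right _ _))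
    (fun i => lt_of_lt_of_le (hclose i) (min_le_left _ _))
  have hwq : ∀ i, w (q i) = σ0 (c i) := fun i => by
    have := hwv i.castSucc
    simpa using this
  have hwy : w y = y := by
    have := hwv (Fin.last m)
    simpa using this
  set u0 : ℝ ≃o ℝ := w⁻¹ with hu0
  have hu0Γ : u0 ∈ Γ := Γ.inv_mem hw
  have hu0S : Sm (e / 8) u0 := hwS.inv
  have hu0y : u0 y = y := by rw [hu0, inv_eq_iff, hwy]
  set σ1 : ℝ → ℝ := fun x => u0 (σ0 x) with hσ1
  have hA1 : Approx Γ (ε + e / 8) σ1 := hσ0.comp_left hΓ hu0Γ hu0S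
  have hm1 := hA1.monotone
  have hcont1 : ∀ i, ContinuousAt σ1 (c i) := fun i =>
    (u0.continuous.continuousAt).comp (hc1 i)
  have hval1 : ∀ i, σ1 (c i) = q i := fun i => by
    show u0 (σ0 (c i)) = q i
    rw [hu0, inv_eq_iff, hwq]
  have hL1 : Function.leftLim σ1 d = y := by
    rw [hσ1, leftLim_comp_8080 hm0, hd1, hu0y]
  obtain ⟨R, hR⟩ : ∃ R, R = Function.rightLim σ1 d := ⟨_, rfl⟩
  have hRy : y < R := by
    have h1 : u0 y < u0 (Function.rightLim σ0 d) := u0.strictMono hd2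
    rw [hu0y] at h1
    rw [hR, hσ1, rightLim_comp_8080 hm0]
    exact h1
  refine ⟨(R - y) / 2, by linarith, fun y1 hy1 hy1' => ?_⟩
  set s := min (e / 8) (min (y1 - y) ((R - y) / 2)) with hs
  have hsp : 0 < s := lt_min (by positivity) (lt_min (by linarith) (by linarith))
  have hs1 : s ≤ e / 8 := min_le_left _ _
  have hs2 : s ≤ y1 - y := (min_le_right _ _).trans (min_le_left _ _)
  have hs3 : s ≤ (R - y) / 2 := (min_le_right _ _).trans (min_le_right _ _)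
  obtain ⟨η1E, hη1E, HE1⟩ := hE _ hq s hsp
  set η1 := min η1E ηo with hη1
  have hη1p : 0 < η1 := lt_min hη1E hηo
  have hev : ∀ᶠ x in 𝓝[<] d, y - η1 < σ1 x := by
    have := hm1.tendsto_leftLim d
    rw [hL1] at this
    exact this.eventually (lt_mem_nhds (by linarith))
  obtain ⟨a, ha, hIoo⟩ := mem_nhdsLT_iff_exists_Ioo_subset.1 hev
  obtain ⟨cc, hcc1, hcc2, hcc3⟩ := cont_pt_8080 hm1 ha
  have hr1 : y - η1 < σ1 cc := hIoo ⟨hcc2, hcc3⟩
  have hr2 : σ1 cc ≤ y := by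
    have := hm1.le_leftLim hcc3
    rwa [hL1] at this
  have hclose2 : ∀ i, |(Fin.snoc q (σ1 cc) : Fin (m + 1) → ℝ) i -
      (Fin.snoc q y : Fin (m + 1) → ℝ) i| < η1 := by
    intro i
    refine Fin.lastCases ?_ (fun j => ?_) i
    · simp only [Fin.snoc_last]
      rw [abs_lt]; constructor <;> linarith
    · simpa using hη1p
  obtain ⟨v0, hv0, hv0S, hv0v⟩ := HE1 _
    (Ho _ fun i => lt_of_lt_of_le (hclose2 i) (min_le_right _ _))
    (fun i => lt_of_lt_of_le (hclose2 i) (min_le_left _ _))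
  have hv0q : ∀ i, v0 (q i) = q i := fun i => by
    have := hv0v i.castSucc
    simpa using this
  have hv0y : v0 y = σ1 cc := by
    have := hv0v (Fin.last m)
    simpa using this
  set v : ℝ ≃o ℝ := v0⁻¹ with hv
  have hvΓ : v ∈ Γ := Γ.inv_mem hv0
  have hvS : Sm s v := hv0S.inv
  refine ⟨fun x => v (σ1 x), (hA1.comp_left hΓ hvΓ hvS).mono (by linarith), fun i => ?_, ?_, ?_⟩
  · refine ⟨c i, (v.continuous.continuousAt).comp (hcont1 i), ?_⟩
    show v (σ1 (c i)) = q i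
    rw [hval1, hv, inv_eq_iff, hv0q]
  · refine ⟨cc, (v.continuous.continuousAt).comp hcc1, ?_⟩
    show v (σ1 cc) = y
    rw [hv, inv_eq_iff, hv0y]
  · refine ⟨d, ?_, ?_⟩
    · rw [leftLim_comp_8080 hm1, hL1]
      have := hvS y
      rw [abs_lt] at this
      linarith
    · rw [rightLim_comp_8080 hm1, ← hR]
      have := hvS R
      rw [abs_lt] at this
      linarith


end Pool.Agent.Ghys
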