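import Mathlib
import Pool.Agent.Ghys.Basic
import Pool.Agent.Ghys.L_claimJ

set_option autoImplicit false

namespace Pool.Agent.Ghys

open Filter Topology Set

variable {Γ : Subgroup (ℝ ≃o ℝ)}


theorem factS_snoc_mk {m : ℕ} (q : Fin m → ℝ) (y : ℝ) (h1 : StrictMono q)
    (h2 : ∀ i j, q i < q j + 1) (h3 : ∀ i, q i < y) (h4 : ∀ i, y < q i + 1) :
    Cn (m + 1) (Fin.snoc q y : Fin (m + 1) → ℝ) := by
  constructor
  · intro a b hab
    induction b using Fin.lastCases with
    | last =>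
      induction a using Fin.lastCases with
      | last => exact absurd hab (lt_irrefl _)
      | cast a => rw [Fin.snoc_castSucc, Fin.snoc_last]; exact h3 a
    | cast b =>
      induction a using Fin.lastCases with
      | last => exact absurd hab (not_lt.mpr (Fin.le_last _))
      | cast a =>
        rw [Fin.snoc_castSucc, Fin.snoc_castSucc]
        exact h1 (Fin.castSucc_lt_castSucc_iff.mp hab)
  · intro a b
    induction b using Fin.lastCases with
    | last =>
      induction a using Fin.lastCases with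
      | last => rw [Fin.snoc_last]; linarith
      | cast a => rw [Fin.snoc_castSucc, Fin.snoc_last]; linarith [h3 a]
    | cast b =>
      induction a using Fin.lastCases with
      | last => rw [Fin.snoc_castSucc, Fin.snoc_last]; exact h4 b
      | cast a => rw [Fin.snoc_castSucc, Fin.snoc_castSucc]; exact h2 a b

theorem factS_left {σ : ℝ → ℝ} (hσ : Monotone σ) (g : ℝ ≃o ℝ) (d : ℝ) :
    Function.leftLim (fun x => g (σ x)) d = g (Function.leftLim σ d) := by
  exact leftLim_eq_of_tendsto ((g.continuous.tendsto _).comp (hσ.tendsto_leftLim d))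

theorem factS_right {σ : ℝ → ℝ} (hσ : Monotone σ) (g : ℝ ≃o ℝ) (d : ℝ) :
    Function.rightLim (fun x => g (σ x)) d = g (Function.rightLim σ d) := by
  exact rightLim_eq_of_tendsto ((g.continuous.tendsto _).comp (hσ.tendsto_rightLim d))

theorem factS (hΓ : Ok Γ) {m : ℕ} (hE : EE Γ (m + 1)) (hE1 : EE Γ 1) {ε : ℝ} {σ : ℝ → ℝ}
    (hσ : Approx Γ ε σ) (p : Fin (m + 1) → ℝ) (y : ℝ)
    (hpy : Cn (m + 2) (Fin.snoc p y : Fin (m + 2) → ℝ)) (hcv : ∀ i : Fin m, CV σ (p i.succ))
    (hcy : CV σ y) (hx : JV σ (p 0)) {ρ : ℝ} (hρ : 0 < ρ) :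
    ∃ η > 0, ∀ y', |y' - y| < η → ∀ τ > 0, ∃ κ ∈ Γ, Sm (2 * ε + ρ) κ ∧ (∀ i, κ (p i) = p i) ∧
      |κ y - y'| < τ := by
  -- basic inequalities
  have hsc : ∀ i : Fin (m + 1), (Fin.snoc p y : Fin (m + 2) → ℝ) i.castSucc = p i :=
    fun i => Fin.snoc_castSucc (α := fun _ => ℝ) _ _ _
  have hsl : (Fin.snoc p y : Fin (m + 2) → ℝ) (Fin.last (m + 1)) = y :=
    Fin.snoc_last (α := fun _ => ℝ) _ _
  have hpm : StrictMono p := by
    intro a b hab
    have := hpy.1 (Fin.castSucc_lt_castSucc_iff.mpr hab)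
    rwa [hsc, hsc] at this
  have hpc : ∀ i j, p i < p j + 1 := by
    intro i j
    have := hpy.2 i.castSucc j.castSucc
    rwa [hsc, hsc] at this
  have hpyl : ∀ i, p i < y := by
    intro i
    have := hpy.1 (Fin.castSucc_lt_last i)
    rwa [hsc, hsl] at this
  have hpyu : ∀ i, y < p i + 1 := by
    intro i
    have := hpy.2 (Fin.last (m + 1)) i.castSucc
    rwa [hsc, hsl] at this
  have hCp : Cn (m + 1) p := ⟨hpm, hpc⟩
  obtain ⟨d, hL, hR⟩ := hx
  set L := Function.leftLim σ d with hLdef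
  set R := Function.rightLim σ d with hRdef
  set t : Fin (m + 1) → ℝ := Fin.snoc (fun i : Fin m => p i.succ) y with ht
  have htc : ∀ i : Fin m, t i.castSucc = p i.succ :=
    fun i => Fin.snoc_castSucc (α := fun _ => ℝ) _ _ _
  have htl : t (Fin.last m) = y := Fin.snoc_last (α := fun _ => ℝ) _ _
  have hCt : Cn (m + 1) t := factS_snoc_mk _ y
    (fun a b hab => hpm (Fin.succ_lt_succ_iff.mpr hab)) (fun i j => hpc _ _)
    (fun i => hpyl _) (fun i => hpyu _)
  have htCV : ∀ i, CV σ (t i) := by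
    intro i
    induction i using Fin.lastCases with
    | last => rw [htl]; exact hcy
    | cast i => rw [htc]; exact hcv i
  -- choice of ζ
  set ζ := min (ρ / 8) (min ((p 0 - L) / 2) ((R - p 0) / 2)) with hζdef
  have hζ : 0 < ζ := by
    refine lt_min (by linarith) (lt_min ?_ ?_)
    · linarith
    · linarith
  have hζ1 : ζ ≤ ρ / 8 := min_le_left _ _
  have hζ2 : ζ < p 0 - L := by
    have : ζ ≤ (p 0 - L) / 2 := (min_le_right _ _).trans (min_le_left _ _)
    linarith
  have hζ3 : ζ < R - p 0 := by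
    have : ζ ≤ (R - p 0) / 2 := (min_le_right _ _).trans (min_le_right _ _)
    linarith
  obtain ⟨η1, hη1, H1⟩ := hE t hCt ζ hζ
  obtain ⟨η2, hη2, H2⟩ := hCt.open_nhd
  refine ⟨min η1 η2, lt_min hη1 hη2, ?_⟩
  intro y' hy' τ hτ
  set t' : Fin (m + 1) → ℝ := Fin.snoc (fun i : Fin m => p i.succ) y' with ht'
  have htc' : ∀ i : Fin m, t' i.castSucc = p i.succ :=
    fun i => Fin.snoc_castSucc (α := fun _ => ℝ) _ _ _
  have htl' : t' (Fin.last m) = y' := Fin.snoc_last (α := fun _ => ℝ) _ _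
  have hclose : ∀ i, |t' i - t i| < min η1 η2 := by
    intro i
    induction i using Fin.lastCases with
    | last => rw [htl, htl']; exact hy'
    | cast i => rw [htc, htc', sub_self, abs_zero]; exact lt_min hη1 hη2
  have hCt' : Cn (m + 1) t' := H2 t' (fun i => lt_of_lt_of_le (hclose i) (min_le_right _ _))
  obtain ⟨g0, hg0, hg0s, hg0t⟩ := H1 t' hCt' (fun i => lt_of_lt_of_le (hclose i) (min_le_left _ _))
  have hσ' : Approx Γ (ε + ζ) (fun x => g0 (σ x)) := hσ.comp_left hΓ hg0 hg0s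
  have hCV' : ∀ i, CV (fun x => g0 (σ x)) (t' i) := by
    intro i
    obtain ⟨c, hc1, hc2⟩ := htCV i
    exact ⟨c, g0.continuous.continuousAt.comp hc1, by show g0 (σ c) = t' i; rw [hc2]; exact hg0t i⟩
  have hl' := factS_left hσ.monotone g0 d
  have hr' := factS_right hσ.monotone g0 d
  rw [← hLdef] at hl'
  rw [← hRdef] at hr'
  have hz : Function.leftLim (fun x => g0 (σ x)) d < g0 (p 0) ∧
      g0 (p 0) < Function.rightLim (fun x => g0 (σ x)) d := by
    rw [hl', hr']
    exact ⟨g0.strictMono hL, g0.strictMono hR⟩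
  have hz' : Function.leftLim (fun x => g0 (σ x)) d < p 0 ∧
      p 0 < Function.rightLim (fun x => g0 (σ x)) d := by
    rw [hl', hr']
    have h1 := abs_lt.mp (hg0s L)
    have h2 := abs_lt.mp (hg0s R)
    constructor
    · linarith [h1.2]
    · linarith [h2.1]
  obtain ⟨η3, hη3, H3⟩ := hE p hCp (min ζ τ) (lt_min hζ hτ)
  obtain ⟨κ1, hκ1, hκ1s, hκ1t, hκ1z⟩ := claimJ hΓ hE hE1 hσ' t' hCt' hCV' hz hz'
    (ρ := min (ρ / 8) η3) (lt_min (by linarith) hη3)
  have hq0 : ∀ j : Fin m, κ1 (g0 (p j.succ)) = p j.succ := by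
    intro j
    have h1 := hg0t j.castSucc
    rw [htc, htc'] at h1
    have h2 := hκ1t j.castSucc
    rw [htc'] at h2
    rw [h1, h2]
  have hCq : Cn (m + 1) (fun i => κ1 (g0 (p i))) :=
    (hCp.map (hΓ.per g0 hg0)).map (hΓ.per κ1 hκ1)
  obtain ⟨w0, hw0, hw0s, hw0p⟩ := H3 _ hCq (by
    intro i
    induction i using Fin.cases with
    | zero => exact lt_of_lt_of_le hκ1z (min_le_right _ _)
    | succ j =>
      show |κ1 (g0 (p j.succ)) - p j.succ| < η3
      rw [hq0 j, sub_self, abs_zero]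
      exact hη3)
  refine ⟨w0⁻¹ * κ1 * g0, Γ.mul_mem (Γ.mul_mem (Γ.inv_mem hw0) hκ1) hg0, ?_, ?_, ?_⟩
  · have h1 := (hw0s.inv.mul hκ1s).mul hg0s
    refine h1.mono ?_
    have h2 : min ζ τ ≤ ζ := min_le_left _ _
    have h3 : min (ρ / 8) η3 ≤ ρ / 8 := min_le_left _ _
    linarith
  · intro i
    rw [mul_app, mul_app, inv_eq_iff]
    exact (hw0p i).symm
  · rw [mul_app, mul_app]
    have h1 := hg0t (Fin.last m)
    rw [htl, htl'] at h1
    have h2 := hκ1t (Fin.last m)
    rw [htl'] at h2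
    rw [h1, h2]
    exact lt_of_lt_of_le (hw0s.inv y') (min_le_right _ _)


end Pool.Agent.Ghys
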