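import Mathlib
import Pool.Agent.Ghys.Basic

set_option autoImplicit false

namespace Pool.Agent.Ghys

open Filter Topology Set

variable {Γ : Subgroup (ℝ ≃o ℝ)}


theorem value_cases (hΓ : Ok Γ) {ε : ℝ} {σ : ℝ → ℝ} (hσ : Approx Γ ε σ) (z : ℝ) :
    CV σ z ∨ JV σ z ∨ ∃ d, Function.leftLim σ d < Function.rightLim σ d ∧
      (z = Function.leftLim σ d ∨ z = Function.rightLim σ d) := by
  have hm : Monotone σ := hσ.monotone
  have hab := hσ.abs_le
  have hne : ({x | σ x < z} : Set ℝ).Nonempty := by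
    refine ⟨z - ε - 1, ?_⟩
    have h := hab (z - ε - 1)
    rw [abs_le] at h
    show σ (z - ε - 1) < z
    linarith [h.2]
  have hbd : BddAbove ({x | σ x < z} : Set ℝ) := by
    refine ⟨z + ε, fun x hx => ?_⟩
    have h := hab x
    rw [abs_le] at h
    have hx' : σ x < z := hx
    linarith [h.1]
  set d := sSup {x | σ x < z} with hd
  have hL : Function.leftLim σ d ≤ z := by
    rw [hm.leftLim_eq_sSup]
    apply csSup_le
    · exact ⟨σ (d - 1), d - 1, by simp, rfl⟩
    · rintro _ ⟨x, hx, rfl⟩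
      obtain ⟨s, hs, hxs⟩ := exists_lt_of_lt_csSup hne (show x < d from hx)
      have hs' : σ s < z := hs
      exact (hm hxs.le).trans hs'.le
  have hR : z ≤ Function.rightLim σ d := by
    rw [hm.rightLim_eq_sInf]
    apply le_csInf
    · exact ⟨σ (d + 1), d + 1, by simp, rfl⟩
    · rintro _ ⟨x, hx, rfl⟩
      by_contra hcon
      rw [not_le] at hcon
      have h1 : x ≤ d := le_csSup hbd hcon
      have h2 : d < x := hx
      linarith
  have h1 : Function.leftLim σ d ≤ σ d := hm.leftLim_le le_rfl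
  have h2 : σ d ≤ Function.rightLim σ d := hm.le_rightLim le_rfl
  by_cases hc : Function.leftLim σ d = Function.rightLim σ d
  · left
    refine ⟨d, hm.continuousAt_iff_leftLim_eq_rightLim.2 hc, ?_⟩
    linarith
  · have hlt : Function.leftLim σ d < Function.rightLim σ d :=
      lt_of_le_of_ne (h1.trans h2) hc
    right
    by_cases hz1 : z = Function.leftLim σ d
    · exact Or.inr ⟨d, hlt, Or.inl hz1⟩
    · by_cases hz2 : z = Function.rightLim σ d
      · exact Or.inr ⟨d, hlt, Or.inr hz2⟩
      · exact Or.inl ⟨d, lt_of_le_of_ne hL (Ne.symm hz1), lt_of_le_of_ne hR hz2⟩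


end Pool.Agent.Ghys
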