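import Mathlib
import Pool.Agent.Ghys.Basic
import Pool.Agent.Ghys.L_claimJ
import Pool.Agent.Ghys.L_factS
import Pool.Agent.Ghys.L_claimP6
import Pool.Agent.Ghys.L_value_cases
import Pool.Agent.Ghys.L_LD_of_fibre
import Pool.Agent.Ghys.L_MM_inj

set_option autoImplicit false

namespace Pool.Agent.Ghys

open Filter Topology Set

variable {Γ : Subgroup (ℝ ≃o ℝ)}


theorem FLD.mono {n : ℕ} {p : Fin n → ℝ} {y e e' : ℝ} (h : FLD Γ p y e) (hee : e ≤ e') :
    FLD Γ p y e' := by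
  obtain ⟨η, hη, H⟩ := h
  refine ⟨η, hη, fun y' hy' τ hτ => ?_⟩
  obtain ⟨κ, hκ, h1, h2, h3⟩ := H y' hy' τ hτ
  exact ⟨κ, hκ, h1.mono hee, h2, h3⟩

theorem FLD.transport (hΓ : Ok Γ) {n : ℕ} {p : Fin n → ℝ} {y e δ : ℝ} {g : ℝ ≃o ℝ} (hg : g ∈ Γ)
    (hs : Sm δ g) (hf : ∀ i, g (p i) = p i) (h : FLD Γ p (g y) (e - 2 * δ)) : FLD Γ p y e := by
  obtain ⟨η, hη, H⟩ := h
  obtain ⟨η', hη', H'⟩ := (hΓ.per g hg).uc hη
  refine ⟨η', hη', fun y' hy' τ hτ => ?_⟩
  obtain ⟨τ', hτ', H2⟩ := (hΓ.per g⁻¹ (Γ.inv_mem hg)).uc hτ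
  obtain ⟨κ, hκ, h1, h2, h3⟩ := H (g y') (H' _ _ hy') τ' hτ'
  have hc := Sm.conj_small h1 hs.inv
  rw [inv_inv] at hc
  refine ⟨g⁻¹ * κ * g, Γ.mul_mem (Γ.mul_mem (Γ.inv_mem hg) hκ) hg, hc.mono (by linarith),
    fun i => ?_, ?_⟩
  · rw [mul_app, mul_app, hf i, h2 i, inv_eq_iff, hf i]
  · have := H2 _ _ h3
    rw [inv_app_self] at this
    rwa [mul_app, mul_app]

theorem Cn.ne_add_int {n : ℕ} {P : Fin n → ℝ} (h : Cn n P) {i j : Fin n} (hij : i ≠ j) (k : ℤ) :
    P i ≠ P j + k := by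
  intro he
  have h1 := h.2 i j
  have h2 := h.2 j i
  have hk1 : (k : ℝ) < 1 := by linarith
  have hk2 : (-1 : ℝ) < k := by linarith
  have hk1' : k < 1 := by exact_mod_cast hk1
  have hk2' : -1 < k := by exact_mod_cast hk2
  have hk : k = 0 := by omega
  subst hk
  apply hij
  apply h.1.injective
  simpa using he

theorem leftLim_comp {σ : ℝ → ℝ} (hσ : Monotone σ) (u : ℝ ≃o ℝ) (d : ℝ) :
    Function.leftLim (fun x => u (σ x)) d = u (Function.leftLim σ d) := by
  have h1 : Tendsto (fun x => u (σ x)) (𝓝[<] d) (𝓝 (Function.leftLim (fun x => u (σ x)) d)) :=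
    Monotone.tendsto_leftLim (fun a b hab => u.monotone (hσ hab)) d
  have h2 : Tendsto (fun x => u (σ x)) (𝓝[<] d) (𝓝 (u (Function.leftLim σ d))) :=
    (u.continuous.tendsto _).comp (hσ.tendsto_leftLim d)
  exact tendsto_nhds_unique h1 h2

theorem rightLim_comp {σ : ℝ → ℝ} (hσ : Monotone σ) (u : ℝ ≃o ℝ) (d : ℝ) :
    Function.rightLim (fun x => u (σ x)) d = u (Function.rightLim σ d) := by
  have h1 : Tendsto (fun x => u (σ x)) (𝓝[>] d) (𝓝 (Function.rightLim (fun x => u (σ x)) d)) :=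
    Monotone.tendsto_rightLim (fun a b hab => u.monotone (hσ hab)) d
  have h2 : Tendsto (fun x => u (σ x)) (𝓝[>] d) (𝓝 (u (Function.rightLim σ d))) :=
    (u.continuous.tendsto _).comp (hσ.tendsto_rightLim d)
  exact tendsto_nhds_unique h1 h2

theorem CV.comp {σ : ℝ → ℝ} {z : ℝ} (h : CV σ z) (u : ℝ ≃o ℝ) (hu : u z = z) :
    CV (fun x => u (σ x)) z := by
  obtain ⟨c, hc, hz⟩ := h
  refine ⟨c, ?_, ?_⟩
  · exact ContinuousAt.comp (g := u) u.continuous.continuousAt hc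
  · show u (σ c) = z
    rw [hz, hu]

theorem step8 (hΓ : Ok Γ) {m : ℕ} (hE : EE Γ (m + 1)) (hE1 : EE Γ 1) (hT1 : TR Γ 1)
    (hM : MM Γ (m + 1)) (hN : ¬ LC Γ) : LD Γ (m + 2) := by
  refine LD_of_fibre hΓ hE ?_
  intro p y hpy e he
  by_contra hno
  set e0 : ℝ := e / 16 with he0
  have he0p : 0 < e0 := by positivity
  set q : Fin m → ℝ := fun i => p i.succ with hq
  have hsnoc : ∀ j : Fin (m + 1), (Fin.snoc q y : Fin (m + 1) → ℝ) j =
      (Fin.snoc p y : Fin (m + 2) → ℝ) j.succ := by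
    intro j
    refine Fin.lastCases ?_ (fun i => ?_) j
    · rw [Fin.snoc_last, Fin.succ_last, Fin.snoc_last]
    · rw [Fin.snoc_castSucc, Fin.succ_castSucc, Fin.snoc_castSucc]
  have hp0 : (Fin.snoc p y : Fin (m + 2) → ℝ) 0 = p 0 := by
    have : (0 : Fin (m + 2)) = Fin.castSucc (0 : Fin (m + 1)) := rfl
    rw [this, Fin.snoc_castSucc]
  have hCq : Cn (m + 1) (Fin.snoc q y : Fin (m + 1) → ℝ) := by
    refine ⟨fun i j hij => ?_, fun i j => ?_⟩
    · rw [hsnoc, hsnoc]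
      exact hpy.1 (Fin.succ_lt_succ_iff.2 hij)
    · rw [hsnoc, hsnoc]
      exact hpy.2 _ _
  have hCp : Cn (m + 1) p := by
    refine ⟨fun i j hij => ?_, fun i j => ?_⟩
    · have := hpy.1 (show Fin.castSucc i < Fin.castSucc j from hij)
      rwa [Fin.snoc_castSucc, Fin.snoc_castSucc] at this
    · have := hpy.2 (Fin.castSucc i) (Fin.castSucc j)
      rwa [Fin.snoc_castSucc, Fin.snoc_castSucc] at this
  obtain ⟨ℓ, hℓ, H6⟩ := claimP6 hΓ hE hE1 hT1 hN q y hCq he0p
  obtain ⟨g, hg, hgs, hgf, hgy⟩ : ∃ g ∈ Γ, Sm (min e0 ℓ) g ∧ (∀ i, g (p i) = p i) ∧ y < g y := by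
    obtain ⟨g, hg, hgs, hgf, hgy⟩ := hM p y hpy (min e0 ℓ) (lt_min he0p hℓ)
    rcases lt_or_gt_of_ne hgy with h | h
    · refine ⟨g⁻¹, Γ.inv_mem hg, hgs.inv, fun i => ?_, ?_⟩
      · rw [inv_eq_iff, hgf i]
      · have := g⁻¹.strictMono h
        rwa [inv_app_self] at this
    · exact ⟨g, hg, hgs, hgf, h⟩
  have hgy2 : g y < y + ℓ := by
    have := hgs y
    rw [abs_lt] at this
    have h2 := min_le_right e0 ℓ
    linarith [this.2]
  obtain ⟨σ, hσ, hcq, hcy, d1, hd1, hd2⟩ := H6 (g y) hgy hgy2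
  rcases value_cases hΓ hσ (p 0) with h0 | h0 | ⟨d, hLR, h0⟩
  · have hcv : ∀ i : Fin (m + 1), CV σ (p i) := fun i => Fin.cases h0 (fun j => hcq j) i
    apply hno
    refine FLD.transport hΓ hg hgs hgf ?_
    have hF : FLD Γ p (g y) (3 * e0) := by
      refine ⟨min (g y - Function.leftLim σ d1) (Function.rightLim σ d1 - g y),
        lt_min (by linarith) (by linarith), fun y' hy' τ hτ => ?_⟩
      have ha := lt_of_lt_of_le hy' (min_le_left _ _)
      have hb := lt_of_lt_of_le hy' (min_le_right _ _)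
      rw [abs_lt] at ha hb
      obtain ⟨κ, hκ, h1, h2, h3⟩ := claimJ hΓ hE hE1 hσ p hCp hcv (z := g y) (z' := y')
        ⟨hd1, hd2⟩ ⟨by linarith [ha.1], by linarith [hb.2]⟩ (ρ := min τ e0) (lt_min hτ he0p)
      refine ⟨κ, hκ, h1.mono ?_, h2, lt_of_lt_of_le h3 (min_le_left _ _)⟩
      have := min_le_right τ e0
      linarith
    refine hF.mono ?_
    have := min_le_left e0 ℓ
    linarith
  · apply hno
    have hF : FLD Γ p y (2 * e0 + e0) := factS hΓ hE hE1 hσ p y hpy hcq hcy h0 he0p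
    exact hF.mono (by linarith)
  · set L := Function.leftLim σ d with hL
    set R := Function.rightLim σ d with hR
    set δ' : ℝ := min e0 (R - L) with hδ'
    have hδp : 0 < δ' := lt_min he0p (by linarith)
    have hδ1 : δ' ≤ e0 := min_le_left _ _
    have hδ2 : δ' ≤ R - L := min_le_right _ _
    have fin : ∀ u ∈ Γ, Sm δ' u → (∀ i : Fin (m + 1), u ((Fin.snoc q y : Fin (m + 1) → ℝ) i) =
        (Fin.snoc q y : Fin (m + 1) → ℝ) i) → u L < p 0 → p 0 < u R → False := by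
      intro u hu hus huf huL huR
      have huq : ∀ i : Fin m, u (p i.succ) = p i.succ := by
        intro i
        have := huf (Fin.castSucc i)
        rwa [Fin.snoc_castSucc] at this
      have huy : u y = y := by
        have := huf (Fin.last m)
        rwa [Fin.snoc_last] at this
      have hσ' := Approx.comp_left hΓ hσ hu hus
      have hF : FLD Γ p y (2 * (e0 + δ') + e0) := by
        refine factS hΓ hE hE1 hσ' p y hpy (fun i => (hcq i).comp u (huq i)) (hcy.comp u huy) ?_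
          he0p
        refine ⟨d, ?_, ?_⟩
        · rw [leftLim_comp hσ.monotone]; exact huL
        · rw [rightLim_comp hσ.monotone]; exact huR
      exact hno (hF.mono (by linarith))
    have hIM : IM (Fin.snoc q y : Fin (m + 1) → ℝ) := fun i j hij k => hCq.ne_add_int hij k
    have hw : ∀ (i : Fin (m + 1)) (k : ℤ), p 0 ≠ (Fin.snoc q y : Fin (m + 1) → ℝ) i + k := by
      intro i k
      have := hpy.ne_add_int (i := 0) (j := i.succ) (Fin.succ_ne_zero i).symm k
      rwa [hp0, ← hsnoc] at this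
    obtain ⟨u, hu, hus, huf, hup⟩ := MM_inj hΓ hM (Fin.snoc q y : Fin (m + 1) → ℝ) hIM (p 0) hw hδp
    have hinvf : ∀ i : Fin (m + 1), u⁻¹ ((Fin.snoc q y : Fin (m + 1) → ℝ) i) =
        (Fin.snoc q y : Fin (m + 1) → ℝ) i := fun i => by rw [inv_eq_iff, huf i]
    rcases h0 with h0 | h0
    · -- p 0 = L
      have key : ∀ v ∈ Γ, Sm δ' v → (∀ i : Fin (m + 1), v ((Fin.snoc q y : Fin (m + 1) → ℝ) i) =
        (Fin.snoc q y : Fin (m + 1) → ℝ) i) → v (p 0) < p 0 → False := by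
        intro v hv hvs hvf hvp
        refine fin v hv hvs hvf (by rw [← h0]; exact hvp) ?_
        have := hvs R
        rw [abs_lt] at this
        rw [h0]
        linarith [this.1]
      rcases lt_or_gt_of_ne hup with h | h
      · exact key u hu hus huf h
      · refine key u⁻¹ (Γ.inv_mem hu) hus.inv hinvf ?_
        have := u⁻¹.strictMono h
        rwa [inv_app_self] at this
    · have key : ∀ v ∈ Γ, Sm δ' v → (∀ i : Fin (m + 1), v ((Fin.snoc q y : Fin (m + 1) → ℝ) i) =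
        (Fin.snoc q y : Fin (m + 1) → ℝ) i) → p 0 < v (p 0) → False := by
        intro v hv hvs hvf hvp
        refine fin v hv hvs hvf ?_ (by rw [← h0]; exact hvp)
        have := hvs L
        rw [abs_lt] at this
        rw [h0]
        linarith [this.2]
      rcases lt_or_gt_of_ne hup with h | h
      · refine key u⁻¹ (Γ.inv_mem hu) hus.inv hinvf ?_
        have := u⁻¹.strictMono h
        rwa [inv_app_self] at this
      · exact key u hu hus huf h


end Pool.Agent.Ghys
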