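import Mathlib
import Pool.Agent.Ghys.Basic
import Pool.Agent.Ghys.L_step7
import Pool.Agent.Ghys.L_step8
import Pool.Agent.Ghys.L_EE_of_LD
import Pool.Agent.Ghys.L_LD_of_TR
import Pool.Agent.Ghys.L_TR_of_EE
import Pool.Agent.Ghys.L_prox_of
import Pool.Agent.Ghys.L_full_of_dense

set_option autoImplicit false

namespace Pool.Agent.Ghys

open Filter Topology Set

variable {Γ : Subgroup (ℝ ≃o ℝ)}

theorem DN_of_TR {n : ℕ} (h : TR Γ n) : DN Γ n := by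
  intro p q hp hq τ hτ
  obtain ⟨g, hg, h1⟩ := h p q hp hq
  exact ⟨g, hg, fun i => by rw [h1 i]; simpa using hτ⟩

theorem full_of_TR (hΓ : Ok Γ) (h : ∀ n, TR Γ (n + 1)) : Full Γ := by
  refine full_of_dense hΓ fun n => ?_
  rcases n with _ | n
  · intro p q _ _ τ hτ
    exact ⟨1, Γ.one_mem, fun i => i.elim0⟩
  · exact DN_of_TR (h n)

theorem nlc_main (hΓ : Ok Γ) (hT : TR Γ 1) (hM : MM Γ 1) (hN : ¬ LC Γ) : Full Γ := by
  by_contra hF
  have hE1 : EE Γ 1 := EE_of_LD hΓ (LD_of_TR hΓ hT)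
  have hP : Prox Γ := prox_of hΓ hE1 hT hM
  have hE2 : EE Γ 2 := EE_of_LD hΓ (step8 (m := 0) hΓ hE1 hE1 hT hM hN)
  have key : ∀ n, EE Γ (n + 1) ∧ MM Γ (n + 1) := by
    intro n
    induction n with
    | zero => exact ⟨hE1, hM⟩
    | succ n ih =>
      have hE : EE Γ (n + 2) := EE_of_LD hΓ (step8 (m := n) hΓ ih.1 hE1 hT ih.2 hN)
      exact ⟨hE, step7 (m := n) hΓ hE hE2 hE1 hT hP hN hF⟩
  exact hF (full_of_TR hΓ fun n => TR_of_EE (key n).1)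

end Pool.Agent.Ghys
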