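import Mathlib
import Pool.Agent.Ghys.Basic
import Pool.Agent.Ghys.L_sort_lemma

set_option autoImplicit false

namespace Pool.Agent.Ghys

open Filter Topology Set

variable {Γ : Subgroup (ℝ ≃o ℝ)}


theorem Rigid_inj (hΓ : Ok Γ) {n : ℕ} (hR : Rigid Γ n) (x : Fin n → ℝ) (hx : IM x) :
    ∃ δ > 0, ∀ g ∈ Γ, Sm δ g → (∀ i, g (x i) = x i) → g = 1 := by
  obtain ⟨w, hw⟩ : ∃ w : ℝ, ∀ i, ∀ k : ℤ, w ≠ x i + k := by
    have hc : (Set.range (fun q : Fin n × ℤ => x q.1 + q.2)).Countable := Set.countable_range _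
    obtain ⟨w, hw⟩ := (hc.dense_compl ℝ).nonempty
    exact ⟨w, fun i k h => hw ⟨(i, k), h.symm⟩⟩
  obtain ⟨π, k, hC⟩ := sort_lemma x hx w hw
  have hCp : Cn n (fun j => x (π j) + k j) := by
    refine ⟨fun i j hij => ?_, fun i j => ?_⟩
    · have h1 := hC.1 (show i.castSucc < j.castSucc from hij)
      rw [Fin.snoc_castSucc, Fin.snoc_castSucc] at h1
      exact h1
    · have h1 := hC.2 i.castSucc j.castSucc
      rw [Fin.snoc_castSucc, Fin.snoc_castSucc] at h1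
      exact h1
  obtain ⟨δ, hδ, H⟩ := hR _ hCp
  refine ⟨δ, hδ, fun g hg hs hfix => H g hg hs fun j => ?_⟩
  rw [(hΓ.per g hg).add_int, hfix]


end Pool.Agent.Ghys
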