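import Mathlib
import Pool.Agent.Ghys.Basic

set_option autoImplicit false

namespace Pool.Agent.Ghys

open Filter Topology Set

variable {Γ : Subgroup (ℝ ≃o ℝ)}



theorem affSC_ivt (f : ℝ ≃o ℝ) {a b : ℝ} (hab : a < b) (ha : a < f a) (hb : f b < b) :
    ∃ c, a < c ∧ c < b ∧ f c = c := by
  have hcont : ContinuousOn (fun x => f x - x) (Icc a b) :=
    (f.continuous.sub continuous_id).continuousOn
  have h0 : (0 : ℝ) ∈ Icc (f b - b) (f a - a) := ⟨by linarith, by linarith⟩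
  obtain ⟨c, hc, hc0⟩ := intermediate_value_Icc' hab.le hcont h0
  have hfc : f c = c := by simpa [sub_eq_zero] using hc0
  refine ⟨c, lt_of_le_of_ne hc.1 ?_, lt_of_le_of_ne hc.2 ?_, hfc⟩
  · rintro rfl; exact absurd hfc ha.ne'
  · rintro rfl; exact absurd hfc hb.ne

theorem affSC_ivt' (f : ℝ ≃o ℝ) {a b : ℝ} (hab : a < b) (ha : f a < a) (hb : b < f b) :
    ∃ c, a < c ∧ c < b ∧ f c = c := by
  have hcont : ContinuousOn (fun x => f x - x) (Icc a b) :=
    (f.continuous.sub continuous_id).continuousOn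
  have h0 : (0 : ℝ) ∈ Icc (f a - a) (f b - b) := ⟨by linarith, by linarith⟩
  obtain ⟨c, hc, hc0⟩ := intermediate_value_Icc hab.le hcont h0
  have hfc : f c = c := by simpa [sub_eq_zero] using hc0
  refine ⟨c, lt_of_le_of_ne hc.1 ?_, lt_of_le_of_ne hc.2 ?_, hfc⟩
  · rintro rfl; exact absurd hfc ha.ne
  · rintro rfl; exact absurd hfc hb.ne'

theorem affSC_pow (g : ℝ ≃o ℝ) (x : ℝ) (m : ℕ) : (g ^ (m + 1)) x = g ((g ^ m) x) := by
  rw [pow_succ']; rfl

theorem affSC_pp (H : Subgroup (ℝ ≃o ℝ))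
    (h2 : ∀ y y' z z' : ℝ, y < y' → z < z' → ∃ h ∈ H, h y = z ∧ h y' = z')
    (h1 : ∀ h ∈ H, ∀ y y' : ℝ, y < y' → h y = y → h y' = y' → h = 1)
    (h : ℝ ≃o ℝ) (hh : h ∈ H) (y : ℝ) (hy : h y = y)
    (hr : ∀ x, y < x → x < h x) (hl : ∀ x, x < y → x < h x) : False := by
  set g : ℝ ≃o ℝ := h⁻¹ with hg
  have hgH : g ∈ H := H.inv_mem hh
  have gy : g y = y := by rw [hg, inv_eq_iff, hy]
  have glt : ∀ x, x ≠ y → g x < x := by
    intro x hx
    have h3 : g x ≠ y := by
      intro h4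
      apply hx
      rw [hg, inv_eq_iff] at h4
      rw [h4, hy]
    have h4 : h (g x) = x := by rw [hg]; exact app_inv_self h x
    rcases lt_or_gt_of_ne h3 with h5 | h5
    · have := hl _ h5; rwa [h4] at this
    · have := hr _ h5; rwa [h4] at this
  have gfix : ∀ x, g x = x → x = y := by
    intro x hx
    by_contra hne
    exact absurd hx (glt x hne).ne
  have gmy : ∀ m : ℕ, (g ^ m) y = y := by
    intro m
    induction m with
    | zero => rfl
    | succ m ih => rw [affSC_pow, ih, gy]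
  have hanti : ∀ x, Antitone (fun m : ℕ => (g ^ m) x) := by
    intro x
    apply antitone_nat_of_succ_le
    intro m
    show (g ^ (m + 1)) x ≤ (g ^ m) x
    rw [affSC_pow]
    by_cases h3 : (g ^ m) x = y
    · rw [h3, gy]
    · exact (glt _ h3).le
  have hlim : ∀ x L, Tendsto (fun m : ℕ => (g ^ m) x) atTop (𝓝 L) → L = y := by
    intro x L hL
    apply gfix
    have h3 : Tendsto (fun m : ℕ => g ((g ^ m) x)) atTop (𝓝 (g L)) :=
      (g.continuous.tendsto L).comp hL
    have h4 : Tendsto (fun m : ℕ => (g ^ (m + 1)) x) atTop (𝓝 L) :=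
      hL.comp (tendsto_add_atTop_nat 1)
    have h5 : (fun m : ℕ => (g ^ (m + 1)) x) = (fun m : ℕ => g ((g ^ m) x)) := by
      funext m; exact affSC_pow g x m
    rw [h5] at h4
    exact tendsto_nhds_unique h3 h4
  -- right side
  have hR : Tendsto (fun m : ℕ => (g ^ m) (y + 2)) atTop (𝓝 y) := by
    have hbdd : BddBelow (Set.range (fun m : ℕ => (g ^ m) (y + 2))) := by
      refine ⟨y, ?_⟩
      rintro _ ⟨m, rfl⟩
      show y ≤ (g ^ m) (y + 2)
      rw [← gmy m]
      exact (g ^ m).monotone (by rw [gmy m]; linarith)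
    have h3 := tendsto_atTop_ciInf (hanti (y + 2)) hbdd
    have h4 := hlim _ _ h3
    rwa [h4] at h3
  -- left side
  have hL : Tendsto (fun m : ℕ => (g ^ m) (y - 1)) atTop atBot := by
    rcases tendsto_atTop_of_antitone (hanti (y - 1)) with h3 | ⟨L, h3⟩
    · exact h3
    · exfalso
      have h4 := hlim _ _ h3
      have h5 : L ≤ y - 1 := by
        refine le_of_tendsto' h3 (fun m => ?_)
        have := hanti (y - 1) (Nat.zero_le m)
        simpa using this
      linarith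
  obtain ⟨b, hb, hby, -⟩ := h2 y (y + 1) (y + 1) (y + 2) (by linarith) (by linarith)
  have e1 : ∀ᶠ m : ℕ in atTop, b ((g ^ m) (y + 2)) < y + 2 := by
    have h3 : Tendsto (fun m : ℕ => b ((g ^ m) (y + 2))) atTop (𝓝 (b y)) :=
      (b.continuous.tendsto y).comp hR
    rw [hby] at h3
    exact h3.eventually (gt_mem_nhds (by linarith))
  have e2 : ∀ᶠ m : ℕ in atTop, b ((g ^ m) (y - 1)) < y - 1 := by
    have h3 : Tendsto (fun m : ℕ => b ((g ^ m) (y - 1))) atTop atBot :=
      b.tendsto_atBot.comp hL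
    exact h3.eventually (eventually_lt_atBot (y - 1))
  obtain ⟨m, m1, m2⟩ := (e1.and e2).exists
  set f : ℝ ≃o ℝ := b * g ^ m with hf
  have hfH : f ∈ H := H.mul_mem hb (H.pow_mem hgH m)
  have fy : f y = y + 1 := by rw [hf, mul_app, gmy m, hby]
  have f2 : f (y + 2) < y + 2 := m1
  have f1 : f (y - 1) < y - 1 := m2
  obtain ⟨c2, c2a, -, c2f⟩ := affSC_ivt f (a := y) (b := y + 2) (by linarith)
    (by rw [fy]; linarith) f2
  obtain ⟨c1, -, c1b, c1f⟩ := affSC_ivt' f (a := y - 1) (b := y) (by linarith) f1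
    (by rw [fy]; linarith)
  have := h1 f hfH c1 c2 (by linarith) c1f c2f
  rw [this, one_app] at fy
  linarith

theorem aff_SC (H : Subgroup (ℝ ≃o ℝ))
    (h2 : ∀ y y' z z' : ℝ, y < y' → z < z' → ∃ h ∈ H, h y = z ∧ h y' = z')
    (h1 : ∀ h ∈ H, ∀ y y' : ℝ, y < y' → h y = y → h y' = y' → h = 1)
    (h : ℝ ≃o ℝ) (hh : h ∈ H) (hne : h ≠ 1) (y : ℝ) (hy : h y = y) :
    ((∀ x, y < x → x < h x) ∧ (∀ x, x < y → h x < x)) ∨
      ((∀ x, y < x → h x < x) ∧ (∀ x, x < y → x < h x)) := by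
  have hfix : ∀ x, x ≠ y → h x ≠ x := by
    intro x hx hxx
    rcases lt_or_gt_of_ne hx with h3 | h3
    · exact hne (h1 h hh x y h3 hxx hy)
    · exact hne (h1 h hh y x h3 hy hxx)
  have hR : (∀ x, y < x → x < h x) ∨ (∀ x, y < x → h x < x) := by
    by_contra hc
    push Not at hc
    obtain ⟨⟨a, ya, ha⟩, ⟨b, yb, hb⟩⟩ := hc
    have ha' : h a < a := lt_of_le_of_ne ha (hfix a ya.ne')
    have hb' : b < h b := lt_of_le_of_ne hb (hfix b yb.ne').symm
    have hab : a ≠ b := by rintro rfl; exact absurd ha' (not_lt.2 hb'.le)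
    rcases lt_or_gt_of_ne hab with h3 | h3
    · obtain ⟨c, c1, -, c3⟩ := affSC_ivt' h h3 ha' hb'
      exact hfix c (by linarith : y < c).ne' c3
    · obtain ⟨c, c1, -, c3⟩ := affSC_ivt h h3 hb' ha'
      exact hfix c (by linarith : y < c).ne' c3
  have hL : (∀ x, x < y → x < h x) ∨ (∀ x, x < y → h x < x) := by
    by_contra hc
    push Not at hc
    obtain ⟨⟨a, ya, ha⟩, ⟨b, yb, hb⟩⟩ := hc
    have ha' : h a < a := lt_of_le_of_ne ha (hfix a ya.ne)
    have hb' : b < h b := lt_of_le_of_ne hb (hfix b yb.ne).symm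
    have hab : a ≠ b := by rintro rfl; exact absurd ha' (not_lt.2 hb'.le)
    rcases lt_or_gt_of_ne hab with h3 | h3
    · obtain ⟨c, -, c2, c3⟩ := affSC_ivt' h h3 ha' hb'
      exact hfix c (by linarith : c < y).ne c3
    · obtain ⟨c, -, c2, c3⟩ := affSC_ivt h h3 hb' ha'
      exact hfix c (by linarith : c < y).ne c3
  rcases hR with hR | hR <;> rcases hL with hL | hL
  · exact (affSC_pp H h2 h1 h hh y hy hR hL).elim
  · exact Or.inl ⟨hR, hL⟩
  · exact Or.inr ⟨hR, hL⟩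
  · exfalso
    have key : ∀ x, h x < x → x < h⁻¹ x := by
      intro x hx
      have := h⁻¹.strictMono hx
      rwa [inv_app_self] at this
    exact affSC_pp H h2 h1 h⁻¹ (H.inv_mem hh) y (by rw [inv_eq_iff, hy])
      (fun x hx => key x (hR x hx)) (fun x hx => key x (hL x hx))


end Pool.Agent.Ghys
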