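import Mathlib
import Pool.Agent.Ghys.Basic
import Pool.Agent.Ghys.L_aff_SC

set_option autoImplicit false

namespace Pool.Agent.Ghys

open Filter Topology Set

variable {Γ : Subgroup (ℝ ≃o ℝ)}


theorem aff_uniq833 (H : Subgroup (ℝ ≃o ℝ))
    (h1 : ∀ h ∈ H, ∀ y y' : ℝ, y < y' → h y = y → h y' = y' → h = 1)
    {g g' : ℝ ≃o ℝ} (hg : g ∈ H) (hg' : g' ∈ H) {y w : ℝ} (hyw : y < w) (e1 : g y = g' y)
    (e2 : g w = g' w) : g = g' := by
  have hk : g'⁻¹ * g = 1 := by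
    apply h1 _ (H.mul_mem (H.inv_mem hg') hg) y w hyw
    · rw [mul_app, e1, inv_app_self]
    · rw [mul_app, e2, inv_app_self]
  have := inv_mul_eq_one.mp hk
  exact this.symm

theorem aff_cmp833 (H : Subgroup (ℝ ≃o ℝ))
    (h2 : ∀ y y' z z' : ℝ, y < y' → z < z' → ∃ h ∈ H, h y = z ∧ h y' = z')
    (h1 : ∀ h ∈ H, ∀ y y' : ℝ, y < y' → h y = y → h y' = y' → h = 1)
    {g g' : ℝ ≃o ℝ} (hg : g ∈ H) (hg' : g' ∈ H) {y : ℝ} (e1 : g y = g' y)
    (h : (∃ w, y < w ∧ g w < g' w) ∨ (∃ w, w < y ∧ g' w < g w)) :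
    (∀ x, y < x → g x < g' x) ∧ (∀ x, x < y → g' x < g x) := by
  have hk : g'⁻¹ * g ∈ H := H.mul_mem (H.inv_mem hg') hg
  have hky : (g'⁻¹ * g) y = y := by rw [mul_app, e1, inv_app_self]
  have hne : g'⁻¹ * g ≠ 1 := by
    intro he
    have he' := inv_mul_eq_one.mp he
    rcases h with ⟨w, -, hw⟩ | ⟨w, -, hw⟩
    · rw [he'] at hw; exact lt_irrefl _ hw
    · rw [he'] at hw; exact lt_irrefl _ hw
  have c1 : ∀ x, (g'⁻¹ * g) x < x → g x < g' x := by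
    intro x hx
    have := g'.strictMono hx
    rwa [mul_app, app_inv_self] at this
  have c2 : ∀ x, x < (g'⁻¹ * g) x → g' x < g x := by
    intro x hx
    have := g'.strictMono hx
    rwa [mul_app, app_inv_self] at this
  rcases aff_SC H h2 h1 _ hk hne y hky with ⟨a1, a2⟩ | ⟨a1, a2⟩
  · exfalso
    rcases h with ⟨w, hyw, hw⟩ | ⟨w, hyw, hw⟩
    · exact lt_asymm hw (c2 w (a1 w hyw))
    · exact lt_asymm hw (c1 w (a2 w hyw))
  · exact ⟨fun x hx => c1 x (a1 x hx), fun x hx => c2 x (a2 x hx)⟩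

/-- fixed point on the left -/
theorem aff_left833 (H : Subgroup (ℝ ≃o ℝ))
    (h2 : ∀ y y' z z' : ℝ, y < y' → z < z' → ∃ h ∈ H, h y = z ∧ h y' = z')
    (h1 : ∀ h ∈ H, ∀ y y' : ℝ, y < y' → h y = y → h y' = y' → h = 1)
    {g : ℝ ≃o ℝ} (hg : g ∈ H) {y t : ℝ} (hy : y < g y) (ht : t < y) (hgt : g t = t) :
    (∀ x, t < x → x < g x) ∧ (∀ x, x < t → g x < x) := by
  have hne : g ≠ 1 := by
    intro he
    rw [he, one_app] at hy
    exact lt_irrefl _ hy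
  rcases aff_SC H h2 h1 g hg hne t hgt with h | h
  · exact h
  · exact absurd (h.1 y ht) (lt_asymm hy)

/-- fixed point on the right -/
theorem aff_right833 (H : Subgroup (ℝ ≃o ℝ))
    (h2 : ∀ y y' z z' : ℝ, y < y' → z < z' → ∃ h ∈ H, h y = z ∧ h y' = z')
    (h1 : ∀ h ∈ H, ∀ y y' : ℝ, y < y' → h y = y → h y' = y' → h = 1)
    {g : ℝ ≃o ℝ} (hg : g ∈ H) {y t : ℝ} (hy : y < g y) (ht : y < t) (hgt : g t = t) :
    (∀ x, t < x → g x < x) ∧ (∀ x, x < t → x < g x) := by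
  have hne : g ≠ 1 := by
    intro he
    rw [he, one_app] at hy
    exact lt_irrefl _ hy
  rcases aff_SC H h2 h1 g hg hne t hgt with h | h
  · exact absurd (h.2 y ht) (lt_asymm hy)
  · exact h

theorem aff_fix833 {g : ℝ ≃o ℝ} {a b : ℝ} (ha : a < g a) (hb : g b < b) : ∃ t, g t = t := by
  obtain ⟨t, ht⟩ := intermediate_value_univ₂ (f := fun x : ℝ => x) (g := fun x => g x) (a := a) (b := b)
    continuous_id g.continuous ha.le hb.le
  exact ⟨t, ht.symm⟩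

theorem aff_P833 (H : Subgroup (ℝ ≃o ℝ))
    (h2 : ∀ y y' z z' : ℝ, y < y' → z < z' → ∃ h ∈ H, h y = z ∧ h y' = z')
    (h1 : ∀ h ∈ H, ∀ y y' : ℝ, y < y' → h y = y → h y' = y' → h = 1)
    {g : ℝ ≃o ℝ} (hg : g ∈ H) {y : ℝ} (hy : y < g y) (hP : ∃ x1, y < x1 ∧ g x1 < x1) :
    Lt g 1 ∧ ∀ x, x < y → x < g x := by
  obtain ⟨x1, hx1, hgx1⟩ := hP
  obtain ⟨t, ht⟩ := aff_fix833 hy hgx1
  rcases lt_trichotomy t y with hty | hty | hty
  · have := (aff_left833 H h2 h1 hg hy hty ht).1 x1 (hty.trans hx1)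
    exact absurd this (lt_asymm hgx1)
  · rw [hty] at ht
    rw [ht] at hy
    exact absurd hy (lt_irrefl _)
  · have := aff_right833 H h2 h1 hg hy hty ht
    refine ⟨?_, fun x hx => this.2 x (hx.trans hty)⟩
    unfold Lt
    filter_upwards [eventually_gt_atTop t] with x hx
    rw [one_app]
    exact this.1 x hx

theorem aff_min (H : Subgroup (ℝ ≃o ℝ))
    (h2 : ∀ y y' z z' : ℝ, y < y' → z < z' → ∃ h ∈ H, h y = z ∧ h y' = z')
    (h1 : ∀ h ∈ H, ∀ y y' : ℝ, y < y' → h y = y → h y' = y' → h = 1)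
    (y y' : ℝ) (hy : y < y') :
    ∃ a ∈ H, a y = y' ∧ (∀ x, x < a x) ∧ ∀ g ∈ H, g y = y' → Lt g a → Lt g 1 := by
  have hyz : y < y + 1 := by linarith
  have hG : ∀ v, y' < v → ∃ g ∈ H, g y = y' ∧ g (y + 1) = v := fun v hv => h2 y (y + 1) y' v hyz hv
  choose! G hGH hGy hGz using hG
  have gy : ∀ g : ℝ ≃o ℝ, g y = y' → y < g y := fun g hg => by rw [hg]; exact hy
  obtain ⟨A, hA⟩ : ∃ A : Set ℝ, A = {v | y' < v ∧ ∃ x1, y < x1 ∧ G v x1 < x1} := ⟨_, rfl⟩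
  have hAm : ∀ v, v ∈ A ↔ y' < v ∧ ∃ x1, y < x1 ∧ G v x1 < x1 := by
    intro v; rw [hA]; exact Iff.rfl
  -- elements of S as values of G
  have hv : ∀ g ∈ H, g y = y' → y' < g (y + 1) ∧ G (g (y + 1)) = g := by
    intro g hg hgy
    have h3 : y' < g (y + 1) := by rw [← hgy]; exact g.strictMono hyz
    refine ⟨h3, ?_⟩
    exact aff_uniq833 H h1 (hGH _ h3) hg hyz (by rw [hGy _ h3, hgy]) (hGz _ h3)
  have hne : A.Nonempty := by
    obtain ⟨g, hg, hgy, hgz⟩ := h2 y (y' + 1) y' (y' + 1) (by linarith) (by linarith)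
    obtain ⟨h3, h4⟩ := hv g hg hgy
    refine ⟨g (y + 1), (hAm _).mpr ⟨h3, y' + 2, by linarith, ?_⟩⟩
    rw [h4]
    exact (aff_right833 H h2 h1 hg (gy g hgy) (by linarith) hgz).1 _ (by linarith)
  have hbd : BddAbove A := by
    obtain ⟨g, hg, hgx, hgy⟩ := h2 (y - 1) y (y - 1) y' (by linarith) (by linarith)
    refine ⟨g (y + 1), ?_⟩
    intro v hvA
    obtain ⟨hv1, hP⟩ := (hAm v).mp hvA
    by_contra hcon
    push Not at hcon
    have h5 := (aff_cmp833 H h2 h1 hg (hGH v hv1) (by rw [hgy, hGy v hv1])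
      (Or.inl ⟨y + 1, hyz, by rw [hGz v hv1]; exact hcon⟩)).2 (y - 1) (by linarith)
    have h6 := (aff_P833 H h2 h1 (hGH v hv1) (gy _ (hGy v hv1)) hP).2 (y - 1) (by linarith)
    rw [hgx] at h5
    exact lt_asymm h5 h6
  obtain ⟨v0, hv0⟩ := hne
  have hs : y' < sSup A := lt_of_lt_of_le ((hAm v0).mp hv0).1 (le_csSup hbd hv0)
  obtain ⟨a, ha⟩ : ∃ a, a = G (sSup A) := ⟨_, rfl⟩
  have haH : a ∈ H := by rw [ha]; exact hGH _ hs
  have hay : a y = y' := by rw [ha]; exact hGy _ hs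
  have haz : a (y + 1) = sSup A := by rw [ha]; exact hGz _ hs
  -- (2)
  have s2 : ∀ x, y < x → x ≤ a x := by
    intro x1 hx1
    by_contra hcon
    push Not at hcon
    have h3 : y' < a x1 := by rw [← hay]; exact a.strictMono hx1
    obtain ⟨g, hg, hgy, hgx⟩ := h2 y x1 y' ((a x1 + x1) / 2) hx1 (by linarith)
    obtain ⟨h4, h5⟩ := hv g hg hgy
    have h6 : g (y + 1) ∈ A := (hAm _).mpr ⟨h4, x1, hx1, by rw [h5, hgx]; linarith⟩
    have h7 := le_csSup hbd h6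
    have h8 := (aff_cmp833 H h2 h1 haH hg (by rw [hay, hgy]) (Or.inl ⟨x1, hx1, by rw [hgx]; linarith⟩)).1
      (y + 1) hyz
    rw [haz] at h8
    linarith
  -- (4)
  have s4 : ∀ g ∈ H, g y = y' → g (y + 1) < sSup A → ∃ v ∈ A, (∀ x, y < x → g x < G v x) ∧
      (∀ x, x < y → G v x < g x) := by
    intro g hg hgy hlt
    obtain ⟨v, hvA, hgv⟩ := exists_lt_of_lt_csSup ⟨v0, hv0⟩ hlt
    have hv1 := ((hAm v).mp hvA).1
    exact ⟨v, hvA, aff_cmp833 H h2 h1 hg (hGH v hv1) (by rw [hgy, hGy v hv1])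
      (Or.inl ⟨y + 1, hyz, by rw [hGz v hv1]; exact hgv⟩)⟩
  -- (3)
  have s3 : ∀ t, a t ≠ t := by
    intro t ht
    rcases lt_trichotomy t y with hty | hty | hty
    · have h3 := (aff_left833 H h2 h1 haH (gy a hay) hty ht).2 (t - 1) (by linarith)
      obtain ⟨g, hg, hgx, hgy⟩ := h2 (t - 1) y ((a (t - 1) + (t - 1)) / 2) y' (by linarith) (by linarith)
      have h4 : g (y + 1) < a (y + 1) :=
        (aff_cmp833 H h2 h1 hg haH (by rw [hgy, hay])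
          (Or.inr ⟨t - 1, by linarith, by rw [hgx]; linarith⟩)).1 (y + 1) hyz
      rw [haz] at h4
      obtain ⟨v, hvA, -, h5⟩ := s4 g hg hgy h4
      obtain ⟨hv1, hP⟩ := (hAm v).mp hvA
      have h6 := (aff_P833 H h2 h1 (hGH v hv1) (gy _ (hGy v hv1)) hP).2 (t - 1) (by linarith)
      have h7 := h5 (t - 1) (by linarith)
      rw [hgx] at h7
      linarith
    · rw [hty, hay] at ht
      linarith
    · have h3 := (aff_right833 H h2 h1 haH (gy a hay) hty ht).1 (t + 1) (by linarith)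
      have h4 := s2 (t + 1) (by linarith)
      linarith
  refine ⟨a, haH, hay, ?_, ?_⟩
  · intro x
    by_contra hcon
    push Not at hcon
    obtain ⟨t, ht⟩ := aff_fix833 (gy a hay) (lt_of_le_of_ne hcon (s3 x))
    exact s3 t ht
  · intro g hg hgy hlt
    unfold Lt at hlt
    obtain ⟨x, hx, hyx⟩ := (hlt.and (eventually_gt_atTop y)).exists
    have h3 := (aff_cmp833 H h2 h1 hg haH (by rw [hgy, hay]) (Or.inl ⟨x, hyx, hx⟩)).1 (y + 1) hyz
    rw [haz] at h3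
    obtain ⟨v, hvA, h4, -⟩ := s4 g hg hgy h3
    obtain ⟨hv1, x1, hx1, hP⟩ := (hAm v).mp hvA
    exact (aff_P833 H h2 h1 hg (gy g hgy) ⟨x1, hx1, (h4 x1 hx1).trans hP⟩).1


end Pool.Agent.Ghys
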