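import Mathlib
import Pool.Agent.Ghys.Basic
import Pool.Agent.Ghys.L_aff_SC
import Pool.Agent.Ghys.L_aff_min

set_option autoImplicit false

namespace Pool.Agent.Ghys

open Filter Topology Set

variable {Γ : Subgroup (ℝ ≃o ℝ)}


theorem Lt.trans' {g h k : ℝ ≃o ℝ} (h1 : Lt g h) (h2 : Lt h k) : Lt g k := by
  filter_upwards [h1, h2] with x hx hy using hx.trans hy

theorem Lt.irr {g : ℝ ≃o ℝ} (h : Lt g g) : False := by
  obtain ⟨x, hx⟩ := Filter.Eventually.exists h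
  exact lt_irrefl _ hx

theorem Lt.left {g h : ℝ ≃o ℝ} (k : ℝ ≃o ℝ) (H : Lt g h) : Lt (k * g) (k * h) := by
  filter_upwards [H] with x hx using k.strictMono hx

theorem Lt.right {g h : ℝ ≃o ℝ} (k : ℝ ≃o ℝ) (H : Lt g h) : Lt (g * k) (h * k) :=
  k.tendsto_atTop.eventually H

theorem Lt.inv' {g h : ℝ ≃o ℝ} (H : Lt g h) : Lt h⁻¹ g⁻¹ := by
  have h1 := (H.left g⁻¹).right h⁻¹
  simp only [inv_mul_cancel, one_mul, mul_inv_cancel_right] at h1
  exact h1

theorem Lt.conj' {g h : ℝ ≃o ℝ} (k : ℝ ≃o ℝ) (H : Lt g h) : Lt (k * g * k⁻¹) (k * h * k⁻¹) :=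
  (H.left k).right k⁻¹

theorem aff1_fix (k : ℝ ≃o ℝ) (x1 x2 : ℝ) (h1 : k x1 ≤ x1) (h2 : x2 ≤ k x2) :
    ∃ y, k y = y := by
  have hc : Continuous (fun x => k x - x) := k.continuous.sub continuous_id
  obtain ⟨y, hy⟩ := mem_range_of_exists_le_of_exists_ge hc
    (c := 0) ⟨x1, by simpa using h1⟩ ⟨x2, by simpa using h2⟩
  exact ⟨y, by simpa [sub_eq_zero] using hy⟩

theorem aff1_lt_or (H : Subgroup (ℝ ≃o ℝ))
    (h2 : ∀ y y' z z' : ℝ, y < y' → z < z' → ∃ h ∈ H, h y = z ∧ h y' = z')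
    (h1 : ∀ h ∈ H, ∀ y y' : ℝ, y < y' → h y = y → h y' = y' → h = 1)
    (k : ℝ ≃o ℝ) (hk : k ∈ H) (hne : k ≠ 1) : Lt 1 k ∨ Lt k 1 := by
  by_cases hf : ∃ y, k y = y
  · obtain ⟨y, hy⟩ := hf
    rcases aff_SC H h2 h1 k hk hne y hy with ⟨h3, -⟩ | ⟨h3, -⟩
    · left
      filter_upwards [eventually_gt_atTop y] with x hx using h3 x hx
    · right
      filter_upwards [eventually_gt_atTop y] with x hx using h3 x hx
  · by_cases h5 : ∃ x, k x ≤ x
    · obtain ⟨x1, h5⟩ := h5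
      right
      have h6 : ∀ x, k x < x := by
        intro x
        by_contra h7
        exact hf (aff1_fix k x1 x h5 (not_lt.1 h7))
      exact Filter.Eventually.of_forall h6
    · left
      push Not at h5
      exact Filter.Eventually.of_forall h5

theorem aff1_lt_or' (H : Subgroup (ℝ ≃o ℝ))
    (h2 : ∀ y y' z z' : ℝ, y < y' → z < z' → ∃ h ∈ H, h y = z ∧ h y' = z')
    (h1 : ∀ h ∈ H, ∀ y y' : ℝ, y < y' → h y = y → h y' = y' → h = 1)
    (g h : ℝ ≃o ℝ) (hg : g ∈ H) (hh : h ∈ H) (hne : g ≠ h) : Lt g h ∨ Lt h g := by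
  have hne' : g⁻¹ * h ≠ 1 := fun h3 => hne (inv_mul_eq_one.1 h3)
  rcases aff1_lt_or H h2 h1 (g⁻¹ * h) (H.mul_mem (H.inv_mem hg) hh) hne' with h3 | h3
  · left
    have h4 := h3.left g
    rwa [mul_one, mul_inv_cancel_left] at h4
  · right
    have h4 := h3.left g
    rwa [mul_one, mul_inv_cancel_left] at h4

/-- expanding elements -/
structure AExp (H : Subgroup (ℝ ≃o ℝ)) (f : ℝ ≃o ℝ) (t : ℝ) : Prop where
  mem : f ∈ H
  fix : f t = t
  lt : Lt 1 f

theorem AExp.ne {H : Subgroup (ℝ ≃o ℝ)} {f : ℝ ≃o ℝ} {t : ℝ} (h : AExp H f t) : f ≠ 1 := by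
  intro h1
  have := h.lt
  rw [h1] at this
  exact this.irr

section
variable (H : Subgroup (ℝ ≃o ℝ))
    (h2 : ∀ y y' z z' : ℝ, y < y' → z < z' → ∃ h ∈ H, h y = z ∧ h y' = z')
    (h1 : ∀ h ∈ H, ∀ y y' : ℝ, y < y' → h y = y → h y' = y' → h = 1)
include h2 h1

theorem AExp.spec {f : ℝ ≃o ℝ} {t : ℝ} (h : AExp H f t) :
    (∀ x, t < x → x < f x) ∧ (∀ x, x < t → f x < x) := by
  rcases aff_SC H h2 h1 f h.mem h.ne t h.fix with h3 | ⟨h3, -⟩
  · exact h3
  · exfalso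
    have h4 : Lt f 1 := by
      filter_upwards [eventually_gt_atTop t] with x hx using h3 x hx
    exact (h.lt.trans' h4).irr

theorem AExp.of_right {f : ℝ ≃o ℝ} {t x : ℝ} (hf : f ∈ H) (ht : f t = t) (hx : t < x)
    (hfx : x < f x) : AExp H f t := by
  have hne : f ≠ 1 := by
    rintro rfl
    exact lt_irrefl _ hfx
  refine ⟨hf, ht, ?_⟩
  rcases aff_SC H h2 h1 f hf hne t ht with ⟨h3, -⟩ | ⟨h3, -⟩
  · filter_upwards [eventually_gt_atTop t] with x hx using h3 x hx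
  · exact absurd (h3 x hx) (not_lt.2 hfx.le)

theorem AExp.of_left {f : ℝ ≃o ℝ} {t x : ℝ} (hf : f ∈ H) (ht : f t = t) (hx : x < t)
    (hfx : f x < x) : AExp H f t := by
  have hne : f ≠ 1 := by
    rintro rfl
    exact lt_irrefl _ hfx
  refine ⟨hf, ht, ?_⟩
  rcases aff_SC H h2 h1 f hf hne t ht with ⟨h3, -⟩ | ⟨-, h3⟩
  · filter_upwards [eventually_gt_atTop t] with x hx using h3 x hx
  · exact absurd (h3 x hx) (not_lt.2 hfx.le)

omit h2 h1 in
theorem AExp.inv_lt {f : ℝ ≃o ℝ} {t : ℝ} (h : AExp H f t) : Lt f⁻¹ 1 := by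
  have := h.lt.inv'
  rwa [inv_one] at this

omit h2 h1 in
theorem AExp.conj {f : ℝ ≃o ℝ} {t : ℝ} (h : AExp H f t) {k : ℝ ≃o ℝ} (hk : k ∈ H) :
    AExp H (k * f * k⁻¹) (k t) := by
  refine ⟨H.mul_mem (H.mul_mem hk h.mem) (H.inv_mem hk), ?_, ?_⟩
  · rw [mul_app, mul_app, inv_app_self, h.fix]
  · have := h.lt.conj' k
    rwa [mul_one, mul_inv_cancel] at this

theorem AExp.sqrt {f : ℝ ≃o ℝ} {t : ℝ} (h : AExp H f t) :
    ∃ f2, AExp H f2 t ∧ (f2 * f2 = f ∨ Lt (f2 * f2) f) := by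
  have hs := h.spec H h2 h1
  have hz : t + 1 < f (t + 1) := hs.1 _ (by linarith)
  obtain ⟨f1, hf1, hf1t, hf1z⟩ := h2 t (t + 1) t ((t + 1 + f (t + 1)) / 2) (by linarith)
    (by linarith)
  have he1 : AExp H f1 t := AExp.of_right H h2 h1 hf1 hf1t (x := t + 1) (by linarith)
    (by rw [hf1z]; linarith)
  by_cases heq : f1 * f1 = f
  · exact ⟨f1, he1, Or.inl heq⟩
  · rcases aff1_lt_or' H h2 h1 (f1 * f1) f (H.mul_mem hf1 hf1) h.mem heq with h3 | h3
    · exact ⟨f1, he1, Or.inr h3⟩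
    · have he2 : AExp H (f1⁻¹ * f) t := by
        refine AExp.of_right H h2 h1 (H.mul_mem (H.inv_mem hf1) h.mem) ?_ (x := t + 1)
          (by linarith) ?_
        · rw [mul_app, h.fix, inv_eq_iff, hf1t]
        · rw [mul_app]
          have h5 : f1 (t + 1) < f (t + 1) := by rw [hf1z]; linarith
          have h6 := (f1⁻¹).strictMono h5
          rwa [inv_app_self] at h6
      refine ⟨f1⁻¹ * f, he2, Or.inr ?_⟩
      have h5 := h3.left f1⁻¹
      rw [inv_mul_cancel_left] at h5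
      have h6 := h5.right (f1⁻¹ * f)
      rwa [mul_inv_cancel_left] at h6

end

theorem aff1_unbdd (a : ℝ ≃o ℝ) (ha : ∀ x, x < a x) (y t : ℝ) : ∃ m : ℕ, t < (a ^ m) y := by
  by_contra hcon
  push Not at hcon
  have hstep : ∀ m : ℕ, (a ^ (m + 1)) y = a ((a ^ m) y) := by
    intro m
    rw [pow_succ', mul_app]
  have hmono : Monotone (fun m : ℕ => (a ^ m) y) := by
    apply monotone_nat_of_le_succ
    intro m
    rw [hstep]
    exact (ha _).le
  have hb : BddAbove (Set.range (fun m : ℕ => (a ^ m) y)) := ⟨t, by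
    rintro _ ⟨m, rfl⟩; exact hcon m⟩
  have hlim := tendsto_atTop_ciSup hmono hb
  set L := ⨆ m : ℕ, (a ^ m) y with hL
  have h3 : Tendsto (fun m : ℕ => a ((a ^ m) y)) atTop (𝓝 (a L)) :=
    (a.continuous.tendsto L).comp hlim
  have h4 : Tendsto (fun m : ℕ => a ((a ^ m) y)) atTop (𝓝 L) := by
    have h5 := hlim.comp (tendsto_add_atTop_nat 1)
    refine h5.congr ?_
    intro m
    exact hstep m
  exact absurd (tendsto_nhds_unique h3 h4) (ha L).ne'

theorem aff1 (H : Subgroup (ℝ ≃o ℝ))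
    (h2 : ∀ y y' z z' : ℝ, y < y' → z < z' → ∃ h ∈ H, h y = z ∧ h y' = z')
    (h1 : ∀ h ∈ H, ∀ y y' : ℝ, y < y' → h y = y → h y' = y' → h = 1) :
    ∃ N : Subgroup (ℝ ≃o ℝ), N ≤ H ∧ (∀ h ∈ H, ∀ n ∈ N, h * n * h⁻¹ ∈ N) ∧
      (∀ y z, ∃ n ∈ N, n y = z) ∧ (∀ n ∈ N, ∀ y, n y = y → n = 1) := by
  let N : Subgroup (ℝ ≃o ℝ) :=
    { carrier := {g | g ∈ H ∧ ∀ f t, AExp H f t → Lt f⁻¹ g ∧ Lt g f}
      one_mem' := ⟨H.one_mem, fun f t hf => ⟨hf.inv_lt, hf.lt⟩⟩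
      inv_mem' := by
        rintro g ⟨hg, hg'⟩
        refine ⟨H.inv_mem hg, fun f t hf => ?_⟩
        obtain ⟨h3, h4⟩ := hg' f t hf
        refine ⟨h4.inv', ?_⟩
        have := h3.inv'
        rwa [inv_inv] at this
      mul_mem' := by
        rintro g g' ⟨hg, hg1⟩ ⟨hg', hg1'⟩
        refine ⟨H.mul_mem hg hg', fun f t hf => ?_⟩
        obtain ⟨f2, hf2, hf2'⟩ := hf.sqrt H h2 h1
        obtain ⟨a1, a2⟩ := hg1 f2 t hf2
        obtain ⟨b1, b2⟩ := hg1' f2 t hf2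
        have c1 : Lt (g * g') (f2 * f2) := (a2.right g').trans' (b2.left f2)
        have c2 : Lt (f2⁻¹ * f2⁻¹) (g * g') := (a1.right f2⁻¹).trans' (b1.left g)
        rcases hf2' with h3 | h3
        · rw [← h3, mul_inv_rev]
          exact ⟨c2, c1⟩
        · refine ⟨?_, c1.trans' h3⟩
          have h4 := h3.inv'
          rw [mul_inv_rev] at h4
          exact h4.trans' c2 }
  have hNmem : ∀ g, g ∈ N ↔ g ∈ H ∧ ∀ f t, AExp H f t → Lt f⁻¹ g ∧ Lt g f := fun g => Iff.rfl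
  have hup : ∀ y y' : ℝ, y < y' → ∃ n ∈ N, n y = y' := by
    intro y y' hy
    obtain ⟨a, haH, hay, hax, hamin⟩ := aff_min H h2 h1 y y' hy
    have ha1 : Lt 1 a := Filter.Eventually.of_forall hax
    have stepA : ∀ f, AExp H f y → Lt a f := by
      intro f hf
      have hfy : f⁻¹ y = y := by rw [inv_eq_iff, hf.fix]
      have h3 : Lt (a * f⁻¹) a := by
        have := hf.inv_lt.left a
        rwa [mul_one] at this
      have h4 := hamin (a * f⁻¹) (H.mul_mem haH (H.inv_mem hf.mem))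
        (by rw [mul_app, hfy, hay]) h3
      have h5 := h4.right f
      rwa [inv_mul_cancel_right, one_mul] at h5
    have stepB : ∀ (m : ℕ) f, AExp H f ((a ^ m) y) → Lt a f := by
      intro m f hf
      have hamH : a ^ m ∈ H := H.pow_mem haH m
      have h3 := hf.conj (k := (a ^ m)⁻¹) H (H.inv_mem hamH)
      rw [inv_app_self, inv_inv] at h3
      have h4 := (stepA _ h3).conj' (a ^ m)
      have e1 : a ^ m * a * (a ^ m)⁻¹ = a := by
        rw [← pow_succ, pow_succ', mul_inv_cancel_right]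
      have e2 : a ^ m * ((a ^ m)⁻¹ * f * a ^ m) * (a ^ m)⁻¹ = f := by group
      rwa [e1, e2] at h4
    refine ⟨a, ⟨haH, fun f t hf => ⟨hf.inv_lt.trans' ha1, ?_⟩⟩, hay⟩
    obtain ⟨m, hm⟩ := aff1_unbdd a hax y t
    have hs := hf.spec H h2 h1
    have hfx0 : f (t - 1) < t - 1 := hs.2 _ (by linarith)
    have hfv := hs.1 _ hm
    obtain ⟨f', hf'H, hf'x, hf'v⟩ := h2 (t - 1) ((a ^ m) y) ((f (t - 1) + (t - 1)) / 2)
      ((a ^ m) y) (by linarith) (by linarith)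
    have hexp' : AExp H f' ((a ^ m) y) :=
      AExp.of_left H h2 h1 hf'H hf'v (x := t - 1) (by linarith) (by rw [hf'x]; linarith)
    have h3 : (f'⁻¹ * f) (t - 1) < t - 1 := by
      rw [mul_app]
      have h5 : f (t - 1) < f' (t - 1) := by rw [hf'x]; linarith
      have h6 := (f'⁻¹).strictMono h5
      rwa [inv_app_self] at h6
    have h4 : (a ^ m) y < (f'⁻¹ * f) ((a ^ m) y) := by
      rw [mul_app]
      have h5 : f' ((a ^ m) y) < f ((a ^ m) y) := by rw [hf'v]; exact hfv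
      have h6 := (f'⁻¹).strictMono h5
      rwa [inv_app_self] at h6
    have hmemh : f'⁻¹ * f ∈ H := H.mul_mem (H.inv_mem hf'H) hf.mem
    -- fixed point of `f'⁻¹ * f`
    have hcont : ContinuousOn (fun x => (f'⁻¹ * f) x - x) (Icc (t - 1) ((a ^ m) y)) :=
      ((f'⁻¹ * f).continuous.sub continuous_id).continuousOn
    have hle : t - 1 ≤ (a ^ m) y := by linarith
    obtain ⟨s, hs1, hs2⟩ := intermediate_value_Icc hle hcont
      (show (0 : ℝ) ∈ Icc ((f'⁻¹ * f) (t - 1) - (t - 1)) ((f'⁻¹ * f) ((a ^ m) y) - (a ^ m) y) from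
        ⟨by linarith, by linarith⟩)
    have hs3 : (f'⁻¹ * f) s = s := by
      have : (f'⁻¹ * f) s - s = 0 := hs2
      linarith
    have hs4 : s < (a ^ m) y := by
      rcases lt_or_eq_of_le hs1.2 with h | h
      · exact h
      · rw [← h, hs3] at h4
        exact absurd h4 (lt_irrefl _)
    have hexph := AExp.of_right H h2 h1 hmemh hs3 hs4 h4
    have h5 := hexph.lt.left f'
    rw [mul_one, mul_inv_cancel_left] at h5
    exact (stepB m f' hexp').trans' h5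
  refine ⟨N, fun g hg => hg.1, ?_, ?_, ?_⟩
  · rintro h hh n ⟨hn, hn'⟩
    refine ⟨H.mul_mem (H.mul_mem hh hn) (H.inv_mem hh), fun f t hf => ?_⟩
    have h3 := hf.conj (k := h⁻¹) H (H.inv_mem hh)
    obtain ⟨h4, h5⟩ := hn' _ _ h3
    have h6 := h4.conj' h
    have h7 := h5.conj' h
    have e1 : h * (h⁻¹ * f * h⁻¹⁻¹)⁻¹ * h⁻¹ = f⁻¹ := by group
    have e2 : h * (h⁻¹ * f * h⁻¹⁻¹) * h⁻¹ = f := by group
    rw [e1] at h6
    rw [e2] at h7
    exact ⟨h6, h7⟩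
  · intro y z
    rcases lt_trichotomy y z with h | h | h
    · exact hup y z h
    · exact ⟨1, N.one_mem, h⟩
    · obtain ⟨n, hn, hny⟩ := hup z y h
      exact ⟨n⁻¹, N.inv_mem hn, by rw [inv_eq_iff, hny]⟩
  · rintro n ⟨hn, hn'⟩ y hy
    by_contra hne
    rcases aff1_lt_or H h2 h1 n hn hne with h3 | h3
    · exact (hn' n y ⟨hn, hy, h3⟩).2.irr
    · have h4 : AExp H n⁻¹ y := by
        refine ⟨H.inv_mem hn, by rw [inv_eq_iff, hy], ?_⟩
        have := h3.inv'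
        rwa [inv_one] at this
      have h5 := (hn' _ _ h4).1
      rw [inv_inv] at h5
      exact h5.irr


end Pool.Agent.Ghys
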