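import Mathlib
import Pool.Agent.Ghys.Basic

set_option autoImplicit false

namespace Pool.Agent.Ghys

open Filter Topology Set

variable {Γ : Subgroup (ℝ ≃o ℝ)}


theorem holder_pow_aux {M : Type*} [Group M] [LinearOrder M]
    (harch : ∀ a d : M, 1 < d → ∃ m : ℕ, a < d ^ m) {a d : M} (ha : 1 ≤ a) (hd : 1 < d) :
    ∃ n : ℕ, d ^ n ≤ a ∧ a < d ^ (n + 1) := by
  classical
  have hex := harch a d hd
  have h1 := Nat.find_spec hex
  have h2 : Nat.find hex ≠ 0 := by
    intro h0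
    rw [h0, pow_zero] at h1
    exact absurd h1 (not_lt.2 ha)
  obtain ⟨n, hn⟩ := Nat.exists_eq_succ_of_ne_zero h2
  refine ⟨n, ?_, ?_⟩
  · have h3 := Nat.find_min hex (m := n) (by omega)
    exact not_lt.1 h3
  · rw [hn] at h1
    exact h1

theorem holder_pos_aux {M : Type*} [Group M] [LinearOrder M] [MulLeftStrictMono M]
    [MulRightStrictMono M]
    (harch : ∀ a d : M, 1 < d → ∃ m : ℕ, a < d ^ m) {a b : M} (ha : 1 < a) (hb : 1 < b) :
    ¬ (b * a < a * b) := by
  have hML : MulLeftMono M := mulLeftMono_of_mulLeftStrictMono M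
  have hMR : MulRightMono M := mulRightMono_of_mulRightStrictMono M
  intro hlt
  by_cases hleast : ∃ g : M, 1 < g ∧ ∀ h : M, 1 < h → g ≤ h
  · obtain ⟨g, hg, hmin⟩ := hleast
    have key : ∀ h : M, 1 < h → ∃ n : ℕ, h = g ^ n := by
      intro h hh
      obtain ⟨n, hn1, hn2⟩ := holder_pow_aux harch hh.le hg
      refine ⟨n, ?_⟩
      rcases hn1.lt_or_eq with h1 | h1
      · exfalso
        have h2 : 1 < (g ^ n)⁻¹ * h := by
          have := mul_lt_mul_right h1 (g ^ n)⁻¹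
          simpa using this
        have h3 : (g ^ n)⁻¹ * h < g := by
          have := mul_lt_mul_right hn2 (g ^ n)⁻¹
          rw [pow_succ] at this
          simpa using this
        exact absurd (hmin _ h2) (not_le.2 h3)
      · exact h1.symm
    obtain ⟨m, rfl⟩ := key a ha
    obtain ⟨n, rfl⟩ := key b hb
    rw [← pow_add, ← pow_add, add_comm] at hlt
    exact lt_irrefl _ hlt
  · push Not at hleast
    have hc : 1 < (a * b) * (b * a)⁻¹ := by
      have := mul_lt_mul_left hlt (b * a)⁻¹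
      simpa using this
    obtain ⟨d', hd1, hd2⟩ := hleast _ hc
    have hd : ∃ d : M, 1 < d ∧ d * d ≤ (a * b) * (b * a)⁻¹ := by
      by_cases h1 : d' * d' ≤ (a * b) * (b * a)⁻¹
      · exact ⟨d', hd1, h1⟩
      · rw [not_le] at h1
        have h2 : 1 < d'⁻¹ * ((a * b) * (b * a)⁻¹) := by
          have := mul_lt_mul_right hd2 d'⁻¹
          rwa [inv_mul_cancel] at this
        have h3 : d'⁻¹ * ((a * b) * (b * a)⁻¹) < d' := by
          have := mul_lt_mul_right h1 d'⁻¹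
          rwa [inv_mul_cancel_left] at this
        refine ⟨d'⁻¹ * ((a * b) * (b * a)⁻¹), h2, ?_⟩
        have h4 := mul_lt_mul_left h3 (d'⁻¹ * ((a * b) * (b * a)⁻¹))
        rw [mul_inv_cancel_left] at h4
        exact h4.le
    obtain ⟨d, hd3, hd4⟩ := hd
    obtain ⟨m, hm1, hm2⟩ := holder_pow_aux harch ha.le hd3
    obtain ⟨n, hn1, hn2⟩ := holder_pow_aux harch hb.le hd3
    have h5 : a * b < d ^ (m + 1) * d ^ (n + 1) :=
      lt_trans (mul_lt_mul_left hm2 b) (mul_lt_mul_right hn2 (d ^ (m + 1)))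
    have h6 : d ^ n * d ^ m ≤ b * a :=
      le_trans (mul_le_mul_left hn1 (d ^ m)) (mul_le_mul_right hm1 b)
    have h7 : d ^ (m + 1) * d ^ (n + 1) = d * d * (d ^ n * d ^ m) := by
      rw [← pow_add, ← pow_add, ← pow_two, ← pow_add]
      congr 1
      omega
    have h8 : d * d * (d ^ n * d ^ m) ≤ d * d * (b * a) := mul_le_mul_right h6 (d * d)
    have h9 : d * d * (b * a) ≤ (a * b) * (b * a)⁻¹ * (b * a) := mul_le_mul_left hd4 (b * a)
    rw [inv_mul_cancel_right] at h9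
    rw [h7] at h5
    exact absurd (lt_of_lt_of_le h5 (h8.trans h9)) (lt_irrefl _)

theorem holder_lin {M : Type*} [Group M] [LinearOrder M] [MulLeftStrictMono M]
    [MulRightStrictMono M]
    (harch : ∀ a d : M, 1 < d → ∃ m : ℕ, a < d ^ m) (a b : M) : a * b = b * a := by
  have hpos : ∀ x y : M, 1 < x → 1 < y → Commute x y := by
    intro x y hx hy
    rcases lt_trichotomy (x * y) (y * x) with h | h | h
    · exact absurd h (holder_pos_aux harch hy hx)
    · exact h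
    · exact absurd h (holder_pos_aux harch hx hy)
  have hinv : ∀ x : M, x < 1 → 1 < x⁻¹ := fun x hx => by
    have := mul_lt_mul_right hx x⁻¹
    simpa using this
  have hr : ∀ x y : M, 1 < x → Commute x y := by
    intro x y hx
    rcases lt_trichotomy 1 y with h | h | h
    · exact hpos x y hx h
    · rw [← h]; exact Commute.one_right x
    · exact Commute.inv_right_iff.1 (hpos x y⁻¹ hx (hinv y h))
  show Commute a b
  rcases lt_trichotomy 1 a with h | h | h
  · exact hr a b h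
  · rw [← h]; exact Commute.one_left b
  · exact Commute.inv_left_iff.1 (hr a⁻¹ b (hinv a h))

theorem holder_tri (N : Subgroup (ℝ ≃o ℝ)) (hF : ∀ n ∈ N, ∀ y, n y = y → n = 1)
    {g h : ℝ ≃o ℝ} (hg : g ∈ N) (hh : h ∈ N) {x : ℝ} (hx : g x < h x) (y : ℝ) : g y < h y := by
  by_contra hy
  rw [not_lt] at hy
  have hcont : Continuous fun t => h t - g t := h.continuous.sub g.continuous
  obtain ⟨z, hz⟩ := mem_range_of_exists_le_of_exists_ge (c := (0 : ℝ)) hcont
    ⟨y, by simpa using hy⟩ ⟨x, by simpa using hx.le⟩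
  have hz' : h z = g z := by
    have : h z - g z = 0 := hz
    linarith
  have h1 : (g⁻¹ * h) z = z := by
    rw [mul_app, hz', inv_app_self]
  have h2 := hF _ (N.mul_mem (N.inv_mem hg) hh) z h1
  have h3 : g = h := by
    rw [inv_mul_eq_one] at h2
    exact h2
  rw [h3] at hx
  exact lt_irrefl _ hx

theorem holder_arch {d : ℝ ≃o ℝ} (hd : ∀ x, x < d x) (x y : ℝ) : ∃ m : ℕ, y < (d ^ m) x := by
  by_contra hcon
  push Not at hcon
  have hbdd : BddAbove (Set.range fun m : ℕ => (d ^ m) x) := by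
    refine ⟨y, ?_⟩
    rintro _ ⟨m, rfl⟩
    exact hcon m
  have h1 : d⁻¹ (sSup (Set.range fun m : ℕ => (d ^ m) x)) <
      sSup (Set.range fun m : ℕ => (d ^ m) x) := by
    have := hd (d⁻¹ (sSup (Set.range fun m : ℕ => (d ^ m) x)))
    rwa [app_inv_self] at this
  obtain ⟨_, ⟨m, rfl⟩, hm⟩ := exists_lt_of_lt_csSup (Set.range_nonempty _) h1
  have h2 : d (d⁻¹ (sSup (Set.range fun m : ℕ => (d ^ m) x))) < d ((d ^ m) x) :=
    d.strictMono hm
  rw [app_inv_self] at h2
  have h3 : (d ^ (m + 1)) x ≤ sSup (Set.range fun m : ℕ => (d ^ m) x) :=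
    le_csSup hbdd ⟨m + 1, rfl⟩
  rw [pow_succ', mul_app] at h3
  linarith

theorem holder_comm (N : Subgroup (ℝ ≃o ℝ)) (hF : ∀ n ∈ N, ∀ y, n y = y → n = 1) :
    ∀ a ∈ N, ∀ b ∈ N, a * b = b * a := by
  have hinj : Function.Injective (fun a : N => (a : ℝ ≃o ℝ) 0) := by
    intro a b hab
    have hab' : (a : ℝ ≃o ℝ) 0 = (b : ℝ ≃o ℝ) 0 := hab
    have h1 : ((a : ℝ ≃o ℝ)⁻¹ * (b : ℝ ≃o ℝ)) 0 = 0 := by
      rw [mul_app, ← hab', inv_app_self]
    have h2 := hF _ (N.mul_mem (N.inv_mem a.2) b.2) 0 h1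
    rw [inv_mul_eq_one] at h2
    exact Subtype.ext h2
  let L : LinearOrder N := LinearOrder.lift' (fun a : N => (a : ℝ ≃o ℝ) 0) hinj
  have hlt : ∀ a b : N, @LT.lt N L.toLT a b ↔ (a : ℝ ≃o ℝ) 0 < (b : ℝ ≃o ℝ) 0 := fun a b => Iff.rfl
  have hl : @MulLeftStrictMono N _ L.toLT := by
    refine ⟨?_⟩
    intro c a b hab
    rw [hlt] at hab ⊢
    exact (c : ℝ ≃o ℝ).strictMono hab
  have hr : @MulRightStrictMono N _ L.toLT := by
    refine ⟨?_⟩
    intro c a b hab
    rw [hlt] at hab ⊢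
    exact holder_tri N hF a.2 b.2 hab _
  have harch : ∀ a d : N, @LT.lt N L.toLT 1 d → ∃ m : ℕ, @LT.lt N L.toLT a (d ^ m) := by
    intro a d hd
    rw [hlt] at hd
    have hd' : ∀ x, x < (d : ℝ ≃o ℝ) x := fun x =>
      holder_tri N hF N.one_mem d.2 hd x
    obtain ⟨m, hm⟩ := holder_arch hd' 0 ((a : ℝ ≃o ℝ) 0)
    exact ⟨m, by rw [hlt]; exact_mod_cast hm⟩
  intro a ha b hb
  have := @holder_lin N _ L hl hr harch ⟨a, ha⟩ ⟨b, hb⟩
  exact congrArg Subtype.val this


end Pool.Agent.Ghys
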