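import Mathlib
import Pool.Agent.Ghys.Basic
import Pool.Agent.Ghys.L_holder_comm

set_option autoImplicit false

namespace Pool.Agent.Ghys

open Filter Topology Set

variable {Γ : Subgroup (ℝ ≃o ℝ)}


theorem hol8424_inj (N : Subgroup (ℝ ≃o ℝ)) (hF : ∀ n ∈ N, ∀ y, n y = y → n = 1)
    {a b : ℝ ≃o ℝ} (ha : a ∈ N) (hb : b ∈ N) {y : ℝ} (h : a y = b y) : a = b := by
  have h1 : b⁻¹ * a = 1 := by
    apply hF _ (N.mul_mem (N.inv_mem hb) ha) y
    show b⁻¹ (a y) = y
    rw [h, inv_app_self]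
  exact (inv_mul_eq_one.1 h1).symm

theorem hol8424_arch (y : ℝ ≃o ℝ) (hy : 0 < y 0) (hF : ∀ z, y z = z → y = 1) (x : ℝ) :
    ∃ n : ℕ, x ≤ (y ^ n) 0 := by
  by_contra hcon
  push Not at hcon
  have hmono : Monotone fun n : ℕ => (y ^ n) 0 := by
    apply monotone_nat_of_le_succ
    intro n
    rw [pow_succ]
    show (y ^ n) 0 ≤ (y ^ n) (y 0)
    exact (y ^ n).monotone hy.le
  have hbdd : BddAbove (Set.range fun n : ℕ => (y ^ n) 0) := by
    refine ⟨x, ?_⟩
    rintro _ ⟨n, rfl⟩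
    exact (hcon n).le
  have h1 := tendsto_atTop_ciSup hmono hbdd
  obtain ⟨L, hL⟩ : ∃ L, L = ⨆ n : ℕ, (y ^ n) 0 := ⟨_, rfl⟩
  rw [← hL] at h1
  have h2 : Tendsto (fun n : ℕ => (y ^ (n + 1)) 0) atTop (𝓝 L) :=
    h1.comp (tendsto_add_atTop_nat 1)
  have h3 : Tendsto (fun n : ℕ => y ((y ^ n) 0)) atTop (𝓝 (y L)) :=
    (y.continuous.tendsto L).comp h1
  have h4 : (fun n : ℕ => (y ^ (n + 1)) 0) = fun n : ℕ => y ((y ^ n) 0) := by
    funext n
    rw [pow_succ']
    rfl
  rw [h4] at h2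
  have h5 : y L = L := tendsto_nhds_unique h3 h2
  have h6 := hF L h5
  rw [h6] at hy
  exact lt_irrefl _ hy

theorem hol8424_exists (N : Subgroup (ℝ ≃o ℝ)) (hF : ∀ n ∈ N, ∀ y, n y = y → n = 1) :
    ∃ ι : N → ℝ, (∀ a b : N, ι (a * b) = ι a + ι b) ∧
      ∀ a b : N, (a : ℝ ≃o ℝ) 0 < (b : ℝ ≃o ℝ) 0 → ι a < ι b := by
  have hcomm := holder_comm N hF
  letI i1 : AddCommGroup (Additive N) :=
    { (inferInstance : AddGroup (Additive N)) with
      add_comm := by
        intro a b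
        apply Additive.toMul.injective
        apply Subtype.ext
        exact hcomm _ (Additive.toMul a).2 _ (Additive.toMul b).2 }
  have hinj : Function.Injective
      (fun n : Additive N => ((Additive.toMul n : N) : ℝ ≃o ℝ) 0) := by
    intro a b h
    apply Additive.toMul.injective
    apply Subtype.ext
    exact hol8424_inj N hF (Additive.toMul a).2 (Additive.toMul b).2 h
  letI i2 : LinearOrder (Additive N) :=
    LinearOrder.lift' (fun n : Additive N => ((Additive.toMul n : N) : ℝ ≃o ℝ) 0) hinj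
  have hle : ∀ a b : Additive N, a ≤ b ↔
      ((Additive.toMul a : N) : ℝ ≃o ℝ) 0 ≤ ((Additive.toMul b : N) : ℝ ≃o ℝ) 0 :=
    fun a b => Iff.rfl
  have hlt : ∀ a b : Additive N, a < b ↔
      ((Additive.toMul a : N) : ℝ ≃o ℝ) 0 < ((Additive.toMul b : N) : ℝ ≃o ℝ) 0 :=
    fun a b => Iff.rfl
  haveI i3 : IsOrderedAddMonoid (Additive N) :=
    { add_le_add_left := by
        intro a b hab c
        rw [add_comm a c, add_comm b c, hle]
        exact ((Additive.toMul c : N) : ℝ ≃o ℝ).monotone ((hle a b).1 hab) }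
  have hsm : ∀ (n : ℕ) (y : Additive N), ((Additive.toMul (n • y) : N) : ℝ ≃o ℝ) =
      ((Additive.toMul y : N) : ℝ ≃o ℝ) ^ n := by
    intro n y
    induction n with
    | zero => rw [zero_nsmul, pow_zero]; rfl
    | succ n ih => rw [succ_nsmul, pow_succ, ← ih]; rfl
  haveI i4 : Archimedean (Additive N) := by
    constructor
    intro x y hy
    obtain ⟨n, hn⟩ := hol8424_arch ((Additive.toMul y : N) : ℝ ≃o ℝ) ((hlt 0 y).1 hy)
      (fun z hz => hF _ (Additive.toMul y).2 z hz) (((Additive.toMul x : N) : ℝ ≃o ℝ) 0)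
    refine ⟨n, ?_⟩
    rw [hle, hsm]
    exact hn
  obtain ⟨f, hf⟩ := Archimedean.exists_orderAddMonoidHom_real_injective (Additive N)
  refine ⟨fun n => f (Additive.ofMul n), ?_, ?_⟩
  · intro a b
    exact map_add f (Additive.ofMul a) (Additive.ofMul b)
  · intro a b hab
    have h1 : Additive.ofMul a < Additive.ofMul b := (hlt _ _).2 hab
    exact lt_of_le_of_ne (f.monotone' h1.le) (fun h => h1.ne (hf h))

theorem holder (N : Subgroup (ℝ ≃o ℝ)) (hT : ∀ y z, ∃ n ∈ N, n y = z)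
    (hF : ∀ n ∈ N, ∀ y, n y = y → n = 1) :
    ∃ φ : ℝ ≃o ℝ, ∀ f : ℝ ≃o ℝ, f ∈ N ↔ ∃ t : ℝ, ∀ x, φ (f x) = φ x + t := by
  obtain ⟨ι, hι1, hι2⟩ := hol8424_exists N hF
  choose n hnN hn using hT 0
  obtain ⟨φ, hφ⟩ : ∃ φ : ℝ → ℝ, φ = fun y => ι ⟨n y, hnN y⟩ := ⟨_, rfl⟩
  have hmono : StrictMono φ := by
    intro y z hyz
    rw [hφ]
    apply hι2
    show n y 0 < n z 0
    rw [hn, hn]
    exact hyz
  have hact : ∀ (f : ℝ ≃o ℝ) (hf : f ∈ N) (y : ℝ), φ (f y) = φ y + ι ⟨f, hf⟩ := by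
    intro f hf y
    rw [hφ]
    show ι ⟨n (f y), hnN (f y)⟩ = ι ⟨n y, hnN y⟩ + ι ⟨f, hf⟩
    rw [add_comm, ← hι1]
    congr 1
    apply Subtype.ext
    apply hol8424_inj N hF (hnN _) (N.mul_mem hf (hnN y)) (y := 0)
    show n (f y) 0 = f (n y 0)
    rw [hn, hn]
  have hrange : ∀ a : N, ι a = φ ((a : ℝ ≃o ℝ) 0) := by
    intro a
    rw [hφ]
    show ι a = ι ⟨n ((a : ℝ ≃o ℝ) 0), _⟩
    congr 1
    apply Subtype.ext
    apply hol8424_inj N hF a.2 (hnN _) (y := 0)
    show (a : ℝ ≃o ℝ) 0 = n ((a : ℝ ≃o ℝ) 0) 0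
    rw [hn]
  have hone : ι 1 = 0 := by
    have := hι1 1 1
    rw [mul_one] at this
    linarith
  have hinv : ∀ a : N, ι a⁻¹ = -ι a := by
    intro a
    have := hι1 a⁻¹ a
    rw [inv_mul_cancel, hone] at this
    linarith
  have hφ0 : φ 0 = 0 := by
    have := hrange 1
    rw [hone] at this
    exact this.symm
  obtain ⟨S, hS⟩ : ∃ S : AddSubgroup ℝ, ∀ r, r ∈ S ↔ ∃ y, φ y = r := by
    refine ⟨{ carrier := {r | ∃ y, φ y = r}
              add_mem' := ?_
              zero_mem' := ⟨0, hφ0⟩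
              neg_mem' := ?_ }, fun r => Iff.rfl⟩
    · rintro _ _ ⟨y, rfl⟩ ⟨z, rfl⟩
      refine ⟨n z y, ?_⟩
      rw [hact _ (hnN z)]
      rw [hφ]
    · rintro _ ⟨y, rfl⟩
      refine ⟨((⟨n y, hnN y⟩ : N)⁻¹ : N).1 0, ?_⟩
      rw [← hrange, hinv]
      rw [hφ]
  have hdense : Dense (S : Set ℝ) := by
    rcases S.dense_or_cyclic with h | ⟨a, ha⟩
    · exact h
    · exfalso
      have hmem : ∀ y, ∃ k : ℤ, k • a = φ y := by
        intro y
        have h1 : φ y ∈ S := (hS _).2 ⟨y, rfl⟩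
        rw [ha, AddSubgroup.mem_closure_singleton] at h1
        exact h1
      have ha0 : a ≠ 0 := by
        rintro rfl
        obtain ⟨k, hk⟩ := hmem 1
        rw [smul_zero] at hk
        have := hmono (show (0 : ℝ) < 1 by norm_num)
        linarith
      have habs : |a| ∈ S := by
        have h1 : a ∈ S := by rw [ha]; exact AddSubgroup.mem_closure_of_mem rfl
        rcases abs_choice a with h | h
        · rw [h]; exact h1
        · rw [h]; exact S.neg_mem h1
      obtain ⟨y0, hy0⟩ := (hS _).1 habs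
      have hapos : 0 < |a| := abs_pos.2 ha0
      have hy0pos : 0 < y0 := by
        rw [← hmono.lt_iff_lt, hφ0, hy0]
        exact hapos
      obtain ⟨k, hk⟩ := hmem (y0 / 2)
      have h2 : 0 < φ (y0 / 2) := by
        rw [← hφ0]; exact hmono (by linarith)
      have h3 : φ (y0 / 2) < |a| := by
        rw [← hy0]; exact hmono (by linarith)
      rw [← hk, zsmul_eq_mul] at h2 h3
      have h4 : |(k : ℝ) * a| < |a| := by rw [abs_of_pos h2]; exact h3
      rw [abs_mul] at h4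
      have h5 : |(k : ℝ)| < 1 := by
        by_contra hcon
        push Not at hcon
        have := mul_le_mul_of_nonneg_right hcon hapos.le
        linarith
      have h6 : |k| < 1 := by exact_mod_cast h5
      have h7 : k = 0 := Int.abs_lt_one_iff.1 h6
      rw [h7] at h2
      simp at h2
  have hdr : DenseRange φ := by
    have h1 : Set.range φ = (S : Set ℝ) := by
      ext r
      exact (hS r).symm
    rw [DenseRange, h1]
    exact hdense
  have hcont : Continuous φ := hmono.monotone.continuous_of_denseRange hdr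
  have hsurj : Function.Surjective φ := by
    apply hcont.surjective
    · apply tendsto_atTop_atTop_of_monotone hmono.monotone
      intro b
      obtain ⟨y, hy⟩ := hdr.exists_mem_open isOpen_Ioi ⟨b + 1, show b < b + 1 by linarith⟩
      exact ⟨y, le_of_lt hy⟩
    · apply tendsto_atBot_atBot_of_monotone hmono.monotone
      intro b
      obtain ⟨y, hy⟩ := hdr.exists_mem_open isOpen_Iio ⟨b - 1, show b - 1 < b by linarith⟩
      exact ⟨y, le_of_lt hy⟩
  refine ⟨hmono.orderIsoOfSurjective φ hsurj, fun f => ⟨fun hf => ⟨ι ⟨f, hf⟩, fun x => ?_⟩, ?_⟩⟩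
  · exact hact f hf x
  · rintro ⟨t, ht⟩
    have ht' : ∀ x, φ (f x) = φ x + t := ht
    have h1 : φ (n (f 0) 0) = φ 0 + ι ⟨n (f 0), hnN _⟩ := hact _ (hnN _) 0
    rw [hn, ht' 0] at h1
    have h2 : t = ι ⟨n (f 0), hnN _⟩ := by linarith
    have h3 : f = n (f 0) := by
      ext x
      apply hmono.injective
      rw [ht' x, hact _ (hnN (f 0)) x, ← h2]
    rw [h3]
    exact hnN _


end Pool.Agent.Ghys
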