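import Mathlib
import Pool.Agent.Ghys.Basic
import Pool.Agent.Ghys.L_aff1
import Pool.Agent.Ghys.L_holder

set_option autoImplicit false

namespace Pool.Agent.Ghys

open Filter Topology Set

variable {Γ : Subgroup (ℝ ≃o ℝ)}


theorem aff_fwd_8425 {H N : Subgroup (ℝ ≃o ℝ)} (hconj : ∀ h ∈ H, ∀ n ∈ N, h * n * h⁻¹ ∈ N)
    (φ : ℝ ≃o ℝ) (hφ : ∀ f : ℝ ≃o ℝ, f ∈ N ↔ ∃ t : ℝ, ∀ x, φ (f x) = φ x + t)
    (h : ℝ ≃o ℝ) (hh : h ∈ H) : ∃ a b : ℝ, 0 < a ∧ ∀ x, φ (h x) = a * φ x + b := by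
  set F : ℝ ≃o ℝ := (φ.symm.trans h).trans φ with hF
  have hFa : ∀ u, F u = φ (h (φ.symm u)) := fun u => rfl
  have key : ∀ s : ℝ, ∃ t : ℝ, ∀ u, F (u + s) = F u + t := by
    intro s
    set τ : ℝ ≃o ℝ := (φ.trans (OrderIso.addRight s)).trans φ.symm with hτ
    have hτa : ∀ x, τ x = φ.symm (φ x + s) := fun x => rfl
    have hτN : τ ∈ N := (hφ τ).2 ⟨s, fun x => by rw [hτa, OrderIso.apply_symm_apply]⟩
    obtain ⟨t, ht⟩ := (hφ _).1 (hconj h hh τ hτN)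
    refine ⟨t, fun u => ?_⟩
    have h3 := ht (h (φ.symm u))
    have h4 : (h * τ * h⁻¹) (h (φ.symm u)) = h (τ (φ.symm u)) := by
      change h (τ (h.symm (h (φ.symm u)))) = _
      rw [OrderIso.symm_apply_apply]
    rw [h4, hτa, OrderIso.apply_symm_apply] at h3
    rw [hFa, hFa, h3]
  have hadd : ∀ u s, F (u + s) = F u + (F s - F 0) := by
    intro u s
    obtain ⟨t, ht⟩ := key s
    have h0 := ht 0
    rw [zero_add] at h0
    rw [ht u, h0]; ring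
  have hcont : Continuous F := F.continuous
  let θ : ℝ →+ ℝ :=
    { toFun := fun s => F s - F 0
      map_zero' := by simp
      map_add' := fun u s => by
        change F (u + s) - F 0 = (F u - F 0) + (F s - F 0)
        rw [hadd]; ring }
  have hθ : ∀ s, θ s = F s - F 0 := fun s => rfl
  have hθc : Continuous θ := hcont.sub continuous_const
  have hlin : ∀ s, θ s = s * θ 1 := by
    intro s
    have h5 := (θ.toRealLinearMap hθc).map_smul s 1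
    simp only [smul_eq_mul, mul_one] at h5
    exact h5
  refine ⟨θ 1, F 0, ?_, fun x => ?_⟩
  · rw [hθ]
    have := F.strictMono (zero_lt_one' ℝ)
    linarith
  · have h6 := hlin (φ x)
    rw [hθ, hFa (φ x), OrderIso.symm_apply_apply] at h6
    linarith

theorem aff (H : Subgroup (ℝ ≃o ℝ))
    (h2 : ∀ y y' z z' : ℝ, y < y' → z < z' → ∃ h ∈ H, h y = z ∧ h y' = z')
    (h1 : ∀ h ∈ H, ∀ y y' : ℝ, y < y' → h y = y → h y' = y' → h = 1) :
    ∃ φ : ℝ ≃o ℝ, ∀ f : ℝ ≃o ℝ, f ∈ H ↔ ∃ a b : ℝ, 0 < a ∧ ∀ x, φ (f x) = a * φ x + b := by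
  obtain ⟨N, hNH, hconj, hT, hFr⟩ := aff1 H h2 h1
  obtain ⟨φ, hφ⟩ := holder N hT hFr
  refine ⟨φ, fun f => ⟨fun hf => aff_fwd_8425 hconj φ hφ f hf, ?_⟩⟩
  rintro ⟨a, b, ha, hab⟩
  obtain ⟨h, hh, h00, h11⟩ := h2 0 1 (f 0) (f 1) zero_lt_one (f.strictMono zero_lt_one)
  obtain ⟨α, β, hα, hαβ⟩ := aff_fwd_8425 hconj φ hφ h hh
  have e0 := hαβ 0
  have e1 := hαβ 1
  rw [h00, hab] at e0
  rw [h11, hab] at e1
  have hlt : φ 0 < φ 1 := φ.strictMono zero_lt_one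
  have e2 : (α - a) * (φ 1 - φ 0) = 0 := by linear_combination e0 - e1
  have e3 : α = a := by
    rcases mul_eq_zero.1 e2 with h3 | h3
    · linarith
    · linarith
  have e4 : β = b := by rw [e3] at e0; linarith
  have e5 : h = f := by
    ext x
    apply φ.injective
    rw [hαβ, hab, e3, e4]
  rw [← e5]; exact hh


end Pool.Agent.Ghys
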