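import Mathlib
import Pool.Agent.Ghys.Basic
import Pool.Agent.Ghys.L_aff

set_option autoImplicit false

namespace Pool.Agent.Ghys

open Filter Topology Set

variable {Γ : Subgroup (ℝ ≃o ℝ)}


theorem aff_Ioo_iso {a b : ℝ} (hab : a < b) : Nonempty (ℝ ≃o Ioo a b) := by
  have hba : 0 < b - a := by linarith
  let e := orderIsoIooNegOneOne ℝ
  have hmem : ∀ t : ℝ, (a + b) / 2 + (b - a) / 2 * (e t : ℝ) ∈ Ioo a b := by
    intro t
    have h := (e t).2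
    constructor
    · nlinarith [h.1]
    · nlinarith [h.2]
  let f : ℝ → Ioo a b := fun t => ⟨(a + b) / 2 + (b - a) / 2 * (e t : ℝ), hmem t⟩
  have hf : StrictMono f := by
    intro s t hst
    have h1 : (e s : ℝ) < e t := e.strictMono hst
    show (a + b) / 2 + (b - a) / 2 * (e s : ℝ) < (a + b) / 2 + (b - a) / 2 * (e t : ℝ)
    nlinarith
  have hs : Function.Surjective f := by
    rintro ⟨y, hy⟩
    have hz : (2 * y - a - b) / (b - a) ∈ Ioo (-1 : ℝ) 1 := by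
      constructor
      · rw [lt_div_iff₀ hba]; linarith [hy.1]
      · rw [div_lt_iff₀ hba]; linarith [hy.2]
    refine ⟨e.symm ⟨_, hz⟩, ?_⟩
    apply Subtype.ext
    show (a + b) / 2 + (b - a) / 2 * ((e (e.symm ⟨_, hz⟩) : Ioo (-1 : ℝ) 1) : ℝ) = y
    rw [e.apply_symm_apply]
    show (a + b) / 2 + (b - a) / 2 * ((2 * y - a - b) / (b - a)) = y
    field_simp
    ring
  exact ⟨hf.orderIsoOfSurjective f hs⟩

theorem aff_Ioo_mem {a b : ℝ} {h : ℝ ≃o ℝ} (hh : h a = a ∧ h b = b) {x : ℝ} (hx : x ∈ Ioo a b) :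
    h x ∈ Ioo a b := by
  constructor
  · have := h.strictMono hx.1
    rwa [hh.1] at this
  · have := h.strictMono hx.2
    rwa [hh.2] at this

/-- the conjugated group -/
def conjH {a b : ℝ} (ψ : ℝ ≃o Ioo a b) (H : Subgroup (ℝ ≃o ℝ)) : Subgroup (ℝ ≃o ℝ) where
  carrier := {f | ∃ h ∈ H, ∀ t, ((ψ (f t) : Ioo a b) : ℝ) = h (ψ t)}
  mul_mem' := by
    rintro f g ⟨h, hh, h1⟩ ⟨k, hk, k1⟩
    refine ⟨h * k, H.mul_mem hh hk, fun t => ?_⟩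
    rw [mul_app, mul_app, h1, k1]
  one_mem' := ⟨1, H.one_mem, fun t => rfl⟩
  inv_mem' := by
    rintro f ⟨h, hh, h1⟩
    refine ⟨h⁻¹, H.inv_mem hh, fun t => ?_⟩
    symm
    rw [inv_eq_iff, ← h1, app_inv_self]

theorem conjH_exists {a b : ℝ} (ψ : ℝ ≃o Ioo a b) (h : ℝ ≃o ℝ) (hh : h a = a ∧ h b = b) :
    ∃ f : ℝ ≃o ℝ, ∀ t, ((ψ (f t) : Ioo a b) : ℝ) = h (ψ t) := by
  have hinv : h⁻¹ a = a ∧ h⁻¹ b = b := by
    constructor
    · rw [inv_eq_iff, hh.1]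
    · rw [inv_eq_iff, hh.2]
  have hm : ∀ t : ℝ, h (ψ t) ∈ Ioo a b := fun t => aff_Ioo_mem hh (ψ t).2
  have hm' : ∀ t : ℝ, h⁻¹ (ψ t) ∈ Ioo a b := fun t => aff_Ioo_mem hinv (ψ t).2
  refine ⟨{ toFun := fun t => ψ.symm ⟨h (ψ t), hm t⟩
            invFun := fun t => ψ.symm ⟨h⁻¹ (ψ t), hm' t⟩
            left_inv := ?_
            right_inv := ?_
            map_rel_iff' := ?_ }, ?_⟩
  · intro t
    show ψ.symm ⟨h⁻¹ (ψ (ψ.symm ⟨h (ψ t), hm t⟩)), _⟩ = t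
    rw [OrderIso.symm_apply_eq]
    apply Subtype.ext
    show h⁻¹ ((ψ (ψ.symm ⟨h (ψ t), hm t⟩) : Ioo a b) : ℝ) = ψ t
    rw [ψ.apply_symm_apply]
    exact inv_app_self h _
  · intro t
    show ψ.symm ⟨h (ψ (ψ.symm ⟨h⁻¹ (ψ t), hm' t⟩)), _⟩ = t
    rw [OrderIso.symm_apply_eq]
    apply Subtype.ext
    show h ((ψ (ψ.symm ⟨h⁻¹ (ψ t), hm' t⟩) : Ioo a b) : ℝ) = ψ t
    rw [ψ.apply_symm_apply]
    exact app_inv_self h _
  · intro s t
    show ψ.symm ⟨h (ψ s), hm s⟩ ≤ ψ.symm ⟨h (ψ t), hm t⟩ ↔ s ≤ t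
    rw [ψ.symm.le_iff_le]
    show h (ψ s) ≤ h (ψ t) ↔ s ≤ t
    rw [h.le_iff_le]
    exact ψ.le_iff_le
  · intro t
    show ((ψ (ψ.symm ⟨h (ψ t), hm t⟩) : Ioo a b) : ℝ) = h (ψ t)
    rw [ψ.apply_symm_apply]

theorem aff_Ioo (H : Subgroup (ℝ ≃o ℝ)) {a b : ℝ} (hab : a < b)
    (hH : ∀ g ∈ H, g a = a ∧ g b = b)
    (h2 : ∀ y ∈ Ioo a b, ∀ y' ∈ Ioo a b, ∀ z ∈ Ioo a b, ∀ z' ∈ Ioo a b, y < y' → z < z' →
        ∃ h ∈ H, h y = z ∧ h y' = z')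
    (h1 : ∀ h ∈ H, ∀ y ∈ Ioo a b, ∀ y' ∈ Ioo a b, y < y' → h y = y → h y' = y' → h = 1) :
    ∃ φ : ℝ → ℝ, StrictMonoOn φ (Ioo a b) ∧ φ '' (Ioo a b) = univ ∧
      (∀ h ∈ H, ∃ α β : ℝ, 0 < α ∧ ∀ x ∈ Ioo a b, φ (h x) = α * φ x + β) ∧
      (∀ α β : ℝ, 0 < α → ∃ h ∈ H, ∀ x ∈ Ioo a b, φ (h x) = α * φ x + β) := by
  classical
  obtain ⟨ψ⟩ := aff_Ioo_iso hab
  obtain ⟨φ', hφ'⟩ := aff (conjH ψ H) (by
      intro y y' z z' hy hz
      obtain ⟨h, hh, e1, e2⟩ := h2 (ψ y) (ψ y).2 (ψ y') (ψ y').2 (ψ z) (ψ z).2 (ψ z') (ψ z').2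
        (ψ.strictMono hy) (ψ.strictMono hz)
      obtain ⟨f, hf⟩ := conjH_exists ψ h (hH h hh)
      refine ⟨f, ⟨h, hh, hf⟩, ?_, ?_⟩
      · apply ψ.injective
        apply Subtype.ext
        rw [hf, e1]
      · apply ψ.injective
        apply Subtype.ext
        rw [hf, e2]) (by
      rintro f ⟨h, hh, hf⟩ y y' hy e1 e2
      have e3 : h (ψ y) = ψ y := by rw [← hf, e1]
      have e4 : h (ψ y') = ψ y' := by rw [← hf, e2]
      have e5 := h1 h hh (ψ y) (ψ y).2 (ψ y') (ψ y').2 (ψ.strictMono hy) e3 e4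
      apply OrderIso.ext
      funext t
      apply ψ.injective
      apply Subtype.ext
      rw [hf, e5]
      rfl)
  obtain ⟨φ, hφ⟩ : ∃ φ : ℝ → ℝ, ∀ t : ℝ, φ (ψ t) = φ' t := by
    refine ⟨fun x => if hx : x ∈ Ioo a b then φ' (ψ.symm ⟨x, hx⟩) else 0, fun t => ?_⟩
    beta_reduce
    rw [dif_pos (ψ t).2]
    congr 1
    exact ψ.symm_apply_apply t
  have hsurj : ∀ x ∈ Ioo a b, ∃ t : ℝ, ((ψ t : Ioo a b) : ℝ) = x := by
    intro x hx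
    exact ⟨ψ.symm ⟨x, hx⟩, by rw [ψ.apply_symm_apply]⟩
  refine ⟨φ, ?_, ?_, ?_, ?_⟩
  · intro x hx y hy hxy
    obtain ⟨s, rfl⟩ := hsurj x hx
    obtain ⟨t, rfl⟩ := hsurj y hy
    rw [hφ, hφ]
    have : ψ s < ψ t := hxy
    exact φ'.strictMono (ψ.lt_iff_lt.1 this)
  · rw [eq_univ_iff_forall]
    intro r
    exact ⟨ψ (φ'.symm r), (ψ (φ'.symm r)).2, by rw [hφ, φ'.apply_symm_apply]⟩
  · intro h hh
    obtain ⟨f, hf⟩ := conjH_exists ψ h (hH h hh)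
    obtain ⟨α, β, hα, hαβ⟩ := (hφ' f).1 ⟨h, hh, hf⟩
    refine ⟨α, β, hα, fun x hx => ?_⟩
    obtain ⟨t, rfl⟩ := hsurj x hx
    rw [← hf, hφ, hφ]
    exact hαβ t
  · intro α β hα
    let f : ℝ ≃o ℝ :=
      { toFun := fun t => φ'.symm (α * φ' t + β)
        invFun := fun t => φ'.symm ((φ' t - β) / α)
        left_inv := by
          intro t
          beta_reduce
          rw [φ'.apply_symm_apply, OrderIso.symm_apply_eq]
          field_simp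
          ring
        right_inv := by
          intro t
          beta_reduce
          rw [φ'.apply_symm_apply, OrderIso.symm_apply_eq]
          field_simp
          ring
        map_rel_iff' := by
          intro s t
          show φ'.symm (α * φ' s + β) ≤ φ'.symm (α * φ' t + β) ↔ s ≤ t
          rw [φ'.symm.le_iff_le, add_le_add_iff_right, mul_le_mul_iff_right₀ hα]
          exact φ'.le_iff_le }
    have hfv : ∀ t, φ' (f t) = α * φ' t + β := fun t => φ'.apply_symm_apply _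
    obtain ⟨h, hh, hf⟩ := (hφ' f).2 ⟨α, β, hα, hfv⟩
    refine ⟨h, hh, fun x hx => ?_⟩
    obtain ⟨t, rfl⟩ := hsurj x hx
    rw [← hf, hφ, hφ]
    exact hfv t


end Pool.Agent.Ghys
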