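import Mathlib
import Pool.Agent.Ghys.Basic

set_option autoImplicit false

namespace Pool.Agent.Ghys

open Filter Topology Set

variable {Γ : Subgroup (ℝ ≃o ℝ)}


/-- local sections -/
structure Sec (K : Subgroup (ℝ ≃o ℝ)) (I : Set ℝ) {X : Type*} [MulAction K X] (y0 : ℝ) (x0 : X)
    (J : Set ℝ) (t : ℝ → X) : Prop where
  sub : J ⊆ I
  op : IsOpen J
  oc : J.OrdConnected
  mem : y0 ∈ J
  val : t y0 = x0
  lg : ∀ y ∈ J, ∃ ε > 0, ∀ g : K, Sm ε (g : ℝ ≃o ℝ) → ∀ y', |y' - y| < ε →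
    t ((g : ℝ ≃o ℝ) y') = g • t y'

theorem Sec.unique {K : Subgroup (ℝ ≃o ℝ)} {I : Set ℝ}
    (hmic : ∀ y ∈ I, ∀ ε > 0, ∃ η > 0, ∀ y', |y' - y| < η → ∃ g ∈ K, Sm ε g ∧ g y = y')
    {X : Type*} [MulAction K X] {y0 : ℝ} {x0 : X} {J1 J2 : Set ℝ} {t1 t2 : ℝ → X}
    (h1 : Sec K I y0 x0 J1 t1) (h2 : Sec K I y0 x0 J2 t2) :
    ∀ y, y ∈ J1 → y ∈ J2 → t1 y = t2 y := by
  have hloc : ∀ y ∈ J1 ∩ J2, ∀ᶠ y' in 𝓝 y, (t1 y' = t2 y' ↔ t1 y = t2 y) := by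
    rintro y ⟨hy1, hy2⟩
    obtain ⟨ε1, hε1, H1⟩ := h1.lg y hy1
    obtain ⟨ε2, hε2, H2⟩ := h2.lg y hy2
    obtain ⟨η, hη, Hη⟩ := hmic y (h1.sub hy1) (min ε1 ε2) (lt_min hε1 hε2)
    rw [Metric.eventually_nhds_iff]
    refine ⟨η, hη, fun y' hy' => ?_⟩
    rw [Real.dist_eq] at hy'
    obtain ⟨g, hg, hgs, hgy⟩ := Hη y' hy'
    have e1 := H1 ⟨g, hg⟩ (hgs.mono (min_le_left _ _)) y (by simpa using hε1)
    have e2 := H2 ⟨g, hg⟩ (hgs.mono (min_le_right _ _)) y (by simpa using hε2)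
    change t1 (g y) = _ at e1
    change t2 (g y) = _ at e2
    rw [hgy] at e1 e2
    rw [e1, e2]
    constructor
    · intro h
      exact smul_left_cancel _ h
    · intro h
      rw [h]
  have hS : IsPreconnected (J1 ∩ J2) := (h1.oc.inter h2.oc).isPreconnected
  have hu : IsOpen {y | ∀ᶠ y' in 𝓝 y, t1 y' = t2 y'} := isOpen_setOfPred_eventually_nhds
  have hv : IsOpen {y | ∀ᶠ y' in 𝓝 y, ¬ t1 y' = t2 y'} := isOpen_setOfPred_eventually_nhds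
  intro y hy1 hy2
  by_contra hne
  obtain ⟨z, -, hz1, hz2⟩ := hS _ _ hu hv
    (by
      intro z hz
      have := hloc z hz
      by_cases h : t1 z = t2 z
      · left
        filter_upwards [this] with y' hy'
        exact hy'.2 h
      · right
        filter_upwards [this] with y' hy'
        exact fun h' => h (hy'.1 h'))
    ⟨y0, ⟨h1.mem, h2.mem⟩, by
      have := hloc y0 ⟨h1.mem, h2.mem⟩
      filter_upwards [this] with y' hy'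
      exact hy'.2 (by rw [h1.val, h2.val])⟩
    ⟨y, ⟨hy1, hy2⟩, by
      have := hloc y ⟨hy1, hy2⟩
      filter_upwards [this] with y' hy'
      exact fun h' => hne (hy'.1 h')⟩
  exact (hz2 : ∀ᶠ y' in 𝓝 z, ¬ t1 y' = t2 y').self_of_nhds
    (hz1 : ∀ᶠ y' in 𝓝 z, t1 y' = t2 y').self_of_nhds

theorem Sec.trans {K : Subgroup (ℝ ≃o ℝ)} (hper : ∀ g ∈ K, Per g) {I : Set ℝ}
    (hKI : ∀ g ∈ K, ∀ x ∈ I, g x ∈ I)
    {X : Type*} [MulAction K X] {y0 : ℝ} {x0 : X} {J : Set ℝ} {t : ℝ → X}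
    (h : Sec K I y0 x0 J t) (g : K) (hg1 : (g : ℝ ≃o ℝ)⁻¹ y0 ∈ J)
    (hg2 : g • t ((g : ℝ ≃o ℝ)⁻¹ y0) = x0) :
    Sec K I y0 x0 {y | (g : ℝ ≃o ℝ)⁻¹ y ∈ J} (fun y => g • t ((g : ℝ ≃o ℝ)⁻¹ y)) := by
  refine ⟨?_, ?_, ?_, hg1, hg2, ?_⟩
  · intro y hy
    have h1 : (g : ℝ ≃o ℝ)⁻¹ y ∈ I := h.sub hy
    have h2 := hKI g g.2 _ h1
    rwa [app_inv_self] at h2
  · exact h.op.preimage (OrderIso.continuous ((g : ℝ ≃o ℝ)⁻¹))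
  · exact h.oc.preimage_mono (OrderIso.monotone ((g : ℝ ≃o ℝ)⁻¹))
  · intro y hy
    obtain ⟨ε, hε, H⟩ := h.lg _ hy
    obtain ⟨δ1, hδ1, H1⟩ := Sm.conj (hper g g.2).inv hε
    obtain ⟨δ2, hδ2, H2⟩ := (hper g g.2).inv.uc hε
    refine ⟨min δ1 δ2, lt_min hδ1 hδ2, fun k hk y' hy' => ?_⟩
    have e1 := H1 k (hk.mono (min_le_left _ _))
    have e2 := H2 y' y (lt_of_lt_of_le hy' (min_le_right _ _))
    rw [inv_inv] at e1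
    have e3 := H (g⁻¹ * k * g) e1 ((g : ℝ ≃o ℝ)⁻¹ y') e2
    have e4 : ((g⁻¹ * k * g : K) : ℝ ≃o ℝ) ((g : ℝ ≃o ℝ)⁻¹ y') = (g : ℝ ≃o ℝ)⁻¹ ((k : ℝ ≃o ℝ) y') := by
      show (g : ℝ ≃o ℝ)⁻¹ ((k : ℝ ≃o ℝ) ((g : ℝ ≃o ℝ) ((g : ℝ ≃o ℝ)⁻¹ y'))) = _
      rw [app_inv_self]
    rw [e4] at e3
    show g • t ((g : ℝ ≃o ℝ)⁻¹ ((k : ℝ ≃o ℝ) y')) = k • (g • t ((g : ℝ ≃o ℝ)⁻¹ y'))
    rw [e3, smul_smul, smul_smul]
    congr 1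
    group

theorem ext_lemma (K : Subgroup (ℝ ≃o ℝ)) (hper : ∀ g ∈ K, Per g) (I : Set ℝ) (hI : IsOpen I)
    (hIc : I.OrdConnected) (hKI : ∀ g ∈ K, ∀ x ∈ I, g x ∈ I)
    (hmic : ∀ y ∈ I, ∀ ε > 0, ∃ η > 0, ∀ y', |y' - y| < η → ∃ g ∈ K, Sm ε g ∧ g y = y')
    {X : Type*} [MulAction K X] (y0 : ℝ) (hy0 : y0 ∈ I) (x0 : X) {δ : ℝ} (hδ : 0 < δ)
    (hst : ∀ g : K, Sm δ (g : ℝ ≃o ℝ) → (g : ℝ ≃o ℝ) y0 = y0 → g • x0 = x0) :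
    ∃ s : ℝ → X, s y0 = x0 ∧ ∃ ε > 0, ∀ g : K, Sm ε (g : ℝ ≃o ℝ) → ∀ y ∈ I,
      s ((g : ℝ ≃o ℝ) y) = g • s y := by
  classical
  -- (1) a first section
  obtain ⟨η1, hη1, Hη1⟩ := hmic y0 hy0 (δ / 4) (by linarith)
  obtain ⟨η2, hη2, Hη2⟩ := Metric.isOpen_iff.1 hI y0 hy0
  obtain ⟨η, hη, hηη1, hηη2⟩ : ∃ η > 0, η ≤ η1 ∧ η ≤ η2 :=
    ⟨min η1 η2, lt_min hη1 hη2, min_le_left _ _, min_le_right _ _⟩
  have hG : ∀ y, ∃ g : K, |y - y0| < η → Sm (δ / 4) (g : ℝ ≃o ℝ) ∧ (g : ℝ ≃o ℝ) y0 = y := by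
    intro y
    by_cases h : |y - y0| < η
    · obtain ⟨g, hg, h1, h2⟩ := Hη1 y (lt_of_lt_of_le h hηη1)
      exact ⟨⟨g, hg⟩, fun _ => ⟨h1, h2⟩⟩
    · exact ⟨1, fun h' => absurd h' h⟩
  choose G hG using hG
  obtain ⟨t0, ht0⟩ : ∃ t0 : ℝ → X, ∀ y, t0 y = G y • x0 := ⟨_, fun _ => rfl⟩
  have key0 : ∀ g : K, Sm (3 * δ / 4) (g : ℝ ≃o ℝ) → ∀ y, |y - y0| < η → (g : ℝ ≃o ℝ) y0 = y →
      t0 y = g • x0 := by
    intro g hg y hy hgy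
    obtain ⟨h1, h2⟩ := hG y hy
    have h3 : Sm δ ((g⁻¹ * G y : K) : ℝ ≃o ℝ) := by
      have h4 : Sm (3 * δ / 4 + δ / 4) ((g : ℝ ≃o ℝ)⁻¹ * (G y : ℝ ≃o ℝ)) := hg.inv.mul h1
      exact h4.mono (by linarith)
    have h5 : ((g⁻¹ * G y : K) : ℝ ≃o ℝ) y0 = y0 := by
      show (g : ℝ ≃o ℝ)⁻¹ ((G y : ℝ ≃o ℝ) y0) = y0
      rw [h2, ← hgy, inv_app_self]
    have h6 := hst _ h3 h5
    rw [mul_smul, inv_smul_eq_iff] at h6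
    rw [ht0, h6]
  have t0y0 : t0 y0 = x0 := by
    have h1 : Sm (3 * δ / 4) ((1 : K) : ℝ ≃o ℝ) := Sm.one (by linarith)
    have := key0 1 h1 y0 (by simpa using hη) rfl
    rw [this, one_smul]
  have eqv0 : ∀ g : K, Sm (δ / 4) (g : ℝ ≃o ℝ) → ∀ y, |y - y0| < η →
      |(g : ℝ ≃o ℝ) y - y0| < η → t0 ((g : ℝ ≃o ℝ) y) = g • t0 y := by
    intro g hg y hy hgy
    obtain ⟨h1, h2⟩ := hG y hy
    have h3 : Sm (3 * δ / 4) ((g * G y : K) : ℝ ≃o ℝ) := by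
      have h4 : Sm (δ / 4 + δ / 4) ((g : ℝ ≃o ℝ) * (G y : ℝ ≃o ℝ)) := hg.mul h1
      exact h4.mono (by linarith)
    have h5 : ((g * G y : K) : ℝ ≃o ℝ) y0 = (g : ℝ ≃o ℝ) y := by
      show (g : ℝ ≃o ℝ) ((G y : ℝ ≃o ℝ) y0) = (g : ℝ ≃o ℝ) y
      rw [h2]
    rw [key0 _ h3 _ hgy h5, ht0 y, mul_smul]
  have hS0 : Sec K I y0 x0 (Metric.ball y0 η) t0 := by
    refine ⟨?_, Metric.isOpen_ball, ?_, Metric.mem_ball_self hη, t0y0, ?_⟩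
    · exact (Metric.ball_subset_ball hηη2).trans Hη2
    · rw [Real.ball_eq_Ioo]; exact ordConnected_Ioo
    · intro y hy
      rw [Metric.mem_ball, Real.dist_eq] at hy
      refine ⟨min (δ / 4) ((η - |y - y0|) / 2), lt_min (by linarith) (by linarith), ?_⟩
      intro g hg y' hy'
      have b1 : |y' - y| < (η - |y - y0|) / 2 := lt_of_lt_of_le hy' (min_le_right _ _)
      have b2 : |(g : ℝ ≃o ℝ) y' - y'| < (η - |y - y0|) / 2 :=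
        lt_of_lt_of_le (hg y') (min_le_right _ _)
      have b3 : |y' - y0| ≤ |y' - y| + |y - y0| := abs_sub_le _ _ _
      have b4 : |(g : ℝ ≃o ℝ) y' - y0| ≤ |(g : ℝ ≃o ℝ) y' - y'| + |y' - y0| := abs_sub_le _ _ _
      have b5 : 0 ≤ |y' - y| := abs_nonneg _
      exact eqv0 g (hg.mono (min_le_left _ _)) y' (by linarith) (by linarith)
  -- (3) the union of all sections
  have hs : ∀ y, ∃ x : X, ∀ J t, Sec K I y0 x0 J t → y ∈ J → x = t y := by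
    intro y
    by_cases h : ∃ J t, Sec K I y0 x0 J t ∧ y ∈ J
    · obtain ⟨J, t, h1, h2⟩ := h
      exact ⟨t y, fun J' t' h1' h2' => Sec.unique hmic h1 h1' y h2 h2'⟩
    · exact ⟨x0, fun J t h1 h2 => absurd ⟨J, t, h1, h2⟩ h⟩
  choose s hs using hs
  obtain ⟨Jm, hJm⟩ : ∃ Jm : Set ℝ, Jm = {y | ∃ J t, Sec K I y0 x0 J t ∧ y ∈ J} := ⟨_, rfl⟩
  have hsubJm : ∀ J t, Sec K I y0 x0 J t → J ⊆ Jm := by
    intro J t h y hy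
    rw [hJm]
    exact ⟨J, t, h, hy⟩
  have hSm : Sec K I y0 x0 Jm s := by
    refine ⟨?_, ?_, ?_, ?_, ?_, ?_⟩
    · intro y hy
      rw [hJm] at hy
      obtain ⟨J, t, h1, h2⟩ := hy
      exact h1.sub h2
    · rw [isOpen_iff_mem_nhds]
      intro y hy
      rw [hJm] at hy
      obtain ⟨J, t, h1, h2⟩ := hy
      exact mem_of_superset (h1.op.mem_nhds h2) (hsubJm J t h1)
    · refine ⟨?_⟩
      intro x hx z hz y hy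
      rw [hJm] at hx hz
      obtain ⟨J1, t1, h1, h1'⟩ := hx
      obtain ⟨J2, t2, h2, h2'⟩ := hz
      rcases le_total y y0 with hyy | hyy
      · exact hsubJm J1 t1 h1 (h1.oc.out h1' h1.mem ⟨hy.1, hyy⟩)
      · exact hsubJm J2 t2 h2 (h2.oc.out h2.mem h2' ⟨hyy, hy.2⟩)
    · exact hsubJm _ _ hS0 hS0.mem
    · rw [hs y0 _ _ hS0 hS0.mem, t0y0]
    · intro y hy
      rw [hJm] at hy
      obtain ⟨J, t, h1, h2⟩ := hy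
      obtain ⟨ε1, hε1, H1⟩ := h1.lg y h2
      obtain ⟨ε2, hε2, H2⟩ := Metric.isOpen_iff.1 h1.op y h2
      refine ⟨min ε1 (ε2 / 2), lt_min hε1 (by linarith), ?_⟩
      intro g hg y' hy'
      have b1 : |y' - y| < ε2 / 2 := lt_of_lt_of_le hy' (min_le_right _ _)
      have b2 : |(g : ℝ ≃o ℝ) y' - y'| < ε2 / 2 := lt_of_lt_of_le (hg y') (min_le_right _ _)
      have b4 : |(g : ℝ ≃o ℝ) y' - y| ≤ |(g : ℝ ≃o ℝ) y' - y'| + |y' - y| := abs_sub_le _ _ _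
      have m1 : y' ∈ J := H2 (by rw [Metric.mem_ball, Real.dist_eq]; linarith)
      have m2 : (g : ℝ ≃o ℝ) y' ∈ J := H2 (by rw [Metric.mem_ball, Real.dist_eq]; linarith)
      rw [hs _ _ _ h1 m1, hs _ _ _ h1 m2]
      exact H1 g (hg.mono (min_le_left _ _)) y' (lt_of_lt_of_le hy' (min_le_left _ _))
  -- (4) translations
  obtain ⟨ε1, hε1, hε1δ, hε1η⟩ : ∃ ε1 > 0, ε1 ≤ δ / 4 ∧ ε1 ≤ η :=
    ⟨min (δ / 4) η, lt_min (by linarith) hη, min_le_left _ _, min_le_right _ _⟩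
  have htr : ∀ g : K, Sm ε1 (g : ℝ ≃o ℝ) → ∀ y ∈ Jm, (g : ℝ ≃o ℝ) y ∈ Jm ∧
      s ((g : ℝ ≃o ℝ) y) = g • s y := by
    intro g hg y hy
    have c1 : |(g : ℝ ≃o ℝ)⁻¹ y0 - y0| < η := lt_of_lt_of_le (hg.inv y0) hε1η
    have c2 : (g : ℝ ≃o ℝ)⁻¹ y0 ∈ Metric.ball y0 η := by
      rw [Metric.mem_ball, Real.dist_eq]; exact c1
    have c3 : (g : ℝ ≃o ℝ)⁻¹ y0 ∈ Jm := hsubJm _ _ hS0 c2
    have c4 : s ((g : ℝ ≃o ℝ)⁻¹ y0) = t0 ((g : ℝ ≃o ℝ)⁻¹ y0) := hs _ _ _ hS0 c2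
    have c5 : t0 ((g : ℝ ≃o ℝ)⁻¹ y0) = g⁻¹ • t0 y0 :=
      eqv0 g⁻¹ (hg.inv.mono hε1δ) y0 (by simpa using hη) c1
    have c6 : g • s ((g : ℝ ≃o ℝ)⁻¹ y0) = x0 := by
      rw [c4, c5, t0y0, smul_inv_smul]
    have c7 := hSm.trans hper hKI g c3 c6
    have c8 : (g : ℝ ≃o ℝ) y ∈ {z | (g : ℝ ≃o ℝ)⁻¹ z ∈ Jm} := by
      show (g : ℝ ≃o ℝ)⁻¹ ((g : ℝ ≃o ℝ) y) ∈ Jm
      rw [inv_app_self]; exact hy
    refine ⟨hsubJm _ _ c7 c8, ?_⟩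
    rw [hs _ _ _ c7 c8, inv_app_self]
  -- (5) the domain is everything
  have hJI : I ⊆ Jm := by
    intro y hy
    by_contra hyJ
    have hcl : ∀ z ∈ I, z ∈ closure Jm → z ∈ Jm := by
      intro z hz hzc
      obtain ⟨η3, hη3, H3⟩ := hmic z hz ε1 hε1
      obtain ⟨z', hz', hd⟩ := Metric.mem_closure_iff.1 hzc η3 hη3
      rw [dist_comm, Real.dist_eq] at hd
      obtain ⟨g, hg, hgs, hgz⟩ := H3 z' hd
      have h1 := (htr ⟨g, hg⟩⁻¹ hgs.inv z' hz').1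
      change g⁻¹ z' ∈ Jm at h1
      rwa [← hgz, inv_app_self] at h1
    obtain ⟨z, -, hz1, hz2⟩ := hIc.isPreconnected Jm (closure Jm)ᶜ hSm.op isClosed_closure.isOpen_compl
      (by
        intro z hz
        by_cases h : z ∈ closure Jm
        · exact Or.inl (hcl z hz h)
        · exact Or.inr h)
      ⟨y0, hy0, hSm.mem⟩ ⟨y, hy, fun h => hyJ (hcl y hy h)⟩
    exact hz2 (subset_closure hz1)
  exact ⟨s, hSm.val, ε1, hε1, fun g hg y hy => (htr g hg y (hJI hy)).2⟩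


end Pool.Agent.Ghys
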