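import Mathlib
import Pool.Agent.Ghys.Basic
import Pool.Agent.Ghys.L_ext_lemma

set_option autoImplicit false

namespace Pool.Agent.Ghys

open Filter Topology Set

variable {Γ : Subgroup (ℝ ≃o ℝ)}


theorem sharp2_memI (K : Subgroup (ℝ ≃o ℝ)) {a b : ℝ}
    (hK : ∀ g ∈ K, g a = a ∧ g b = b) : ∀ g ∈ K, ∀ x ∈ Ioo a b, g x ∈ Ioo a b := by
  intro g hg x hx
  obtain ⟨h1, h2⟩ := hK g hg
  have h3 := g.strictMono hx.1
  have h4 := g.strictMono hx.2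
  rw [h1] at h3
  rw [h2] at h4
  exact ⟨h3, h4⟩

theorem sharp2_Gen_le (K : Subgroup (ℝ ≃o ℝ)) (ε : ℝ) : Gen K ε ≤ K := by
  unfold Gen
  rw [Subgroup.closure_le]
  rintro g ⟨hg, -⟩
  exact hg

theorem sharp2_St_le (K : Subgroup (ℝ ≃o ℝ)) (y : ℝ) : St K y ≤ K := by
  rintro g ⟨hg, -⟩
  exact hg

theorem sharp2_Gen_mono {K L : Subgroup (ℝ ≃o ℝ)} {ε δ : ℝ} (h : K ≤ L) (hε : ε ≤ δ) :
    Gen K ε ≤ Gen L δ := by
  unfold Gen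
  apply Subgroup.closure_mono
  rintro g ⟨hg, hs⟩
  exact ⟨h hg, hs.mono hε⟩

/-- transitivity -/
theorem sharp2_trans (K : Subgroup (ℝ ≃o ℝ)) {a b : ℝ}
    (hK : ∀ g ∈ K, g a = a ∧ g b = b)
    (hmic : ∀ y ∈ Ioo a b, ∀ ε > 0, ∃ η > 0, ∀ y', |y' - y| < η → ∃ g ∈ K, Sm ε g ∧ g y = y')
    {ε : ℝ} (hε : 0 < ε) {y z : ℝ} (hy : y ∈ Ioo a b) (hz : z ∈ Ioo a b) :
    ∃ h ∈ Gen K ε, h y = z := by
  have hI := sharp2_memI K hK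
  by_contra hcon
  have hopen : IsOpen {x : ℝ | ∃ h ∈ Gen K ε, h y = x} := by
    rw [Metric.isOpen_iff]
    rintro x ⟨h, hh, rfl⟩
    obtain ⟨η, hη, H⟩ := hmic (h y) (hI h (sharp2_Gen_le K ε hh) y hy) ε hε
    refine ⟨η, hη, fun x' hx' => ?_⟩
    rw [Metric.mem_ball, Real.dist_eq] at hx'
    obtain ⟨g, hg, hs, hgx⟩ := H x' hx'
    exact ⟨g * h, (Gen K ε).mul_mem (Subgroup.subset_closure ⟨hg, hs⟩) hh, by
      rw [mul_app, hgx]⟩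
  have hopen2 : IsOpen {x : ℝ | x ∈ Ioo a b ∧ ¬ ∃ h ∈ Gen K ε, h y = x} := by
    rw [Metric.isOpen_iff]
    rintro x ⟨hx, hnx⟩
    obtain ⟨η, hη, H⟩ := hmic x hx ε hε
    refine ⟨η, hη, fun x' hx' => ?_⟩
    rw [Metric.mem_ball, Real.dist_eq] at hx'
    obtain ⟨g, hg, hs, hgx⟩ := H x' hx'
    refine ⟨by rw [← hgx]; exact hI g hg x hx, ?_⟩
    rintro ⟨h, hh, hhy⟩
    apply hnx
    refine ⟨g⁻¹ * h, (Gen K ε).mul_mem ((Gen K ε).inv_mem (Subgroup.subset_closure ⟨hg, hs⟩)) hh,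
      ?_⟩
    rw [mul_app, hhy, ← hgx, inv_app_self]
  have hpre := (isPreconnected_Ioo (a := a) (b := b)) _ _ hopen hopen2 (by
    intro x hx
    by_cases h : ∃ h ∈ Gen K ε, h y = x
    · exact Or.inl h
    · exact Or.inr ⟨hx, h⟩) ⟨y, hy, 1, (Gen K ε).one_mem, rfl⟩ ⟨z, hz, hz, hcon⟩
  obtain ⟨x, -, h1, h2⟩ := hpre
  exact h2.2 h1

/-- the stabiliser of `y0` in `Gen K ε1` -/
theorem sharp2_stab (K : Subgroup (ℝ ≃o ℝ)) (hper : ∀ g ∈ K, Per g) {a b : ℝ}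
    (hK : ∀ g ∈ K, g a = a ∧ g b = b)
    (hmic : ∀ y ∈ Ioo a b, ∀ ε > 0, ∃ η > 0, ∀ y', |y' - y| < η → ∃ g ∈ K, Sm ε g ∧ g y = y')
    {y0 : ℝ} (hy0 : y0 ∈ Ioo a b) {δ : ℝ} (hδ : 0 < δ) :
    ∃ ε1 > 0, ∀ g ∈ Gen K ε1, g y0 = y0 → g ∈ Gen (St K y0) δ := by
  have hI := sharp2_memI K hK
  obtain ⟨s, hs0, ε1, hε1, hs⟩ := ext_lemma K hper (Ioo a b) isOpen_Ioo ordConnected_Ioo hI hmic
    (X := K ⧸ (Gen (St K y0) δ).subgroupOf K) y0 hy0 ((1 : K) : K ⧸ (Gen (St K y0) δ).subgroupOf K)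
    hδ (by
      intro g hg hgy
      rw [MulAction.Quotient.smul_coe, smul_eq_mul, mul_one, eq_comm, QuotientGroup.eq,
        inv_one, one_mul, Subgroup.mem_subgroupOf]
      exact Subgroup.subset_closure ⟨⟨g.2, hgy⟩, hg⟩)
  refine ⟨ε1, hε1, fun g hg hgy => ?_⟩
  have key : ∀ g : ℝ ≃o ℝ, g ∈ Gen K ε1 → ∃ hg : g ∈ K, ∀ y ∈ Ioo a b,
      s (g y) = (⟨g, hg⟩ : K) • s y := by
    intro g hg
    unfold Gen at hg
    induction hg using Subgroup.closure_induction with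
    | mem x hx => exact ⟨hx.1, fun y hy => hs ⟨x, hx.1⟩ hx.2 y hy⟩
    | one =>
      refine ⟨K.one_mem, fun y _ => ?_⟩
      have e : (⟨1, K.one_mem⟩ : K) = 1 := rfl
      rw [e, one_smul, one_app]
    | mul x z _ _ ihx ihz =>
      obtain ⟨hx, hx'⟩ := ihx
      obtain ⟨hz, hz'⟩ := ihz
      refine ⟨K.mul_mem hx hz, fun y hy => ?_⟩
      rw [mul_app, hx' _ (hI z hz y hy), hz' y hy, ← mul_smul]
      rfl
    | inv x _ ihx =>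
      obtain ⟨hx, hx'⟩ := ihx
      refine ⟨K.inv_mem hx, fun y hy => ?_⟩
      have h1 := hx' (x⁻¹ y) (hI _ (K.inv_mem hx) y hy)
      rw [app_inv_self] at h1
      rw [h1, ← mul_smul]
      have e : (⟨x⁻¹, K.inv_mem hx⟩ : K) * ⟨x, hx⟩ = 1 := by
        apply Subtype.ext
        show x⁻¹ * x = 1
        rw [inv_mul_cancel]
      rw [e, one_smul]
  obtain ⟨hgK, h1⟩ := key g hg
  have h2 := h1 y0 hy0
  rw [hgy, hs0, MulAction.Quotient.smul_coe, smul_eq_mul, mul_one, QuotientGroup.eq,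
    inv_one, one_mul, Subgroup.mem_subgroupOf] at h2
  exact h2

theorem sharp2 (K : Subgroup (ℝ ≃o ℝ)) (hper : ∀ g ∈ K, Per g) {a b : ℝ} (hab : a < b)
    (hK : ∀ g ∈ K, g a = a ∧ g b = b)
    (hmic : ∀ y ∈ Ioo a b, ∀ ε > 0, ∃ η > 0, ∀ y', |y' - y| < η → ∃ g ∈ K, Sm ε g ∧ g y = y')
    (hst : ∀ y ∈ Ioo a b, ∃ ε0 > 0, ∀ ε, 0 < ε → ε ≤ ε0 →
      (∀ u ∈ Ioo y b, ∀ v ∈ Ioo y b, ∃ g ∈ Gen (St K y) ε, g u = v) ∧
      (∀ g ∈ Gen (St K y) ε, ∀ u ∈ Ioo y b, g u = u → g = 1) ∧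
      Gen (St K y) ε = Gen (St K y) ε0) :
    ∃ ε0 > 0, ∀ ε, 0 < ε → ε ≤ ε0 →
      (∀ y ∈ Ioo a b, ∀ y' ∈ Ioo a b, ∀ z ∈ Ioo a b, ∀ z' ∈ Ioo a b, y < y' → z < z' →
        ∃ h ∈ Gen K ε, h y = z ∧ h y' = z') ∧
      (∀ h ∈ Gen K ε, ∀ y ∈ Ioo a b, ∀ y' ∈ Ioo a b, y < y' → h y = y → h y' = y' → h = 1) := by
  have hI := sharp2_memI K hK
  obtain ⟨y0, hy0⟩ : ∃ y0, y0 ∈ Ioo a b := ⟨(a + b) / 2, by constructor <;> linarith⟩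
  obtain ⟨δ, hδ, H⟩ := hst y0 hy0
  obtain ⟨ε1, hε1, hstab⟩ := sharp2_stab K hper hK hmic hy0 hδ
  refine ⟨min ε1 δ, lt_min hε1 hδ, fun ε hε hle => ?_⟩
  have hle1 : ε ≤ ε1 := hle.trans (min_le_left _ _)
  have hle2 : ε ≤ δ := hle.trans (min_le_right _ _)
  obtain ⟨T1, T2, T3⟩ := H ε hε hle2
  have hNH : Gen (St K y0) ε ≤ Gen K ε := sharp2_Gen_mono (sharp2_St_le K y0) le_rfl
  have hmem : ∀ h ∈ Gen K ε, ∀ y ∈ Ioo a b, ∀ y' ∈ Ioo a b, y < y' → h y = y0 →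
      h y' ∈ Ioo y0 b := by
    intro h hh y hy y' hy' hlt he
    refine ⟨?_, (hI h (sharp2_Gen_le K ε hh) y' hy').2⟩
    rw [← he]
    exact h.strictMono hlt
  constructor
  · intro y hy y' hy' z hz z' hz' hyy hzz
    obtain ⟨h1, hh1, e1⟩ := sharp2_trans K hK hmic hε hy hy0
    obtain ⟨h2, hh2, e2⟩ := sharp2_trans K hK hmic hε hz hy0
    obtain ⟨n, hn, en⟩ := T1 (h1 y') (hmem h1 hh1 y hy y' hy' hyy e1) (h2 z')
      (hmem h2 hh2 z hz z' hz' hzz e2)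
    have hny : n y0 = y0 := (sharp2_Gen_le _ _ hn).2
    refine ⟨h2⁻¹ * n * h1, (Gen K ε).mul_mem ((Gen K ε).mul_mem ((Gen K ε).inv_mem hh2) (hNH hn))
      hh1, ?_, ?_⟩
    · rw [mul_app, mul_app, e1, hny, ← e2, inv_app_self]
    · rw [mul_app, mul_app, en, inv_app_self]
  · intro h hh y hy y' hy' hyy e e'
    obtain ⟨h1, hh1, e1⟩ := sharp2_trans K hK hmic hε hy hy0
    have hg : h1 * h * h1⁻¹ ∈ Gen K ε :=
      (Gen K ε).mul_mem ((Gen K ε).mul_mem hh1 hh) ((Gen K ε).inv_mem hh1)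
    have hinv : h1⁻¹ y0 = y := by rw [← e1, inv_app_self]
    have hg0 : (h1 * h * h1⁻¹) y0 = y0 := by
      rw [mul_app, mul_app, hinv, e, e1]
    have hgN := hstab _ (sharp2_Gen_mono le_rfl hle1 hg) hg0
    rw [← T3] at hgN
    have hg1 := T2 _ hgN (h1 y') (hmem h1 hh1 y hy y' hy' hyy e1) (by
      rw [mul_app, mul_app, inv_app_self, e'])
    have : h = h1⁻¹ * (h1 * h * h1⁻¹) * h1 := by group
    rw [this, hg1]
    group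


end Pool.Agent.Ghys
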