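import Mathlib
import Pool.Agent.Ghys.Basic
import Pool.Agent.Ghys.L_ext_lemma

set_option autoImplicit false

namespace Pool.Agent.Ghys

open Filter Topology Set

variable {Γ : Subgroup (ℝ ≃o ℝ)}



theorem gen_le (K : Subgroup (ℝ ≃o ℝ)) (ε : ℝ) : Gen K ε ≤ K := by
  unfold Gen
  rw [Subgroup.closure_le]
  rintro g ⟨hg, _⟩
  exact hg

theorem gen_mono (K : Subgroup (ℝ ≃o ℝ)) {ε ε' : ℝ} (h : ε ≤ ε') : Gen K ε ≤ Gen K ε' := by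
  unfold Gen
  apply Subgroup.closure_mono
  rintro g ⟨hg, hs⟩
  exact ⟨hg, hs.mono h⟩

theorem simply_trans_T (K : Subgroup (ℝ ≃o ℝ)) (I : Set ℝ)
    (hIc : I.OrdConnected)
    (hmic : ∀ y ∈ I, ∀ ε > 0, ∃ η > 0, ∀ y', |y' - y| < η → ∃ g ∈ K, Sm ε g ∧ g y = y')
    (ε : ℝ) (hε : 0 < ε) : ∀ y ∈ I, ∀ y' ∈ I, ∃ g ∈ Gen K ε, g y = y' := by
  intro y hy y' hy'
  have hpre : IsPreconnected I := hIc.isPreconnected
  refine hpre.induction₂ (fun a b => ∃ g ∈ Gen K ε, g a = b) ?_ ?_ ?_ hy hy'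
  · intro a ha
    obtain ⟨η, hη, h⟩ := hmic a ha ε hε
    apply mem_nhdsWithin_of_mem_nhds
    rw [Metric.mem_nhds_iff]
    refine ⟨η, hη, ?_⟩
    intro b hb
    rw [Metric.mem_ball, Real.dist_eq] at hb
    obtain ⟨g, hg, hs, hgb⟩ := h b hb
    exact ⟨g, Subgroup.subset_closure ⟨hg, hs⟩, hgb⟩
  · rintro a b c _ _ _ ⟨g, hg, hab⟩ ⟨h, hh, hbc⟩
    refine ⟨h * g, (Gen K ε).mul_mem hh hg, ?_⟩
    rw [mul_app, hab, hbc]
  · rintro a b _ _ ⟨g, hg, hab⟩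
    refine ⟨g⁻¹, (Gen K ε).inv_mem hg, ?_⟩
    rw [← hab, inv_app_self]

theorem simply_trans (K : Subgroup (ℝ ≃o ℝ)) (hper : ∀ g ∈ K, Per g) (I : Set ℝ)
    (hI : IsOpen I) (hIne : I.Nonempty) (hIc : I.OrdConnected) (hKI : ∀ g ∈ K, ∀ x ∈ I, g x ∈ I)
    (hmic : ∀ y ∈ I, ∀ ε > 0, ∃ η > 0, ∀ y', |y' - y| < η → ∃ g ∈ K, Sm ε g ∧ g y = y')
    (hrig : ∀ y ∈ I, ∃ δ > 0, ∀ g ∈ K, Sm δ g → g y = y → g = 1) :
    ∃ ε0 > 0, ∀ ε, 0 < ε → ε ≤ ε0 →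
      (∀ y ∈ I, ∀ y' ∈ I, ∃ g ∈ Gen K ε, g y = y') ∧
      (∀ g ∈ Gen K ε, ∀ y ∈ I, g y = y → g = 1) ∧ Gen K ε = Gen K ε0 := by
  have hT := simply_trans_T K I hIc hmic
  obtain ⟨y0, hy0⟩ := hIne
  obtain ⟨δ, hδ, hr⟩ := hrig y0 hy0
  obtain ⟨s, hs0, ε1, hε1, hs⟩ := ext_lemma K hper I hI hIc hKI hmic (X := K) y0 hy0 (1 : K) hδ (by
    intro g hg hgy
    have h1 : (g : ℝ ≃o ℝ) = 1 := hr g g.2 hg hgy
    have h2 : g = 1 := Subtype.ext h1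
    rw [h2, one_smul])
  have hext : ∀ g ∈ Gen K ε1, g ∈ K ∧ ∀ y ∈ I, ((s (g y) : K) : ℝ ≃o ℝ) = g * ((s y : K) : ℝ ≃o ℝ) := by
    intro g hg
    unfold Gen at hg
    induction hg using Subgroup.closure_induction with
    | mem x hx =>
      refine ⟨hx.1, fun y hy => ?_⟩
      have := hs ⟨x, hx.1⟩ hx.2 y hy
      have h2 : s (x y) = (⟨x, hx.1⟩ : K) • s y := this
      rw [h2]
      rfl
    | one =>
      refine ⟨K.one_mem, fun y hy => ?_⟩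
      rw [one_app, one_mul]
    | mul a b _ _ iha ihb =>
      refine ⟨K.mul_mem iha.1 ihb.1, fun y hy => ?_⟩
      rw [mul_app, iha.2 (b y) (hKI b ihb.1 y hy), ihb.2 y hy, mul_assoc]
    | inv a _ iha =>
      refine ⟨K.inv_mem iha.1, fun y hy => ?_⟩
      have h1 := iha.2 (a⁻¹ y) (hKI _ (K.inv_mem iha.1) y hy)
      rw [app_inv_self] at h1
      rw [h1, inv_mul_cancel_left]
  have hfree : ∀ g ∈ Gen K ε1, ∀ y ∈ I, g y = y → g = 1 := by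
    intro g hg y hy hgy
    have h1 := (hext g hg).2 y hy
    rw [hgy] at h1
    have h2 : g * ((s y : K) : ℝ ≃o ℝ) = 1 * ((s y : K) : ℝ ≃o ℝ) := by rw [one_mul]; exact h1.symm
    exact mul_right_cancel h2
  refine ⟨ε1, hε1, fun ε hε hle => ⟨hT ε hε, fun g hg => hfree g (gen_mono K hle hg), ?_⟩⟩
  apply le_antisymm (gen_mono K hle)
  intro g hg
  have hgK : g ∈ K := (hext g hg).1
  obtain ⟨g', hg', hgg⟩ := hT ε hε y0 hy0 (g y0) (hKI g hgK y0 hy0)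
  have h1 : g'⁻¹ * g ∈ Gen K ε1 := (Gen K ε1).mul_mem ((Gen K ε1).inv_mem (gen_mono K hle hg')) hg
  have h2 : (g'⁻¹ * g) y0 = y0 := by
    rw [mul_app, ← hgg, inv_app_self]
  have h3 := hfree _ h1 y0 hy0 h2
  have h4 : g' = g := inv_mul_eq_one.mp h3
  rw [← h4]; exact hg'


end Pool.Agent.Ghys
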