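import Mathlib
import Pool.Agent.Ghys.Basic
import Pool.Agent.Ghys.L_simply_trans
import Pool.Agent.Ghys.L_sharp2
import Pool.Agent.Ghys.L_EE_inj
import Pool.Agent.Ghys.L_Rigid_inj

set_option autoImplicit false

namespace Pool.Agent.Ghys

open Filter Topology Set

variable {Γ : Subgroup (ℝ ≃o ℝ)}


theorem arc_sharp_IM {n : ℕ} {p : Fin n → ℝ} {y : ℝ} (h : IM (Fin.snoc p y : Fin (n + 1) → ℝ)) :
    IM p := by
  intro i j hij k
  have := h i.castSucc j.castSucc (fun e => hij (Fin.castSucc_injective _ e)) k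
  simpa only [Fin.snoc_castSucc] using this

theorem arc_sharp_close {n : ℕ} (p : Fin n → ℝ) {y y' η : ℝ} (hη : 0 < η) (h : |y' - y| < η) :
    ∀ i, |(Fin.snoc p y' : Fin (n + 1) → ℝ) i - (Fin.snoc p y : Fin (n + 1) → ℝ) i| < η := by
  intro i
  refine Fin.lastCases ?_ (fun i => ?_) i
  · simpa only [Fin.snoc_last] using h
  · simpa only [Fin.snoc_castSucc, sub_self, abs_zero] using hη

theorem arc_sharp (hΓ : Ok Γ) {n : ℕ} (hE1 : EE Γ (n + 1)) (hE2 : EE Γ (n + 2))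
    (hR : Rigid Γ (n + 2)) (Q : Fin n → ℝ) {a b : ℝ} (hab : a < b)
    (hfix : ∀ g ∈ Γ, (∀ i, g (Q i) = Q i) → g a = a ∧ g b = b)
    (hQ : ∀ y ∈ Ioo a b, ∀ u ∈ Ioo y b,
      IM (Fin.snoc (Fin.snoc Q y : Fin (n + 1) → ℝ) u : Fin (n + 2) → ℝ)) :
    ∃ ε0 > 0, ∀ ε, 0 < ε → ε ≤ ε0 →
      (∀ y ∈ Ioo a b, ∀ y' ∈ Ioo a b, ∀ z ∈ Ioo a b, ∀ z' ∈ Ioo a b, y < y' → z < z' →
        ∃ h ∈ Gen (Fx Γ Q) ε, h y = z ∧ h y' = z') ∧
      (∀ h ∈ Gen (Fx Γ Q) ε, ∀ y ∈ Ioo a b, ∀ y' ∈ Ioo a b, y < y' → h y = y → h y' = y' →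
        h = 1) := by
  refine sharp2 (Fx Γ Q) (fun g hg => hΓ.per g hg.1) hab (fun g hg => hfix g hg.1 hg.2) ?_ ?_
  · intro y hy ε hε
    have hu : (y + b) / 2 ∈ Ioo y b := ⟨by linarith [hy.2], by linarith [hy.2]⟩
    have hIM : IM (Fin.snoc Q y : Fin (n + 1) → ℝ) := arc_sharp_IM (hQ y hy _ hu)
    obtain ⟨η, hη, H⟩ := EE_inj hΓ hE1 (Fin.snoc Q y : Fin (n + 1) → ℝ) hIM hε
    refine ⟨η, hη, fun y' hy' => ?_⟩
    obtain ⟨g, hg, hgs, hgx⟩ := H (Fin.snoc Q y' : Fin (n + 1) → ℝ) (arc_sharp_close Q hη hy')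
    refine ⟨g, ⟨hg, fun i => ?_⟩, hgs, ?_⟩
    · have := hgx i.castSucc
      simpa only [Fin.snoc_castSucc] using this
    · have := hgx (Fin.last n)
      simpa only [Fin.snoc_last] using this
  · intro y hy
    refine simply_trans (St (Fx Γ Q) y) (fun g hg => hΓ.per g hg.1.1) (Ioo y b) isOpen_Ioo
      (nonempty_Ioo.2 hy.2) ordConnected_Ioo ?_ ?_ ?_
    · rintro g ⟨hg, hgy⟩ x hx
      have hgb := (hfix g hg.1 hg.2).2
      refine ⟨?_, ?_⟩
      · have := g.strictMono hx.1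
        rwa [hgy] at this
      · have := g.strictMono hx.2
        rwa [hgb] at this
    · intro u hu ε hε
      obtain ⟨η, hη, H⟩ := EE_inj hΓ hE2
        (Fin.snoc (Fin.snoc Q y : Fin (n + 1) → ℝ) u : Fin (n + 2) → ℝ) (hQ y hy u hu) hε
      refine ⟨η, hη, fun u' hu' => ?_⟩
      obtain ⟨g, hg, hgs, hgx⟩ := H
        (Fin.snoc (Fin.snoc Q y : Fin (n + 1) → ℝ) u' : Fin (n + 2) → ℝ)
        (arc_sharp_close _ hη hu')
      have h1 : ∀ j : Fin (n + 1), g ((Fin.snoc Q y : Fin (n + 1) → ℝ) j) =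
          (Fin.snoc Q y : Fin (n + 1) → ℝ) j := by
        intro j
        have := hgx j.castSucc
        simpa only [Fin.snoc_castSucc] using this
      refine ⟨g, ⟨⟨hg, fun i => ?_⟩, ?_⟩, hgs, ?_⟩
      · have := h1 i.castSucc
        simpa only [Fin.snoc_castSucc] using this
      · have := h1 (Fin.last n)
        simpa only [Fin.snoc_last] using this
      · have := hgx (Fin.last (n + 1))
        simpa only [Fin.snoc_last] using this
    · intro u hu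
      obtain ⟨δ, hδ, H⟩ := Rigid_inj hΓ hR
        (Fin.snoc (Fin.snoc Q y : Fin (n + 1) → ℝ) u : Fin (n + 2) → ℝ) (hQ y hy u hu)
      refine ⟨δ, hδ, ?_⟩
      rintro g ⟨hg, hgy⟩ hgs hgu
      refine H g hg.1 hgs fun i => ?_
      refine Fin.lastCases ?_ (fun j => ?_) i
      · simpa only [Fin.snoc_last] using hgu
      · simp only [Fin.snoc_castSucc]
        refine Fin.lastCases ?_ (fun i => ?_) j
        · simpa only [Fin.snoc_last] using hgy
        · simpa only [Fin.snoc_castSucc] using hg.2 i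


end Pool.Agent.Ghys
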