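import Mathlib
import Pool.Agent.Ghys.Basic
import Pool.Agent.Ghys.L_simply_trans
import Pool.Agent.Ghys.L_arc_sharp
import Pool.Agent.Ghys.L_aff_Ioo
import Pool.Agent.Ghys.L_EE_inj
import Pool.Agent.Ghys.L_Rigid_inj

set_option autoImplicit false

namespace Pool.Agent.Ghys

open Filter Topology Set

variable {Γ : Subgroup (ℝ ≃o ℝ)}


def h441D {n : ℕ} (x : Fin n → ℝ) : Prop := (∀ i, 0 ≤ x i ∧ x i < 1) ∧ Function.Injective x

theorem h441D_snoc {n : ℕ} {x : Fin n → ℝ} (hx : h441D x) {y : ℝ} (h0 : 0 ≤ y) (h1 : y < 1)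
    (h : ∀ i, x i ≠ y) : h441D (Fin.snoc x y : Fin (n + 1) → ℝ) := by
  refine ⟨fun i => ?_, fun i j hij => ?_⟩
  · refine Fin.lastCases ?_ (fun i => ?_) i
    · rw [Fin.snoc_last]
      exact ⟨h0, h1⟩
    · rw [Fin.snoc_castSucc]
      exact hx.1 i
  · revert hij
    refine Fin.lastCases ?_ (fun i => ?_) i
    · refine Fin.lastCases ?_ (fun j => ?_) j
      · intro _; rfl
      · rw [Fin.snoc_last, Fin.snoc_castSucc]
        intro hh
        exact absurd hh.symm (h j)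
    · refine Fin.lastCases ?_ (fun j => ?_) j
      · rw [Fin.snoc_last, Fin.snoc_castSucc]
        intro hh
        exact absurd hh (h i)
      · rw [Fin.snoc_castSucc, Fin.snoc_castSucc]
        intro hh
        rw [hx.2 hh]

theorem h441D_IM {n : ℕ} {x : Fin n → ℝ} (hx : h441D x) : IM x := by
  intro i j hij k hk
  apply hij
  apply hx.2
  have h1 := hx.1 i
  have h2 := hx.1 j
  have h3 : (-1 : ℝ) < k := by linarith
  have h4 : (k : ℝ) < 1 := by linarith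
  have h5 : (-1 : ℤ) < k := by exact_mod_cast h3
  have h6 : k < (1 : ℤ) := by exact_mod_cast h4
  have h7 : k = 0 := by omega
  rw [hk, h7]
  simp

theorem h441_Gen_le (K : Subgroup (ℝ ≃o ℝ)) (ε : ℝ) : Gen K ε ≤ K := by
  unfold Gen
  rw [Subgroup.closure_le]
  intro g hg
  exact hg.1

theorem h441_Gen_mono {K K' : Subgroup (ℝ ≃o ℝ)} (hK : K ≤ K') {ε ε' : ℝ} (hε : ε ≤ ε') :
    Gen K ε ≤ Gen K' ε' := by
  unfold Gen
  apply Subgroup.closure_mono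
  rintro g ⟨h1, h2⟩
  exact ⟨hK h1, h2.mono hε⟩

theorem h441_St_le (K : Subgroup (ℝ ≃o ℝ)) (y : ℝ) : St K y ≤ K := fun _ hg => hg.1


theorem no_rigid_ge4 (hΓ : Ok Γ) {m : ℕ} (hE : ∀ k, k ≤ m + 4 → EE Γ k)
    (hR : Rigid Γ (m + 4)) : False := by
  have hN : (0 : ℝ) < m + 2 := by positivity
  obtain ⟨Q, hQdef⟩ : ∃ Q : Fin (m + 2) → ℝ, ∀ i, Q i = (i : ℝ) / (m + 2) := ⟨_, fun i => rfl⟩
  obtain ⟨a, ha⟩ : ∃ a : ℝ, a = (m + 1) / (m + 2) := ⟨_, rfl⟩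
  have ha0 : 1 / (m + 2 : ℝ) ≤ a := by
    rw [ha]
    gcongr
    have : (0 : ℝ) ≤ m := Nat.cast_nonneg m
    linarith
  have ha1 : 0 < a := lt_of_lt_of_le (by positivity) ha0
  have hab : a < 1 := by
    rw [ha, div_lt_one hN]
    linarith
  have hQa : ∀ i, 0 ≤ Q i ∧ Q i ≤ a := by
    intro i
    rw [hQdef, ha]
    refine ⟨by positivity, ?_⟩
    gcongr
    have h1 : (i : ℕ) ≤ m + 1 := by have := i.2; omega
    exact_mod_cast h1
  have hDQ : h441D Q := by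
    refine ⟨fun i => ⟨(hQa i).1, lt_of_le_of_lt (hQa i).2 hab⟩, fun i j hij => ?_⟩
    rw [hQdef, hQdef, div_left_inj' hN.ne'] at hij
    exact Fin.ext (by exact_mod_cast hij)
  have hQw : ∀ w : ℝ, 0 < w → w < 1 / (m + 2) → ∀ i, Q i ≠ w := by
    intro w hw0 hw1 i hi
    rw [hQdef] at hi
    rw [← hi] at hw0 hw1
    rw [div_lt_div_iff_of_pos_right hN] at hw1
    have h1 : (i : ℕ) < 1 := by exact_mod_cast hw1
    have h2 : (i : ℕ) = 0 := by omega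
    rw [h2] at hw0
    simp at hw0
  have hQ0 : Q 0 = 0 := by rw [hQdef]; simp
  have hQl : Q (Fin.last (m + 1)) = a := by
    rw [hQdef, ha]
    simp
  have hfix : ∀ g ∈ Γ, (∀ i, g (Q i) = Q i) → g a = a ∧ g 1 = 1 := by
    intro g hg hi
    refine ⟨?_, ?_⟩
    · rw [← hQl]; exact hi _
    · have h1 := hΓ.per g hg 0
      have h2 := hi 0
      rw [hQ0] at h2
      rw [h2, zero_add] at h1
      exact h1
  have hI : ∀ g ∈ Γ, (∀ i, g (Q i) = Q i) → ∀ x ∈ Ioo a 1, g x ∈ Ioo a 1 := by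
    intro g hg hi x hx
    obtain ⟨h1, h2⟩ := hfix g hg hi
    have h3 := g.strictMono hx.1
    have h4 := g.strictMono hx.2
    rw [h1] at h3
    rw [h2] at h4
    exact ⟨h3, h4⟩
  have hD3 : ∀ w : ℝ, 0 < w → w < 1 / (m + 2) → h441D (Fin.snoc Q w : Fin (m + 2 + 1) → ℝ) := by
    intro w hw0 hw1
    exact h441D_snoc hDQ hw0.le (by linarith) (hQw w hw0 hw1)
  have hD4 : ∀ w : ℝ, 0 < w → w < 1 / (m + 2) → ∀ y ∈ Ioo a 1,
      h441D (Fin.snoc (Fin.snoc Q w : Fin (m + 2 + 1) → ℝ) y : Fin (m + 2 + 1 + 1) → ℝ) := by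
    intro w hw0 hw1 y hy
    refine h441D_snoc (hD3 w hw0 hw1) (by linarith [hy.1]) hy.2 (fun i => ?_)
    refine Fin.lastCases ?_ (fun i => ?_) i
    · rw [Fin.snoc_last]
      have := hy.1
      intro h
      linarith
    · rw [Fin.snoc_castSucc]
      have h1 := (hQa i).2
      have := hy.1
      intro h
      linarith
  obtain ⟨e0, he0, hsharp⟩ := arc_sharp hΓ (n := m + 2) (hE (m + 3) (by omega)) (hE (m + 4) le_rfl)
    hR Q hab hfix (by
      intro y hy u hu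
      apply h441D_IM
      refine h441D_snoc (h441D_snoc hDQ (by linarith [hy.1]) hy.2 (fun i => ?_))
        (by linarith [hu.1, hy.1]) hu.2 (fun i => ?_)
      · have h1 := (hQa i).2
        have := hy.1
        intro h
        linarith
      · refine Fin.lastCases ?_ (fun i => ?_) i
        · rw [Fin.snoc_last]
          exact hu.1.ne
        · rw [Fin.snoc_castSucc]
          have h1 := (hQa i).2
          have := hy.1
          have := hu.1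
          intro h
          linarith)
  have hHΓ : ∀ g ∈ Gen (Fx Γ Q) e0, g ∈ Γ ∧ ∀ i, g (Q i) = Q i := fun g hg => h441_Gen_le _ _ hg
  obtain ⟨φ, hφm, hφs, hφ1, hφ2⟩ := aff_Ioo (Gen (Fx Γ Q) e0) hab
    (fun g hg => hfix g (hHΓ g hg).1 (hHΓ g hg).2) (hsharp e0 he0 le_rfl).1 (hsharp e0 he0 le_rfl).2
  have hmic : ∀ w : ℝ, 0 < w → w < 1 / (m + 2) → ∀ y ∈ Ioo a 1, ∀ ε > 0, ∃ η > 0, ∀ y', |y' - y| < η →
      ∃ g ∈ St (Fx Γ Q) w, Sm ε g ∧ g y = y' := by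
    intro w hw0 hw1 y hy ε hε
    obtain ⟨η, hη, h⟩ := EE_inj hΓ (hE (m + 4) le_rfl)
      (Fin.snoc (Fin.snoc Q w : Fin (m + 2 + 1) → ℝ) y : Fin (m + 2 + 1 + 1) → ℝ)
      (h441D_IM (hD4 w hw0 hw1 y hy)) hε
    refine ⟨η, hη, fun y' hy' => ?_⟩
    obtain ⟨g, hg, hgs, hgi⟩ := h
      (Fin.snoc (Fin.snoc Q w : Fin (m + 2 + 1) → ℝ) y' : Fin (m + 2 + 1 + 1) → ℝ) (by
        intro i
        refine Fin.lastCases ?_ (fun i => ?_) i
        · rw [Fin.snoc_last, Fin.snoc_last]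
          exact hy'
        · rw [Fin.snoc_castSucc, Fin.snoc_castSucc, sub_self, abs_zero]
          exact hη)
    have h1 := hgi (Fin.last _)
    rw [Fin.snoc_last, Fin.snoc_last] at h1
    have h2 := hgi (Fin.castSucc (Fin.last _))
    rw [Fin.snoc_castSucc, Fin.snoc_castSucc, Fin.snoc_last] at h2
    refine ⟨g, ⟨⟨hg, fun i => ?_⟩, h2⟩, hgs, h1⟩
    have h3 := hgi (Fin.castSucc (Fin.castSucc i))
    rw [Fin.snoc_castSucc, Fin.snoc_castSucc, Fin.snoc_castSucc, Fin.snoc_castSucc] at h3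
    exact h3
  have hst : ∀ w : ℝ, 0 < w → w < 1 / (m + 2) → ∃ e1 > 0, ∀ ε, 0 < ε → ε ≤ e1 →
      (∀ y ∈ Ioo a 1, ∀ y' ∈ Ioo a 1, ∃ g ∈ Gen (St (Fx Γ Q) w) ε, g y = y') ∧
      (∀ g ∈ Gen (St (Fx Γ Q) w) ε, ∀ y ∈ Ioo a 1, g y = y → g = 1) ∧
      Gen (St (Fx Γ Q) w) ε = Gen (St (Fx Γ Q) w) e1 := by
    intro w hw0 hw1
    refine simply_trans (St (Fx Γ Q) w) (fun g hg => hΓ.per g hg.1.1) (Ioo a 1) isOpen_Ioo
      (nonempty_Ioo.mpr hab) ordConnected_Ioo (fun g hg => hI g hg.1.1 hg.1.2) (hmic w hw0 hw1) ?_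
    intro y hy
    obtain ⟨δ, hδ, h⟩ := Rigid_inj hΓ hR
      (Fin.snoc (Fin.snoc Q w : Fin (m + 2 + 1) → ℝ) y : Fin (m + 2 + 1 + 1) → ℝ)
      (h441D_IM (hD4 w hw0 hw1 y hy))
    refine ⟨δ, hδ, fun g hg hgs hgy => h g hg.1.1 hgs (fun i => ?_)⟩
    refine Fin.lastCases ?_ (fun i => ?_) i
    · rw [Fin.snoc_last]
      exact hgy
    · rw [Fin.snoc_castSucc]
      refine Fin.lastCases ?_ (fun i => ?_) i
      · rw [Fin.snoc_last]
        exact hg.2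
      · rw [Fin.snoc_castSucc]
        exact hg.1.2 i
  -- (A)
  have hA : ∀ w ε : ℝ, ε ≤ e0 →
      (∀ g ∈ Gen (St (Fx Γ Q) w) ε, ∀ y ∈ Ioo a 1, g y = y → g = 1) →
      ∀ g ∈ Gen (St (Fx Γ Q) w) ε, g ∈ Gen (Fx Γ Q) e0 ∧
        ∃ t : ℝ, ∀ x ∈ Ioo a 1, φ (g x) = φ x + t := by
    intro w ε hε hfree g hg
    have hgH : g ∈ Gen (Fx Γ Q) e0 := h441_Gen_mono (h441_St_le _ _) hε hg
    obtain ⟨α, β, hα, hαβ⟩ := hφ1 g hgH
    have hα1 : α = 1 := by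
      by_contra hne
      have hne' : 1 - α ≠ 0 := sub_ne_zero.mpr (Ne.symm hne)
      obtain ⟨x, hx, hxe⟩ : β / (1 - α) ∈ φ '' Ioo a 1 := by rw [hφs]; trivial
      have hgx : g x ∈ Ioo a 1 := hI g (hHΓ g hgH).1 (hHΓ g hgH).2 x hx
      have h1 : φ (g x) = φ x := by
        rw [hαβ x hx, hxe]
        field_simp
        ring
      have h2 : g = 1 := hfree g hg x hx (hφm.injOn hgx hx h1)
      obtain ⟨x0, hx0, hx0e⟩ : (0 : ℝ) ∈ φ '' Ioo a 1 := by rw [hφs]; trivial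
      obtain ⟨x1, hx1, hx1e⟩ : (1 : ℝ) ∈ φ '' Ioo a 1 := by rw [hφs]; trivial
      have h3 := hαβ x0 hx0
      have h4 := hαβ x1 hx1
      rw [h2, one_app, hx0e] at h3
      rw [h2, one_app, hx1e] at h4
      apply hne
      linarith
    refine ⟨hgH, β, fun x hx => ?_⟩
    rw [hαβ x hx, hα1, one_mul]
  have hmid : (a + 1) / 2 ∈ Ioo a 1 := ⟨by linarith, by linarith⟩
  have hmid2 : (a + 3) / 4 ∈ Ioo a 1 := ⟨by linarith, by linarith⟩
  -- (B)
  have hB : ∀ w ε : ℝ, ε ≤ e0 →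
      (∀ y ∈ Ioo a 1, ∀ y' ∈ Ioo a 1, ∃ g ∈ Gen (St (Fx Γ Q) w) ε, g y = y') →
      (∀ g ∈ Gen (St (Fx Γ Q) w) ε, ∀ y ∈ Ioo a 1, g y = y → g = 1) →
      ∀ h ∈ Gen (Fx Γ Q) e0, (∃ t : ℝ, ∀ x ∈ Ioo a 1, φ (h x) = φ x + t) →
        h ∈ Gen (St (Fx Γ Q) w) ε := by
    intro w ε hε htrans hfree h hh ⟨t, ht⟩
    have hhI := hI h (hHΓ h hh).1 (hHΓ h hh).2
    obtain ⟨g, hg, hge⟩ := htrans _ hmid _ (hhI _ hmid)
    obtain ⟨hgH, t', ht'⟩ := hA w ε hε hfree g hg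
    have hgI := hI g (hHΓ g hgH).1 (hHΓ g hgH).2
    have htt : t' = t := by
      have h1 := ht _ hmid
      have h2 := ht' _ hmid
      rw [hge] at h2
      linarith
    have heq : ∀ x ∈ Ioo a 1, g x = h x := by
      intro x hx
      apply hφm.injOn (hgI x hx) (hhI x hx)
      rw [ht x hx, ht' x hx, htt]
    have h1 : g⁻¹ * h = 1 := by
      apply (hsharp e0 he0 le_rfl).2 _ (Subgroup.mul_mem _ (Subgroup.inv_mem _ hgH) hh) _ hmid _ hmid2
        (by linarith)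
      · rw [mul_app, ← heq _ hmid, inv_app_self]
      · rw [mul_app, ← heq _ hmid2, inv_app_self]
    have h2 : h = g := by
      have := congrArg (fun z => g * z) h1
      simp only [mul_inv_cancel_left, mul_one] at this
      exact this
    rw [h2]
    exact hg
  -- conclusion
  have hw0 : (0 : ℝ) < 1 / (3 * (m + 2)) := by positivity
  have hw1 : 1 / (3 * (m + 2 : ℝ)) < 1 / (m + 2) := by
    apply one_div_lt_one_div_of_lt hN
    linarith
  have hw0' : (0 : ℝ) < 1 / (2 * (m + 2)) := by positivity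
  have hw1' : 1 / (2 * (m + 2 : ℝ)) < 1 / (m + 2) := by
    apply one_div_lt_one_div_of_lt hN
    linarith
  have hww : 1 / (3 * (m + 2 : ℝ)) < 1 / (2 * (m + 2)) := by
    apply one_div_lt_one_div_of_lt (by positivity)
    linarith
  generalize 1 / (3 * (m + 2 : ℝ)) = w at *
  generalize 1 / (2 * (m + 2 : ℝ)) = w' at *
  obtain ⟨e1, he1, hs1⟩ := hst w hw0 hw1
  obtain ⟨e2, he2, hs2⟩ := hst w' hw0' hw1'
  obtain ⟨δ, hδ, hrig⟩ := Rigid_inj hΓ hR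
    (Fin.snoc (Fin.snoc Q w : Fin (m + 2 + 1) → ℝ) w' : Fin (m + 2 + 1 + 1) → ℝ)
    (h441D_IM (h441D_snoc (hD3 w hw0 hw1) hw0'.le (by linarith) (fun i => by
      refine Fin.lastCases ?_ (fun i => ?_) i
      · rw [Fin.snoc_last]
        exact hww.ne
      · rw [Fin.snoc_castSucc]
        exact hQw w' hw0' hw1' i)))
  obtain ⟨ε, hε, hε0, hε1, hε2, hε3⟩ : ∃ ε : ℝ, 0 < ε ∧ ε ≤ e0 ∧ ε ≤ e1 ∧ ε ≤ e2 ∧ ε ≤ δ :=
    ⟨min (min e0 e1) (min e2 δ), lt_min (lt_min he0 he1) (lt_min he2 hδ),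
      (min_le_left _ _).trans (min_le_left _ _), (min_le_left _ _).trans (min_le_right _ _),
      (min_le_right _ _).trans (min_le_left _ _), (min_le_right _ _).trans (min_le_right _ _)⟩
  obtain ⟨t1, f1, _⟩ := hs1 ε hε hε1
  obtain ⟨t2, f2, _⟩ := hs2 ε hε hε2
  obtain ⟨η, hη, hm⟩ := hmic w hw0 hw1 _ hmid ε hε
  obtain ⟨g, hg, hgs, hgy⟩ := hm ((a + 1) / 2 + η / 2) (by
    rw [add_sub_cancel_left, abs_of_pos (by linarith)]
    linarith)
  have hgG : g ∈ Gen (St (Fx Γ Q) w) ε := Subgroup.subset_closure ⟨hg, hgs⟩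
  obtain ⟨hgH, hgt⟩ := hA w ε hε0 f1 g hgG
  have hg' := h441_Gen_le _ _ (hB w' ε hε0 t2 f2 g hgH hgt)
  have h1 : g = 1 := by
    apply hrig g hg.1.1 (hgs.mono hε3)
    intro i
    refine Fin.lastCases ?_ (fun i => ?_) i
    · rw [Fin.snoc_last]
      exact hg'.2
    · rw [Fin.snoc_castSucc]
      refine Fin.lastCases ?_ (fun i => ?_) i
      · rw [Fin.snoc_last]
        exact hg.2
      · rw [Fin.snoc_castSucc]
        exact hg.1.2 i
  rw [h1, one_app] at hgy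
  linarith


end Pool.Agent.Ghys
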