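import Mathlib
import Pool.Agent.Ghys.Basic

set_option autoImplicit false

namespace Pool.Agent.Ghys

open Filter Topology Set

variable {Γ : Subgroup (ℝ ≃o ℝ)}


theorem rigid_unif (hΓ : Ok Γ) {n : ℕ} (hE : EE Γ n) (hR : Rigid Γ n)
    (S : Set (Fin n → ℝ)) (hS : IsCompact S) (hSC : ∀ p ∈ S, Cn n p) :
    ∃ δ > 0, ∀ p ∈ S, ∀ g ∈ Γ, Sm δ g → (∀ i, g (p i) = p i) → g = 1 := by
  have hmain : ∃ δ > 0, ∀ p ∈ S, Cn n p → ∀ g ∈ Γ, Sm δ g → (∀ i, g (p i) = p i) → g = 1 := by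
    refine hS.induction_on (p := fun S' : Set (Fin n → ℝ) => ∃ δ > 0, ∀ p ∈ S', Cn n p →
      ∀ g ∈ Γ, Sm δ g → (∀ i, g (p i) = p i) → g = 1) ?_ ?_ ?_ ?_
    · exact ⟨1, one_pos, fun p hp => absurd hp (Set.notMem_empty p)⟩
    · rintro s t hst ⟨δ, hδ, h⟩
      exact ⟨δ, hδ, fun p hp => h p (hst hp)⟩
    · rintro s t ⟨δ, hδ, h⟩ ⟨δ', hδ', h'⟩
      refine ⟨min δ δ', lt_min hδ hδ', ?_⟩
      rintro p (hp | hp) hC g hg hs hfix
      · exact h p hp hC g hg (hs.mono (min_le_left _ _)) hfix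
      · exact h' p hp hC g hg (hs.mono (min_le_right _ _)) hfix
    · intro p0 hp0
      obtain ⟨δ0, hδ0, hrig⟩ := hR p0 (hSC p0 hp0)
      obtain ⟨η, hη, hEη⟩ := hE p0 (hSC p0 hp0) (δ0 / 4) (by linarith)
      refine ⟨Metric.ball p0 η, mem_nhdsWithin_of_mem_nhds (Metric.ball_mem_nhds p0 hη),
        δ0 / 2, by linarith, ?_⟩
      intro p hp hC g hg hs hfix
      rw [Metric.mem_ball, dist_pi_lt_iff hη] at hp
      obtain ⟨u, hu, hus, hup⟩ := hEη p hC (fun i => by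
        have := hp i
        rwa [Real.dist_eq] at this)
      have h1 : Sm δ0 (u⁻¹ * g * u) := by
        have := hs.conj_small hus.inv
        rw [inv_inv] at this
        exact this.mono (by linarith)
      have h2 : u⁻¹ * g * u = 1 := by
        refine hrig _ (Γ.mul_mem (Γ.mul_mem (Γ.inv_mem hu) hg) hu) h1 (fun i => ?_)
        rw [mul_app, mul_app, hup i, hfix i, ← hup i, inv_app_self]
      calc g = u * (u⁻¹ * g * u) * u⁻¹ := by group
        _ = 1 := by rw [h2]; group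
  obtain ⟨δ, hδ, h⟩ := hmain
  exact ⟨δ, hδ, fun p hp => h p hp (hSC p hp)⟩


end Pool.Agent.Ghys
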