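import Mathlib
import Pool.Agent.Ghys.Basic
import Pool.Agent.Ghys.L_rigid_unif

set_option autoImplicit false

namespace Pool.Agent.Ghys

open Filter Topology Set

variable {Γ : Subgroup (ℝ ≃o ℝ)}


theorem nrt_sign (g : ℝ ≃o ℝ) (a b : ℝ) (hfix : ∀ t, a ≤ t → t ≤ b → g t ≠ t) {u : ℝ}
    (hau : a ≤ u) (hub : u ≤ b) (hu : u < g u) {t : ℝ} (hat : a ≤ t) (htb : t ≤ b) : t < g t := by
  by_contra hcon
  push Not at hcon
  have hc : ContinuousOn (fun x => g x - x) (Set.uIcc t u) :=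
    (g.continuous.sub continuous_id).continuousOn
  have hmem : (0 : ℝ) ∈ Set.uIcc (g t - t) (g u - u) := by
    rw [Set.mem_uIcc]
    left
    constructor <;> linarith
  obtain ⟨w, hw, hw0⟩ := intermediate_value_uIcc hc hmem
  have hw' : a ≤ w ∧ w ≤ b := by
    rw [Set.mem_uIcc] at hw
    rcases hw with hw | hw
    · exact ⟨hat.trans hw.1, hw.2.trans hub⟩
    · exact ⟨hau.trans hw.1, hw.2.trans htb⟩
  apply hfix w hw'.1 hw'.2
  have : g w - w = 0 := hw0
  linarith

theorem nrt_Cn (s t : ℝ) (h1 : s < t) (h2 : t < s + 1) : Cn 2 ![s, t] := by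
  constructor
  · rw [Fin.strictMono_iff_lt_succ]
    intro i
    fin_cases i
    simpa using h1
  · intro i j
    fin_cases i <;> fin_cases j <;> simp <;> linarith

theorem no_rigid_two (hΓ : Ok Γ) (hE2 : EE Γ 2) (hE1 : EE Γ 1) (hR : Rigid Γ 2) : False := by
  -- uniform rigidity
  have hHR : ∃ δ > 0, ∀ s t : ℝ, -1 ≤ s → s ≤ 2 → 1 / 4 ≤ t - s → t - s ≤ 3 / 4 →
      ∀ g ∈ Γ, Sm δ g → g s = s → g t = t → g = 1 := by
    have hcl : IsClosed {p : Fin 2 → ℝ | (-1 ≤ p 0 ∧ p 0 ≤ 2) ∧ (1 / 4 ≤ p 1 - p 0 ∧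
        p 1 - p 0 ≤ 3 / 4)} := by
      refine IsClosed.inter (IsClosed.inter ?_ ?_) (IsClosed.inter ?_ ?_)
      · exact isClosed_le continuous_const (continuous_apply 0)
      · exact isClosed_le (continuous_apply 0) continuous_const
      · exact isClosed_le continuous_const ((continuous_apply 1).sub (continuous_apply 0))
      · exact isClosed_le ((continuous_apply 1).sub (continuous_apply 0)) continuous_const
    have hcomp : IsCompact {p : Fin 2 → ℝ | (-1 ≤ p 0 ∧ p 0 ≤ 2) ∧ (1 / 4 ≤ p 1 - p 0 ∧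
        p 1 - p 0 ≤ 3 / 4)} := by
      refine (isCompact_Icc (a := fun _ : Fin 2 => (-1 : ℝ)) (b := fun _ => 3)).of_isClosed_subset
        hcl ?_
      rintro p ⟨⟨h1, h2⟩, h3, h4⟩
      constructor
      · intro i
        fin_cases i
        · exact h1
        · show (-1 : ℝ) ≤ p 1
          linarith
      · intro i
        fin_cases i
        · show p 0 ≤ 3
          linarith
        · show p 1 ≤ 3
          linarith
    obtain ⟨δ, hδ, H⟩ := rigid_unif hΓ hE2 hR _ hcomp (by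
      rintro p ⟨⟨h1, h2⟩, h3, h4⟩
      have e : p = ![p 0, p 1] := by
        funext i
        fin_cases i <;> rfl
      rw [e]
      exact nrt_Cn _ _ (by linarith) (by linarith))
    refine ⟨δ, hδ, fun s t h1 h2 h3 h4 g hg hgS hgs hgt => ?_⟩
    refine H ![s, t] ⟨⟨h1, h2⟩, h3, h4⟩ g hg hgS ?_
    intro i
    fin_cases i
    · exact hgs
    · exact hgt
  obtain ⟨δ0, hδ0, H0⟩ := hHR
  set δ := min δ0 (1 / 10) with hδdef
  have hδ : 0 < δ := lt_min hδ0 (by norm_num)
  have hδ10 : δ ≤ 1 / 10 := min_le_right _ _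
  have H : ∀ s t : ℝ, -1 ≤ s → s ≤ 2 → 1 / 4 ≤ t - s → t - s ≤ 3 / 4 →
      ∀ g ∈ Γ, Sm δ g → g s = s → g t = t → g = 1 := fun s t h1 h2 h3 h4 g hg hgS =>
    H0 s t h1 h2 h3 h4 g hg (hgS.mono (min_le_left _ _))
  set μ := δ / 8 with hμdef
  have hμ : 0 < μ := by positivity
  have hμ80 : μ ≤ 1 / 80 := by rw [hμdef]; linarith
  obtain ⟨η1, hη1, E1⟩ := hE2 ![0, 1 / 3] (nrt_Cn _ _ (by norm_num) (by norm_num)) (μ / 2)
    (by positivity)
  obtain ⟨η2, hη2, E2⟩ := hE2 ![0, 2 / 3] (nrt_Cn _ _ (by norm_num) (by norm_num)) (min μ η1)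
    (lt_min hμ hη1)
  -- the point x'
  obtain ⟨x', hx0, hx10, hxη1, hxη2⟩ : ∃ x' : ℝ, 0 < x' ∧ x' ≤ 1 / 10 ∧ x' < η1 ∧ x' < η2 := by
    refine ⟨min (1 / 10) (min (η1 / 2) (η2 / 2)), ?_, min_le_left _ _, ?_, ?_⟩
    · exact lt_min (by norm_num) (lt_min (by positivity) (by positivity))
    · refine lt_of_le_of_lt ((min_le_right _ _).trans (min_le_left _ _)) (by linarith)
    · refine lt_of_le_of_lt ((min_le_right _ _).trans (min_le_right _ _)) (by linarith)
  obtain ⟨g, hgΓ, hgS, hg⟩ := E2 ![x', 2 / 3] (nrt_Cn _ _ (by linarith) (by linarith)) (by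
    intro i
    fin_cases i
    · simpa [abs_of_pos hx0] using hxη2
    · simpa using hη2)
  have hg0 : g 0 = x' := hg 0
  have hg2 : g (2 / 3) = 2 / 3 := hg 1
  have hgμ : Sm μ g := hgS.mono (min_le_left _ _)
  have hgη : Sm η1 g := hgS.mono (min_le_right _ _)
  have hgδ : Sm δ g := hgμ.mono (by rw [hμdef]; linarith)
  have hgne : g ≠ 1 := by
    intro h
    rw [h, one_app] at hg0
    linarith
  have hy : 1 / 3 < g (1 / 3) := by
    refine nrt_sign g 0 (1 / 3) (fun t ht0 ht1 hfix => hgne ?_) (u := 0) le_rfl (by norm_num)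
      (by rw [hg0]; exact hx0) (by norm_num) le_rfl
    exact H t (2 / 3) (by linarith) (by linarith) (by linarith) (by linarith) g hgΓ hgδ hfix hg2
  set y' := g (1 / 3) with hy'
  have hyη : |y' - 1 / 3| < η1 := hgη (1 / 3)
  have hyμ : |y' - 1 / 3| < μ := hgμ (1 / 3)
  rw [abs_lt] at hyμ
  obtain ⟨a, haΓ, haS, ha⟩ := E1 ![0, y'] (nrt_Cn _ _ (by linarith) (by linarith)) (by
    intro i
    fin_cases i
    · simpa using hη1
    · simpa using hyη)
  have ha0 : a 0 = 0 := ha 0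
  have ha1 : a (1 / 3) = y' := ha 1
  obtain ⟨b, hbΓ, hbS, hb⟩ := E1 ![x', y'] (nrt_Cn _ _ (by linarith) (by linarith)) (by
    intro i
    fin_cases i
    · simpa [abs_of_pos hx0] using hxη1
    · simpa using hyη)
  have hb0 : b 0 = x' := hb 0
  have hb1 : b (1 / 3) = y' := hb 1
  -- g = b
  have hgb : g⁻¹ * b = 1 := by
    refine H 0 (1 / 3) (by norm_num) (by norm_num) (by norm_num) (by norm_num) _
      (Γ.mul_mem (Γ.inv_mem hgΓ) hbΓ) ((hgμ.inv.mul hbS).mono (by rw [hμdef]; linarith)) ?_ ?_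
    · rw [mul_app, hb0, inv_eq_iff, hg0]
    · rw [mul_app, hb1, inv_eq_iff]
  have hgb' : b = g := by
    have := congrArg (fun h => g * h) hgb
    simpa using this
  have hane : a ≠ 1 := by
    intro h
    rw [h, one_app] at ha1
    linarith
  have ha2 : 2 / 3 < a (2 / 3) := by
    refine nrt_sign a (1 / 3) (2 / 3) (fun t ht0 ht1 hfix => hane ?_) (u := 1 / 3) le_rfl
      (by norm_num) (by rw [ha1]; exact hy) (by norm_num) le_rfl
    exact H 0 t (by linarith) (by linarith) (by linarith) (by linarith) a haΓ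
      (haS.mono (by rw [hμdef]; linarith)) ha0 hfix
  have ha3 : a (2 / 3) < 1 := by
    have := haS (2 / 3)
    rw [abs_lt] at this
    linarith
  set c := b * a⁻¹ with hc
  have hcΓ : c ∈ Γ := Γ.mul_mem hbΓ (Γ.inv_mem haΓ)
  have hcS : Sm δ c := (hbS.mul haS.inv).mono (by rw [hμdef]; linarith)
  have hc0 : c 0 = x' := by
    rw [hc, mul_app, show a⁻¹ 0 = 0 by rw [inv_eq_iff, ha0], hb0]
  have hcy : c y' = y' := by
    rw [hc, mul_app, show a⁻¹ y' = 1 / 3 by rw [inv_eq_iff, ha1], hb1]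
  have hcne : c ≠ 1 := by
    intro h
    rw [h, one_app] at hc0
    linarith
  have hc1 : c 1 = x' + 1 := by
    have := hΓ.per c hcΓ 0
    rw [zero_add, hc0] at this
    exact this
  have hc2 : a (2 / 3) < c (a (2 / 3)) := by
    refine nrt_sign c (2 / 3) 1 (fun t ht0 ht1 hfix => hcne ?_) (u := 1) (by norm_num) le_rfl
      (by rw [hc1]; linarith) ha2.le ha3.le
    exact H y' t (by linarith) (by linarith) (by linarith) (by linarith) c hcΓ hcS hcy hfix
  have hc3 : c (a (2 / 3)) = 2 / 3 := by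
    rw [hc, mul_app, inv_app_self, hgb', hg2]
  linarith


end Pool.Agent.Ghys
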