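import Mathlib
import Pool.Agent.Ghys.Basic

set_option autoImplicit false

namespace Pool.Agent.Ghys

open Filter Topology Set

variable {Γ : Subgroup (ℝ ≃o ℝ)}


theorem j8485_cot (t : ℝ) : -Real.cot (Real.pi * t) = Real.tan (Real.pi * t - Real.pi / 2) := by
  rw [Real.cot_eq_cos_div_sin, Real.tan_eq_sin_div_cos, Real.sin_sub_pi_div_two,
    Real.cos_sub_pi_div_two, neg_div]

theorem j8485_mem (t : ℝ) (ht : t ∈ Ioo (0 : ℝ) 1) :
    Real.pi * t - Real.pi / 2 ∈ Ioo (-(Real.pi / 2)) (Real.pi / 2) := by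
  have hp := Real.pi_pos
  obtain ⟨h0, h1⟩ := ht
  constructor
  · nlinarith
  · nlinarith

theorem j8485_mono (s t : ℝ) (hs : s ∈ Ioo (0 : ℝ) 1) (ht : t ∈ Ioo (0 : ℝ) 1) (h : s < t) :
    -Real.cot (Real.pi * s) < -Real.cot (Real.pi * t) := by
  rw [j8485_cot, j8485_cot]
  apply Real.strictMonoOn_tan (j8485_mem s hs) (j8485_mem t ht)
  have hp := Real.pi_pos
  nlinarith

theorem j8485_surj (z : ℝ) : ∃ s ∈ Ioo (0 : ℝ) 1, -Real.cot (Real.pi * s) = z := by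
  have hp := Real.pi_pos
  obtain ⟨h1, h2⟩ := Real.arctan_mem_Ioo z
  refine ⟨(Real.arctan z + Real.pi / 2) / Real.pi, ⟨div_pos (by linarith) hp, ?_⟩, ?_⟩
  · rw [div_lt_one hp]
    linarith
  · rw [j8485_cot, mul_div_cancel₀ _ hp.ne', add_sub_cancel_right, Real.tan_arctan]

theorem chart (φ : ℝ → ℝ) (h1 : StrictMonoOn φ (Ioo 0 1)) (h2 : φ '' (Ioo 0 1) = univ) :
    ∃ Φ : ℝ ≃o ℝ, Per Φ ∧ Φ 0 = 0 ∧ ∀ t ∈ Ioo (0 : ℝ) 1, φ (Φ t) = - Real.cot (Real.pi * t) := by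
  classical
  have hG : ∀ t : ℝ, ∃ u ∈ Ioo (0 : ℝ) 1, φ u = -Real.cot (Real.pi * t) := by
    intro t
    have : -Real.cot (Real.pi * t) ∈ φ '' (Ioo 0 1) := by
      rw [h2]; exact mem_univ _
    obtain ⟨u, hu, h⟩ := this
    exact ⟨u, hu, h⟩
  choose G hGm hGe using hG
  have hGmono : ∀ s t : ℝ, s ∈ Ioo (0 : ℝ) 1 → t ∈ Ioo (0 : ℝ) 1 → s < t → G s < G t := by
    intro s t hs ht h
    rw [← h1.lt_iff_lt (hGm s) (hGm t), hGe, hGe]
    exact j8485_mono s t hs ht h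
  let H : ℝ → ℝ := fun t => if t = 0 then 0 else G t
  have hH0 : H 0 = 0 := if_pos rfl
  have hHt : ∀ t, 0 < t → H t = G t := fun t ht => if_neg ht.ne'
  have hHm : ∀ t, 0 ≤ H t ∧ H t < 1 := by
    intro t
    by_cases h : t = 0
    · rw [h, hH0]
      exact ⟨le_rfl, one_pos⟩
    · have : H t = G t := if_neg h
      rw [this]
      exact ⟨(hGm t).1.le, (hGm t).2⟩
  have hHmono : ∀ s t : ℝ, 0 ≤ s → s < t → t < 1 → H s < H t := by
    intro s t hs hst ht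
    have htp : 0 < t := lt_of_le_of_lt hs hst
    rw [hHt t htp]
    rcases hs.eq_or_lt with h | h
    · rw [← h, hH0]
      exact (hGm t).1
    · rw [hHt s h]
      exact hGmono s t ⟨h, hst.trans ht⟩ ⟨htp, ht⟩ hst
  let Φ : ℝ → ℝ := fun x => (⌊x⌋ : ℝ) + H (Int.fract x)
  have hmono : StrictMono Φ := by
    intro x y hxy
    show (⌊x⌋ : ℝ) + H (Int.fract x) < (⌊y⌋ : ℝ) + H (Int.fract y)
    rcases (Int.floor_le_floor hxy.le).eq_or_lt with h | h
    · rw [h]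
      have h3 : Int.fract x < Int.fract y := by
        rw [Int.fract, Int.fract, h]
        linarith
      have := hHmono _ _ (Int.fract_nonneg x) h3 (Int.fract_lt_one y)
      linarith
    · have h3 : (⌊x⌋ : ℝ) + 1 ≤ (⌊y⌋ : ℝ) := by exact_mod_cast h
      have h4 := (hHm (Int.fract x)).2
      have h5 := (hHm (Int.fract y)).1
      linarith
  have hsurj : Function.Surjective Φ := by
    intro z
    have hf0 := Int.fract_nonneg z
    have hf1 := Int.fract_lt_one z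
    rcases hf0.eq_or_lt with h | h
    · refine ⟨z, ?_⟩
      show (⌊z⌋ : ℝ) + H (Int.fract z) = z
      rw [← h, hH0]
      have := Int.floor_add_fract z
      rw [← h] at this
      exact this
    · obtain ⟨s, hs, hse⟩ := j8485_surj (φ (Int.fract z))
      refine ⟨(⌊z⌋ : ℝ) + s, ?_⟩
      show (⌊(⌊z⌋ : ℝ) + s⌋ : ℝ) + H (Int.fract ((⌊z⌋ : ℝ) + s)) = z
      have hfs : ⌊s⌋ = 0 := Int.floor_eq_zero_iff.2 ⟨hs.1.le, hs.2⟩
      have hfr : Int.fract s = s := Int.fract_eq_self.2 ⟨hs.1.le, hs.2⟩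
      rw [Int.floor_intCast_add, Int.fract_intCast_add, hfs, add_zero, hfr, hHt s hs.1]
      have h3 : G s = Int.fract z := by
        apply h1.injOn (hGm s) ⟨h, hf1⟩
        rw [hGe, hse]
      rw [h3, Int.floor_add_fract]
  have hΦ : ∀ x, (StrictMono.orderIsoOfSurjective Φ hmono hsurj) x = Φ x := fun x => rfl
  refine ⟨StrictMono.orderIsoOfSurjective Φ hmono hsurj, ?_, ?_, ?_⟩
  · intro x
    rw [hΦ, hΦ]
    show (⌊x + 1⌋ : ℝ) + H (Int.fract (x + 1)) = (⌊x⌋ : ℝ) + H (Int.fract x) + 1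
    rw [Int.floor_add_one, Int.fract_add_one]
    push_cast
    ring
  · rw [hΦ]
    show (⌊(0 : ℝ)⌋ : ℝ) + H (Int.fract 0) = 0
    rw [Int.floor_zero, Int.fract_zero, hH0, Int.cast_zero, add_zero]
  · intro t ht
    rw [hΦ]
    have hfs : ⌊t⌋ = 0 := Int.floor_eq_zero_iff.2 ⟨ht.1.le, ht.2⟩
    have hfr : Int.fract t = t := Int.fract_eq_self.2 ⟨ht.1.le, ht.2⟩
    show φ ((⌊t⌋ : ℝ) + H (Int.fract t)) = _
    rw [hfs, hfr, hHt t ht.1, Int.cast_zero, zero_add, hGe]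


end Pool.Agent.Ghys
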