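import Mathlib
import Pool.Agent.Ghys.Basic
import Pool.Agent.Ghys.L_arc_sharp
import Pool.Agent.Ghys.L_aff_Ioo

set_option autoImplicit false

namespace Pool.Agent.Ghys

open Filter Topology Set

variable {Γ : Subgroup (ℝ ≃o ℝ)}


theorem IM_aux {y u : ℝ} (hy : y ∈ Ioo (0 : ℝ) 1) (hu : u ∈ Ioo y 1) (Q : Fin 1 → ℝ)
    (hQ : ∀ i, Q i = 0) :
    IM (Fin.snoc (Fin.snoc Q y : Fin (1 + 1) → ℝ) u : Fin (1 + 2) → ℝ) := by
  have h0 : (Fin.snoc (Fin.snoc Q y : Fin (1 + 1) → ℝ) u : Fin (1 + 2) → ℝ) = ![0, y, u] := by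
    funext i
    fin_cases i
    · exact hQ 0
    · rfl
    · rfl
  rw [h0]
  obtain ⟨hy0, hy1⟩ := hy
  obtain ⟨hu0, hu1⟩ := hu
  have hrange : ∀ i : Fin 3, 0 ≤ (![0, y, u] : Fin 3 → ℝ) i ∧ (![0, y, u] : Fin 3 → ℝ) i < 1 := by
    intro i
    fin_cases i
    · exact ⟨le_refl _, one_pos⟩
    · exact ⟨hy0.le, hy1⟩
    · exact ⟨(hy0.trans hu0).le, hu1⟩
  have hinj : ∀ i j : Fin 3, (![0, y, u] : Fin 3 → ℝ) i = (![0, y, u] : Fin 3 → ℝ) j → i = j := by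
    have hu00 : 0 < u := hy0.trans hu0
    have e1 : (0 : ℝ) ≠ y := hy0.ne
    have e2 : (0 : ℝ) ≠ u := hu00.ne
    have e3 : y ≠ u := hu0.ne
    intro i j hij
    fin_cases i <;> fin_cases j
    · rfl
    · exact absurd hij e1
    · exact absurd hij e2
    · exact absurd hij e1.symm
    · rfl
    · exact absurd hij e3
    · exact absurd hij e2.symm
    · exact absurd hij e3.symm
    · rfl
  intro i j hij k hk
  have h1 := hrange i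
  have h2 := hrange j
  have h3 : (-1 : ℝ) < k := by linarith [h1.1, h2.2]
  have h4 : (k : ℝ) < 1 := by linarith [h1.2, h2.1]
  have h5 : (-1 : ℤ) < k := by exact_mod_cast h3
  have h6 : k < (1 : ℤ) := by exact_mod_cast h4
  have h7 : k = 0 := by omega
  subst h7
  rw [Int.cast_zero, add_zero] at hk
  exact hij (hinj i j hk)

theorem Gen_le (K : Subgroup (ℝ ≃o ℝ)) (ε : ℝ) : Gen K ε ≤ K := by
  unfold Gen
  rw [Subgroup.closure_le]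
  intro g hg
  exact hg.1

theorem Gen_mono (K : Subgroup (ℝ ≃o ℝ)) {ε ε' : ℝ} (h : ε ≤ ε') : Gen K ε ≤ Gen K ε' := by
  unfold Gen
  apply Subgroup.closure_mono
  intro g hg
  exact ⟨hg.1, hg.2.mono h⟩

/-- affine behaviour of the normaliser -/
theorem normal_aff (H : Subgroup (ℝ ≃o ℝ)) (g : ℝ ≃o ℝ) (hg0 : g 0 = 0) (hg1 : g 1 = 1)
    (hnorm : ∀ h ∈ H, g * h * g⁻¹ ∈ H) (hfix : ∀ h ∈ H, h 0 = 0 ∧ h 1 = 1)
    (φ : ℝ → ℝ) (hφ : StrictMonoOn φ (Ioo 0 1)) (hφs : φ '' (Ioo 0 1) = univ)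
    (h3 : ∀ h ∈ H, ∃ α β : ℝ, 0 < α ∧ ∀ x ∈ Ioo (0 : ℝ) 1, φ (h x) = α * φ x + β)
    (h4 : ∀ α β : ℝ, 0 < α → ∃ h ∈ H, ∀ x ∈ Ioo (0 : ℝ) 1, φ (h x) = α * φ x + β) :
    ∃ α β : ℝ, 0 < α ∧ ∀ x ∈ Ioo (0 : ℝ) 1, φ (g x) = α * φ x + β := by
  have hinj := hφ.injOn
  have hex : ∀ t : ℝ, ∃ x ∈ Ioo (0 : ℝ) 1, φ x = t := by
    intro t
    have : t ∈ φ '' (Ioo 0 1) := by rw [hφs]; exact mem_univ _
    exact this
  choose ψ hψ hφψ using hex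
  have hψφ : ∀ x ∈ Ioo (0 : ℝ) 1, ψ (φ x) = x := fun x hx => hinj (hψ _) hx (hφψ _)
  have hin : ∀ h : ℝ ≃o ℝ, h 0 = 0 → h 1 = 1 → ∀ x ∈ Ioo (0 : ℝ) 1, h x ∈ Ioo (0 : ℝ) 1 := by
    intro h h0 h1 x hx
    constructor
    · have := h.strictMono hx.1
      rwa [h0] at this
    · have := h.strictMono hx.2
      rwa [h1] at this
  have hginv0 : g⁻¹ 0 = 0 := by rw [inv_eq_iff, hg0]
  have hginv1 : g⁻¹ 1 = 1 := by rw [inv_eq_iff, hg1]
  have hgin := hin g hg0 hg1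
  have hgin' := hin g⁻¹ hginv0 hginv1
  -- the map F
  have hshift : ∀ s : ℝ, ∃ θ : ℝ, ∀ t : ℝ, φ (g (ψ (t + s))) = φ (g (ψ t)) + θ := by
    intro s
    by_cases hs : s = 0
    · refine ⟨0, fun t => ?_⟩
      rw [hs, add_zero, add_zero]
    obtain ⟨τ, hτ, hτφ⟩ := h4 1 s one_pos
    obtain ⟨α, β, hα, hk⟩ := h3 _ (hnorm τ hτ)
    have hτ01 := hfix τ hτ
    have hk01 := hfix _ (hnorm τ hτ)
    have hα1 : α = 1 := by
      by_contra hne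
      have hne' : 1 - α ≠ 0 := fun h => hne (by linarith)
      have hx := hψ (β / (1 - α))
      have h5 := hk _ hx
      rw [hφψ] at h5
      have h6 : α * (β / (1 - α)) + β = β / (1 - α) := by
        field_simp
        ring
      rw [h6] at h5
      have h7 : (g * τ * g⁻¹) (ψ (β / (1 - α))) = ψ (β / (1 - α)) := by
        apply hinj (hin _ hk01.1 hk01.2 _ hx) hx
        rw [h5, hφψ]
      have h8 : g (τ (g⁻¹ (ψ (β / (1 - α))))) = ψ (β / (1 - α)) := h7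
      have h9 : τ (g⁻¹ (ψ (β / (1 - α)))) = g⁻¹ (ψ (β / (1 - α))) := by
        have := congrArg (fun z => g⁻¹ z) h8
        simpa only [inv_app_self] using this
      have h10 := hτφ _ (hgin' _ hx)
      rw [h9, one_mul] at h10
      exact hs (by linarith)
    refine ⟨β, fun t => ?_⟩
    have h5 : ψ (t + s) = τ (ψ t) := by
      apply hinj (hψ _) (hin τ hτ01.1 hτ01.2 _ (hψ _))
      rw [hφψ, hτφ _ (hψ _), hφψ, one_mul]
    have h6 := hk _ (hgin _ (hψ t))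
    have h7 : (g * τ * g⁻¹) (g (ψ t)) = g (τ (ψ t)) := by
      show g (τ (g⁻¹ (g (ψ t)))) = g (τ (ψ t))
      rw [inv_app_self]
    rw [h7, hα1, one_mul] at h6
    rw [h5, h6]
  have hψmono : StrictMono ψ := by
    intro t t' htt
    by_contra hcon
    push Not at hcon
    have h5 := hφ.monotoneOn (hψ t') (hψ t) hcon
    rw [hφψ, hφψ] at h5
    exact absurd htt (not_lt.2 h5)
  have hFmono : StrictMono (fun t => φ (g (ψ t))) := by
    intro t t' htt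
    exact hφ (hgin _ (hψ t)) (hgin _ (hψ t')) (g.strictMono (hψmono htt))
  have hFsurj : Function.Surjective (fun t => φ (g (ψ t))) := by
    intro y
    refine ⟨φ (g⁻¹ (ψ y)), ?_⟩
    show φ (g (ψ (φ (g⁻¹ (ψ y))))) = y
    rw [hψφ _ (hgin' _ (hψ y)), app_inv_self, hφψ]
  have hFcont : Continuous (fun t => φ (g (ψ t))) :=
    hFmono.monotone.continuous_of_surjective hFsurj
  have hadd : ∀ t s : ℝ, (φ (g (ψ (t + s))) - φ (g (ψ 0)))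
      = (φ (g (ψ t)) - φ (g (ψ 0))) + (φ (g (ψ s)) - φ (g (ψ 0))) := by
    intro t s
    obtain ⟨θ, hθ⟩ := hshift s
    have h5 := hθ t
    have h6 := hθ 0
    rw [zero_add] at h6
    rw [h5, h6]
    ring
  let G : ℝ →+ ℝ := AddMonoidHom.mk' (fun t => φ (g (ψ t)) - φ (g (ψ 0))) hadd
  have hGcont : Continuous G := hFcont.sub continuous_const
  have hlin : ∀ t : ℝ, φ (g (ψ t)) - φ (g (ψ 0)) = t * (φ (g (ψ 1)) - φ (g (ψ 0))) := by
    intro t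
    have h5 := map_real_smul G hGcont t 1
    rw [smul_eq_mul, mul_one, smul_eq_mul] at h5
    exact h5
  refine ⟨φ (g (ψ 1)) - φ (g (ψ 0)), φ (g (ψ 0)), sub_pos.2 (hFmono one_pos), ?_⟩
  intro x hx
  have h5 := hlin (φ x)
  rw [hψφ x hx] at h5
  linarith

theorem psl1 (hΓ : Ok Γ) (hE2 : EE Γ 2) (hE3 : EE Γ 3) (hR : Rigid Γ 3) :
    ∃ φ : ℝ → ℝ, StrictMonoOn φ (Ioo 0 1) ∧ φ '' (Ioo 0 1) = univ ∧
      (∀ g ∈ Γ, g 0 = 0 → ∃ α β : ℝ, 0 < α ∧ ∀ x ∈ Ioo (0 : ℝ) 1, φ (g x) = α * φ x + β) ∧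
      (∀ α β : ℝ, 0 < α → ∃ g ∈ Γ, g 0 = 0 ∧ ∀ x ∈ Ioo (0 : ℝ) 1, φ (g x) = α * φ x + β) := by
  have hone : ∀ g ∈ Γ, g 0 = 0 → g 1 = 1 := by
    intro g hg h0
    have := hΓ.per g hg 0
    rw [zero_add, h0, zero_add] at this
    exact this
  obtain ⟨ε0, hε0, harc⟩ := arc_sharp hΓ (n := 1) hE2 hE3 hR (fun _ => (0 : ℝ)) (a := 0) (b := 1)
    one_pos (fun g hg h => ⟨h 0, hone g hg (h 0)⟩)
    (fun y hy u hu => IM_aux hy hu _ (fun _ => rfl))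
  set K := Fx Γ (fun _ : Fin 1 => (0 : ℝ)) with hK
  have hKΓ : K ≤ Γ := fun g hg => hg.1
  have hK0 : ∀ g ∈ K, g 0 = 0 ∧ g 1 = 1 := fun g hg => ⟨hg.2 0, hone g hg.1 (hg.2 0)⟩
  have hHfix : ∀ g ∈ Gen K ε0, g 0 = 0 ∧ g 1 = 1 := fun g hg => hK0 g (Gen_le K ε0 hg)
  obtain ⟨hT, hS⟩ := harc ε0 hε0 le_rfl
  obtain ⟨φ, hφ, hφs, h3, h4⟩ := aff_Ioo (Gen K ε0) one_pos hHfix hT hS
  have hA : ∀ ε, 0 < ε → ε ≤ ε0 → Gen K ε0 ≤ Gen K ε := by
    intro ε hε hle h hh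
    obtain ⟨hT', -⟩ := harc ε hε hle
    have h01 := hHfix h hh
    have hm := h.strictMono
    have m1 : (1 / 3 : ℝ) ∈ Ioo (0 : ℝ) 1 := by constructor <;> norm_num
    have m2 : (2 / 3 : ℝ) ∈ Ioo (0 : ℝ) 1 := by constructor <;> norm_num
    have m12 : (1 / 3 : ℝ) < 2 / 3 := by norm_num
    have hin : ∀ x ∈ Ioo (0 : ℝ) 1, h x ∈ Ioo (0 : ℝ) 1 := by
      intro x hx
      constructor
      · have := hm hx.1
        rwa [h01.1] at this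
      · have := hm hx.2
        rwa [h01.2] at this
    obtain ⟨h', hh', e1, e2⟩ := hT' _ m1 _ m2 _ (hin _ m1) _ (hin _ m2) m12 (hm m12)
    have h5 : h'⁻¹ * h = 1 := by
      apply hS (h'⁻¹ * h) (Subgroup.mul_mem _ (Subgroup.inv_mem _ (Gen_mono K hle hh')) hh)
        _ m1 _ m2 m12
      · show h'⁻¹ (h (1 / 3)) = 1 / 3
        rw [inv_eq_iff, e1]
      · show h'⁻¹ (h (2 / 3)) = 2 / 3
        rw [inv_eq_iff, e2]
    have h6 : h' = h := inv_mul_eq_one.1 h5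
    rw [← h6]
    exact hh'
  have hB : ∀ g ∈ K, ∀ h ∈ Gen K ε0, g * h * g⁻¹ ∈ Gen K ε0 := by
    intro g hg h hh
    obtain ⟨δ, hδ, hconj⟩ := Sm.conj (hΓ.per g (hKΓ hg)) hε0
    have hh' := hA (min δ ε0) (lt_min hδ hε0) (min_le_right _ _) hh
    have h5 : Gen K (min δ ε0) ≤ (Gen K ε0).comap (MulAut.conj g).toMonoidHom := by
      unfold Gen
      rw [Subgroup.closure_le]
      intro k hk
      show g * k * g⁻¹ ∈ Subgroup.closure _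
      apply Subgroup.subset_closure
      exact ⟨K.mul_mem (K.mul_mem hg hk.1) (K.inv_mem hg), hconj k (hk.2.mono (min_le_left _ _))⟩
    exact h5 hh'
  refine ⟨φ, hφ, hφs, ?_, ?_⟩
  · intro g hg hg0
    have hgK : g ∈ K := ⟨hg, fun _ => hg0⟩
    exact normal_aff (Gen K ε0) g hg0 (hone g hg hg0) (hB g hgK) hHfix φ hφ hφs h3 h4
  · intro α β hα
    obtain ⟨h, hh, hx⟩ := h4 α β hα
    exact ⟨h, hKΓ (Gen_le K ε0 hh), (hHfix h hh).1, hx⟩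


end Pool.Agent.Ghys
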