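import Mathlib
import Pool.Agent.Ghys.Basic

set_option autoImplicit false

namespace Pool.Agent.Ghys

open Filter Topology Set

variable {Γ : Subgroup (ℝ ≃o ℝ)}


/-- the cotangent coordinate -/
noncomputable def psl_u (t : ℝ) : ℝ := Real.cot (Real.pi * t)

theorem psl_sin_pos {t : ℝ} (h0 : 0 < t) (h1 : t < 1) : 0 < Real.sin (Real.pi * t) := by
  apply Real.sin_pos_of_pos_of_lt_pi
  · have := Real.pi_pos; positivity
  · have := Real.pi_pos; nlinarith

theorem psl_u_anti {s t : ℝ} (h0 : 0 < s) (hst : s < t) (h1 : t < 1) : psl_u t < psl_u s := by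
  have hs := psl_sin_pos h0 (hst.trans h1)
  have ht := psl_sin_pos (h0.trans hst) h1
  have hd := psl_sin_pos (t := t - s) (by linarith) (by linarith)
  have h2 : psl_u s - psl_u t = Real.sin (Real.pi * (t - s)) /
      (Real.sin (Real.pi * s) * Real.sin (Real.pi * t)) := by
    unfold psl_u
    rw [Real.cot_eq_cos_div_sin, Real.cot_eq_cos_div_sin, mul_sub, Real.sin_sub]
    field_simp
  have h3 : 0 < psl_u s - psl_u t := by
    rw [h2]; positivity
  linarith

theorem psl_u_inj {s t : ℝ} (hs : s ∈ Ioo (0 : ℝ) 1) (ht : t ∈ Ioo (0 : ℝ) 1)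
    (h : psl_u s = psl_u t) : s = t := by
  rcases lt_trichotomy s t with h1 | h1 | h1
  · exact absurd h (psl_u_anti hs.1 h1 ht.2).ne'
  · exact h1
  · exact absurd h (psl_u_anti ht.1 h1 hs.2).ne

theorem psl_u_add_one (t : ℝ) : psl_u (t + 1) = psl_u t := by
  unfold psl_u
  rw [Real.cot_eq_cos_div_sin, Real.cot_eq_cos_div_sin, mul_add, mul_one, Real.cos_add_pi,
    Real.sin_add_pi, neg_div_neg_eq]

theorem psl_u_sub_one (t : ℝ) : psl_u (t - 1) = psl_u t := by
  have := psl_u_add_one (t - 1)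
  rw [sub_add_cancel] at this
  exact this.symm

theorem psl_u_half : psl_u (1 / 2) = 0 := by
  unfold psl_u
  rw [Real.cot_eq_cos_div_sin, mul_one_div, Real.cos_pi_div_two, zero_div]

theorem psl_u_add_half (t : ℝ) : psl_u (t + 1 / 2) = -(psl_u t)⁻¹ := by
  unfold psl_u
  rw [Real.cot_eq_cos_div_sin, Real.cot_eq_cos_div_sin, mul_add, mul_one_div, Real.cos_add_pi_div_two,
    Real.sin_add_pi_div_two, inv_div, neg_div]

theorem psl_u_pos {t : ℝ} (h0 : 0 < t) (h1 : t < 1 / 2) : 0 < psl_u t := by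
  have := psl_u_anti h0 h1 (by norm_num)
  rwa [psl_u_half] at this

theorem psl_u_neg {t : ℝ} (h0 : 1 / 2 < t) (h1 : t < 1) : psl_u t < 0 := by
  have := psl_u_anti (by norm_num) h0 h1
  rwa [psl_u_half] at this

theorem psl_u_quarter : psl_u (1 / 4) = 1 := by
  unfold psl_u
  rw [Real.cot_eq_cos_div_sin, mul_one_div, Real.cos_pi_div_four, Real.sin_pi_div_four,
    div_self (by positivity)]

theorem psl_u_three : psl_u (3 / 4) = -1 := by
  have := psl_u_add_half (1 / 4)
  rw [psl_u_quarter] at this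
  norm_num at this
  exact this

theorem psl_add_lin (L : ℝ → ℝ) (hadd : ∀ x y, L (x + y) = L x + L y) (hanti : Antitone L) (x : ℝ) :
    L x = x * L 1 := by
  let f : ℝ →+ ℝ := AddMonoidHom.mk' L hadd
  have hq : ∀ q : ℚ, L q = q * L 1 := by
    intro q
    have h := map_rat_smul f q (1 : ℝ)
    rw [Rat.smul_def, Rat.smul_def, mul_one] at h
    exact h
  have h0 : L 0 = 0 := map_zero f
  have hc : L 1 ≤ 0 := by rw [← h0]; exact hanti zero_le_one
  rcases hc.lt_or_eq with hc | hc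
  · rcases lt_trichotomy (L x) (x * L 1) with h | h | h
    · exfalso
      have h1 : x < L x / L 1 := by rwa [lt_div_iff_of_neg hc]
      obtain ⟨q, hq1, hq2⟩ := exists_rat_btwn h1
      have h2 := hanti hq1.le
      rw [hq] at h2
      rw [lt_div_iff_of_neg hc] at hq2
      linarith
    · exact h
    · exfalso
      have h1 : L x / L 1 < x := by rwa [div_lt_iff_of_neg hc]
      obtain ⟨q, hq1, hq2⟩ := exists_rat_btwn h1
      have h2 := hanti hq2.le
      rw [hq] at h2
      rw [div_lt_iff_of_neg hc] at hq1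
      linarith
  · rw [hc, mul_zero]
    obtain ⟨q1, hq1⟩ := exists_rat_lt x
    obtain ⟨q2, hq2⟩ := exists_rat_gt x
    have h1 := hanti hq1.le
    have h2 := hanti hq2.le
    rw [hq, hc, mul_zero] at h1 h2
    linarith

theorem psl_J (hper : ∀ g ∈ Γ, Per g) (hT2 : TR Γ 2)
    (h3 : ∀ g ∈ Γ, g 0 = 0 → ∃ α β : ℝ, 0 < α ∧ ∀ t ∈ Ioo (0 : ℝ) 1,
      Real.cot (Real.pi * g t) = α * Real.cot (Real.pi * t) + β)
    (h4 : ∀ α β : ℝ, 0 < α → ∃ g ∈ Γ, g 0 = 0 ∧ ∀ t ∈ Ioo (0 : ℝ) 1,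
      Real.cot (Real.pi * g t) = α * Real.cot (Real.pi * t) + β)
    (hone : ∃ T ∈ Γ, ∀ x : ℝ, (T : ℝ ≃o ℝ) x = x + 1) :
    ∃ J ∈ Γ, ∀ x : ℝ, (J : ℝ ≃o ℝ) x = x + 1 / 2 := by
  -- the elements `d α`
  have hd' : ∀ α : ℝ, ∃ g : ℝ ≃o ℝ, 0 < α → (g ∈ Γ ∧ g 0 = 0 ∧
      ∀ t ∈ Ioo (0 : ℝ) 1, psl_u (g t) = α * psl_u t) := by
    intro α
    by_cases hα : 0 < α
    · obtain ⟨g, hg, hg0, hgt⟩ := h4 α 0 hα
      refine ⟨g, fun _ => ⟨hg, hg0, fun t ht => ?_⟩⟩
      have := hgt t ht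
      rw [add_zero] at this
      exact this
    · exact ⟨1, fun h => absurd h hα⟩
  choose d hd using hd'
  have dmem : ∀ α, 0 < α → d α ∈ Γ := fun α h => (hd α h).1
  have d0 : ∀ α, 0 < α → d α 0 = 0 := fun α h => (hd α h).2.1
  have dU : ∀ α, 0 < α → ∀ t ∈ Ioo (0 : ℝ) 1, psl_u (d α t) = α * psl_u t :=
    fun α h => (hd α h).2.2
  have fix1 : ∀ g ∈ Γ, g 0 = 0 → g 1 = 1 := by
    intro g hg h0
    have := hper g hg 0
    rw [h0, zero_add] at this
    exact this
  have maps : ∀ g ∈ Γ, g 0 = 0 → ∀ t ∈ Ioo (0 : ℝ) 1, g t ∈ Ioo (0 : ℝ) 1 := by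
    intro g hg h0 t ht
    have h1 := g.strictMono ht.1
    have h2 := g.strictMono ht.2
    rw [h0] at h1
    rw [fix1 g hg h0] at h2
    exact ⟨h1, h2⟩
  have dhalf : ∀ α, 0 < α → d α (1 / 2) = 1 / 2 := by
    intro α h
    have hm : (1 / 2 : ℝ) ∈ Ioo (0 : ℝ) 1 := by constructor <;> norm_num
    apply psl_u_inj (maps _ (dmem α h) (d0 α h) _ hm) hm
    rw [dU α h _ hm, psl_u_half, mul_zero]
  -- elements fixing `0` and `1/2`
  have Dlem : ∀ g ∈ Γ, g 0 = 0 → g (1 / 2) = 1 / 2 → ∃ θ : ℝ, 0 < θ ∧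
      ∀ t ∈ Ioo (0 : ℝ) 1, psl_u (g t) = θ * psl_u t := by
    intro g hg h0 h12
    obtain ⟨α, β, hα, h⟩ := h3 g hg h0
    have hm : (1 / 2 : ℝ) ∈ Ioo (0 : ℝ) 1 := by constructor <;> norm_num
    have h5 : psl_u (g (1 / 2)) = α * psl_u (1 / 2) + β := h _ hm
    rw [h12, psl_u_half, mul_zero, zero_add] at h5
    refine ⟨α, hα, fun t ht => ?_⟩
    have h6 : psl_u (g t) = α * psl_u t + β := h t ht
    rw [h6, ← h5, add_zero]
  -- the element `w`
  obtain ⟨w, hw, hw0, hw1⟩ : ∃ w ∈ Γ, (w : ℝ ≃o ℝ) 0 = 1 / 2 ∧ w (1 / 2) = 1 := by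
    obtain ⟨g, hg, h⟩ := hT2 ![0, 1 / 2] ![1 / 2, 1] (by
      constructor
      · intro i j hij
        fin_cases i <;> fin_cases j <;> simp at hij ⊢
      · intro i j
        fin_cases i <;> fin_cases j <;> simp <;> norm_num) (by
      constructor
      · intro i j hij
        fin_cases i <;> fin_cases j <;> simp at hij ⊢
        norm_num
      · intro i j
        fin_cases i <;> fin_cases j <;> simp <;> norm_num)
    refine ⟨g, hg, ?_, ?_⟩
    · simpa using h 0
    · simpa using h 1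
  have hwone : w 1 = 3 / 2 := by
    have := hper w hw 0
    rw [hw0, zero_add] at this
    rw [this]; norm_num
  have wlow : ∀ t, 0 < t → t < 1 / 2 → 1 / 2 < w t ∧ w t < 1 := by
    intro t h0 h1
    have h2 := w.strictMono h0
    have h5 := w.strictMono h1
    rw [hw0] at h2
    rw [hw1] at h5
    exact ⟨h2, h5⟩
  have whigh : ∀ t, 1 / 2 < t → t < 1 → 1 < w t ∧ w t < 3 / 2 := by
    intro t h0 h1
    have h2 := w.strictMono h0
    have h5 := w.strictMono h1
    rw [hw1] at h2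
    rw [hwone] at h5
    exact ⟨h2, h5⟩
  -- the function `θ`
  have hθ' : ∀ α : ℝ, ∃ θ : ℝ, 0 < α → (0 < θ ∧
      ∀ t ∈ Ioo (0 : ℝ) 1, psl_u ((w * d α * w⁻¹) t) = θ * psl_u t) := by
    intro α
    by_cases hα : 0 < α
    · have hmem : w * d α * w⁻¹ ∈ Γ := Γ.mul_mem (Γ.mul_mem hw (dmem α hα)) (Γ.inv_mem hw)
      have h12 : (w * d α * w⁻¹) (1 / 2) = 1 / 2 := by
        rw [mul_app, mul_app]
        have : w⁻¹ (1 / 2) = 0 := by rw [inv_eq_iff, hw0]
        rw [this, d0 α hα, hw0]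
      have h1 : (w * d α * w⁻¹) 1 = 1 := by
        rw [mul_app, mul_app]
        have : w⁻¹ 1 = 1 / 2 := by rw [inv_eq_iff, hw1]
        rw [this, dhalf α hα, hw1]
      have h0 : (w * d α * w⁻¹) 0 = 0 := by
        have := hper _ hmem 0
        rw [zero_add, h1] at this
        linarith
      obtain ⟨θ, h⟩ := Dlem _ hmem h0 h12
      exact ⟨θ, fun _ => h⟩
    · exact ⟨1, fun h => absurd h hα⟩
  choose θ hθ using hθ'
  have θpos : ∀ α, 0 < α → 0 < θ α := fun α h => (hθ α h).1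
  have gw : ∀ α t, (w * d α * w⁻¹) (w t) = w (d α t) := by
    intro α t
    rw [mul_app, mul_app, inv_app_self]
  have θlow : ∀ α, 0 < α → ∀ t, 0 < t → t < 1 / 2 → psl_u (w (d α t)) = θ α * psl_u (w t) := by
    intro α hα t h0 h1
    have h2 := wlow t h0 h1
    rw [← gw]
    exact (hθ α hα).2 _ ⟨by linarith [h2.1], h2.2⟩
  have θhigh : ∀ α, 0 < α → ∀ t, 1 / 2 < t → t < 1 → psl_u (w (d α t)) = θ α * psl_u (w t) := by
    intro α hα t h0 h1
    have h2 := whigh t h0 h1
    have hmem : w * d α * w⁻¹ ∈ Γ := Γ.mul_mem (Γ.mul_mem hw (dmem α hα)) (Γ.inv_mem hw)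
    have h5 := hper _ hmem (w t - 1)
    rw [sub_add_cancel, gw] at h5
    rw [h5, psl_u_add_one, (hθ α hα).2 _ ⟨by linarith [h2.1], by linarith [h2.2]⟩, psl_u_sub_one]
  have dlow : ∀ α, 0 < α → ∀ t, 0 < t → t < 1 / 2 → 0 < d α t ∧ d α t < 1 / 2 := by
    intro α hα t h0 h1
    have h2 := (d α).strictMono h0
    have h5 := (d α).strictMono h1
    rw [d0 α hα] at h2
    rw [dhalf α hα] at h5
    exact ⟨h2, h5⟩
  have dhigh : ∀ α, 0 < α → ∀ t, 1 / 2 < t → t < 1 → 1 / 2 < d α t ∧ d α t < 1 := by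
    intro α hα t h0 h1
    have h2 := (d α).strictMono h0
    have h5 := (d α).strictMono h1
    rw [dhalf α hα] at h2
    rw [fix1 _ (dmem α hα) (d0 α hα)] at h5
    exact ⟨h2, h5⟩
  obtain ⟨b, hb⟩ : ∃ b, b = -psl_u (w (1 / 4)) := ⟨_, rfl⟩
  obtain ⟨γ, hγ⟩ : ∃ γ, γ = psl_u (w (3 / 4)) := ⟨_, rfl⟩
  have hb0 : 0 < b := by
    have h := wlow (1 / 4) (by norm_num) (by norm_num)
    have := psl_u_neg h.1 h.2
    rw [hb]; linarith
  have hγ0 : 0 < γ := by
    have h := whigh (3 / 4) (by norm_num) (by norm_num)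
    have h5 := psl_u_pos (t := w (3 / 4) - 1) (by linarith [h.1]) (by linarith [h.2])
    rw [psl_u_sub_one] at h5
    rw [hγ]; exact h5
  -- multiplicativity
  have θmul : ∀ α β, 0 < α → 0 < β → θ (α * β) = θ α * θ β := by
    intro α β hα hβ
    have hq : (1 / 4 : ℝ) ∈ Ioo (0 : ℝ) 1 := by constructor <;> norm_num
    have hαβ : 0 < α * β := mul_pos hα hβ
    have h1 : d (α * β) (1 / 4) = d α (d β (1 / 4)) := by
      have hm := maps _ (dmem β hβ) (d0 β hβ) _ hq
      apply psl_u_inj (maps _ (dmem _ hαβ) (d0 _ hαβ) _ hq) (maps _ (dmem α hα) (d0 α hα) _ hm)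
      rw [dU _ hαβ _ hq, dU α hα _ hm, dU β hβ _ hq]
      ring
    have h2 := θlow (α * β) hαβ (1 / 4) (by norm_num) (by norm_num)
    have h5 := θlow β hβ (1 / 4) (by norm_num) (by norm_num)
    have h6 := dlow β hβ (1 / 4) (by norm_num) (by norm_num)
    have h7 := θlow α hα _ h6.1 h6.2
    rw [h1, h7, h5] at h2
    have h8 : psl_u (w (1 / 4)) ≠ 0 := by
      intro h
      rw [h] at hb
      linarith
    apply mul_right_cancel₀ h8
    linarith
  have θanti : ∀ α β, 0 < α → α < β → θ β < θ α := by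
    intro α β hα hαβ
    have hβ : 0 < β := hα.trans hαβ
    have hq : (1 / 4 : ℝ) ∈ Ioo (0 : ℝ) 1 := by constructor <;> norm_num
    have ha := dlow α hα (1 / 4) (by norm_num) (by norm_num)
    have hb' := dlow β hβ (1 / 4) (by norm_num) (by norm_num)
    have h1 : d β (1 / 4) < d α (1 / 4) := by
      by_contra hle
      push Not at hle
      have h2 : psl_u (d α (1 / 4)) = α := by rw [dU α hα _ hq, psl_u_quarter, mul_one]
      have h5 : psl_u (d β (1 / 4)) = β := by rw [dU β hβ _ hq, psl_u_quarter, mul_one]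
      rcases hle.lt_or_eq with h | h
      · have := psl_u_anti ha.1 h (by linarith [hb'.2])
        linarith
      · rw [h] at h2
        linarith
    have h2 := w.strictMono h1
    have h5 := wlow _ ha.1 ha.2
    have h6 := wlow _ hb'.1 hb'.2
    have h7 := psl_u_anti (by linarith [h6.1]) h2 h5.2
    rw [θlow α hα (1 / 4) (by norm_num) (by norm_num),
      θlow β hβ (1 / 4) (by norm_num) (by norm_num)] at h7
    have h8 : psl_u (w (1 / 4)) = -b := by rw [hb]; ring
    rw [h8] at h7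
    nlinarith
  -- `θ α = α ^ c`
  obtain ⟨c, hc⟩ : ∃ c, c = Real.log (θ (Real.exp 1)) := ⟨_, rfl⟩
  have hLin : ∀ x, Real.log (θ (Real.exp x)) = x * c := by
    rw [hc]
    apply psl_add_lin (fun x => Real.log (θ (Real.exp x)))
    · intro x y
      rw [Real.exp_add, θmul _ _ (Real.exp_pos x) (Real.exp_pos y),
        Real.log_mul (θpos _ (Real.exp_pos x)).ne' (θpos _ (Real.exp_pos y)).ne']
    · intro x y hxy
      rcases hxy.lt_or_eq with h | h
      · exact (Real.log_lt_log (θpos _ (Real.exp_pos y))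
          (θanti _ _ (Real.exp_pos x) (Real.exp_lt_exp.2 h))).le
      · rw [h]
  have θpow : ∀ α, 0 < α → θ α = α ^ c := by
    intro α hα
    have h1 := hLin (Real.log α)
    rw [Real.exp_log hα] at h1
    rw [Real.rpow_def_of_pos hα, ← h1, Real.exp_log (θpos α hα)]
  have hcneg : c < 0 := by
    have h1 := θanti 1 2 one_pos (by norm_num)
    rw [θpow 1 one_pos, θpow 2 two_pos, Real.one_rpow] at h1
    by_contra hcn
    push Not at hcn
    have := Real.one_le_rpow (by norm_num : (1:ℝ) ≤ 2) hcn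
    linarith
  -- formula on the two halves
  have Ulow : ∀ t, 0 < t → t < 1 / 2 → psl_u (w t) = -b * (psl_u t) ^ c := by
    intro t h0 h1
    have hp := psl_u_pos h0 h1
    have hq : (1 / 4 : ℝ) ∈ Ioo (0 : ℝ) 1 := by constructor <;> norm_num
    have h2 : d (psl_u t) (1 / 4) = t := by
      apply psl_u_inj (maps _ (dmem _ hp) (d0 _ hp) _ hq) ⟨h0, by linarith⟩
      rw [dU _ hp _ hq, psl_u_quarter, mul_one]
    have h5 := θlow _ hp (1 / 4) (by norm_num) (by norm_num)
    rw [h2, θpow _ hp] at h5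
    rw [h5, hb]; ring
  have Uhigh : ∀ t, 1 / 2 < t → t < 1 → psl_u (w t) = γ * (-psl_u t) ^ c := by
    intro t h0 h1
    have hp : 0 < -psl_u t := by linarith [psl_u_neg h0 h1]
    have hq : (3 / 4 : ℝ) ∈ Ioo (0 : ℝ) 1 := by constructor <;> norm_num
    have h2 : d (-psl_u t) (3 / 4) = t := by
      apply psl_u_inj (maps _ (dmem _ hp) (d0 _ hp) _ hq) ⟨by linarith, h1⟩
      rw [dU _ hp _ hq, psl_u_three]; ring
    have h5 := θhigh _ hp (3 / 4) (by norm_num) (by norm_num)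
    rw [h2, θpow _ hp] at h5
    rw [h5, hγ]; ring
  -- the square of `w`
  obtain ⟨T, hT, hTx⟩ := hone
  have hTi : ∀ x, T⁻¹ x = x - 1 := by
    intro x
    rw [inv_eq_iff, hTx]; ring
  have hv : T⁻¹ * w * w ∈ Γ := Γ.mul_mem (Γ.mul_mem (Γ.inv_mem hT) hw) hw
  have hvx : ∀ x, (T⁻¹ * w * w) x = w (w x) - 1 := by
    intro x
    rw [mul_app, mul_app, hTi]
  obtain ⟨lam, hlam, hlamU⟩ := Dlem _ hv (by rw [hvx, hw0, hw1]; ring)
    (by rw [hvx, hw1, hwone]; norm_num)
  have hww : ∀ t ∈ Ioo (0 : ℝ) 1, psl_u (w (w t)) = lam * psl_u t := by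
    intro t ht
    have := hlamU t ht
    rw [hvx, psl_u_sub_one] at this
    exact this
  have hA : ∀ r, 0 < r → γ * (b * r ^ c) ^ c = lam * r := by
    intro r hr
    have hq : (1 / 4 : ℝ) ∈ Ioo (0 : ℝ) 1 := by constructor <;> norm_num
    have ht := dlow r hr (1 / 4) (by norm_num) (by norm_num)
    have hu : psl_u (d r (1 / 4)) = r := by rw [dU r hr _ hq, psl_u_quarter, mul_one]
    have h1 := hww _ ⟨ht.1, by linarith [ht.2]⟩
    have h2 := wlow _ ht.1 ht.2
    rw [Uhigh _ h2.1 h2.2, Ulow _ ht.1 ht.2, hu] at h1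
    rw [← h1]
    congr 2
    ring
  have hlamA : γ * b ^ c = lam := by
    have := hA 1 one_pos
    rwa [Real.one_rpow, mul_one, mul_one] at this
  have hcc : c * c = 1 := by
    have h1 := hA 2 two_pos
    rw [Real.mul_rpow hb0.le (by positivity), ← Real.rpow_mul (by norm_num), ← mul_assoc, hlamA] at h1
    have h2 : (2 : ℝ) ^ (c * c) = 2 := mul_left_cancel₀ hlam.ne' h1
    have h5 := congrArg Real.log h2
    rw [Real.log_rpow two_pos] at h5
    have h6 : Real.log 2 ≠ 0 := (Real.log_pos (by norm_num)).ne'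
    exact mul_right_cancel₀ h6 (by rw [h5, one_mul])
  have hcm : c = -1 := by nlinarith
  subst hcm
  rw [Real.rpow_neg_one] at hlamA
  have hB : lam = b / γ := by
    have ht := whigh (3 / 4) (by norm_num) (by norm_num)
    have h1 := hww (3 / 4) (by constructor <;> norm_num)
    have h2 := hper w hw (w (3 / 4) - 1)
    rw [sub_add_cancel] at h2
    rw [h2, psl_u_add_one, Ulow _ (by linarith [ht.1]) (by linarith [ht.2]), psl_u_sub_one, ← hγ,
      psl_u_three, Real.rpow_neg_one] at h1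
    rw [div_eq_mul_inv]
    linarith
  have hbg : γ = b := by
    rw [hB] at hlamA
    have h1 : γ * γ = b * b := by
      field_simp at hlamA
      nlinarith
    nlinarith
  -- conclusion
  have hib : 0 < 1 / b := by positivity
  have hJ : d (1 / b) * w ∈ Γ := Γ.mul_mem (dmem _ hib) hw
  refine ⟨d (1 / b) * w, hJ, ?_⟩
  have hJ01 : ∀ t, 0 ≤ t → t < 1 → (d (1 / b) * w) t = t + 1 / 2 := by
    intro t h0 h1
    rw [mul_app]
    rcases h0.lt_or_eq with h0 | h0
    · rcases lt_trichotomy t (1 / 2) with h | h | h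
      · have hwt := wlow t h0 h
        have hdt := dhigh _ hib _ hwt.1 hwt.2
        apply psl_u_inj ⟨by linarith [hdt.1], hdt.2⟩ ⟨by linarith, by linarith⟩
        rw [dU _ hib _ ⟨by linarith [hwt.1], hwt.2⟩, Ulow t h0 h, psl_u_add_half, Real.rpow_neg_one]
        field_simp
      · rw [h, hw1, fix1 _ (dmem _ hib) (d0 _ hib)]; norm_num
      · have hwt := whigh t h h1
        have h2 := hper _ (dmem _ hib) (w t - 1)
        rw [sub_add_cancel] at h2
        rw [h2]
        have hdt := dlow _ hib (w t - 1) (by linarith [hwt.1]) (by linarith [hwt.2])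
        have h5 : d (1 / b) (w t - 1) = t - 1 / 2 := by
          apply psl_u_inj ⟨hdt.1, by linarith [hdt.2]⟩ ⟨by linarith, by linarith⟩
          rw [dU _ hib _ ⟨by linarith [hwt.1], by linarith [hwt.2]⟩, psl_u_sub_one, Uhigh t h h1,
            Real.rpow_neg_one, hbg]
          have h6 : psl_u (t - 1 / 2) = -(psl_u t)⁻¹ := by
            have h7 := psl_u_add_half t
            have h8 := psl_u_sub_one (t + 1 / 2)
            rw [← h7, ← h8]
            congr 1; ring
          rw [h6, inv_neg]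
          field_simp
        rw [h5]; ring
    · rw [← h0, hw0, dhalf _ hib]; norm_num
  intro x
  have h1 := (hper _ hJ).add_int (Int.fract x) ⌊x⌋
  rw [Int.fract_add_floor] at h1
  rw [h1, hJ01 _ (Int.fract_nonneg x) (Int.fract_lt_one x)]
  have := Int.fract_add_floor x
  linarith


end Pool.Agent.Ghys
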