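import Mathlib
import Pool.Agent.Ghys.Basic

set_option autoImplicit false

namespace Pool.Agent.Ghys

open Filter Topology Set

variable {Γ : Subgroup (ℝ ≃o ℝ)}


theorem cot_8486 (t : ℝ) : Real.cot (Real.pi * t) = Real.tan (Real.pi / 2 - Real.pi * t) := by
  rw [Real.cot_eq_cos_div_sin, Real.tan_eq_sin_div_cos, Real.sin_pi_div_two_sub,
    Real.cos_pi_div_two_sub]

/-- inverse of `t ↦ cot (π t)` -/
noncomputable def ta8486 (r : ℝ) : ℝ := 1 / 2 - Real.arctan r / Real.pi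

theorem ta_mem_8486 (r : ℝ) : ta8486 r ∈ Ioo (0 : ℝ) 1 := by
  have h1 := Real.neg_pi_div_two_lt_arctan r
  have h2 := Real.arctan_lt_pi_div_two r
  have hpi := Real.pi_pos
  unfold ta8486
  constructor
  · have : Real.arctan r / Real.pi < 1 / 2 := by
      rw [div_lt_iff₀ hpi]; linarith
    linarith
  · have : -(1 / 2) < Real.arctan r / Real.pi := by
      rw [lt_div_iff₀ hpi]; linarith
    linarith

theorem u_ta_8486 (r : ℝ) : Real.cot (Real.pi * ta8486 r) = r := by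
  rw [cot_8486]
  have e : Real.pi / 2 - Real.pi * ta8486 r = Real.arctan r := by
    unfold ta8486
    have hpi := Real.pi_pos.ne'
    field_simp
    ring
  rw [e, Real.tan_arctan]

theorem ta_u_8486 {t : ℝ} (ht : t ∈ Ioo (0 : ℝ) 1) : ta8486 (Real.cot (Real.pi * t)) = t := by
  have hpi := Real.pi_pos
  rw [cot_8486]
  unfold ta8486
  rw [Real.arctan_tan (by nlinarith [ht.1, ht.2]) (by nlinarith [ht.1, ht.2])]
  field_simp
  ring

theorem ta_anti_8486 : StrictAnti ta8486 := by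
  intro a b hab
  unfold ta8486
  have h := Real.arctan_strictMono hab
  have := div_lt_div_of_pos_right h Real.pi_pos
  linarith

theorem u_anti_8486 {t t' : ℝ} (ht : t ∈ Ioo (0 : ℝ) 1) (ht' : t' ∈ Ioo (0 : ℝ) 1)
    (h : t < t') : Real.cot (Real.pi * t') < Real.cot (Real.pi * t) := by
  by_contra hcon
  push Not at hcon
  have := ta_anti_8486.antitone hcon
  rw [ta_u_8486 ht, ta_u_8486 ht'] at this
  linarith

theorem u_inj_8486 {t t' : ℝ} (ht : t ∈ Ioo (0 : ℝ) 1) (ht' : t' ∈ Ioo (0 : ℝ) 1)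
    (h : Real.cot (Real.pi * t) = Real.cot (Real.pi * t')) : t = t' := by
  rw [← ta_u_8486 ht, ← ta_u_8486 ht', h]

theorem psl_T (hper : ∀ g ∈ Γ, Per g) (hT1 : TR Γ 1)
    (h3 : ∀ g ∈ Γ, g 0 = 0 → ∃ α β : ℝ, 0 < α ∧ ∀ t ∈ Ioo (0 : ℝ) 1,
      Real.cot (Real.pi * g t) = α * Real.cot (Real.pi * t) + β)
    (h4 : ∀ α β : ℝ, 0 < α → ∃ g ∈ Γ, g 0 = 0 ∧ ∀ t ∈ Ioo (0 : ℝ) 1,
      Real.cot (Real.pi * g t) = α * Real.cot (Real.pi * t) + β) :
    ∃ T ∈ Γ, ∀ x : ℝ, (T : ℝ ≃o ℝ) x = x + 1 := by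
  have hC : ∀ c : ℝ, Cn 1 (fun _ : Fin 1 => c) := fun c =>
    ⟨fun i j hij => absurd hij (by
      rw [Subsingleton.elim i j]; exact lt_irrefl _), fun i j => by linarith⟩
  obtain ⟨g, hg, hg0'⟩ := hT1 (fun _ => 0) (fun _ => 1) (hC 0) (hC 1)
  have hg0 : g 0 = 1 := hg0' 0
  have hgP := hper g hg
  have hg1 : g 1 = 2 := by
    have := hgP 0
    rw [zero_add, hg0] at this
    rw [this]; norm_num
  have hgI : ∀ t ∈ Ioo (0 : ℝ) 1, g t - 1 ∈ Ioo (0 : ℝ) 1 := by
    intro t ht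
    have h1 := g.strictMono ht.1
    have h2 := g.strictMono ht.2
    rw [hg0] at h1
    rw [hg1] at h2
    constructor <;> linarith
  -- the map in the coordinate `u`
  obtain ⟨Fh, hFh⟩ : ∃ Fh : ℝ → ℝ, Fh = fun r => Real.cot (Real.pi * (g (ta8486 r) - 1)) :=
    ⟨_, rfl⟩
  have hmono : StrictMono Fh := by
    intro r r' hr
    rw [hFh]
    apply u_anti_8486 (hgI _ (ta_mem_8486 r')) (hgI _ (ta_mem_8486 r))
    have := g.strictMono (ta_anti_8486 hr)
    linarith
  have hFu : ∀ t ∈ Ioo (0 : ℝ) 1, Fh (Real.cot (Real.pi * t)) = Real.cot (Real.pi * (g t - 1)) := by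
    intro t ht
    rw [hFh]
    simp only
    rw [ta_u_8486 ht]
  have hsurj : Function.Surjective Fh := by
    intro v
    have hv := ta_mem_8486 v
    obtain ⟨t, ht⟩ : ∃ t, g t = ta8486 v + 1 := ⟨g⁻¹ (ta8486 v + 1), app_inv_self g _⟩
    have ht0 : 0 < t := by
      rw [← g.lt_iff_lt, hg0, ht]; linarith [hv.1]
    have ht1 : t < 1 := by
      rw [← g.lt_iff_lt, hg1, ht]; linarith [hv.2]
    refine ⟨Real.cot (Real.pi * t), ?_⟩
    rw [hFu t ⟨ht0, ht1⟩, ht, add_sub_cancel_right, u_ta_8486]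
  have hcont : Continuous Fh := hmono.monotone.continuous_of_surjective hsurj
  -- the functional equation
  have hfun : ∀ s, ∃ α β : ℝ, ∀ r, Fh (r + s) = α * Fh r + β := by
    intro s
    obtain ⟨k, hk, hk0, hks⟩ := h4 1 s one_pos
    have hkP := hper k hk
    have hk1 : k 1 = 1 := by
      have := hkP 0
      rw [zero_add, hk0, zero_add] at this
      exact this
    have hkI : ∀ t ∈ Ioo (0 : ℝ) 1, k t ∈ Ioo (0 : ℝ) 1 := by
      intro t ht
      have h1 := k.strictMono ht.1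
      have h2 := k.strictMono ht.2
      rw [hk0] at h1
      rw [hk1] at h2
      exact ⟨h1, h2⟩
    have hk' : g * k * g⁻¹ ∈ Γ := Γ.mul_mem (Γ.mul_mem hg hk) (Γ.inv_mem hg)
    have hk'P := hper _ hk'
    have hk'1 : (g * k * g⁻¹) 1 = 1 := by
      rw [mul_app, mul_app]
      have : g⁻¹ 1 = 0 := by rw [inv_eq_iff, hg0]
      rw [this, hk0, hg0]
    have hk'0 : (g * k * g⁻¹) 0 = 0 := by
      have := hk'P 0
      rw [zero_add, hk'1] at this
      linarith
    obtain ⟨α, β, _, hαβ⟩ := h3 _ hk' hk'0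
    refine ⟨α, β, fun r => ?_⟩
    have ht := ta_mem_8486 r
    have e1 : Real.cot (Real.pi * k (ta8486 r)) = r + s := by
      rw [hks _ ht, u_ta_8486]; ring
    rw [← e1, hFu _ (hkI _ ht)]
    have e2 : Fh r = Real.cot (Real.pi * (g (ta8486 r) - 1)) := by rw [hFh]
    rw [e2, ← hαβ _ (hgI _ ht)]
    congr 2
    have h5 := hk'P.sub_int (g (ta8486 r)) 1
    push_cast at h5
    rw [h5, mul_app, mul_app, inv_app_self]
  have hadd : ∀ r s, Fh (r + s) = Fh r + (Fh s - Fh 0) := by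
    intro r s
    obtain ⟨α, β, h⟩ := hfun s
    have hα : α = 1 ∨ s = 0 := by
      by_contra hcon
      push Not at hcon
      obtain ⟨hα, hs⟩ := hcon
      obtain ⟨r0, hr0⟩ := hsurj (β / (1 - α))
      have h5 := h r0
      have h6 : 1 - α ≠ 0 := fun h' => hα (by linarith)
      have h7 : α * Fh r0 + β = Fh r0 := by
        rw [hr0]; field_simp; ring
      rw [h7] at h5
      have := hmono.injective h5
      exact hs (by linarith)
    rcases hα with rfl | rfl
    · have h8 := h r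
      have h9 := h 0
      rw [zero_add] at h9
      linarith
    · simp
  let G : ℝ →+ ℝ :=
    { toFun := fun r => Fh r - Fh 0
      map_zero' := sub_self _
      map_add' := fun r s => by rw [hadd]; ring }
  have hG : Continuous G := hcont.sub continuous_const
  have hlin : ∀ r, Fh r = (Fh 1 - Fh 0) * r + Fh 0 := by
    intro r
    have h5 := map_real_smul G hG r 1
    have h6 : Fh (r • (1 : ℝ)) - Fh 0 = r • (Fh 1 - Fh 0) := h5
    rw [smul_eq_mul, mul_one, smul_eq_mul] at h6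
    linarith
  have hα : 0 < Fh 1 - Fh 0 := by
    have := hmono one_pos
    linarith
  obtain ⟨k, hk, hk0, hks⟩ := h4 (Fh 1 - Fh 0) (Fh 0) hα
  have hkP := hper k hk
  have hk1 : k 1 = 1 := by
    have := hkP 0
    rw [zero_add, hk0, zero_add] at this
    exact this
  have hkI : ∀ t ∈ Ioo (0 : ℝ) 1, k t ∈ Ioo (0 : ℝ) 1 := by
    intro t ht
    have h1 := k.strictMono ht.1
    have h2 := k.strictMono ht.2
    rw [hk0] at h1
    rw [hk1] at h2
    exact ⟨h1, h2⟩
  have hkg : ∀ t ∈ Ioo (0 : ℝ) 1, k t = g t - 1 := by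
    intro t ht
    apply u_inj_8486 (hkI t ht) (hgI t ht)
    rw [hks t ht, ← hlin, hFu t ht]
  have hkg' : ∀ x, k x = g x - 1 := by
    intro x
    have e : x = Int.fract x + (⌊x⌋ : ℤ) := (Int.fract_add_floor x).symm
    rw [e, hkP.add_int, hgP.add_int]
    rcases (Int.fract_nonneg x).eq_or_lt with h0 | h0
    · rw [← h0, hk0, hg0]; ring
    · rw [hkg _ ⟨h0, Int.fract_lt_one x⟩]; ring
  refine ⟨g * k⁻¹, Γ.mul_mem hg (Γ.inv_mem hk), fun x => ?_⟩
  rw [mul_app]
  have := hkg' (k⁻¹ x)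
  rw [app_inv_self] at this
  linarith


end Pool.Agent.Ghys
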