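import Mathlib
import Pool.Agent.Ghys.Basic

set_option autoImplicit false

namespace Pool.Agent.Ghys

open Filter Topology Set

variable {Γ : Subgroup (ℝ ≃o ℝ)}


/-- the pointwise relation -/
def Par (a b c d x y : ℝ) : Prop := ∃ l : ℝ, l ≠ 0 ∧
  a * Real.cos (Real.pi * x) + b * Real.sin (Real.pi * x) = l * Real.cos (Real.pi * y) ∧
  c * Real.cos (Real.pi * x) + d * Real.sin (Real.pi * x) = l * Real.sin (Real.pi * y)

theorem par_iff {a b c d : ℝ} (h : a * d - b * c = 1) (x y : ℝ) :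
    Par a b c d x y ↔
      Real.cos (Real.pi * y) * (c * Real.cos (Real.pi * x) + d * Real.sin (Real.pi * x)) =
      Real.sin (Real.pi * y) * (a * Real.cos (Real.pi * x) + b * Real.sin (Real.pi * x)) := by
  constructor
  · rintro ⟨l, -, h1, h2⟩
    rw [h1, h2]; ring
  · intro hc
    have hx := Real.sin_sq_add_cos_sq (Real.pi * x)
    have hy := Real.sin_sq_add_cos_sq (Real.pi * y)
    unfold Par
    generalize Real.cos (Real.pi * x) = cx at *
    generalize Real.sin (Real.pi * x) = sx at *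
    generalize Real.cos (Real.pi * y) = cy at *
    generalize Real.sin (Real.pi * y) = sy at *
    have e1 : a * cx + b * sx = ((a * cx + b * sx) * cy + (c * cx + d * sx) * sy) * cy := by
      linear_combination (-(a * cx + b * sx)) * hy - sy * hc
    have e2 : c * cx + d * sx = ((a * cx + b * sx) * cy + (c * cx + d * sx) * sy) * sy := by
      linear_combination (-(c * cx + d * sx)) * hy + cy * hc
    refine ⟨(a * cx + b * sx) * cy + (c * cx + d * sx) * sy, ?_, e1, e2⟩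
    intro h0
    rw [h0, zero_mul] at e1 e2
    have f1 : cx = 0 := by linear_combination (-cx) * h + d * e1 - b * e2
    have f2 : sx = 0 := by linear_combination (-sx) * h - c * e1 + a * e2
    rw [f1, f2] at hx
    norm_num at hx

theorem Mob.par {f : ℝ ≃o ℝ} (h : Mob f) : ∃ a b c d : ℝ, a * d - b * c = 1 ∧
    ∀ t, Par a b c d t (f t) := by
  obtain ⟨a, b, c, d, hd, h⟩ := h
  exact ⟨a, b, c, d, hd, fun t => (par_iff hd _ _).2 (h t)⟩

theorem Mob.of_par {f : ℝ ≃o ℝ} {a b c d : ℝ} (hd : a * d - b * c = 1)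
    (h : ∀ t, Par a b c d t (f t)) : Mob f :=
  ⟨a, b, c, d, hd, fun t => (par_iff hd _ _).1 (h t)⟩

theorem Mob.mul {f g : ℝ ≃o ℝ} (hf : Mob f) (hg : Mob g) : Mob (f * g) := by
  obtain ⟨a, b, c, d, hd, hf⟩ := hf.par
  obtain ⟨a', b', c', d', hd', hg⟩ := hg.par
  refine Mob.of_par (a := a * a' + b * c') (b := a * b' + b * d') (c := c * a' + d * c')
    (d := c * b' + d * d') ?_ fun t => ?_
  · linear_combination (a' * d' - b' * c') * hd + hd'
  · obtain ⟨l, hl, h1, h2⟩ := hg t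
    obtain ⟨m, hm, h3, h4⟩ := hf (g t)
    refine ⟨l * m, mul_ne_zero hl hm, ?_, ?_⟩
    · rw [mul_app]
      linear_combination a * h1 + b * h2 + l * h3
    · rw [mul_app]
      linear_combination c * h1 + d * h2 + l * h4

theorem Mob.inv {f : ℝ ≃o ℝ} (hf : Mob f) : Mob f⁻¹ := by
  obtain ⟨a, b, c, d, hd, hf⟩ := hf.par
  refine Mob.of_par (a := d) (b := -b) (c := -c) (d := a) (by linear_combination hd)
    fun t => ?_
  obtain ⟨l, hl, h1, h2⟩ := hf (f⁻¹ t)
  rw [app_inv_self] at h1 h2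
  refine ⟨l⁻¹, inv_ne_zero hl, ?_, ?_⟩
  · field_simp
    linear_combination (Real.cos (Real.pi * f⁻¹ t)) * hd - d * h1 + b * h2
  · field_simp
    linear_combination (Real.sin (Real.pi * f⁻¹ t)) * hd + c * h1 - a * h2

/-- translation -/
def tr (y : ℝ) : ℝ ≃o ℝ := OrderIso.addRight y

theorem tr_app (y x : ℝ) : tr y x = x + y := rfl

theorem Mob.tr (y : ℝ) : Mob (tr y) := by
  refine Mob.of_par (a := Real.cos (Real.pi * y)) (b := -Real.sin (Real.pi * y))
    (c := Real.sin (Real.pi * y)) (d := Real.cos (Real.pi * y)) ?_ fun t => ?_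
  · linear_combination Real.sin_sq_add_cos_sq (Real.pi * y)
  · refine ⟨1, one_ne_zero, ?_, ?_⟩
    · rw [tr_app, mul_add, Real.cos_add]; ring
    · rw [tr_app, mul_add, Real.sin_add]; ring

theorem unit_mem {f : ℝ ≃o ℝ} (hf : Per f) (h0 : f 0 = 0) {t : ℝ} (ht : t ∈ Ioo (0 : ℝ) 1) :
    f t ∈ Ioo (0 : ℝ) 1 := by
  have h1 : f 1 = 1 := by
    have := hf 0
    rw [zero_add, h0, zero_add] at this
    exact this
  constructor
  · have := f.strictMono ht.1
    rwa [h0] at this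
  · have := f.strictMono ht.2
    rwa [h1] at this

theorem sin_pos_unit {t : ℝ} (ht : t ∈ Ioo (0 : ℝ) 1) : 0 < Real.sin (Real.pi * t) := by
  apply Real.sin_pos_of_pos_of_lt_pi
  · exact mul_pos Real.pi_pos ht.1
  · calc Real.pi * t < Real.pi * 1 := mul_lt_mul_of_pos_left ht.2 Real.pi_pos
      _ = Real.pi := mul_one _

/-- a formula for the cotangent defines a Möbius map -/
theorem Mob.of_cot {f : ℝ ≃o ℝ} (hf : Per f) (h0 : f 0 = 0) {α β : ℝ} (hα : 0 < α)
    (h : ∀ t ∈ Ioo (0 : ℝ) 1, Real.cot (Real.pi * f t) = α * Real.cot (Real.pi * t) + β) :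
    Mob f := by
  have hs : 0 < Real.sqrt α := Real.sqrt_pos.2 hα
  have hs2 : Real.sqrt α * Real.sqrt α = α := Real.mul_self_sqrt hα.le
  refine ⟨Real.sqrt α, β / Real.sqrt α, 0, 1 / Real.sqrt α, by field_simp; ring, ?_⟩
  have key : ∀ r, 0 ≤ r → r < 1 → 
      Real.cos (Real.pi * f r) * (0 * Real.cos (Real.pi * r) +
        1 / Real.sqrt α * Real.sin (Real.pi * r)) =
      Real.sin (Real.pi * f r) * (Real.sqrt α * Real.cos (Real.pi * r) +
        β / Real.sqrt α * Real.sin (Real.pi * r)) := by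
    intro r hr0 hr1
    rcases hr0.eq_or_lt with rfl | hr0
    · rw [h0]; simp
    · have hr : r ∈ Ioo (0 : ℝ) 1 := ⟨hr0, hr1⟩
      have h1 := (sin_pos_unit hr).ne'
      have h2 := (sin_pos_unit (unit_mem hf h0 hr)).ne'
      have h3 := h r hr
      rw [Real.cot_eq_cos_div_sin, Real.cot_eq_cos_div_sin] at h3
      field_simp at h3
      field_simp
      have hs3 : Real.sqrt α ^ 2 = α := Real.sq_sqrt hα.le
      rw [hs3]
      linear_combination h3
  intro t
  have hfl : t = Int.fract t + (⌊t⌋ : ℤ) := (Int.fract_add_floor t).symm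
  have hk := key (Int.fract t) (Int.fract_nonneg t) (Int.fract_lt_one t)
  have e1 : Real.pi * t = Real.pi * Int.fract t + (⌊t⌋ : ℤ) * Real.pi := by
    conv_lhs => rw [hfl]
    ring
  have e2 : Real.pi * f t = Real.pi * f (Int.fract t) + (⌊t⌋ : ℤ) * Real.pi := by
    conv_lhs => rw [hfl, hf.add_int]
    ring
  rw [e1, e2, Real.cos_add_int_mul_pi, Real.sin_add_int_mul_pi, Real.cos_add_int_mul_pi,
    Real.sin_add_int_mul_pi]
  linear_combination ((-1 : ℝ) ^ ⌊t⌋) * ((-1 : ℝ) ^ ⌊t⌋) * hk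

theorem Mob.step {f : ℝ ≃o ℝ} (hf : Mob f) (t : ℝ) : f t + 1 ≤ f (t + 1) := by
  obtain ⟨a, b, c, d, hd, hf⟩ := hf.par
  obtain ⟨l, hl, h1, h2⟩ := hf t
  obtain ⟨m, hm, h3, h4⟩ := hf (t + 1)
  have e : Real.pi * (t + 1) = Real.pi * t + Real.pi := by ring
  rw [e, Real.cos_add_pi, Real.sin_add_pi] at h3 h4
  have h5 : Real.sin (Real.pi * f (t + 1) - Real.pi * f t) = 0 := by
    rw [Real.sin_sub]
    have : l * m * (Real.sin (Real.pi * f (t + 1)) * Real.cos (Real.pi * f t) -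
      Real.cos (Real.pi * f (t + 1)) * Real.sin (Real.pi * f t)) = 0 := by
      linear_combination (-(l * Real.cos (Real.pi * f t))) * h4 +
        (l * Real.sin (Real.pi * f t)) * h3 +
        (c * Real.cos (Real.pi * t) + d * Real.sin (Real.pi * t)) * h1 -
        (a * Real.cos (Real.pi * t) + b * Real.sin (Real.pi * t)) * h2
    rcases mul_eq_zero.1 this with h | h
    · exact absurd h (mul_ne_zero hl hm)
    · exact h
  rw [Real.sin_eq_zero_iff] at h5
  obtain ⟨n, hn⟩ := h5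
  have h6 : f (t + 1) = f t + n := by
    have hpi := Real.pi_pos
    have : Real.pi * (f (t + 1) - f t - n) = 0 := by linear_combination -hn
    rcases mul_eq_zero.1 this with h | h
    · exact absurd h hpi.ne'
    · linarith
  have h7 : f t < f (t + 1) := f.strictMono (by linarith)
  have h8 : (0 : ℝ) < n := by linarith
  have h9 : (1 : ℤ) ≤ n := by
    have : (0 : ℤ) < n := by exact_mod_cast h8
    omega
  have h10 : (1 : ℝ) ≤ n := by exact_mod_cast h9
  linarith

theorem Mob.per {f : ℝ ≃o ℝ} (hf : Mob f) : Per f := by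
  intro t
  refine le_antisymm ?_ (hf.step t)
  have h := hf.inv.step (f t)
  rw [inv_app_self] at h
  have := f.monotone h
  rwa [app_inv_self] at this

theorem cot_inj {x y : ℝ} (hx : x ∈ Ioo (0 : ℝ) 1) (hy : y ∈ Ioo (0 : ℝ) 1)
    (h : Real.cot (Real.pi * x) = Real.cot (Real.pi * y)) : x = y := by
  have h1 := (sin_pos_unit hx).ne'
  have h2 := (sin_pos_unit hy).ne'
  rw [Real.cot_eq_cos_div_sin, Real.cot_eq_cos_div_sin, div_eq_div_iff h1 h2] at h
  have h5 : Real.sin (Real.pi * y - Real.pi * x) = 0 := by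
    rw [Real.sin_sub]; linear_combination h
  rw [Real.sin_eq_zero_iff] at h5
  obtain ⟨n, hn⟩ := h5
  have h6 : y = x + n := by
    have : Real.pi * (y - x - n) = 0 := by linear_combination -hn
    rcases mul_eq_zero.1 this with h | h
    · exact absurd h Real.pi_pos.ne'
    · linarith
  have h7 : (n : ℝ) < 1 := by linarith [hx.1, hy.2]
  have h8 : (-1 : ℝ) < n := by linarith [hx.2, hy.1]
  have h9 : n < 1 := by exact_mod_cast h7
  have h10 : -1 < n := by exact_mod_cast h8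
  have h11 : n = 0 := by omega
  rw [h11] at h6
  simpa using h6.symm

theorem ext_unit {f g : ℝ ≃o ℝ} (hf : Per f) (hg : Per g) (hf0 : f 0 = 0) (hg0 : g 0 = 0)
    (h : ∀ t ∈ Ioo (0 : ℝ) 1, f t = g t) : f = g := by
  ext t
  have hfl : t = Int.fract t + (⌊t⌋ : ℤ) := (Int.fract_add_floor t).symm
  rw [hfl, hf.add_int, hg.add_int]
  congr 1
  rcases (Int.fract_nonneg t).eq_or_lt with h0 | h0
  · rw [← h0, hf0, hg0]
  · exact h _ ⟨h0, Int.fract_lt_one t⟩

theorem psl_std (hper : ∀ g ∈ Γ, Per g)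
    (h3 : ∀ g ∈ Γ, g 0 = 0 → ∃ α β : ℝ, 0 < α ∧ ∀ t ∈ Ioo (0 : ℝ) 1,
      Real.cot (Real.pi * g t) = α * Real.cot (Real.pi * t) + β)
    (h4 : ∀ α β : ℝ, 0 < α → ∃ g ∈ Γ, g 0 = 0 ∧ ∀ t ∈ Ioo (0 : ℝ) 1,
      Real.cot (Real.pi * g t) = α * Real.cot (Real.pi * t) + β)
    (hJ : ∃ J ∈ Γ, ∀ x : ℝ, (J : ℝ ≃o ℝ) x = x + 1 / 2) :
    ∀ f : ℝ ≃o ℝ, f ∈ Γ ↔ Mob f := by
  obtain ⟨J, hJ, hJx⟩ := hJ
  have hJn : ∀ n : ℤ, ∀ x : ℝ, (J ^ n) x = x + n * (1 / 2) := by
    intro n
    induction n using Int.induction_on with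
    | zero => intro x; simp [one_app]
    | succ n ih =>
      intro x
      rw [zpow_add_one, mul_app, ih, hJx]
      push_cast; ring
    | pred n ih =>
      intro x
      rw [zpow_sub_one, mul_app, ih]
      have : J⁻¹ x = x - 1 / 2 := by
        rw [inv_eq_iff, hJx]; ring
      rw [this]
      push_cast; ring
  have htr : ∀ n : ℤ, tr (n * (1 / 2)) ∈ Γ := by
    intro n
    have : tr (n * (1 / 2)) = J ^ n := by
      ext x; rw [tr_app, hJn]
    rw [this]
    exact Γ.zpow_mem hJ n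
  -- maps fixing `0`
  have hA : ∀ f : ℝ ≃o ℝ, Mob f → f 0 = 0 → f ∈ Γ := by
    intro f hf h0
    obtain ⟨a, b, c, d, hd, h⟩ := hf.par
    obtain ⟨l, hl, h1, h2⟩ := h 0
    rw [h0] at h1 h2
    simp only [mul_zero, Real.cos_zero, Real.sin_zero, mul_one, add_zero] at h1 h2
    have hc : c = 0 := h2
    rw [hc, mul_zero, sub_zero] at hd
    have ha0 : a ≠ 0 := by rintro rfl; simp at hd
    have hd0 : d ≠ 0 := by rintro rfl; simp at hd
    have hfor : ∀ t ∈ Ioo (0 : ℝ) 1,
        Real.cot (Real.pi * f t) = a ^ 2 * Real.cot (Real.pi * t) + a * b := by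
      intro t ht
      have g1 := (sin_pos_unit ht).ne'
      have g2 := (sin_pos_unit (unit_mem hf.per h0 ht)).ne'
      obtain ⟨m, hm, g3, g4⟩ := h t
      rw [hc, zero_mul, zero_add] at g4
      rw [Real.cot_eq_cos_div_sin, Real.cot_eq_cos_div_sin]
      field_simp
      have : m * (Real.cos (Real.pi * f t) * Real.sin (Real.pi * t) -
        (a * (Real.sin (Real.pi * f t)) * (a * Real.cos (Real.pi * t) +
          Real.sin (Real.pi * t) * b))) = 0 := by
        linear_combination (-(Real.sin (Real.pi * t))) * g3 +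
          (a * (a * Real.cos (Real.pi * t) + b * Real.sin (Real.pi * t))) * g4 -
          (Real.sin (Real.pi * t)) * (a * Real.cos (Real.pi * t) +
            b * Real.sin (Real.pi * t)) * hd
      rcases mul_eq_zero.1 this with h | h
      · exact absurd h hm
      · linear_combination h
    obtain ⟨g, hg, hg0, hgt⟩ := h4 (a ^ 2) (a * b) (by positivity)
    have : f = g := by
      refine ext_unit hf.per (hper g hg) h0 hg0 fun t ht => ?_
      refine cot_inj (unit_mem hf.per h0 ht) (unit_mem (hper g hg) hg0 ht) ?_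
      rw [hfor t ht, hgt t ht]
    rw [this]; exact hg
  -- all Möbius maps
  have hB : ∀ f : ℝ ≃o ℝ, Mob f → f ∈ Γ := by
    intro f hf
    have hfl : f 0 = Int.fract (f 0) + (⌊f 0⌋ : ℤ) := (Int.fract_add_floor (f 0)).symm
    rcases (Int.fract_nonneg (f 0)).eq_or_lt with h0 | h0
    · rw [← h0, zero_add] at hfl
      have h1 : tr (((-(2 * ⌊f 0⌋) : ℤ) : ℝ) * (1 / 2)) * f ∈ Γ := by
        refine hA _ ((Mob.tr _).mul hf) ?_
        rw [mul_app, tr_app, hfl]
        simp only [Int.floor_intCast]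
        push_cast; ring
      exact (Γ.mul_mem_cancel_left (htr _)).1 h1
    · obtain ⟨g, hg, hg0, hgt⟩ := h4 1 (Real.cot (Real.pi * Int.fract (f 0))) one_pos
      have hgm : Mob g := Mob.of_cot (hper g hg) hg0 one_pos hgt
      have hhalf : (1 / 2 : ℝ) ∈ Ioo (0 : ℝ) 1 := by constructor <;> norm_num
      have hg2 : g (1 / 2) = Int.fract (f 0) := by
        refine cot_inj (unit_mem (hper g hg) hg0 hhalf) ⟨h0, Int.fract_lt_one _⟩ ?_
        rw [hgt _ hhalf]
        have : Real.cot (Real.pi * (1 / 2)) = 0 := by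
          rw [Real.cot_eq_cos_div_sin, show Real.pi * (1 / 2) = Real.pi / 2 by ring,
            Real.cos_pi_div_two, zero_div]
        rw [this]; ring
      have hg3 : g (1 / 2 + (⌊f 0⌋ : ℤ)) = f 0 := by
        rw [(hper g hg).add_int, hg2]; exact hfl.symm
      have hg4 : g⁻¹ (f 0) = 1 / 2 + (⌊f 0⌋ : ℤ) := by
        rw [inv_eq_iff]; exact hg3.symm
      have h1 : tr (((-(2 * ⌊f 0⌋ + 1) : ℤ) : ℝ) * (1 / 2)) * (g⁻¹ * f) ∈ Γ := by
        refine hA _ ((Mob.tr _).mul (hgm.inv.mul hf)) ?_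
        rw [mul_app, mul_app, tr_app, hg4]
        push_cast; ring
      have h2 := (Γ.mul_mem_cancel_left (htr _)).1 h1
      exact (Γ.mul_mem_cancel_left (Γ.inv_mem hg)).1 h2
  intro f
  refine ⟨fun hf => ?_, hB f⟩
  have h1 : (tr (f 0))⁻¹ ∈ Γ := Γ.inv_mem (hB _ (Mob.tr _))
  have h2 : (tr (f 0))⁻¹ * f ∈ Γ := Γ.mul_mem h1 hf
  have h5 : ((tr (f 0))⁻¹ * f) 0 = 0 := by
    rw [mul_app, inv_eq_iff, tr_app, zero_add]
  obtain ⟨α, β, hα, hαβ⟩ := h3 _ h2 h5
  have h6 : Mob ((tr (f 0))⁻¹ * f) := Mob.of_cot (hper _ h2) h5 hα hαβ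
  have h7 := (Mob.tr (f 0)).mul h6
  rwa [mul_inv_cancel_left] at h7


end Pool.Agent.Ghys
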