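import Mathlib
import Pool.Agent.Ghys.Basic
import Pool.Agent.Ghys.L_psl1
import Pool.Agent.Ghys.L_chart
import Pool.Agent.Ghys.L_psl_T
import Pool.Agent.Ghys.L_psl_J
import Pool.Agent.Ghys.L_psl_std
import Pool.Agent.Ghys.L_TR_of_EE

set_option autoImplicit false

namespace Pool.Agent.Ghys

open Filter Topology Set

variable {Γ : Subgroup (ℝ ≃o ℝ)}

/-- the conjugated group -/
def conjG (Γ : Subgroup (ℝ ≃o ℝ)) (Φ : ℝ ≃o ℝ) : Subgroup (ℝ ≃o ℝ) where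
  carrier := {f | Φ * f * Φ⁻¹ ∈ Γ}
  mul_mem' := by
    intro a b ha hb
    have := Γ.mul_mem ha hb
    have e : Φ * a * Φ⁻¹ * (Φ * b * Φ⁻¹) = Φ * (a * b) * Φ⁻¹ := by group
    show Φ * (a * b) * Φ⁻¹ ∈ Γ
    rwa [← e]
  one_mem' := by
    show Φ * 1 * Φ⁻¹ ∈ Γ
    simpa using Γ.one_mem
  inv_mem' := by
    intro a ha
    have := Γ.inv_mem ha
    have e : (Φ * a * Φ⁻¹)⁻¹ = Φ * a⁻¹ * Φ⁻¹ := by group
    show Φ * a⁻¹ * Φ⁻¹ ∈ Γ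
    rwa [← e]

theorem mem_conjG {Φ f : ℝ ≃o ℝ} : f ∈ conjG Γ Φ ↔ Φ * f * Φ⁻¹ ∈ Γ := Iff.rfl

theorem conjG_TR {Φ : ℝ ≃o ℝ} (hΦ : Per Φ) {n : ℕ} (h : TR Γ n) : TR (conjG Γ Φ) n := by
  intro p q hp hq
  obtain ⟨g, hg, hgp⟩ := h _ _ (hp.map hΦ) (hq.map hΦ)
  refine ⟨Φ⁻¹ * g * Φ, ?_, fun i => ?_⟩
  · rw [mem_conjG]
    have e : Φ * (Φ⁻¹ * g * Φ) * Φ⁻¹ = g := by group
    rwa [e]
  · rw [mul_app, mul_app, hgp i, inv_app_self]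

theorem psl_of_rigid3 (hΓ : Ok Γ) (hE1 : EE Γ 1) (hE2 : EE Γ 2) (hE3 : EE Γ 3)
    (hR : Rigid Γ 3) :
    ∃ φ : ℝ ≃o ℝ, Per φ ∧ ∀ f : ℝ ≃o ℝ, f ∈ Γ ↔ Mob (φ⁻¹ * f * φ) := by
  obtain ⟨φ, hφ1, hφ2, hφ3, hφ4⟩ := psl1 hΓ hE2 hE3 hR
  obtain ⟨Φ, hΦ, hΦ0, hΦc⟩ := chart φ hφ1 hφ2
  have hper : ∀ g ∈ conjG Γ Φ, Per g := by
    intro g hg
    have h1 := (hΦ.inv.mul (hΓ.per _ hg)).mul hΦ
    have e : Φ⁻¹ * (Φ * g * Φ⁻¹) * Φ = g := by group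
    rwa [e] at h1
  have hT1 : TR (conjG Γ Φ) 1 := conjG_TR hΦ (TR_of_EE hE1)
  have hT2 : TR (conjG Γ Φ) 2 := conjG_TR hΦ (TR_of_EE hE2)
  have hΦI : ∀ t ∈ Ioo (0:ℝ) 1, Φ t ∈ Ioo (0:ℝ) 1 := by
    intro t ht
    have h1 : Φ 0 < Φ t := Φ.strictMono ht.1
    have h2 : Φ t < Φ 1 := Φ.strictMono ht.2
    have h3 : Φ 1 = 1 := by
      have := hΦ 0
      rw [zero_add, hΦ0] at this
      linarith
    rw [hΦ0] at h1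
    rw [h3] at h2
    exact ⟨h1, h2⟩
  have hfix : ∀ g : ℝ ≃o ℝ, Per g → g 0 = 0 → ∀ t ∈ Ioo (0:ℝ) 1, g t ∈ Ioo (0:ℝ) 1 := by
    intro g hg h0 t ht
    have h1 : g 0 < g t := g.strictMono ht.1
    have h2 : g t < g 1 := g.strictMono ht.2
    have h3 : g 1 = 1 := by
      have := hg 0
      rw [zero_add, h0] at this
      linarith
    rw [h0] at h1
    rw [h3] at h2
    exact ⟨h1, h2⟩
  have hΦinv0 : Φ⁻¹ 0 = 0 := by rw [inv_eq_iff, hΦ0]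
  have h3 : ∀ g ∈ conjG Γ Φ, g 0 = 0 → ∃ α β : ℝ, 0 < α ∧ ∀ t ∈ Ioo (0 : ℝ) 1,
      Real.cot (Real.pi * g t) = α * Real.cot (Real.pi * t) + β := by
    intro g hg h0
    have hg0 : (Φ * g * Φ⁻¹) 0 = 0 := by
      rw [mul_app, mul_app, hΦinv0, h0, hΦ0]
    obtain ⟨α, β, hα, h⟩ := hφ3 _ hg hg0
    refine ⟨α, -β, hα, fun t ht => ?_⟩
    have h1 := h (Φ t) (hΦI t ht)
    rw [mul_app, mul_app, inv_app_self, hΦc t ht, hΦc (g t) (hfix g (hper g hg) h0 t ht)] at h1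
    linarith
  have h4 : ∀ α β : ℝ, 0 < α → ∃ g ∈ conjG Γ Φ, g 0 = 0 ∧ ∀ t ∈ Ioo (0 : ℝ) 1,
      Real.cot (Real.pi * g t) = α * Real.cot (Real.pi * t) + β := by
    intro α β hα
    obtain ⟨g, hg, hg0, h⟩ := hφ4 α (-β) hα
    have hmem : Φ⁻¹ * g * Φ ∈ conjG Γ Φ := by
      rw [mem_conjG]
      have e : Φ * (Φ⁻¹ * g * Φ) * Φ⁻¹ = g := by group
      rwa [e]
    have h0 : (Φ⁻¹ * g * Φ) 0 = 0 := by
      rw [mul_app, mul_app, hΦ0, hg0, hΦinv0]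
    refine ⟨Φ⁻¹ * g * Φ, hmem, h0, fun t ht => ?_⟩
    have h1 := h (Φ t) (hΦI t ht)
    have h2 := hΦc _ (hfix _ (hper _ hmem) h0 t ht)
    rw [mul_app, mul_app, app_inv_self] at h2
    rw [h2, hΦc t ht] at h1
    rw [mul_app, mul_app]
    linarith
  have hone := psl_T hper hT1 h3 h4
  have hJ := psl_J hper hT2 h3 h4 hone
  have hstd := psl_std hper h3 h4 hJ
  refine ⟨Φ, hΦ, fun f => ?_⟩
  rw [← hstd, mem_conjG]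
  have e : Φ * (Φ⁻¹ * f * Φ) * Φ⁻¹ = f := by group
  rw [e]

end Pool.Agent.Ghys
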