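import Mathlib
import Pool.Agent.Ghys.Basic

set_option autoImplicit false

namespace Pool.Agent.Ghys

open Filter Topology Set

variable {Γ : Subgroup (ℝ ≃o ℝ)}


theorem exists_ulim {ε : ℝ} (g : ℕ → ℝ ≃o ℝ) (hg : ∀ k, g k ∈ Γ) (hs : ∀ k, Sm ε (g k)) :
    ∃ σ : ℝ → ℝ, Approx Γ ε σ ∧
      ∀ x, Tendsto (fun k => g k x) (hyperfilter ℕ : Filter ℕ) (𝓝 (σ x)) := by
  have h1 : ∀ x : ℝ, ∃ y : ℝ, Tendsto (fun k => g k x) (hyperfilter ℕ : Filter ℕ) (𝓝 y) := by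
    intro x
    have hc : IsCompact (Icc (x - ε) (x + ε)) := isCompact_Icc
    have hm : ∀ k, g k x ∈ Icc (x - ε) (x + ε) := by
      intro k
      have h := hs k x
      rw [abs_lt] at h
      constructor <;> linarith [h.1, h.2]
    obtain ⟨y, -, hy⟩ := hc.ultrafilter_le_nhds ((hyperfilter ℕ).map (fun k => g k x)) (by
      rw [le_principal_iff]
      show (fun k => g k x) ⁻¹' (Icc (x - ε) (x + ε)) ∈ (hyperfilter ℕ : Filter ℕ)
      exact univ_mem' hm)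
    exact ⟨y, hy⟩
  choose σ hσ using h1
  refine ⟨σ, ?_, hσ⟩
  intro F τ hτ
  have h2 : ∀ᶠ k in (hyperfilter ℕ : Filter ℕ), ∀ x ∈ F, |g k x - σ x| < τ := by
    rw [Filter.eventually_all_finset]
    intro x _
    have := (Metric.tendsto_nhds.1 (hσ x)) τ hτ
    simpa [Real.dist_eq] using this
  obtain ⟨k, hk⟩ := h2.exists
  exact ⟨g k, hg k, hs k, hk⟩


end Pool.Agent.Ghys
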