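import Mathlib
import Pool.Agent.Ghys.Basic

set_option autoImplicit false

namespace Pool.Agent.Ghys

open Filter Topology Set

variable {Γ : Subgroup (ℝ ≃o ℝ)}


theorem lc_limit_inv {ι : Type} {U : Filter ι} [U.NeBot] (g : ι → ℝ ≃o ℝ) (σ σ' : ℝ → ℝ)
    (hg : ∀ x, Tendsto (fun a => g a x) U (𝓝 (σ x)))
    (hg' : ∀ x, Tendsto (fun a => (g a)⁻¹ x) U (𝓝 (σ' x))) (hc : Continuous σ') (x : ℝ) :
    σ' (σ x) = x := by
  apply le_antisymm
  · have h1 : ∀ y < σ x, σ' y ≤ x := by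
      intro y hy
      have h2 : ∀ᶠ a in U, y < g a x := (hg x).eventually (lt_mem_nhds hy)
      apply le_of_tendsto (hg' y)
      filter_upwards [h2] with a ha
      have h3 : (g a)⁻¹ y < (g a)⁻¹ (g a x) := (g a)⁻¹.strictMono ha
      rw [inv_app_self] at h3
      exact h3.le
    have h4 : Tendsto σ' (𝓝[<] (σ x)) (𝓝 (σ' (σ x))) := (hc.tendsto _).mono_left nhdsWithin_le_nhds
    apply le_of_tendsto h4
    filter_upwards [self_mem_nhdsWithin] with y hy
    exact h1 y hy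
  · have h1 : ∀ y > σ x, x ≤ σ' y := by
      intro y hy
      have h2 : ∀ᶠ a in U, g a x < y := (hg x).eventually (gt_mem_nhds hy)
      apply ge_of_tendsto (hg' y)
      filter_upwards [h2] with a ha
      have h3 : (g a)⁻¹ (g a x) < (g a)⁻¹ y := (g a)⁻¹.strictMono ha
      rw [inv_app_self] at h3
      exact h3.le
    have h4 : Tendsto σ' (𝓝[>] (σ x)) (𝓝 (σ' (σ x))) := (hc.tendsto _).mono_left nhdsWithin_le_nhds
    apply ge_of_tendsto h4
    filter_upwards [self_mem_nhdsWithin] with y hy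
    exact h1 y hy

theorem lc_limit_unif (hΓ : Ok Γ) {e : ℝ} {σ : ℝ → ℝ} (hσ : Approx Γ e σ) (f : ℝ ≃o ℝ)
    (hf : ∀ x, f x = σ x) (hper : Per f) : ∀ ε > 0, ∃ g ∈ Γ, ∀ x, |g x - f x| < ε := by
  intro ε hε
  obtain ⟨δ, hδ, huc⟩ := hper.uc (show 0 < ε / 3 by positivity)
  obtain ⟨n, hn⟩ := exists_nat_one_div_lt hδ
  set N : ℝ := (n:ℝ) + 1 with hN
  have hNpos : 0 < N := by positivity
  obtain ⟨g, hg, -, h2⟩ := hσ ((Finset.range (n+2)).image (fun i : ℕ => (i:ℝ)/N)) (ε/3) (by positivity)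
  refine ⟨g, hg, ?_⟩
  have key : ∀ x, 0 ≤ x → x < 1 → |g x - f x| < ε := by
    intro x hx0 hx1
    set i := ⌊N * x⌋₊ with hi
    have h3 : (i:ℝ) ≤ N * x := Nat.floor_le (by positivity)
    have h4 : N * x < i + 1 := Nat.lt_floor_add_one _
    have h5 : i < n + 1 := by
      have h6 : (i:ℝ) < (n:ℝ) + 1 := by
        calc (i:ℝ) ≤ N * x := h3
          _ < N * 1 := mul_lt_mul_of_pos_left hx1 hNpos
          _ = (n:ℝ) + 1 := by rw [mul_one]
      exact_mod_cast h6
    have h7 := h2 ((i:ℝ)/N) (Finset.mem_image.mpr ⟨i, Finset.mem_range.mpr (by omega), rfl⟩)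
    have h8 := h2 (((i+1:ℕ):ℝ)/N) (Finset.mem_image.mpr ⟨i+1, Finset.mem_range.mpr (by omega), rfl⟩)
    rw [← hf] at h7 h8
    push_cast at h8
    have h9 : (i:ℝ)/N ≤ x := by
      rw [div_le_iff₀ hNpos]
      linarith
    have h10 : x < ((i:ℝ)+1)/N := by
      rw [lt_div_iff₀ hNpos]
      linarith
    have h11 : ((i:ℝ)+1)/N - (i:ℝ)/N < δ := by
      rw [← sub_div]
      have : (i:ℝ) + 1 - i = 1 := by ring
      rw [this]
      exact hn
    have h12 := huc ((i:ℝ)/N) x (by rw [abs_lt]; constructor <;> linarith)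
    have h13 := huc (((i:ℝ)+1)/N) x (by rw [abs_lt]; constructor <;> linarith)
    have h14 := g.monotone h9
    have h15 := g.monotone h10.le
    rw [abs_lt] at h7 h8 h12 h13 ⊢
    constructor <;> linarith
  intro x
  have h3 := key (x - ⌊x⌋) (by linarith [Int.floor_le x]) (by linarith [Int.lt_floor_add_one x])
  rw [(hΓ.per g hg).sub_int, hper.sub_int] at h3
  convert h3 using 2
  ring

theorem lc_limit (hΓ : Ok Γ) {e : ℝ} (h : ∀ σ, Approx Γ e σ → Continuous σ) {σ : ℝ → ℝ}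
    (hσ : Approx Γ e σ) : ∃ g ∈ Γ, ∀ x, g x = σ x := by
  have hch : ∀ a : Finset ℝ × ℕ, ∃ g ∈ Γ, Sm e g ∧ ∀ x ∈ a.1, |g x - σ x| < 1 / ((a.2:ℝ) + 1) :=
    fun a => hσ a.1 _ (by positivity)
  choose g hgΓ hgS hg using hch
  set U : Ultrafilter (Finset ℝ × ℕ) := Ultrafilter.of atTop with hU
  have hUle : (U : Filter (Finset ℝ × ℕ)) ≤ atTop := Ultrafilter.of_le _
  have hlim : ∀ x, Tendsto (fun a => g a x) (U : Filter (Finset ℝ × ℕ)) (𝓝 (σ x)) := by
    intro x
    refine Tendsto.mono_left ?_ hUle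
    rw [Metric.tendsto_atTop]
    intro τ hτ
    obtain ⟨n, hn⟩ := exists_nat_one_div_lt hτ
    refine ⟨({x}, n), ?_⟩
    intro a ha
    obtain ⟨ha1, ha2⟩ := Prod.le_def.mp ha
    rw [Real.dist_eq]
    refine lt_of_lt_of_le (hg a x (ha1 (Finset.mem_singleton_self x))) ?_
    refine le_trans ?_ hn.le
    apply one_div_le_one_div_of_le (by positivity)
    have : (n:ℝ) ≤ (a.2:ℝ) := by exact_mod_cast ha2
    linarith
  have hinv : ∀ x, ∃ y, Tendsto (fun a => (g a)⁻¹ x) (U : Filter (Finset ℝ × ℕ)) (𝓝 y) := by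
    intro x
    have h1 : ((U.map (fun a => (g a)⁻¹ x) : Ultrafilter ℝ) : Filter ℝ) ≤ 𝓟 (Icc (x - e) (x + e)) := by
      rw [le_principal_iff, Ultrafilter.mem_coe, Ultrafilter.mem_map]
      apply Filter.univ_mem'
      intro a
      have h2 := (hgS a).inv x
      rw [abs_lt] at h2
      exact ⟨by linarith, by linarith⟩
    obtain ⟨y, -, hy⟩ := isCompact_Icc.ultrafilter_le_nhds _ h1
    exact ⟨y, hy⟩
  choose σ' hlim' using hinv
  have hσ' : Approx Γ e σ' := by
    intro F τ hτ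
    have h1 : ∀ᶠ a in (U : Filter (Finset ℝ × ℕ)), ∀ x ∈ F, |(g a)⁻¹ x - σ' x| < τ := by
      rw [Filter.eventually_all_finset]
      intro x _
      have h2 := (hlim' x).eventually (Metric.ball_mem_nhds (σ' x) hτ)
      filter_upwards [h2] with a ha
      rw [Real.dist_eq] at ha
      exact ha
    obtain ⟨a, ha⟩ := h1.exists
    exact ⟨(g a)⁻¹, Γ.inv_mem (hgΓ a), (hgS a).inv, ha⟩
  have hc := h σ hσ
  have hc' := h σ' hσ'
  have i1 : ∀ x, σ' (σ x) = x := lc_limit_inv g σ σ' hlim hlim' hc'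
  have i2 : ∀ x, σ (σ' x) = x :=
    lc_limit_inv (fun a => (g a)⁻¹) σ' σ hlim' (by simpa only [inv_inv] using hlim) hc
  let f : ℝ ≃o ℝ :=
    { toFun := σ
      invFun := σ'
      left_inv := i1
      right_inv := i2
      map_rel_iff' := by
        intro a b
        constructor
        · intro hab
          have h1 := hσ'.monotone hab
          change σ' (σ a) ≤ σ' (σ b) at h1
          rwa [i1, i1] at h1
        · intro hab
          exact hσ.monotone hab }
  have hf : ∀ x, f x = σ x := fun _ => rfl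
  have hper : Per f := by
    intro x
    rw [hf, hf]
    exact hσ.add_one hΓ x
  exact ⟨f, hΓ.clo f hper (lc_limit_unif hΓ hσ f hf hper), hf⟩


end Pool.Agent.Ghys
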