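import Mathlib
import Pool.Agent.Ghys.Basic
import Pool.Agent.Ghys.L_TR_of_EE
import Pool.Agent.Ghys.L_sort_lemma
import Pool.Agent.Ghys.L_EE_inj

set_option autoImplicit false

namespace Pool.Agent.Ghys

open Filter Topology Set

variable {Γ : Subgroup (ℝ ≃o ℝ)}


/-- the points fixed by the small elements of the stabiliser of `q` -/
def PhiS (Γ : Subgroup (ℝ ≃o ℝ)) {n : ℕ} (q : Fin n → ℝ) : Set ℝ :=
  {x | ∃ δ > 0, ∀ g ∈ Γ, Sm δ g → (∀ i, g (q i) = q i) → g x = x}

theorem PhiS_int (hΓ : Ok Γ) {n : ℕ} {q : Fin n → ℝ} {x : ℝ} (hx : x ∈ PhiS Γ q) (k : ℤ) :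
    x + k ∈ PhiS Γ q := by
  obtain ⟨δ, hδ, H⟩ := hx
  refine ⟨δ, hδ, fun g hg hs hf => ?_⟩
  rw [(hΓ.per g hg).add_int, H g hg hs hf]

theorem PhiS_self {n : ℕ} (q : Fin n → ℝ) (i : Fin n) : q i ∈ PhiS Γ q :=
  ⟨1, one_pos, fun _ _ _ h => h i⟩

theorem PhiS_trans {n m : ℕ} {q : Fin n → ℝ} {q' : Fin m → ℝ} (h : ∀ i, q' i ∈ PhiS Γ q) {x : ℝ}
    (hx : x ∈ PhiS Γ q') : x ∈ PhiS Γ q := by
  classical
  obtain ⟨δ', hδ', H'⟩ := hx
  choose δ hδ H using h
  have hne : (insert δ' (Finset.univ.image δ)).Nonempty := Finset.insert_nonempty _ _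
  refine ⟨(insert δ' (Finset.univ.image δ)).min' hne, ?_, fun g hg hs hf => ?_⟩
  · rw [gt_iff_lt, Finset.lt_min'_iff]
    intro y hy
    rw [Finset.mem_insert, Finset.mem_image] at hy
    rcases hy with rfl | ⟨i, _, rfl⟩
    · exact hδ'
    · exact hδ i
  · apply H' g hg (hs.mono (Finset.min'_le _ _ (Finset.mem_insert_self _ _)))
    intro i
    apply H i g hg (hs.mono (Finset.min'_le _ _ ?_)) hf
    exact Finset.mem_insert_of_mem (Finset.mem_image_of_mem _ (Finset.mem_univ _))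

theorem PhiS_point (hΓ : Ok Γ) {m : ℕ} (hE : EE Γ (m + 2)) (hM : ¬ MM Γ (m + 2))
    (q : Fin (m + 2) → ℝ) (hq : Cn (m + 2) q) :
    ∃ a δ : ℝ, 0 < δ ∧ q (Fin.last _) < a ∧ a < q 0 + 1 ∧
      ∀ h ∈ Γ, Sm (δ / 4) h → h a ∈ PhiS Γ (fun i => h (q i)) := by
  unfold MM at hM
  push Not at hM
  obtain ⟨c, y, hcy, δ₀, hδ₀, H⟩ := hM
  have hc : Cn (m + 2) c := by
    refine ⟨fun i j hij => ?_, fun i j => ?_⟩
    · have := hcy.1 (Fin.castSucc_lt_castSucc_iff.2 hij)
      rwa [Fin.snoc_castSucc, Fin.snoc_castSucc] at this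
    · have := hcy.2 i.castSucc j.castSucc
      rwa [Fin.snoc_castSucc, Fin.snoc_castSucc] at this
  have hcl : c (Fin.last _) < y := by
    have := hcy.1 (Fin.castSucc_lt_last (Fin.last (m + 1)))
    rwa [Fin.snoc_castSucc, Fin.snoc_last] at this
  have hc0 : y < c 0 + 1 := by
    have := hcy.2 (Fin.last (m + 2)) (Fin.castSucc 0)
    rwa [Fin.snoc_castSucc, Fin.snoc_last] at this
  obtain ⟨g, hg, hgc⟩ := TR_of_EE hE c q hc hq
  obtain ⟨δ, hδ, hconj⟩ := Sm.conj (hΓ.per g⁻¹ (Γ.inv_mem hg)) hδ₀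
  have hfix : ∀ f ∈ Γ, Sm δ f → (∀ i, f (q i) = q i) → f (g y) = g y := by
    intro f hf hs hfq
    have h1 := H (g⁻¹ * f * g⁻¹⁻¹) (Γ.mul_mem (Γ.mul_mem (Γ.inv_mem hg) hf)
      (Γ.inv_mem (Γ.inv_mem hg))) (hconj f hs) (by
        intro i
        rw [inv_inv, mul_app, mul_app, hgc, hfq, inv_eq_iff, hgc])
    rw [inv_inv, mul_app, mul_app, inv_eq_iff] at h1
    exact h1
  refine ⟨g y, δ, hδ, ?_, ?_, ?_⟩
  · rw [← hgc]
    exact g.strictMono hcl
  · rw [← hgc, ← hΓ.per g hg]
    exact g.strictMono hc0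
  · intro h hh hs
    refine ⟨δ / 2, by linarith, fun f hf hfs hfq => ?_⟩
    have h1 := hfix (h⁻¹ * f * h⁻¹⁻¹) (Γ.mul_mem (Γ.mul_mem (Γ.inv_mem hh) hf)
      (Γ.inv_mem (Γ.inv_mem hh))) ((hfs.conj_small hs.inv).mono (by linarith)) (by
        intro i
        rw [inv_inv, mul_app, mul_app]
        have h2 : f (h (q i)) = h (q i) := hfq i
        rw [h2, inv_app_self])
    rw [inv_inv, mul_app, mul_app, inv_eq_iff] at h1
    exact h1

/-- the combinatorial part: the tuple -/
theorem phi_tuple {m : ℕ} (p : Fin (m + 2) → ℝ) (hp : Cn (m + 2) p) {α β : ℝ} (hαβ : α < β)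
    (hgap : ∀ i, ∀ k : ℤ, p i + k ∉ Ioo α β) :
    β < α + 1 ∧ ∃ x : Fin (m + 2) → ℝ, x 0 = α ∧ x 1 = β ∧ Function.Injective x ∧
      (∀ i, x i = α ∨ (β ≤ x i ∧ x i < α + 1)) ∧
      (∀ i, x i = α ∨ x i = β ∨ ∃ j, ∃ k : ℤ, x i = p j + k) := by
  classical
  -- representatives in `(α, α + 1]`
  set k : Fin (m + 2) → ℤ := fun i => ⌊α + 1 - p i⌋ with hk
  have hk1 : ∀ i, α < p i + k i := by
    intro i
    have := Int.lt_floor_add_one (α + 1 - p i)
    show α < p i + (⌊α + 1 - p i⌋ : ℝ)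
    linarith
  have hk2 : ∀ i, p i + k i ≤ α + 1 := by
    intro i
    have := Int.floor_le (α + 1 - p i)
    show p i + (⌊α + 1 - p i⌋ : ℝ) ≤ α + 1
    linarith
  have hk3 : ∀ i, β ≤ p i + k i := by
    intro i
    by_contra hcon
    push Not at hcon
    exact hgap i (k i) ⟨hk1 i, hcon⟩
  have hinj : ∀ i j, p i + k i = p j + k j → i = j := by
    intro i j hij
    have hd : |p i - p j| < 1 := by
      rw [abs_lt]
      have h1 := hp.2 i j
      have h2 := hp.2 j i
      constructor <;> linarith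
    have e : p i - p j = ((k j - k i : ℤ) : ℝ) := by push_cast; linarith
    rw [e, ← Int.cast_abs] at hd
    have hz : |k j - k i| < 1 := by exact_mod_cast hd
    have hz' : k j - k i = 0 := Int.abs_lt_one_iff.1 hz
    rw [hz'] at e
    have : p i = p j := by push_cast at e; linarith
    exact hp.1.injective this
  have hle : β ≤ α + 1 := (hk3 0).trans (hk2 0)
  have hβ : β < α + 1 := by
    rcases lt_or_eq_of_le hle with h | h
    · exact h
    · exfalso
      have h0 : p 0 + k 0 = p 1 + k 1 := by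
        have a1 := hk2 0
        have a2 := hk3 0
        have a3 := hk2 1
        have a4 := hk3 1
        linarith
      have := hinj 0 1 h0
      exact absurd this (by simp)
  refine ⟨hβ, ?_⟩
  set G : Finset (Fin (m + 2)) :=
    Finset.univ.filter (fun i => β < p i + k i ∧ p i + k i < α + 1) with hG
  have hGc : Gᶜ.card ≤ 2 := by
    have hsub : (Gᶜ.image (fun i => p i + k i)) ⊆ ({β, α + 1} : Finset ℝ) := by
      intro z hz
      rw [Finset.mem_image] at hz
      obtain ⟨i, hi, rfl⟩ := hz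
      rw [Finset.mem_compl, hG, Finset.mem_filter] at hi
      push Not at hi
      have hi' := hi (Finset.mem_univ _)
      rw [Finset.mem_insert, Finset.mem_singleton]
      rcases lt_or_eq_of_le (hk3 i) with h | h
      · right
        exact le_antisymm (hk2 i) (hi' h)
      · left
        exact h.symm
    have h1 : (Gᶜ.image (fun i => p i + k i)).card = Gᶜ.card :=
      Finset.card_image_of_injective _ (fun i j hij => hinj i j hij)
    rw [← h1]
    exact (Finset.card_le_card hsub).trans Finset.card_le_two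
  have hGcard : m ≤ G.card := by
    have := Finset.card_add_card_compl G
    rw [Fintype.card_fin] at this
    omega
  let ι := G.orderEmbOfCardLe hGcard
  have hι : ∀ i, ι i ∈ G := fun i => Finset.orderEmbOfCardLe_mem _ _ _
  set y : Fin m → ℝ := fun i => p (ι i) + k (ι i) with hy
  have hy1 : ∀ i, β < y i ∧ y i < α + 1 := by
    intro i
    have := hι i
    rw [hG, Finset.mem_filter] at this
    exact this.2
  have hyinj : Function.Injective y := fun i j hij => ι.injective (hinj _ _ hij)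
  refine ⟨Fin.cons α (Fin.cons β y), rfl, rfl, ?_, ?_, ?_⟩
  · rw [Fin.cons_injective_iff, Fin.cons_injective_iff]
    refine ⟨?_, ?_, hyinj⟩
    · rintro ⟨i, hi⟩
      refine Fin.cases ?_ (fun j => ?_) i hi
      · intro h
        rw [Fin.cons_zero] at h
        linarith
      · intro h
        rw [Fin.cons_succ] at h
        have := (hy1 j).1
        linarith
    · rintro ⟨i, hi⟩
      have := (hy1 i).1
      linarith
  · intro i
    refine Fin.cases ?_ (fun j => ?_) i
    · left; rfl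
    · refine Fin.cases ?_ (fun l => ?_) j
      · right
        exact ⟨le_rfl, hβ⟩
      · right
        exact ⟨(hy1 l).1.le, (hy1 l).2⟩
  · intro i
    refine Fin.cases ?_ (fun j => ?_) i
    · left; rfl
    · refine Fin.cases ?_ (fun l => ?_) j
      · right; left; rfl
      · right; right
        exact ⟨ι l, k (ι l), rfl⟩

theorem phi_dense (hΓ : Ok Γ) {m : ℕ} (hE : EE Γ (m + 2)) (hM : ¬ MM Γ (m + 2))
    (p : Fin (m + 2) → ℝ) (hp : Cn (m + 2) p) {b1 b2 : ℝ} (hb : b1 < b2) :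
    ∃ x ∈ Ioo b1 b2, ∃ δ > 0, ∀ g ∈ Γ, Sm δ g → (∀ i, g (p i) = p i) → g x = x := by
  by_contra hcon
  have hno : ∀ x ∈ Ioo b1 b2, x ∉ PhiS Γ p := fun x hx hxp => hcon ⟨x, hx, hxp⟩
  -- the gap
  set A : Set ℝ := {x | x ∈ PhiS Γ p ∧ x ≤ b1} with hA
  set B : Set ℝ := {x | x ∈ PhiS Γ p ∧ b2 ≤ x} with hB
  have hAne : A.Nonempty := by
    refine ⟨p 0 + (⌊b1 - p 0⌋ : ℤ), PhiS_int hΓ (PhiS_self p 0) _, ?_⟩
    have := Int.floor_le (b1 - p 0)
    linarith
  have hBne : B.Nonempty := by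
    refine ⟨p 0 + (⌈b2 - p 0⌉ : ℤ), PhiS_int hΓ (PhiS_self p 0) _, ?_⟩
    have := Int.le_ceil (b2 - p 0)
    linarith
  have hAb : BddAbove A := ⟨b1, fun x hx => hx.2⟩
  have hBb : BddBelow B := ⟨b2, fun x hx => hx.2⟩
  set α := sSup A with hα
  set β := sInf B with hβ
  have hα1 : α ≤ b1 := csSup_le hAne fun x hx => hx.2
  have hβ1 : b2 ≤ β := le_csInf hBne fun x hx => hx.2
  have hαβ : α < β := by linarith
  have hgap : ∀ x ∈ PhiS Γ p, x ∉ Ioo α β := by
    rintro x hx ⟨h1, h2⟩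
    by_cases h3 : x ≤ b1
    · have := le_csSup hAb (show x ∈ A from ⟨hx, h3⟩)
      linarith
    · by_cases h4 : b2 ≤ x
      · have := csInf_le hBb (show x ∈ B from ⟨hx, h4⟩)
        linarith
      · push Not at h3 h4
        exact hno x ⟨h3, h4⟩ hx
  obtain ⟨hβα, x, hx0, hx1, hxinj, hxr, hxp⟩ := phi_tuple p hp hαβ
    (fun i k h => hgap _ (PhiS_int hΓ (PhiS_self p i) k) h)
  have hxlo : ∀ i, α ≤ x i := by
    intro i
    rcases hxr i with h | h
    · exact h.ge
    · linarith [h.1]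
  have hxhi : ∀ i, x i < α + 1 := by
    intro i
    rcases hxr i with h | h
    · linarith
    · exact h.2
  have hIM : IM x := by
    intro i j hij k hk
    have h1 := hxlo i
    have h2 := hxhi i
    have h3 := hxlo j
    have h4 := hxhi j
    have h5 : (k : ℝ) < 1 := by linarith
    have h6 : (-1 : ℝ) < k := by linarith
    have h7 : k < 1 := by exact_mod_cast h5
    have h8 : -1 < k := by exact_mod_cast h6
    have h9 : k = 0 := by omega
    rw [h9] at hk
    push_cast at hk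
    rw [add_zero] at hk
    exact hij (hxinj hk)
  have hw : ∀ i, ∀ k : ℤ, (α + β) / 2 ≠ x i + k := by
    intro i k hk
    have h1 := hxlo i
    have h2 := hxhi i
    have h5 : (k : ℝ) < 1 := by linarith
    have h6 : (-1 : ℝ) < k := by linarith
    have h7 : k < 1 := by exact_mod_cast h5
    have h8 : -1 < k := by exact_mod_cast h6
    have h9 : k = 0 := by omega
    rw [h9] at hk
    push_cast at hk
    rcases hxr i with h | h <;> linarith [h]
  obtain ⟨π, k, hCn⟩ := sort_lemma x hIM ((α + β) / 2) hw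
  set q : Fin (m + 2) → ℝ := fun j => x (π j) + k j with hq
  have hqC : Cn (m + 2) q := by
    refine ⟨fun i j hij => ?_, fun i j => ?_⟩
    · have := hCn.1 (Fin.castSucc_lt_castSucc_iff.2 hij)
      rwa [Fin.snoc_castSucc, Fin.snoc_castSucc] at this
    · have := hCn.2 i.castSucc j.castSucc
      rwa [Fin.snoc_castSucc, Fin.snoc_castSucc] at this
  have hqw : ∀ j, q j < (α + β) / 2 := by
    intro j
    have := hCn.1 (Fin.castSucc_lt_last j)
    rwa [Fin.snoc_castSucc, Fin.snoc_last] at this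
  have hqw' : ∀ j, (α + β) / 2 < q j + 1 := by
    intro j
    have := hCn.2 (Fin.last (m + 2)) (Fin.castSucc j)
    rwa [Fin.snoc_castSucc, Fin.snoc_last] at this
  have hlast : α ≤ q (Fin.last _) := by
    have h1 := hqw (π.symm 0)
    have h2 := hqw' (π.symm 0)
    have h3 : q (π.symm 0) = α + k (π.symm 0) := by
      rw [hq]
      simp only [Equiv.apply_symm_apply, hx0]
    have h4 : (0 : ℝ) ≤ k (π.symm 0) := by
      rw [h3] at h2
      have h5 : (-1 : ℝ) < k (π.symm 0) := by linarith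
      have h6 : -1 < k (π.symm 0) := by exact_mod_cast h5
      have h7 : 0 ≤ k (π.symm 0) := by omega
      exact_mod_cast h7
    have h5 : q (π.symm 0) ≤ q (Fin.last _) := hqC.1.monotone (Fin.le_last _)
    linarith
  have hfirst : q 0 + 1 ≤ β := by
    have h1 := hqw (π.symm 1)
    have h2 := hqw' (π.symm 1)
    have h3 : q (π.symm 1) = β + k (π.symm 1) := by
      rw [hq]
      simp only [Equiv.apply_symm_apply, hx1]
    have h4 : (k (π.symm 1) : ℝ) ≤ -1 := by
      rw [h3] at h1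
      have h5 : (k (π.symm 1) : ℝ) < 0 := by linarith
      have h6 : k (π.symm 1) < 0 := by exact_mod_cast h5
      have h7 : k (π.symm 1) ≤ -1 := by omega
      exact_mod_cast h7
    have h5 : q 0 ≤ q (π.symm 1) := hqC.1.monotone (Fin.zero_le _)
    linarith
  obtain ⟨a, δ, hδ, ha1, ha2, hpt⟩ := PhiS_point hΓ hE hM q hqC
  set s : ℝ := min (δ / 4) (min (a - α) (β - a)) with hs
  have hs0 : 0 < s := lt_min (by linarith) (lt_min (by linarith) (by linarith))
  obtain ⟨η, hη, hEI⟩ := EE_inj hΓ hE x hIM hs0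
  have hclose : ∀ i, ∃ y ∈ PhiS Γ p, |y - x i| < η := by
    intro i
    rcases hxp i with h | h | ⟨j, l, h⟩
    · rw [h]
      obtain ⟨y, hy, hy1⟩ := exists_lt_of_lt_csSup hAne (show α - η < α by linarith)
      refine ⟨y, hy.1, ?_⟩
      have hy2 : y ≤ α := le_csSup hAb hy
      rw [abs_lt]
      constructor <;> linarith
    · rw [h]
      obtain ⟨y, hy, hy1⟩ := exists_lt_of_csInf_lt hBne (show β < β + η by linarith)
      refine ⟨y, hy.1, ?_⟩
      have hy2 : β ≤ y := csInf_le hBb hy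
      rw [abs_lt]
      constructor <;> linarith
    · rw [h]
      exact ⟨p j + l, PhiS_int hΓ (PhiS_self p j) l, by simpa using hη⟩
  choose x' hx'1 hx'2 using hclose
  obtain ⟨h, hh, hhs, hhx⟩ := hEI x' hx'2
  have hmem : h a ∈ PhiS Γ p := by
    refine PhiS_trans ?_ (hpt h hh (hhs.mono (min_le_left _ _)))
    intro j
    show h (x (π j) + k j) ∈ PhiS Γ p
    rw [(hΓ.per h hh).add_int, hhx]
    exact PhiS_int hΓ (hx'1 _) _
  have hha := hhs a
  have hs1 : s ≤ a - α := (min_le_right _ _).trans (min_le_left _ _)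
  have hs2 : s ≤ β - a := (min_le_right _ _).trans (min_le_right _ _)
  rw [abs_lt] at hha
  exact hgap _ hmem ⟨by linarith, by linarith⟩


end Pool.Agent.Ghys
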