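import Mathlib
import Pool.Agent.Ghys.Basic
import Pool.Agent.Ghys.L_phi_dense
import Pool.Agent.Ghys.L_lc_limit
import Pool.Agent.Ghys.L_exists_ulim

set_option autoImplicit false

namespace Pool.Agent.Ghys

open Filter Topology Set

variable {Γ : Subgroup (ℝ ≃o ℝ)}


theorem rnm_pow_fix (h : ℝ ≃o ℝ) {z : ℝ} (hz : h z = z) (k : ℕ) : (h ^ k) z = z := by
  induction k with
  | zero => rfl
  | succ k ih => rw [pow_succ, mul_app, hz, ih]

theorem rnm_sm_pow (h : ℝ ≃o ℝ) {N : ℕ} (hN : 0 < N) {e : ℝ} (hNe : 1 / (N : ℝ) < e / 4)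
    (hQ : ∀ n : ℤ, ∃ z, (n : ℝ) / N < z ∧ z < ((n : ℝ) + 1) / N ∧ h z = z) (k : ℕ) :
    Sm e (h ^ k) := by
  intro x
  have hN' : (0 : ℝ) < N := by exact_mod_cast hN
  set n := ⌊x * N⌋ with hn
  have h1 : (n : ℝ) ≤ x * N := Int.floor_le _
  have h2 : x * N < n + 1 := Int.lt_floor_add_one _
  obtain ⟨u, hu1, hu2, hu3⟩ := hQ (n - 1)
  obtain ⟨v, hv1, hv2, hv3⟩ := hQ (n + 1)
  push_cast at hu1 hu2 hv1 hv2
  rw [div_lt_iff₀ hN'] at hu1 hv1
  rw [lt_div_iff₀ hN'] at hu2 hv2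
  have hux : u < x := by
    by_contra hc
    push Not at hc
    nlinarith
  have hxv : x < v := by
    by_contra hc
    push Not at hc
    nlinarith
  have hvu : v - u < e := by
    have h3 : (v - u) * N < 3 := by linarith
    have h4 : v - u < 3 / N := by rwa [lt_div_iff₀ hN']
    have h5 : 3 / (N : ℝ) = 3 * (1 / N) := by ring
    have h6 : 0 < 1 / (N : ℝ) := by positivity
    rw [h5] at h4
    linarith
  have h7 : u ≤ (h ^ k) x := by
    have := (h ^ k).monotone hux.le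
    rwa [rnm_pow_fix h hu3] at this
  have h8 : (h ^ k) x ≤ v := by
    have := (h ^ k).monotone hxv.le
    rwa [rnm_pow_fix h hv3] at this
  rw [abs_lt]
  constructor <;> linarith

theorem rnm_core {h : ℝ ≃o ℝ} (hh : h ∈ Γ) (hΓ : Ok Γ) {e : ℝ}
    (hL : ∀ σ, Approx Γ e σ → Continuous σ) (hs : ∀ k : ℕ, Sm e (h ^ k)) (x : ℝ) :
    ¬ x < h x := by
  intro hx
  obtain ⟨σ, hσ, hlim⟩ := exists_ulim (Γ := Γ) (fun k => h ^ k) (fun k => Γ.pow_mem hh k) hs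
  obtain ⟨g, hg, hgσ⟩ := lc_limit hΓ hL hσ
  have hmono : Monotone (fun k : ℕ => (h ^ k) x) := by
    apply monotone_nat_of_le_succ
    intro k
    show (h ^ k) x ≤ (h ^ (k + 1)) x
    rw [pow_succ, mul_app]
    exact (h ^ k).monotone hx.le
  have hbdd : BddAbove (range (fun k : ℕ => (h ^ k) x)) := by
    refine ⟨x + e, ?_⟩
    rintro _ ⟨k, rfl⟩
    have := hs k x
    rw [abs_lt] at this
    show (h ^ k) x ≤ x + e
    linarith
  have hlimA := tendsto_atTop_ciSup hmono hbdd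
  have hlimB := (tendsto_add_atTop_iff_nat 1).2 hlimA
  have e1 := tendsto_nhds_unique (hlim x) (hlimA.mono_left Nat.hyperfilter_le_atTop)
  have e2 : Tendsto (fun k : ℕ => (h ^ k) (h x)) atTop (𝓝 (⨆ k : ℕ, (h ^ k) x)) := by
    refine hlimB.congr ?_
    intro k
    show (h ^ (k + 1)) x = (h ^ k) (h x)
    rw [pow_succ, mul_app]
  have e3 := tendsto_nhds_unique (hlim (h x)) (e2.mono_left Nat.hyperfilter_le_atTop)
  have e4 : g x = g (h x) := by rw [hgσ, hgσ, e1, e3]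
  have e5 := g.injective e4
  linarith

theorem rigid_of_not_MM (hΓ : Ok Γ) {m : ℕ} (hE : EE Γ (m + 2)) (hM : ¬ MM Γ (m + 2))
    (hL : LC Γ) : Rigid Γ (m + 2) := by
  obtain ⟨e, he, hL⟩ := hL
  intro p hp
  obtain ⟨N, hN1⟩ := exists_nat_gt (4 / e)
  have hNr : (0 : ℝ) < N := lt_trans (by positivity) hN1
  have hN : 0 < N := by exact_mod_cast hNr
  have hNe : 1 / (N : ℝ) < e / 4 := by
    rw [div_lt_div_iff₀ hNr (by norm_num)]
    rw [div_lt_iff₀ he] at hN1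
    linarith
  have hex : ∀ i : Fin N, ∃ x ∈ Ioo ((i : ℝ) / N) (((i : ℝ) + 1) / N), ∃ δ > 0, ∀ g ∈ Γ,
      Sm δ g → (∀ i, g (p i) = p i) → g x = x := by
    intro i
    apply phi_dense hΓ hE hM p hp
    apply div_lt_div_of_pos_right _ hNr
    linarith
  choose x hx δ hδ hfix using hex
  haveI : Nonempty (Fin N) := ⟨⟨0, hN⟩⟩
  obtain ⟨i0, hi0⟩ := Finite.exists_min δ
  refine ⟨δ i0, hδ i0, ?_⟩
  intro g hg hsm hgp
  have hgx : ∀ i, g (x i) = x i := fun i => hfix i g hg (hsm.mono (hi0 i)) hgp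
  have hQ : ∀ n : ℤ, ∃ z, (n : ℝ) / N < z ∧ z < ((n : ℝ) + 1) / N ∧ g z = z := by
    intro n
    have hNz : (N : ℤ) ≠ 0 := by exact_mod_cast hN.ne'
    have hm0 : 0 ≤ n % (N : ℤ) := Int.emod_nonneg n hNz
    have hm1 : n % (N : ℤ) < N := Int.emod_lt_of_pos n (by exact_mod_cast hN)
    have hmn : ((n % (N : ℤ)).toNat : ℤ) = n % (N : ℤ) := Int.toNat_of_nonneg hm0
    have hlt : (n % (N : ℤ)).toNat < N := by
      have : ((n % (N : ℤ)).toNat : ℤ) < N := by rw [hmn]; exact hm1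
      exact_mod_cast this
    set i : Fin N := ⟨(n % (N : ℤ)).toNat, hlt⟩ with hi
    have hdiv : (n : ℝ) = (n / (N : ℤ) : ℤ) * N + (i : ℕ) := by
      have h1 : n = (n / (N : ℤ)) * N + n % (N : ℤ) := by
        have := Int.emod_add_mul_ediv n N
        linarith
      have h2 : ((i : ℕ) : ℤ) = n % (N : ℤ) := hmn
      rw [← h2] at h1
      have h3 : ((n : ℤ) : ℝ) = (((n / (N : ℤ)) * N + ((i : ℕ) : ℤ) : ℤ) : ℝ) := congrArg _ h1
      rw [h3]
      push_cast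
      ring
    obtain ⟨hx1, hx2⟩ := hx i
    refine ⟨x i + (n / (N : ℤ) : ℤ), ?_, ?_, ?_⟩
    · rw [div_lt_iff₀ hNr, hdiv]
      rw [div_lt_iff₀ hNr] at hx1
      nlinarith
    · rw [lt_div_iff₀ hNr, hdiv]
      rw [lt_div_iff₀ hNr] at hx2
      nlinarith
    · rw [(hΓ.per g hg).add_int, hgx]
  have hQ' : ∀ n : ℤ, ∃ z, (n : ℝ) / N < z ∧ z < ((n : ℝ) + 1) / N ∧ g⁻¹ z = z := by
    intro n
    obtain ⟨z, h1, h2, h3⟩ := hQ n
    exact ⟨z, h1, h2, by rw [inv_eq_iff, h3]⟩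
  have c1 := rnm_core hg hΓ hL (rnm_sm_pow g hN hNe hQ)
  have c2 := rnm_core (Γ.inv_mem hg) hΓ hL (rnm_sm_pow g⁻¹ hN hNe hQ')
  ext t
  rw [one_app]
  apply le_antisymm
  · exact not_lt.1 (c1 t)
  · by_contra hc
    push Not at hc
    apply c2 (g t)
    rw [inv_app_self]
    exact hc


end Pool.Agent.Ghys
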