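import Mathlib
import Pool.Agent.Ghys.Basic

set_option autoImplicit false

namespace Pool.Agent.Ghys

open Filter Topology Set

variable {Γ : Subgroup (ℝ ≃o ℝ)}


theorem snoc_iff {n : ℕ} {p : Fin (n + 1) → ℝ} {t : ℝ} :
    Cn (n + 2) (Fin.snoc p t : Fin (n + 2) → ℝ) ↔
      Cn (n + 1) p ∧ p (Fin.last n) < t ∧ t < p 0 + 1 := by
  constructor
  · rintro ⟨h1, h2⟩
    refine ⟨⟨fun i j hij => ?_, fun i j => ?_⟩, ?_, ?_⟩
    · have := h1 (Fin.castSucc_lt_castSucc_iff.2 hij)
      simpa only [Fin.snoc_castSucc] using this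
    · have := h2 i.castSucc j.castSucc
      simpa only [Fin.snoc_castSucc] using this
    · have := h1 (Fin.castSucc_lt_last (Fin.last n))
      simpa only [Fin.snoc_castSucc, Fin.snoc_last] using this
    · have := h2 (Fin.last (n + 1)) (Fin.castSucc 0)
      simpa only [Fin.snoc_last, Fin.snoc_castSucc] using this
  · rintro ⟨⟨h1, h2⟩, h3, h4⟩
    constructor
    · intro i j hij
      induction j using Fin.lastCases with
      | last =>
        induction i using Fin.lastCases with
        | last => exact absurd hij (lt_irrefl _)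
        | cast i =>
          rw [Fin.snoc_last, Fin.snoc_castSucc]
          exact lt_of_le_of_lt (h1.monotone (Fin.le_last i)) h3
      | cast j =>
        induction i using Fin.lastCases with
        | last => exact absurd hij (not_lt.2 (Fin.le_last _))
        | cast i =>
          rw [Fin.snoc_castSucc, Fin.snoc_castSucc]
          exact h1 (Fin.castSucc_lt_castSucc_iff.1 hij)
    · intro i j
      induction j using Fin.lastCases with
      | last =>
        induction i using Fin.lastCases with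
        | last => rw [Fin.snoc_last]; linarith
        | cast i =>
          rw [Fin.snoc_last, Fin.snoc_castSucc]
          have := h1.monotone (Fin.le_last i)
          linarith
      | cast j =>
        induction i using Fin.lastCases with
        | last =>
          rw [Fin.snoc_last, Fin.snoc_castSucc]
          have := h1.monotone (Fin.zero_le j)
          linarith
        | cast i =>
          rw [Fin.snoc_castSucc, Fin.snoc_castSucc]
          exact h2 i j

theorem orbit_dense (hΓ : Ok Γ) {n : ℕ} (hM : MM Γ (n + 1)) (p : Fin (n + 1) → ℝ) (y z : ℝ)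
    (hy : Cn (n + 2) (Fin.snoc p y : Fin (n + 2) → ℝ))
    (hz : Cn (n + 2) (Fin.snoc p z : Fin (n + 2) → ℝ)) {τ : ℝ} (hτ : 0 < τ) :
    ∃ g ∈ Γ, (∀ i, g (p i) = p i) ∧ |g y - z| < τ := by
  obtain ⟨hp, hy1, hy2⟩ := snoc_iff.1 hy
  obtain ⟨-, hz1, hz2⟩ := snoc_iff.1 hz
  let Y : ℝ → Prop := fun t => (p (Fin.last n) < t ∧ t < p 0 + 1) ∧
    ∀ τ > 0, ∃ g ∈ Γ, (∀ i, g (p i) = p i) ∧ |g y - t| < τ
  have hYy : Y y := by
    refine ⟨⟨hy1, hy2⟩, fun τ hτ => ⟨1, Γ.one_mem, fun i => rfl, ?_⟩⟩
    rw [one_app, sub_self, abs_zero]; exact hτ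
  -- invariance
  have hinv : ∀ t, Y t → ∀ g ∈ Γ, (∀ i, g (p i) = p i) → Y (g t) := by
    rintro t ⟨⟨ht1, ht2⟩, ht3⟩ g hg hgp
    refine ⟨⟨?_, ?_⟩, fun τ hτ => ?_⟩
    · have := g.strictMono ht1
      rwa [hgp] at this
    · have := g.strictMono ht2
      rwa [hΓ.per g hg, hgp] at this
    · obtain ⟨ω, hω, hu⟩ := (hΓ.per g hg).uc hτ
      obtain ⟨h, hh, hhp, hht⟩ := ht3 ω hω
      refine ⟨g * h, Γ.mul_mem hg hh, fun i => ?_, ?_⟩
      · rw [mul_app, hhp, hgp]
      · rw [mul_app]; exact hu _ _ hht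
  -- closedness
  have hcl : ∀ t, (p (Fin.last n) < t ∧ t < p 0 + 1) → (∀ τ > 0, ∃ t', Y t' ∧ |t' - t| < τ) →
      Y t := by
    intro t ht h
    refine ⟨ht, fun τ hτ => ?_⟩
    obtain ⟨t', ht', htt⟩ := h (τ / 2) (by linarith)
    obtain ⟨g, hg, hgp, hgt⟩ := ht'.2 (τ / 2) (by linarith)
    refine ⟨g, hg, hgp, ?_⟩
    calc |g y - t| = |(g y - t') + (t' - t)| := by ring_nf
      _ ≤ |g y - t'| + |t' - t| := abs_add_le _ _
      _ < τ := by linarith
  have hmain : Y z := by
    by_contra hzY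
    rcases lt_trichotomy y z with hyz | hyz | hyz
    · set S : Set ℝ := {t | Y t ∧ t ≤ z} with hS
      have hSy : y ∈ S := ⟨hYy, hyz.le⟩
      have hSb : BddAbove S := ⟨z, fun t ht => ht.2⟩
      have hSn : S.Nonempty := ⟨y, hSy⟩
      set α := sSup S with hα
      have h1 : y ≤ α := le_csSup hSb hSy
      have h2 : α ≤ z := csSup_le hSn fun t ht => ht.2
      have h3 : p (Fin.last n) < α ∧ α < p 0 + 1 := ⟨by linarith, by linarith⟩
      have h4 : Y α := by
        refine hcl α h3 fun τ hτ => ?_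
        obtain ⟨t, ht, htα⟩ := exists_lt_of_lt_csSup hSn (show α - τ < sSup S by linarith)
        refine ⟨t, ht.1, ?_⟩
        have : t ≤ α := le_csSup hSb ht
        rw [abs_lt]; constructor <;> linarith
      have h5 : α < z := by
        rcases lt_or_eq_of_le h2 with h | h
        · exact h
        · exact absurd (h ▸ h4) hzY
      obtain ⟨g, hg, hgs, hgp, hgα⟩ := hM p α (snoc_iff.2 ⟨hp, h3⟩) (z - α) (by linarith)
      obtain ⟨g', hg', hgs', hgp', hgα'⟩ : ∃ g' ∈ Γ, Sm (z - α) g' ∧ (∀ i, g' (p i) = p i) ∧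
          α < g' α := by
        rcases lt_or_gt_of_ne hgα with h | h
        · refine ⟨g⁻¹, Γ.inv_mem hg, hgs.inv, fun i => ?_, ?_⟩
          · rw [inv_eq_iff, hgp]
          · have := g⁻¹.strictMono h
            rwa [inv_app_self] at this
        · exact ⟨g, hg, hgs, hgp, h⟩
      have h6 : Y (g' α) := hinv α h4 g' hg' hgp'
      have h7 := hgs' α
      rw [abs_lt] at h7
      have h8 : g' α ∈ S := ⟨h6, by linarith⟩
      have h9 : g' α ≤ α := le_csSup hSb h8
      linarith
    · exact hzY (hyz ▸ hYy)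
    · set S : Set ℝ := {t | Y t ∧ z ≤ t} with hS
      have hSy : y ∈ S := ⟨hYy, hyz.le⟩
      have hSb : BddBelow S := ⟨z, fun t ht => ht.2⟩
      have hSn : S.Nonempty := ⟨y, hSy⟩
      set α := sInf S with hα
      have h1 : α ≤ y := csInf_le hSb hSy
      have h2 : z ≤ α := le_csInf hSn fun t ht => ht.2
      have h3 : p (Fin.last n) < α ∧ α < p 0 + 1 := ⟨by linarith, by linarith⟩
      have h4 : Y α := by
        refine hcl α h3 fun τ hτ => ?_
        obtain ⟨t, ht, htα⟩ := exists_lt_of_csInf_lt hSn (show sInf S < α + τ by linarith)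
        refine ⟨t, ht.1, ?_⟩
        have : α ≤ t := csInf_le hSb ht
        rw [abs_lt]; constructor <;> linarith
      have h5 : z < α := by
        rcases lt_or_eq_of_le h2 with h | h
        · exact h
        · exact absurd (h ▸ h4) hzY
      obtain ⟨g, hg, hgs, hgp, hgα⟩ := hM p α (snoc_iff.2 ⟨hp, h3⟩) (α - z) (by linarith)
      obtain ⟨g', hg', hgs', hgp', hgα'⟩ : ∃ g' ∈ Γ, Sm (α - z) g' ∧ (∀ i, g' (p i) = p i) ∧
          g' α < α := by
        rcases lt_or_gt_of_ne hgα with h | h
        · exact ⟨g, hg, hgs, hgp, h⟩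
        · refine ⟨g⁻¹, Γ.inv_mem hg, hgs.inv, fun i => ?_, ?_⟩
          · rw [inv_eq_iff, hgp]
          · have := g⁻¹.strictMono h
            rwa [inv_app_self] at this
      have h6 : Y (g' α) := hinv α h4 g' hg' hgp'
      have h7 := hgs' α
      rw [abs_lt] at h7
      have h8 : g' α ∈ S := ⟨h6, by linarith⟩
      have h9 : α ≤ g' α := csInf_le hSb h8
      linarith
  exact hmain.2 τ hτ


end Pool.Agent.Ghys
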