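import Mathlib
import Pool.Agent.Ghys.Basic

set_option autoImplicit false

namespace Pool.Agent.Ghys

open Filter Topology Set

variable {Γ : Subgroup (ℝ ≃o ℝ)}


theorem ulim_squeeze (g : ℕ → ℝ ≃o ℝ) {σ : ℝ → ℝ} {l : Filter ℕ}
    (h : ∀ x, Tendsto (fun k => g k x) l (𝓝 (σ x))) {c : ℝ} (hc : ContinuousAt σ c)
    {x : ℕ → ℝ} (hx : Tendsto x l (𝓝 c)) : Tendsto (fun k => g k (x k)) l (𝓝 (σ c)) := by
  rw [Metric.tendsto_nhds]
  intro ε hε
  obtain ⟨δ, hδ, hδ2⟩ := Metric.continuousAt_iff.mp hc (ε / 2) (by linarith)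
  have h1 : |σ (c - δ / 2) - σ c| < ε / 2 := by
    have := hδ2 (x := c - δ / 2) (by
      rw [Real.dist_eq, show c - δ / 2 - c = -(δ / 2) by ring, abs_neg, abs_of_pos (by linarith)]
      linarith)
    rwa [Real.dist_eq] at this
  have h2 : |σ (c + δ / 2) - σ c| < ε / 2 := by
    have := hδ2 (x := c + δ / 2) (by
      rw [Real.dist_eq, show c + δ / 2 - c = δ / 2 by ring, abs_of_pos (by linarith)]
      linarith)
    rwa [Real.dist_eq] at this
  have e1 := (Metric.tendsto_nhds.mp (h (c - δ / 2))) (ε / 2) (by linarith)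
  have e2 := (Metric.tendsto_nhds.mp (h (c + δ / 2))) (ε / 2) (by linarith)
  have e3 := (Metric.tendsto_nhds.mp hx) (δ / 2) (by linarith)
  filter_upwards [e1, e2, e3] with k k1 k2 k3
  rw [Real.dist_eq] at k1 k2 k3 ⊢
  rw [abs_lt] at k1 k2 k3 h1 h2 ⊢
  have m1 : g k (c - δ / 2) ≤ g k (x k) := (g k).monotone (by linarith)
  have m2 : g k (x k) ≤ g k (c + δ / 2) := (g k).monotone (by linarith)
  constructor <;> linarith


end Pool.Agent.Ghys
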