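import Mathlib
import Pool.Agent.Ghys.Basic
import Pool.Agent.Ghys.L_lc_limit
import Pool.Agent.Ghys.L_exists_ulim
import Pool.Agent.Ghys.L_ulim_squeeze

set_option autoImplicit false

namespace Pool.Agent.Ghys

open Filter Topology Set

variable {Γ : Subgroup (ℝ ≃o ℝ)}


/-- chains of small elements -/
inductive Ch8361 (Γ : Subgroup (ℝ ≃o ℝ)) {m : ℕ} (p : Fin m → ℝ) (e η : ℝ) : (ℝ ≃o ℝ) → Prop
  | one : Ch8361 Γ p e η 1
  | step (h g : ℝ ≃o ℝ) : Ch8361 Γ p e η h → g ∈ Γ → Sm η g → (∀ i, g (p i) = p i) →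
      Sm e (g * h) → Ch8361 Γ p e η (g * h)

theorem Ch8361.props {m : ℕ} {p : Fin m → ℝ} {e η : ℝ} (he : 0 < e) {h : ℝ ≃o ℝ}
    (H : Ch8361 Γ p e η h) : h ∈ Γ ∧ Sm e h ∧ ∀ i, h (p i) = p i := by
  induction H with
  | one => exact ⟨Γ.one_mem, Sm.one he, fun i => rfl⟩
  | step h g _ hg _ hp hsm ih =>
    exact ⟨Γ.mul_mem hg ih.1, hsm, fun i => by rw [mul_app, ih.2.2, hp]⟩

theorem Ch8361.between {m : ℕ} {p : Fin m → ℝ} {e η : ℝ} (hη : 0 < η) {h : ℝ ≃o ℝ}
    (H : Ch8361 Γ p e η h) (x0 z : ℝ) (hz : z ∈ Set.uIcc x0 (h x0)) :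
    ∃ h', Ch8361 Γ p e η h' ∧ |h' x0 - z| < η := by
  induction H with
  | one =>
    refine ⟨1, .one, ?_⟩
    rw [one_app] at hz ⊢
    rw [Set.uIcc_self, Set.mem_singleton_iff] at hz
    rw [hz, sub_self, abs_zero]
    exact hη
  | step h g H1 hg hs hp hsm ih =>
    by_cases hc : z ∈ Set.uIcc x0 (h x0)
    · exact ih hc
    · refine ⟨h, H1, ?_⟩
      have h1 := hs (h x0)
      rw [mul_app] at hz
      rw [Set.mem_uIcc] at hz hc
      push Not at hc
      rw [abs_lt] at h1 ⊢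
      rcases hz with ⟨hz1, hz2⟩ | ⟨hz1, hz2⟩
      · have := hc.1 hz1
        constructor <;> linarith [h1.1, h1.2]
      · have : z < h x0 := by
          by_contra h3
          push Not at h3
          have := hc.2 h3
          linarith
        constructor <;> linarith [h1.1, h1.2]

theorem snoc_cn8361 {n : ℕ} {p : Fin (n + 1) → ℝ} (hp : Cn (n + 1) p) {s : ℝ}
    (h1 : p (Fin.last n) < s) (h2 : s < p 0 + 1) :
    Cn (n + 1 + 1) (Fin.snoc p s : Fin (n + 1 + 1) → ℝ) := by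
  have hl : ∀ i, p i ≤ p (Fin.last n) := fun i => hp.1.monotone (Fin.le_last i)
  have h0 : ∀ i, p 0 ≤ p i := fun i => hp.1.monotone (Fin.zero_le i)
  constructor
  · intro i j hij
    induction j using Fin.lastCases with
    | last =>
      induction i using Fin.lastCases with
      | last => exact absurd hij (lt_irrefl _)
      | cast i =>
        rw [Fin.snoc_castSucc, Fin.snoc_last]
        exact lt_of_le_of_lt (hl i) h1
    | cast j =>
      induction i using Fin.lastCases with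
      | last => exact absurd hij (not_lt.2 (Fin.le_last _))
      | cast i =>
        rw [Fin.snoc_castSucc, Fin.snoc_castSucc]
        exact hp.1 (by simpa using hij)
  · intro i j
    induction j using Fin.lastCases with
    | last =>
      induction i using Fin.lastCases with
      | last => linarith
      | cast i =>
        rw [Fin.snoc_castSucc, Fin.snoc_last]
        linarith [hl i]
    | cast j =>
      induction i using Fin.lastCases with
      | last =>
        rw [Fin.snoc_castSucc, Fin.snoc_last]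
        linarith [h0 j]
      | cast i =>
        rw [Fin.snoc_castSucc, Fin.snoc_castSucc]
        exact hp.2 i j

theorem exists_chain8361 {n : ℕ} (hM : MM Γ (n + 1)) {p : Fin (n + 1) → ℝ}
    (hp : Cn (n + 1) p) {e η : ℝ} (he : 0 < e) (hgap : 8 * e ≤ p 0 + 1 - p (Fin.last n))
    (hη : 0 < η) (hη' : 4 * η < e) :
    ∃ h, Ch8361 Γ p e η h ∧ ∃ x0, e - 2 * η ≤ |h x0 - x0| := by
  by_contra hcon
  push Not at hcon
  obtain ⟨U, hU⟩ : ∃ U : Set (ℝ ≃o ℝ), U = {g | g ∈ Γ ∧ Sm η g ∧ ∀ i, g (p i) = p i} := ⟨_, rfl⟩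
  have hUi : ∀ g ∈ U, g⁻¹ ∈ U := by
    intro g hg
    rw [hU] at hg ⊢
    refine ⟨Γ.inv_mem hg.1, hg.2.1.inv, fun i => ?_⟩
    rw [inv_eq_iff]
    exact (hg.2.2 i).symm
  have hstep : ∀ g ∈ U, ∀ h, Ch8361 Γ p e η h → Ch8361 Γ p e η (g * h) := by
    intro g hg h hh
    rw [hU] at hg
    refine .step h g hh hg.1 hg.2.1 hg.2.2 ?_
    have h1 : Sm (e - 2 * η) h := hcon h hh
    exact (hg.2.1.mul h1).mono (by linarith)
  have hK : ∀ h ∈ Subgroup.closure U, Ch8361 Γ p e η h := by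
    intro h hh
    induction hh using Subgroup.closure_induction_left with
    | one => exact .one
    | mul_left x hx y _ ih => exact hstep x hx y ih
    | inv_mul_cancel x hx y _ ih => exact hstep _ (hUi x hx) y ih
  obtain ⟨y, hy⟩ : ∃ y, y = (p (Fin.last n) + (p 0 + 1)) / 2 := ⟨_, rfl⟩
  obtain ⟨A, hA⟩ : ∃ A : Set ℝ, A = {a | ∃ g ∈ Subgroup.closure U, g y = a} := ⟨_, rfl⟩
  have hyA : y ∈ A := by rw [hA]; exact ⟨1, Subgroup.one_mem _, rfl⟩
  have hAle : ∀ a ∈ A, a ≤ y + e := by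
    intro a ha
    rw [hA] at ha
    obtain ⟨g, hg, rfl⟩ := ha
    have h1 := ((hK g hg).props he).2.1 y
    rw [abs_lt] at h1
    linarith [h1.2]
  have hbdd : BddAbove A := ⟨y + e, hAle⟩
  have hs1 : y ≤ sSup A := le_csSup hbdd hyA
  have hs2 : sSup A ≤ y + e := csSup_le ⟨y, hyA⟩ hAle
  have hle : ∀ h ∈ Subgroup.closure U, h (sSup A) ≤ sSup A := by
    intro h hh
    have h1 : sSup A ≤ h⁻¹ (sSup A) := by
      apply csSup_le ⟨y, hyA⟩
      intro a ha
      have h2 : h a ∈ A := by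
        rw [hA] at ha ⊢
        obtain ⟨g, hg, rfl⟩ := ha
        exact ⟨h * g, Subgroup.mul_mem _ hh hg, rfl⟩
      have h3 : h a ≤ sSup A := le_csSup hbdd h2
      have h4 := h⁻¹.monotone h3
      rwa [inv_app_self] at h4
    have h5 := h.monotone h1
    rwa [app_inv_self] at h5
  have hfix : ∀ h ∈ Subgroup.closure U, h (sSup A) = sSup A := by
    intro h hh
    apply le_antisymm (hle h hh)
    have h1 := hle h⁻¹ (Subgroup.inv_mem _ hh)
    have h5 := h.monotone h1
    rwa [app_inv_self] at h5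
  have hgpos : p (Fin.last n) < p 0 + 1 := hp.2 _ _
  obtain ⟨g, hg1, hg2, hg3, hg4⟩ := hM p (sSup A)
    (snoc_cn8361 hp (by linarith) (by linarith)) η hη
  apply hg4
  apply hfix
  apply Subgroup.subset_closure
  rw [hU]
  exact ⟨hg1, hg2, hg3⟩

theorem orbit_interval (hΓ : Ok Γ) {n : ℕ} (hM : MM Γ (n + 1)) (hL : LC Γ) (p : Fin (n + 1) → ℝ)
    (hp : Cn (n + 1) p) : ∃ w b1 b2 : ℝ, b1 < b2 ∧ ∀ z ∈ Ioo b1 b2, ∃ g ∈ Γ,
      (∀ i, g (p i) = p i) ∧ g w = z := by
  obtain ⟨e1, he1, hLC⟩ := hL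
  have hgap0 : p (Fin.last n) < p 0 + 1 := hp.2 _ _
  obtain ⟨e, hedef⟩ : ∃ e, e = min e1 ((p 0 + 1 - p (Fin.last n)) / 8) := ⟨_, rfl⟩
  have he : 0 < e := by
    rw [hedef]
    exact lt_min he1 (by linarith)
  have hgap : 8 * e ≤ p 0 + 1 - p (Fin.last n) := by
    have : e ≤ (p 0 + 1 - p (Fin.last n)) / 8 := by rw [hedef]; exact min_le_right _ _
    linarith
  have hLC' : ∀ σ, Approx Γ e σ → Continuous σ := by
    intro σ hσ
    exact hLC σ (hσ.mono (by rw [hedef]; exact min_le_left _ _))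
  obtain ⟨η, hηdef⟩ : ∃ η : ℕ → ℝ, η = fun N : ℕ => e / (8 * ((N : ℝ) + 1)) := ⟨_, rfl⟩
  have hηpos : ∀ N, 0 < η N := by
    intro N
    rw [hηdef]
    positivity
  have hη4 : ∀ N, 4 * η N < e := by
    intro N
    rw [hηdef]
    show 4 * (e / (8 * ((N : ℝ) + 1))) < e
    have h1 : (0 : ℝ) ≤ N := Nat.cast_nonneg N
    have h2 : e / (8 * ((N : ℝ) + 1)) ≤ e / 8 := by
      apply div_le_div_of_nonneg_left he.le (by norm_num)
      nlinarith
    linarith
  have hηlim : Tendsto η (hyperfilter ℕ : Filter ℕ) (𝓝 0) := by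
    refine Tendsto.mono_left ?_ Nat.hyperfilter_le_atTop
    have h1 : Tendsto (fun N : ℕ => (e / 8) * (1 / ((N : ℝ) + 1))) atTop (𝓝 ((e / 8) * 0)) :=
      tendsto_one_div_add_atTop_nhds_zero_nat.const_mul _
    rw [mul_zero] at h1
    refine h1.congr ?_
    intro N
    rw [hηdef]
    show (e / 8) * (1 / ((N : ℝ) + 1)) = e / (8 * ((N : ℝ) + 1))
    have : (N : ℝ) + 1 ≠ 0 := by positivity
    field_simp
  have hex : ∀ N, ∃ h, ∃ x0 : ℝ, Ch8361 Γ p e (η N) h ∧ x0 ∈ Icc (0 : ℝ) 1 ∧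
      e - 2 * η N ≤ |h x0 - x0| := by
    intro N
    obtain ⟨h, hh, x0, hx0⟩ := exists_chain8361 hM hp he hgap (hηpos N) (hη4 N)
    have hper : Per h := hΓ.per h (hh.props he).1
    refine ⟨h, x0 - (⌊x0⌋ : ℤ), hh, ⟨?_, ?_⟩, ?_⟩
    · have := Int.floor_le x0
      linarith
    · have := Int.lt_floor_add_one x0
      linarith
    · rw [hper.sub_int]
      have : h x0 - (⌊x0⌋ : ℤ) - (x0 - (⌊x0⌋ : ℤ)) = h x0 - x0 := by ring
      rw [this]
      exact hx0
  choose h x hCh hxI hxe using hex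
  have hprops := fun N => (hCh N).props he
  obtain ⟨w, -, hw⟩ := (isCompact_Icc (a := (0 : ℝ)) (b := 1)).ultrafilter_le_nhds'
    (Ultrafilter.map x (hyperfilter ℕ)) (by
      rw [Ultrafilter.mem_map]
      exact Filter.univ_mem' hxI)
  have hw' : Tendsto x (hyperfilter ℕ : Filter ℕ) (𝓝 w) := hw
  obtain ⟨w2, -, hw2⟩ := (isCompact_Icc (a := (-e : ℝ)) (b := 1 + e)).ultrafilter_le_nhds'
    (Ultrafilter.map (fun N => h N (x N)) (hyperfilter ℕ)) (by
      rw [Ultrafilter.mem_map]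
      refine Filter.univ_mem' (fun N => ?_)
      have h1 := (hprops N).2.1 (x N)
      have h2 := hxI N
      rw [abs_lt] at h1
      constructor
      · have := h2.1
        linarith [h1.1]
      · have := h2.2
        linarith [h1.2])
  have hw2' : Tendsto (fun N => h N (x N)) (hyperfilter ℕ : Filter ℕ) (𝓝 w2) := hw2
  have hdist : e ≤ |w2 - w| := by
    have h1 : Tendsto (fun N => |h N (x N) - x N|) (hyperfilter ℕ : Filter ℕ) (𝓝 |w2 - w|) :=
      (hw2'.sub hw').abs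
    have h2 : Tendsto (fun N => e - 2 * η N) (hyperfilter ℕ : Filter ℕ) (𝓝 (e - 2 * 0)) :=
      tendsto_const_nhds.sub (hηlim.const_mul 2)
    rw [mul_zero, sub_zero] at h2
    exact le_of_tendsto_of_tendsto' h2 h1 hxe
  have hne : w ≠ w2 := by
    rintro rfl
    rw [sub_self, abs_zero] at hdist
    linarith
  refine ⟨w, min w w2, max w w2, min_lt_max.2 hne, ?_⟩
  intro z hz
  have hev : ∀ᶠ N in (hyperfilter ℕ : Filter ℕ), z ∈ Set.uIcc (x N) (h N (x N)) := by
    rcases lt_or_gt_of_ne hne with hlt | hlt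
    · rw [min_eq_left hlt.le, max_eq_right hlt.le] at hz
      filter_upwards [hw'.eventually_lt_const hz.1, hw2'.eventually_const_lt hz.2] with N h1 h2
      rw [Set.mem_uIcc]
      left
      exact ⟨h1.le, h2.le⟩
    · rw [min_eq_right hlt.le, max_eq_left hlt.le] at hz
      filter_upwards [hw2'.eventually_lt_const hz.1, hw'.eventually_const_lt hz.2] with N h1 h2
      rw [Set.mem_uIcc]
      right
      exact ⟨h1.le, h2.le⟩
  have hex2 : ∀ N, ∃ h', Ch8361 Γ p e (η N) h' ∧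
      (z ∈ Set.uIcc (x N) (h N (x N)) → |h' (x N) - z| < η N) := by
    intro N
    by_cases hc : z ∈ Set.uIcc (x N) (h N (x N))
    · obtain ⟨h', h1, h2⟩ := (hCh N).between (hηpos N) (x N) z hc
      exact ⟨h', h1, fun _ => h2⟩
    · exact ⟨1, .one, fun h => absurd h hc⟩
  choose h' hCh' hz' using hex2
  have hprops' := fun N => (hCh' N).props he
  obtain ⟨σ, hσ, hσlim⟩ := exists_ulim h' (fun N => (hprops' N).1) (fun N => (hprops' N).2.1)
  obtain ⟨g, hg, hgσ⟩ := lc_limit hΓ hLC' hσ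
  refine ⟨g, hg, ?_, ?_⟩
  · intro i
    rw [hgσ]
    have h1 := hσlim (p i)
    have h2 : (fun N => h' N (p i)) = fun _ => p i := by
      funext N
      exact (hprops' N).2.2 i
    rw [h2] at h1
    exact tendsto_nhds_unique h1 tendsto_const_nhds
  · rw [hgσ]
    have h1 := ulim_squeeze h' hσlim (c := w) (hLC' σ hσ).continuousAt hw'
    have h2 : Tendsto (fun N => h' N (x N)) (hyperfilter ℕ : Filter ℕ) (𝓝 z) := by
      rw [tendsto_iff_dist_tendsto_zero]
      refine squeeze_zero' (Eventually.of_forall fun N => dist_nonneg) ?_ hηlim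
      filter_upwards [hev] with N hN
      rw [Real.dist_eq]
      exact (hz' N hN).le
    exact tendsto_nhds_unique h1 h2


end Pool.Agent.Ghys
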