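import Mathlib
import Pool.Agent.Ghys.Basic
import Pool.Agent.Ghys.L_orbit_interval
import Pool.Agent.Ghys.L_orbit_dense
import Pool.Agent.Ghys.L_sort_lemma
import Pool.Agent.Ghys.L_TR_of_EE

set_option autoImplicit false

namespace Pool.Agent.Ghys

open Filter Topology Set

variable {Γ : Subgroup (ℝ ≃o ℝ)}


theorem step_up_LC_IM {n : ℕ} {p : Fin n → ℝ} (hp : Cn n p) : IM p := by
  intro i j hij k h
  rcases lt_trichotomy k 0 with hk | hk | hk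
  · have h1 : (k : ℝ) ≤ -1 := by exact_mod_cast (by omega : k ≤ -1)
    have := hp.2 j i
    linarith
  · subst hk
    have : p i = p j := by simpa using h
    exact hij (hp.1.injective this)
  · have h1 : (1 : ℝ) ≤ k := by exact_mod_cast (by omega : 1 ≤ k)
    have := hp.2 i j
    linarith

theorem step_up_LC_init {n : ℕ} {p : Fin (n + 1) → ℝ} (hp : Cn (n + 1) p) :
    Cn n (fun i => p (Fin.castSucc i)) :=
  ⟨fun _ _ hij => hp.1 (Fin.castSucc_lt_castSucc_iff.2 hij), fun _ _ => hp.2 _ _⟩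

theorem step_up_LC_p0 (n : ℕ) : Cn (n + 1) (fun i : Fin (n + 1) => (i : ℝ) / (n + 1)) := by
  have hn : (0 : ℝ) < (n : ℝ) + 1 := by positivity
  refine ⟨fun i j hij => ?_, fun i j => ?_⟩
  · have : ((i : ℕ) : ℝ) < ((j : ℕ) : ℝ) := by exact_mod_cast hij
    exact div_lt_div_of_pos_right this hn
  · have h1 : ((i : ℕ) : ℝ) < (n : ℝ) + 1 := by exact_mod_cast i.2
    have h2 : ((i : ℕ) : ℝ) / (n + 1) < 1 := (div_lt_one hn).2 h1
    have h3 : (0 : ℝ) ≤ ((j : ℕ) : ℝ) / (n + 1) := by positivity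
    show ((i : ℕ) : ℝ) / (n + 1) < ((j : ℕ) : ℝ) / (n + 1) + 1
    linarith

theorem step_up_LC_map {n : ℕ} {p : Fin (n + 1) → ℝ} {y : ℝ} {P : Fin (n + 2) → ℝ}
    (hP : Cn (n + 2) P) {g : ℝ ≃o ℝ} (hg : Per g) (h1 : ∀ i, g (P (Fin.castSucc i)) = p i)
    (h2 : g (P (Fin.last _)) = y) :
    Cn (n + 2) (Fin.snoc p y : Fin (n + 2) → ℝ) := by
  have := hP.map hg
  have e : (fun i => g (P i)) = (Fin.snoc p y : Fin (n + 2) → ℝ) := by
    funext i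
    refine Fin.lastCases ?_ (fun i => ?_) i
    · rw [Fin.snoc_last, h2]
    · rw [Fin.snoc_castSucc, h1]
  rwa [e] at this

theorem step_up_LC (hΓ : Ok Γ) {n : ℕ} (hE : EE Γ (n + 1)) (hM : MM Γ (n + 1)) (hL : LC Γ) :
    TR Γ (n + 2) := by
  set p0 : Fin (n + 1) → ℝ := fun i => (i : ℝ) / (n + 1) with hp0def
  have hp0 : Cn (n + 1) p0 := step_up_LC_p0 n
  obtain ⟨w, b1, b2, hb, horb⟩ := orbit_interval hΓ hM hL p0 hp0
  have hw : ∀ i, ∀ k : ℤ, w ≠ p0 i + k := by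
    intro i k hwk
    have key : ∀ z ∈ Ioo b1 b2, z = w := by
      intro z hz
      obtain ⟨g, hg, hfix, hgw⟩ := horb z hz
      rw [← hgw, hwk, (hΓ.per g hg).add_int, hfix]
    have h1 := key ((b1 + b2) / 2) ⟨by linarith, by linarith⟩
    have h2 := key (b1 + (b2 - b1) / 3) ⟨by linarith, by linarith⟩
    linarith
  obtain ⟨π, k, hC⟩ := sort_lemma p0 (step_up_LC_IM hp0) w hw
  set p' : Fin (n + 1) → ℝ := fun j => p0 (π j) + k j with hp'def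
  have hfix' : ∀ g ∈ Γ, (∀ i, g (p0 i) = p0 i) → ∀ j, g (p' j) = p' j := by
    intro g hg h j
    simp only [hp'def]
    rw [(hΓ.per g hg).add_int, h]
  have hp' : Cn (n + 1) p' := by
    have := step_up_LC_init hC
    simpa only [Fin.snoc_castSucc] using this
  have claimA : ∀ y, Cn (n + 2) (Fin.snoc p' y : Fin (n + 2) → ℝ) →
      ∃ g ∈ Γ, (∀ j, g (p' j) = p' j) ∧ g w = y := by
    intro y hy
    obtain ⟨g0, hg0, hg0f, hg0w⟩ := horb ((b1 + b2) / 2) ⟨by linarith, by linarith⟩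
    have hz : Cn (n + 2) (Fin.snoc p' ((b1 + b2) / 2) : Fin (n + 2) → ℝ) := by
      refine step_up_LC_map hC (hΓ.per g0 hg0) (fun i => ?_) ?_
      · rw [Fin.snoc_castSucc]
        exact hfix' g0 hg0 hg0f i
      · rw [Fin.snoc_last, hg0w]
    obtain ⟨g1, hg1, hg1f, hg1y⟩ := orbit_dense hΓ hM p' y _ hy hz
      (τ := (b2 - b1) / 2) (by linarith)
    rw [abs_lt] at hg1y
    obtain ⟨g2, hg2, hg2f, hg2w⟩ := horb (g1 y) ⟨by linarith, by linarith⟩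
    refine ⟨g1⁻¹ * g2, Γ.mul_mem (Γ.inv_mem hg1) hg2, fun j => ?_, ?_⟩
    · rw [mul_app, hfix' g2 hg2 hg2f, inv_eq_iff, hg1f]
    · rw [mul_app, hg2w, inv_app_self]
  intro P Q hP hQ
  obtain ⟨a, ha, hap⟩ := TR_of_EE hE p' _ hp' (step_up_LC_init hP)
  obtain ⟨b, hb', hbq⟩ := TR_of_EE hE p' _ hp' (step_up_LC_init hQ)
  have hPa : Cn (n + 2) (Fin.snoc p' (a⁻¹ (P (Fin.last _))) : Fin (n + 2) → ℝ) :=
    step_up_LC_map hP (hΓ.per _ (Γ.inv_mem ha)) (fun i => by rw [← hap, inv_app_self]) rfl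
  have hQb : Cn (n + 2) (Fin.snoc p' (b⁻¹ (Q (Fin.last _))) : Fin (n + 2) → ℝ) :=
    step_up_LC_map hQ (hΓ.per _ (Γ.inv_mem hb')) (fun i => by rw [← hbq, inv_app_self]) rfl
  obtain ⟨g1, hg1, hg1f, hg1w⟩ := claimA _ hPa
  obtain ⟨g2, hg2, hg2f, hg2w⟩ := claimA _ hQb
  refine ⟨b * (g2 * (g1⁻¹ * a⁻¹)),
    Γ.mul_mem hb' (Γ.mul_mem hg2 (Γ.mul_mem (Γ.inv_mem hg1) (Γ.inv_mem ha))), fun i => ?_⟩
  refine Fin.lastCases ?_ (fun i => ?_) i
  · rw [mul_app, mul_app, mul_app, ← hg1w, inv_app_self, hg2w, app_inv_self]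
  · have e1 : a⁻¹ (P (Fin.castSucc i)) = p' i := by rw [← hap, inv_app_self]
    have e2 : g1⁻¹ (p' i) = p' i := by rw [inv_eq_iff, hg1f]
    rw [mul_app, mul_app, mul_app, e1, e2, hg2f, hbq]


end Pool.Agent.Ghys
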