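import Mathlib
import Pool.Agent.Ghys.Basic
import Pool.Agent.Ghys.L_nlc_main
import Pool.Agent.Ghys.L_step_up_LC
import Pool.Agent.Ghys.L_rigid_of_not_MM
import Pool.Agent.Ghys.L_no_rigid_two
import Pool.Agent.Ghys.L_no_rigid_ge4
import Pool.Agent.Ghys.L_psl_of_rigid3

set_option autoImplicit false

namespace Pool.Agent.Ghys

open Filter Topology Set

variable {Γ : Subgroup (ℝ ≃o ℝ)}

theorem EE_zero : EE Γ 0 := by
  intro p _ ε hε
  exact ⟨1, one_pos, fun q _ _ => ⟨1, Γ.one_mem, Sm.one hε, fun i => i.elim0⟩⟩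

theorem MT (hΓ : Ok Γ) (hT : TR Γ 1) (hM : MM Γ 1) :
    Full Γ ∨ ∃ φ : ℝ ≃o ℝ, Per φ ∧ ∀ f : ℝ ≃o ℝ, f ∈ Γ ↔ Mob (φ⁻¹ * f * φ) := by
  by_cases hL : LC Γ
  · by_cases hall : ∀ n, TR Γ (n + 1)
    · exact Or.inl (full_of_TR hΓ hall)
    · push Not at hall
      classical
      set N := Nat.find hall with hN
      have hNf : ¬ TR Γ (N + 1) := Nat.find_spec hall
      have hmin : ∀ k, k < N → TR Γ (k + 1) := fun k hk => by
        have := Nat.find_min hall hk
        simpa using this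
      have hEE : ∀ k, k ≤ N → EE Γ k := by
        intro k hk
        rcases k with _ | k
        · exact EE_zero
        · exact EE_of_LD hΓ (LD_of_TR hΓ (hmin k hk))
      rcases N with _ | _ | N
      · exact absurd hT hNf
      · exact absurd (step_up_LC (n := 0) hΓ (hEE 1 le_rfl) hM hL) hNf
      · have hE : EE Γ (N + 2) := hEE (N + 2) le_rfl
        have hnM : ¬ MM Γ (N + 2) := fun h => hNf (step_up_LC (n := N + 1) hΓ hE h hL)
        have hR : Rigid Γ (N + 2) := rigid_of_not_MM hΓ hE hnM hL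
        rcases N with _ | _ | N
        · exact (no_rigid_two hΓ hE (hEE 1 (by omega)) hR).elim
        · exact Or.inr (psl_of_rigid3 hΓ (hEE 1 (by omega)) (hEE 2 (by omega)) hE hR)
        · exact (no_rigid_ge4 (m := N) hΓ (fun k hk => hEE k (by omega)) hR).elim
  · exact Or.inl (nlc_main hΓ hT hM hL)

end Pool.Agent.Ghys
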