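import Mathlib
import Pool.Agent.Ghys.Basic
import Pool.Agent.Ghys.L_holder_comm

set_option autoImplicit false

namespace Pool.Agent.Ghys

open Filter Topology Set

variable {Γ : Subgroup (ℝ ≃o ℝ)}


/-- elements commuting with all small elements of `Γ` -/
def ZZ8368 (Γ : Subgroup (ℝ ≃o ℝ)) : Subgroup (ℝ ≃o ℝ) where
  carrier := {ψ | ∃ ε > 0, ∀ g ∈ Γ, Sm ε g → ψ * g = g * ψ}
  mul_mem' := by
    rintro a b ⟨ε1, h1, H1⟩ ⟨ε2, h2, H2⟩
    refine ⟨min ε1 ε2, lt_min h1 h2, fun g hg hs => ?_⟩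
    have e1 := H1 g hg (hs.mono (min_le_left _ _))
    have e2 := H2 g hg (hs.mono (min_le_right _ _))
    rw [mul_assoc, e2, ← mul_assoc, e1, mul_assoc]
  one_mem' := ⟨1, one_pos, fun g _ _ => by simp⟩
  inv_mem' := by
    rintro a ⟨ε, h, H⟩
    refine ⟨ε, h, fun g hg hs => ?_⟩
    have := H g hg hs
    rw [inv_mul_eq_iff_eq_mul, ← mul_assoc, this, mul_inv_cancel_right]

theorem Cn_one8368 (s : ℝ) : Cn 1 (fun _ => s) :=
  ⟨fun i j hij => absurd hij (by rw [Subsingleton.elim i j]; exact lt_irrefl _),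
    fun i j => by simp⟩

theorem local8368 (hE : EE Γ 1) {ε : ℝ} (hε : 0 < ε) (s : ℝ) :
    ∃ η > 0, ∀ s' : ℝ, |s' - s| < η → ∃ g ∈ Γ, Sm ε g ∧ g s = s' := by
  obtain ⟨η, hη, H⟩ := hE (fun _ => s) (Cn_one8368 s) ε hε
  refine ⟨η, hη, fun s' hs' => ?_⟩
  obtain ⟨g, hg, h1, h2⟩ := H (fun _ => s') (Cn_one8368 s') (fun _ => hs')
  exact ⟨g, hg, h1, h2 0⟩

theorem free8368 (hE : EE Γ 1) {ψ : ℝ ≃o ℝ} (hψ : ψ ∈ ZZ8368 Γ) {t : ℝ} (ht : ψ t = t) :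
    ψ = 1 := by
  obtain ⟨ε, hε, H⟩ := hψ
  have hcl : IsClopen {s : ℝ | ψ s = s} := by
    constructor
    · exact isClosed_eq ψ.continuous continuous_id
    · rw [Metric.isOpen_iff]
      intro s hs
      obtain ⟨η, hη, h1⟩ := local8368 hE hε s
      refine ⟨η, hη, fun s' hs' => ?_⟩
      obtain ⟨g, hg, h2, h3⟩ := h1 s' (by rwa [Metric.mem_ball, Real.dist_eq] at hs')
      have h4 : (ψ * g) s = (g * ψ) s := by rw [H g hg h2]
      rw [mul_app, mul_app] at h4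
      show ψ s' = s'
      rw [← h3, h4]
      have h5 : ψ s = s := hs
      rw [h5]
  have huniv := hcl.eq_univ ⟨t, ht⟩
  ext s
  have : s ∈ {s : ℝ | ψ s = s} := by rw [huniv]; trivial
  exact this

theorem Per.le8368 {g : ℝ ≃o ℝ} (hg : Per g) (x : ℝ) : g x ≤ x + (g 0 + 1) := by
  have h1 : x < ⌊x⌋ + 1 := Int.lt_floor_add_one x
  have h2 : (⌊x⌋ : ℝ) ≤ x := Int.floor_le x
  have h3 : g x ≤ g (0 + ((⌊x⌋ + 1 : ℤ) : ℝ)) := by
    apply g.monotone; push_cast; linarith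
  rw [hg.add_int] at h3
  push_cast at h3
  linarith

theorem Z_central (hΓ : Ok Γ) (hE : EE Γ 1)
    (hone : ∃ t ∈ Γ, ∀ x : ℝ, (t : ℝ ≃o ℝ) x = x + 1) (φ : ℝ ≃o ℝ) {ε : ℝ} (hε : 0 < ε)
    (h : ∀ g ∈ Γ, Sm ε g → φ * g = g * φ) : ∀ g ∈ Γ, φ * g = g * φ := by
  have hφ : φ ∈ ZZ8368 Γ := ⟨ε, hε, h⟩
  have hcomm := holder_comm (ZZ8368 Γ) (fun n hn y hy => free8368 hE hn hy)
  obtain ⟨T, hT, hTx⟩ := hone
  have hTZ : T ∈ ZZ8368 Γ := by
    refine ⟨1, one_pos, fun g hg _ => ?_⟩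
    ext x
    rw [mul_app, mul_app, hTx, hTx, hΓ.per g hg]
  have hPer : ∀ ψ ∈ ZZ8368 Γ, Per ψ := by
    intro ψ hψ x
    have h1 : (ψ * T) x = (T * ψ) x := by rw [hcomm ψ hψ T hTZ]
    rw [mul_app, mul_app, hTx, hTx] at h1
    exact h1
  intro g hg
  have hconj : g * φ * g⁻¹ ∈ ZZ8368 Γ := by
    obtain ⟨δ, hδ, H⟩ := Sm.conj (hΓ.per g⁻¹ (Γ.inv_mem hg)) hε
    refine ⟨δ, hδ, fun k hk hks => ?_⟩
    have h1 := H k hks
    rw [inv_inv] at h1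
    have h2 := h (g⁻¹ * k * g) (Γ.mul_mem (Γ.mul_mem (Γ.inv_mem hg) hk) hg) h1
    calc g * φ * g⁻¹ * k = g * (φ * (g⁻¹ * k * g)) * g⁻¹ := by group
      _ = g * ((g⁻¹ * k * g) * φ) * g⁻¹ := by rw [h2]
      _ = k * (g * φ * g⁻¹) := by group
  set χ : ℝ ≃o ℝ := (g * φ * g⁻¹) * φ⁻¹ with hχ
  have hχZ : χ ∈ ZZ8368 Γ := (ZZ8368 Γ).mul_mem hconj ((ZZ8368 Γ).inv_mem hφ)
  have hχ1 : χ = 1 := by
    -- bound
    obtain ⟨C, hC⟩ := exists_nat_ge (max (g 0 + 1) (g⁻¹ 0 + 1))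
    have hC1 : ∀ x, g x ≤ x + C := fun x =>
      ((hΓ.per g hg).le8368 x).trans (by linarith [le_max_left (g 0 + 1) (g⁻¹ 0 + 1)])
    have hC2 : ∀ x, g⁻¹ x ≤ x + C := fun x =>
      ((hΓ.per g⁻¹ (Γ.inv_mem hg)).le8368 x).trans
        (by linarith [le_max_right (g 0 + 1) (g⁻¹ 0 + 1)])
    have hbd : ∀ m : ℤ, (χ ^ m) 0 ≤ 2 * C := by
      intro m
      have h1 : χ ^ m = g * φ ^ m * g⁻¹ * (φ ^ m)⁻¹ := by
        have hc : Commute (g * φ * g⁻¹) φ⁻¹ := hcomm _ hconj _ ((ZZ8368 Γ).inv_mem hφ)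
        rw [hχ, hc.mul_zpow, conj_zpow, inv_zpow]
      rw [h1, mul_app, mul_app, mul_app]
      set z := (φ ^ m)⁻¹ 0 with hz
      have h2 : (φ ^ m) z = 0 := app_inv_self _ _
      have h3 : (φ ^ m) (g⁻¹ z) ≤ C := by
        have h4 : (φ ^ m) (g⁻¹ z) ≤ (φ ^ m) (z + ((C : ℤ) : ℝ)) := by
          apply (φ ^ m).monotone; exact_mod_cast hC2 z
        rw [(hPer _ ((ZZ8368 Γ).zpow_mem hφ m)).add_int, h2] at h4
        simpa using h4
      calc g ((φ ^ m) (g⁻¹ z)) ≤ (φ ^ m) (g⁻¹ z) + C := hC1 _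
        _ ≤ 2 * C := by linarith
    -- the supremum is a fixed point
    set S : Set ℝ := Set.range (fun m : ℤ => (χ ^ m) 0) with hS
    have hSb : BddAbove S := ⟨2 * C, by rintro _ ⟨m, rfl⟩; exact hbd m⟩
    have hSn : S.Nonempty := ⟨_, 0, rfl⟩
    have hfix : χ (sSup S) = sSup S := by
      apply le_antisymm
      · have h1 : sSup S ≤ χ⁻¹ (sSup S) := by
          apply csSup_le hSn
          rintro _ ⟨m, rfl⟩
          have h2 : (χ ^ (m + 1)) 0 ≤ sSup S := le_csSup hSb ⟨m + 1, rfl⟩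
          have h3 := χ⁻¹.monotone h2
          have h4 : χ⁻¹ ((χ ^ (m + 1)) 0) = (χ ^ m) 0 := by
            rw [← mul_app]; congr 1; group
          rw [h4] at h3
          exact h3
        have h5 := χ.monotone h1
        rw [app_inv_self] at h5
        exact h5
      · apply csSup_le hSn
        rintro _ ⟨m, rfl⟩
        have h2 : (χ ^ (m - 1)) 0 ≤ sSup S := le_csSup hSb ⟨m - 1, rfl⟩
        have h3 := χ.monotone h2
        have h4 : χ ((χ ^ (m - 1)) 0) = (χ ^ m) 0 := by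
          rw [← mul_app]; congr 1; group
        rw [h4] at h3
        exact h3
    exact free8368 hE hχZ hfix
  have h6 : g * φ * g⁻¹ = φ := by
    rw [hχ] at hχ1
    exact mul_inv_eq_one.1 hχ1
  rw [mul_inv_eq_iff_eq_mul] at h6
  exact h6.symm


end Pool.Agent.Ghys
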