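import Mathlib
import Pool.Agent.Ghys.Basic
import Pool.Agent.Ghys.L_ext_lemma

set_option autoImplicit false

namespace Pool.Agent.Ghys

open Filter Topology Set

variable {Γ : Subgroup (ℝ ≃o ℝ)}


/-- local moves from `EE Γ 1` -/
theorem comm_ext_hloc (hE : EE Γ 1) (t : ℝ) {e : ℝ} (he : 0 < e) :
    ∃ η > 0, ∀ t', |t' - t| < η → ∃ g ∈ Γ, Sm e g ∧ g t = t' := by
  have hc : ∀ u : ℝ, Cn 1 (fun _ : Fin 1 => u) := by
    intro u
    refine ⟨?_, fun i j => by linarith⟩
    intro i j hij
    exact absurd hij (by simp [Subsingleton.elim i j])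
  obtain ⟨η, hη, H⟩ := hE (fun _ => t) (hc t) e he
  refine ⟨η, hη, fun t' ht' => ?_⟩
  obtain ⟨g, hg, hs, hq⟩ := H (fun _ => t') (hc t') (fun _ => ht')
  exact ⟨g, hg, hs, hq 0⟩

/-- connectedness induction -/
theorem comm_ext_ind (hE : EE Γ 1) {e : ℝ} (he : 0 < e) (P : ℝ → Prop)
    (hP : ∀ g ∈ Γ, Sm e g → ∀ t, P t → P (g t)) (t t' : ℝ) (ht : P t) : P t' := by
  have ho : IsOpen {u | P u} := by
    rw [Metric.isOpen_iff]
    intro u hu
    obtain ⟨η, hη, H⟩ := comm_ext_hloc hE u he
    refine ⟨η, hη, fun v hv => ?_⟩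
    rw [Metric.mem_ball, Real.dist_eq] at hv
    obtain ⟨g, hg, hs, hq⟩ := H v hv
    show P v
    rw [← hq]
    exact hP g hg hs u hu
  have hcl : IsClosed {u | P u} := by
    rw [← isOpen_compl_iff, Metric.isOpen_iff]
    intro u hu
    obtain ⟨η, hη, H⟩ := comm_ext_hloc hE u he
    refine ⟨η, hη, fun v hv hPv => hu ?_⟩
    rw [Metric.mem_ball, Real.dist_eq] at hv
    obtain ⟨g, hg, hs, hq⟩ := H v hv
    have h1 := hP g⁻¹ (Γ.inv_mem hg) hs.inv v hPv
    show P u
    rw [← hq, inv_app_self] at h1
    exact h1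
  rcases isClopen_iff.1 (⟨hcl, ho⟩ : IsClopen {u | P u}) with h0 | h1
  · have : t ∈ {u | P u} := ht
    rw [h0] at this
    exact absurd this (Set.notMem_empty _)
  · have : t' ∈ {u | P u} := by rw [h1]; trivial
    exact this

theorem comm_ext (hΓ : Ok Γ) (hE : EE Γ 1) (x y : ℝ) {δ : ℝ} (hδ : 0 < δ)
    (h : ∀ g ∈ Γ, Sm δ g → g x = x → g y = y) :
    ∃ φ : ℝ ≃o ℝ, φ x = y ∧ ∃ ε > 0, ∀ g ∈ Γ, Sm ε g → φ * g = g * φ := by
  let act : MulAction Γ ℝ :=
    { smul := fun g t => (g : ℝ ≃o ℝ) t
      one_smul := fun t => rfl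
      mul_smul := fun g g' t => rfl }
  obtain ⟨s, hsx, ε, hε, hs0⟩ := @ext_lemma Γ hΓ.per Set.univ isOpen_univ Set.ordConnected_univ
    (fun g _ x _ => Set.mem_univ _)
    (fun u _ e he => comm_ext_hloc hE u he) ℝ act x (Set.mem_univ _) y δ hδ
    (fun g hg hgx => h g g.2 hg hgx)
  have hs : ∀ g ∈ Γ, Sm ε g → ∀ t, s (g t) = g (s t) := by
    intro g hg hsm t
    exact hs0 ⟨g, hg⟩ hsm t (Set.mem_univ _)
  clear hs0
  -- continuity
  have hcont : Continuous s := by
    rw [continuous_iff_continuousAt]
    intro t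
    rw [Metric.continuousAt_iff]
    intro e he
    obtain ⟨η, hη, H⟩ := comm_ext_hloc hE t (lt_min hε he)
    refine ⟨η, hη, fun {t'} ht' => ?_⟩
    rw [Real.dist_eq] at ht'
    obtain ⟨g, hg, hsm, hq⟩ := H t' ht'
    rw [Real.dist_eq, ← hq, hs g hg (hsm.mono (min_le_left _ _))]
    exact lt_of_lt_of_le (hsm _) (min_le_right _ _)
  -- s is not constant
  have hnc : ¬ ∀ u v, s u = s v := by
    intro hcst
    obtain ⟨η, hη, H⟩ := comm_ext_hloc hE (s 0) hε
    obtain ⟨g, hg, hsm, hq⟩ := H (s 0 + η / 2) (by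
      rw [add_sub_cancel_left, abs_of_pos (by linarith)]; linarith)
    have h1 := hs g hg hsm 0
    rw [hq, hcst (g 0) 0] at h1
    linarith
  -- no local max
  have hnomax : ∀ t, ¬ IsLocalMax s t := by
    intro t ht
    have hall : ∀ t, IsLocalMax s t := fun t' =>
      comm_ext_ind hE hε (fun u => IsLocalMax s u) (fun g hg hsm u hu => by
        have hc : Tendsto (fun v => g⁻¹ v) (𝓝 (g u)) (𝓝 u) := by
          have h1 : ContinuousAt (fun v => g⁻¹ v) (g u) := (g⁻¹).continuous.continuousAt
          have h2 : Tendsto (fun v => g⁻¹ v) (𝓝 (g u)) (𝓝 (g⁻¹ (g u))) := h1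
          rwa [inv_app_self] at h2
        have h3 := hc.eventually hu
        refine h3.mono fun v hv => ?_
        have h4 : s (g (g⁻¹ v)) = g (s (g⁻¹ v)) := hs g hg hsm _
        rw [app_inv_self] at h4
        rw [h4, hs g hg hsm]
        exact g.monotone hv) t t' ht
    apply hnc
    have key : ∀ u v, s v ≤ s u := by
      intro u v
      have hcl : IsClosed {w | s w ≤ s u} := isClosed_le hcont continuous_const
      have hop : IsOpen {w | s w ≤ s u} := by
        rw [isOpen_iff_mem_nhds]
        intro w hw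
        exact (hall w).mono fun w' hw' => le_trans hw' hw
      rcases isClopen_iff.1 (⟨hcl, hop⟩ : IsClopen {w | s w ≤ s u}) with h0 | h1
      · have : u ∈ {w | s w ≤ s u} := le_refl (s u)
        rw [h0] at this
        exact absurd this (Set.notMem_empty _)
      · have : v ∈ {w | s w ≤ s u} := by rw [h1]; trivial
        exact this
    exact fun u v => le_antisymm (key v u) (key u v)
  have hnomin : ∀ t, ¬ IsLocalMin s t := by
    intro t ht
    have hall : ∀ t, IsLocalMin s t := fun t' =>
      comm_ext_ind hE hε (fun u => IsLocalMin s u) (fun g hg hsm u hu => by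
        have hc : Tendsto (fun v => g⁻¹ v) (𝓝 (g u)) (𝓝 u) := by
          have h1 : ContinuousAt (fun v => g⁻¹ v) (g u) := (g⁻¹).continuous.continuousAt
          have h2 : Tendsto (fun v => g⁻¹ v) (𝓝 (g u)) (𝓝 (g⁻¹ (g u))) := h1
          rwa [inv_app_self] at h2
        have h3 := hc.eventually hu
        refine h3.mono fun v hv => ?_
        have h4 : s (g (g⁻¹ v)) = g (s (g⁻¹ v)) := hs g hg hsm _
        rw [app_inv_self] at h4
        rw [h4, hs g hg hsm]
        exact g.monotone hv) t t' ht
    apply hnc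
    have key : ∀ u v, s u ≤ s v := by
      intro u v
      have hcl : IsClosed {w | s u ≤ s w} := isClosed_le continuous_const hcont
      have hop : IsOpen {w | s u ≤ s w} := by
        rw [isOpen_iff_mem_nhds]
        intro w hw
        exact (hall w).mono fun w' hw' => le_trans hw hw'
      rcases isClopen_iff.1 (⟨hcl, hop⟩ : IsClopen {w | s u ≤ s w}) with h0 | h1
      · have : u ∈ {w | s u ≤ s w} := le_refl (s u)
        rw [h0] at this
        exact absurd this (Set.notMem_empty _)
      · have : v ∈ {w | s u ≤ s w} := by rw [h1]; trivial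
        exact this
    exact fun u v => le_antisymm (key u v) (key v u)
  -- injectivity
  have hne : ∀ u v, u < v → s u ≠ s v := by
    intro u v huv heq
    obtain ⟨c, -, hc⟩ := exists_isLocalExtr_Ioo huv hcont.continuousOn heq
    rcases hc with hc | hc
    · exact hnomin c hc
    · exact hnomax c hc
  have hinj : Function.Injective s := by
    intro u v huv
    rcases lt_trichotomy u v with h1 | h1 | h1
    · exact absurd huv (hne u v h1)
    · exact h1
    · exact absurd huv.symm (hne v u h1)
  -- strictly monotone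
  have hmono : StrictMono s := by
    rcases hcont.strictMono_of_inj hinj with h1 | h1
    · exact h1
    · exfalso
      have hz : (0 : ℝ) ∈ Set.range (fun t => s t - t) := by
        have hc2 : Continuous (fun t => s t - t) := hcont.sub continuous_id
        apply mem_range_of_exists_le_of_exists_ge hc2
        · rcases le_total 0 (s 0) with h0 | h0
          · refine ⟨s 0, ?_⟩
            have := h1.antitone h0
            linarith
          · refine ⟨0, ?_⟩
            linarith
        · rcases le_total 0 (s 0) with h0 | h0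
          · refine ⟨0, ?_⟩
            linarith
          · refine ⟨s 0, ?_⟩
            have := h1.antitone h0
            linarith
      obtain ⟨z, hz⟩ := hz
      have hz' : s z = z := by
        have : s z - z = 0 := hz
        linarith
      obtain ⟨η, hη, H⟩ := comm_ext_hloc hE z hε
      obtain ⟨g, hg, hsm, hq⟩ := H (z + η / 2) (by
        rw [add_sub_cancel_left, abs_of_pos (by linarith)]; linarith)
      have h2 := hs g hg hsm z
      rw [hz', hq] at h2
      have h3 := h1 (show z < z + η / 2 by linarith)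
      rw [h2, hz'] at h3
      linarith
  -- surjective
  have hsurj : Function.Surjective s := by
    intro r
    have := comm_ext_ind hE hε (fun r => r ∈ Set.range s) (fun g hg hsm u hu => by
      obtain ⟨t, rfl⟩ := hu
      exact ⟨g t, hs g hg hsm t⟩) (s 0) r ⟨0, rfl⟩
    exact this
  refine ⟨hmono.orderIsoOfSurjective s hsurj, hsx, ε, hε, fun g hg hsm => ?_⟩
  ext t
  show s (g t) = g (s t)
  exact hs g hg hsm t


end Pool.Agent.Ghys
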