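import Mathlib
import Pool.Agent.Ghys.Basic
import Pool.Agent.Ghys.L_holder

set_option autoImplicit false

namespace Pool.Agent.Ghys

open Filter Topology Set

variable {Γ : Subgroup (ℝ ≃o ℝ)}


theorem nd_Cn1 (p : Fin 1 → ℝ) : Cn 1 p := by
  refine ⟨fun i j hij => ?_, fun i j => ?_⟩
  · exact absurd (Subsingleton.elim i j) hij.ne
  · rw [Subsingleton.elim i j]
    linarith

theorem nd_trans (hT : TR Γ 1) (x y : ℝ) : ∃ g ∈ Γ, g x = y := by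
  obtain ⟨g, hg, h⟩ := hT (fun _ => x) (fun _ => y) (nd_Cn1 _) (nd_Cn1 _)
  exact ⟨g, hg, h 0⟩

theorem noMM_dense (hΓ : Ok Γ) (hT : TR Γ 1)
    (hone : ∃ t ∈ Γ, ∀ x : ℝ, (t : ℝ ≃o ℝ) x = x + 1)
    (h : ∀ ε > 0, ∃ φ : ℝ ≃o ℝ, (∀ g ∈ Γ, φ * g = g * φ) ∧ 0 < φ 0 ∧ φ 0 < ε) :
    ∃ φ : ℝ ≃o ℝ, Per φ ∧ ∀ f : ℝ ≃o ℝ, f ∈ Γ ↔ ∃ t : ℝ, ∀ x, φ (f x) = φ x + t := by
  obtain ⟨T, hTΓ, hT1⟩ := hone
  -- the centraliser
  set C : Subgroup (ℝ ≃o ℝ) := Subgroup.centralizer (Γ : Set (ℝ ≃o ℝ)) with hC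
  have hCmem : ∀ φ : ℝ ≃o ℝ, φ ∈ C ↔ ∀ g ∈ Γ, φ * g = g * φ := by
    intro φ
    rw [hC, Subgroup.mem_centralizer_iff]
    exact ⟨fun h1 g hg => (h1 g hg).symm, fun h1 g hg => (h1 g hg).symm⟩
  have hCcomm : ∀ φ ∈ C, ∀ g ∈ Γ, ∀ x, φ (g x) = g (φ x) := by
    intro φ hφ g hg x
    have h1 := (hCmem φ).mp hφ g hg
    have h2 := congrArg (fun e : ℝ ≃o ℝ => e x) h1
    exact h2
  have hTC : T ∈ C := by
    rw [hCmem]
    intro g hg
    ext x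
    rw [mul_app, mul_app, hT1, hT1, hΓ.per g hg]
  have hTinv : ∀ x, T⁻¹ x = x - 1 := by
    intro x
    rw [inv_eq_iff, hT1]
    ring
  -- (1)
  have hone' : ∀ x ε : ℝ, 0 < ε → ∃ φ ∈ C, x < φ x ∧ φ x < x + ε := by
    intro x ε hε
    obtain ⟨g, hg, hgx⟩ := nd_trans hT 0 x
    have h1 : 0 < g⁻¹ (x + ε) := by
      have h2 : g⁻¹ x = 0 := by rw [inv_eq_iff, hgx]
      rw [← h2]
      exact (g⁻¹ : ℝ ≃o ℝ).strictMono (by linarith)
    obtain ⟨φ, hφ, hφ0, hφ1⟩ := h _ h1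
    have hφC : φ ∈ C := (hCmem φ).mpr hφ
    refine ⟨φ, hφC, ?_, ?_⟩
    · rw [← hgx, hCcomm φ hφC g hg]
      exact g.strictMono hφ0
    · have h3 : φ x = g (φ 0) := by rw [← hgx, hCcomm φ hφC g hg]
      rw [h3]
      have h4 := g.strictMono hφ1
      rwa [app_inv_self] at h4
  -- lower points of the orbit
  have hlow : ∀ x a : ℝ, ∃ φ ∈ C, φ x ≤ a := by
    intro x a
    obtain ⟨k, hk⟩ := exists_nat_ge (x - a)
    have hpow : ∀ m : ℕ, ((T⁻¹) ^ m) x = x - m := by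
      intro m
      induction m with
      | zero => simp [one_app]
      | succ m ih =>
        rw [pow_succ', mul_app, ih, hTinv]
        push_cast
        ring
    exact ⟨(T⁻¹) ^ k, C.pow_mem (C.inv_mem hTC) k, by rw [hpow]; linarith⟩
  -- (2)
  have hdense : ∀ x a b : ℝ, a < b → ∃ φ ∈ C, a < φ x ∧ φ x < b := by
    intro x a b hab
    by_contra hcon
    push Not at hcon
    set Y : Set ℝ := {y | (∃ φ ∈ C, φ x = y) ∧ y ≤ a} with hY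
    have hYne : Y.Nonempty := by
      obtain ⟨φ, hφ, hφa⟩ := hlow x a
      exact ⟨φ x, ⟨φ, hφ, rfl⟩, hφa⟩
    have hYb : BddAbove Y := ⟨a, fun y hy => hy.2⟩
    have hsa : sSup Y ≤ a := csSup_le hYne fun y hy => hy.2
    obtain ⟨φ, hφC, hφ1, hφ2⟩ := hone' (sSup Y) (b - sSup Y) (by linarith)
    have h1 : φ⁻¹ (sSup Y) < sSup Y := by
      have := (φ⁻¹ : ℝ ≃o ℝ).strictMono hφ1
      rwa [inv_app_self] at this
    obtain ⟨y, ⟨⟨ψ, hψC, hψy⟩, hya⟩, hy⟩ := exists_lt_of_lt_csSup hYne h1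
    have h2 : sSup Y < φ y := by
      have := φ.strictMono hy
      rwa [app_inv_self] at this
    have h3 : φ y < b := by
      have h4 : y ≤ sSup Y := le_csSup hYb ⟨⟨ψ, hψC, hψy⟩, hya⟩
      have h5 := φ.monotone h4
      linarith
    have h6 : (φ * ψ) x = φ y := by rw [mul_app, hψy]
    have h7 : φ * ψ ∈ C := C.mul_mem hφC hψC
    by_cases h8 : φ y ≤ a
    · have h9 : φ y ≤ sSup Y := le_csSup hYb ⟨⟨φ * ψ, h7, h6⟩, h8⟩
      linarith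
    · have h10 := hcon (φ * ψ) h7 (by rw [h6]; exact not_le.mp h8)
      rw [h6] at h10
      linarith
  -- (3)
  have hfree : ∀ g ∈ Γ, ∀ x, g x = x → g = 1 := by
    intro g hg x hgx
    ext y
    rw [one_app]
    by_contra hne
    rcases lt_or_gt_of_ne hne with hlt | hlt
    · obtain ⟨φ, hφ, h1, h2⟩ := hdense x (g y) y hlt
      have h3 := hCcomm φ hφ g hg x
      rw [hgx] at h3
      have h4 := g.strictMono h2
      rw [← h3] at h4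
      linarith
    · obtain ⟨φ, hφ, h1, h2⟩ := hdense x y (g y) hlt
      have h3 := hCcomm φ hφ g hg x
      rw [hgx] at h3
      have h4 := g.strictMono h1
      rw [← h3] at h4
      linarith
  -- (4)
  obtain ⟨φ0, hφ0⟩ := holder Γ (nd_trans hT) hfree
  obtain ⟨t0, ht0⟩ := (hφ0 T).mp hTΓ
  have ht0p : 0 < t0 := by
    have h1 := ht0 0
    rw [hT1] at h1
    have h2 := φ0.strictMono (show (0 : ℝ) < 0 + 1 by norm_num)
    linarith
  refine ⟨φ0.trans (OrderIso.mulRight₀ t0⁻¹ (inv_pos.mpr ht0p)), ?_, ?_⟩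
  · intro x
    change φ0 (x + 1) * t0⁻¹ = φ0 x * t0⁻¹ + 1
    have h1 := ht0 x
    rw [hT1] at h1
    rw [h1, add_mul, mul_inv_cancel₀ ht0p.ne']
  · intro f
    rw [hφ0 f]
    constructor
    · rintro ⟨t, ht⟩
      refine ⟨t * t0⁻¹, fun x => ?_⟩
      change φ0 (f x) * t0⁻¹ = φ0 x * t0⁻¹ + t * t0⁻¹
      rw [ht x, add_mul]
    · rintro ⟨t, ht⟩
      refine ⟨t * t0, fun x => ?_⟩
      have h1 : φ0 (f x) * t0⁻¹ = φ0 x * t0⁻¹ + t := ht x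
      have h2 : φ0 (f x) = (φ0 (f x) * t0⁻¹) * t0 := by
        rw [mul_assoc, inv_mul_cancel₀ ht0p.ne', mul_one]
      rw [h2, h1, add_mul, mul_assoc, inv_mul_cancel₀ ht0p.ne', mul_one]


end Pool.Agent.Ghys
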