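import Mathlib
import Pool.Agent.Ghys.Basic
import Pool.Agent.Ghys.L_holder_comm

set_option autoImplicit false

namespace Pool.Agent.Ghys

open Filter Topology Set

variable {Γ : Subgroup (ℝ ≃o ℝ)}


theorem nd_free (hT : TR Γ 1) {φ : ℝ ≃o ℝ} (hφ : φ ∈ Subgroup.centralizer (Γ : Set (ℝ ≃o ℝ)))
    {x : ℝ} (hx : φ x = x) : φ = 1 := by
  apply RelIso.ext
  intro y
  have hc : ∀ z : ℝ, Cn 1 (fun _ : Fin 1 => z) := by
    intro z
    refine ⟨fun i j hij => ?_, fun i j => by show z < z + 1; linarith⟩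
    exact absurd hij (by simp [Subsingleton.elim i j])
  obtain ⟨g, hg, hgx⟩ := hT (fun _ => x) (fun _ => y) (hc x) (hc y)
  have h0 : g x = y := hgx 0
  rw [Subgroup.mem_centralizer_iff] at hφ
  have h1 := hφ g hg
  have h2 : g (φ x) = φ (g x) := by rw [← mul_app, ← mul_app, h1]
  rw [hx, h0] at h2
  show φ y = y
  exact h2.symm

theorem nd_pos (hT : TR Γ 1) {φ : ℝ ≃o ℝ} (hφ : φ ∈ Subgroup.centralizer (Γ : Set (ℝ ≃o ℝ)))
    {x : ℝ} (hx : x < φ x) : ∀ y, y < φ y := by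
  intro y
  by_contra hy
  push Not at hy
  have hcont : Continuous (fun z => φ z - z) := φ.continuous.sub continuous_id
  have hmem : (0 : ℝ) ∈ Set.range (fun z => φ z - z) := by
    refine mem_range_of_exists_le_of_exists_ge hcont ⟨y, ?_⟩ ⟨x, ?_⟩
    · show φ y - y ≤ 0
      linarith
    · show 0 ≤ φ x - x
      linarith
  obtain ⟨z, hz⟩ := hmem
  have hz' : φ z = z := by
    have : φ z - z = 0 := hz
    linarith
  have := nd_free hT hφ hz'
  rw [this, one_app] at hx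
  exact lt_irrefl _ hx

theorem nd_one (hΓ : Ok Γ) (hE : EE Γ 1) (hT : TR Γ 1) {ε : ℝ} (hε : 0 < ε)
    (h : ∀ φ : ℝ ≃o ℝ, φ ∈ Subgroup.centralizer (Γ : Set (ℝ ≃o ℝ)) → 0 < φ 0 → ε ≤ φ 0)
    (m : ℝ) : ∃ ε' > 0, ∃ η > 0, ∀ φ ∈ Subgroup.centralizer (Γ : Set (ℝ ≃o ℝ)), ∀ x : ℝ,
      |x - m| < η → x < φ x → x + ε' ≤ φ x := by
  have hc : ∀ z : ℝ, Cn 1 (fun _ : Fin 1 => z) := by
    intro z
    refine ⟨fun i j hij => ?_, fun i j => by show z < z + 1; linarith⟩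
    exact absurd hij (by simp [Subsingleton.elim i j])
  obtain ⟨g, hg, hgm⟩ := hT (fun _ => 0) (fun _ => m) (hc 0) (hc m)
  have hg0 : g 0 = m := hgm 0
  -- the gap at m
  set e2 : ℝ := g ε - m with he2
  have he2pos : 0 < e2 := by
    have := g.strictMono hε
    rw [hg0] at this
    linarith
  have hgap : ∀ φ ∈ Subgroup.centralizer (Γ : Set (ℝ ≃o ℝ)), m < φ m → m + e2 ≤ φ m := by
    intro φ hφ hm
    have hφ' := hφ
    rw [Subgroup.mem_centralizer_iff] at hφ'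
    have h1 := hφ' g hg
    have h2 : g (φ 0) = φ m := by
      rw [← hg0, ← mul_app, ← mul_app, h1]
    have h3 : 0 < φ 0 := by
      rw [← g.lt_iff_lt, h2, hg0]
      exact hm
    have h4 := h φ hφ h3
    have h5 := g.monotone h4
    rw [h2] at h5
    linarith
  obtain ⟨η, hη, H⟩ := hE (fun _ => m) (hc m) (e2 / 4) (by linarith)
  refine ⟨e2 / 4, by linarith, min η (e2 / 4), lt_min hη (by linarith), ?_⟩
  intro φ hφ x hx hxφ
  by_contra hlt
  push Not at hlt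
  have hx1 : |x - m| < η := lt_of_lt_of_le hx (min_le_left _ _)
  have hx2 : |x - m| < e2 / 4 := lt_of_lt_of_le hx (min_le_right _ _)
  obtain ⟨k, hk, hks, hkm⟩ := H (fun _ => x) (hc x) (fun _ => hx1)
  have hk0 : k m = x := hkm 0
  have hφ' := hφ
  rw [Subgroup.mem_centralizer_iff] at hφ'
  have h1 := hφ' k hk
  have h2 : k (φ m) = φ x := by
    rw [← hk0, ← mul_app, ← mul_app, h1]
  have h3 : m < φ m := by
    rw [← k.lt_iff_lt, h2, hk0]
    exact hxφ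
  have h4 := hgap φ hφ h3
  have h5 := hks (φ m)
  rw [h2] at h5
  rw [abs_lt] at h5 hx2
  linarith

theorem noMM_discrete (hΓ : Ok Γ) (hE : EE Γ 1) (hT : TR Γ 1)
    (hone : ∃ t ∈ Γ, ∀ x : ℝ, (t : ℝ ≃o ℝ) x = x + 1) {ε : ℝ} (hε : 0 < ε)
    (h : ∀ φ : ℝ ≃o ℝ, (∀ g ∈ Γ, φ * g = g * φ) → 0 < φ 0 → ε ≤ φ 0) :
    ∃ (k : ℕ) (φ : ℝ ≃o ℝ), 0 < k ∧ (∀ x, x < φ x) ∧ (∀ x, (φ ^ k) x = x + 1) ∧
      (∀ g ∈ Γ, φ * g = g * φ) ∧
      ∀ ψ : ℝ ≃o ℝ, (∀ g ∈ Γ, ψ * g = g * ψ) → ∃ j : ℤ, ψ = φ ^ j := by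
  set C := Subgroup.centralizer (Γ : Set (ℝ ≃o ℝ)) with hC
  have hmem : ∀ φ : ℝ ≃o ℝ, φ ∈ C ↔ ∀ g ∈ Γ, φ * g = g * φ := by
    intro φ
    rw [hC, Subgroup.mem_centralizer_iff]
    constructor
    · intro h g hg
      exact (h g hg).symm
    · intro h g hg
      exact (h g hg).symm
  have h' : ∀ φ : ℝ ≃o ℝ, φ ∈ C → 0 < φ 0 → ε ≤ φ 0 := fun φ hφ => h φ ((hmem φ).1 hφ)
  obtain ⟨t, ht, htx⟩ := hone
  have htC : t ∈ C := by
    rw [hmem]
    intro g hg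
    apply RelIso.ext
    intro x
    show t (g x) = g (t x)
    rw [htx, htx, hΓ.per g hg]
  -- minimal element
  set S : Set ℝ := {y | ∃ φ ∈ C, φ 0 = y ∧ 0 < y} with hS
  have hSne : S.Nonempty := ⟨t 0, t, htC, rfl, by rw [htx]; norm_num⟩
  have hSb : BddBelow S := ⟨0, by rintro y ⟨φ, -, -, hy⟩; exact hy.le⟩
  set m := sInf S with hm
  have hmε : ε ≤ m := by
    refine le_csInf hSne ?_
    rintro y ⟨φ, hφ, rfl, hy⟩
    exact h' φ hφ hy
  obtain ⟨ε', hε', η, hη, H1⟩ := nd_one hΓ hE hT hε h' m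
  have hatt : ∃ φ ∈ C, φ 0 = m := by
    obtain ⟨y1, ⟨φ1, hφ1, hy1, hy1p⟩, hlt1⟩ := exists_lt_of_csInf_lt hSne
      (show sInf S < m + min η ε' by rw [← hm]; linarith [lt_min hη hε'])
    have hm1 : m ≤ y1 := csInf_le hSb ⟨φ1, hφ1, hy1, hy1p⟩
    rcases hm1.eq_or_lt with heq | hlt
    · exact ⟨φ1, hφ1, by rw [hy1, heq]⟩
    · obtain ⟨y2, ⟨φ2, hφ2, hy2, hy2p⟩, hlt2⟩ := exists_lt_of_csInf_lt hSne hlt
      have hm2 : m ≤ y2 := csInf_le hSb ⟨φ2, hφ2, hy2, hy2p⟩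
      have hχ : φ1 * φ2⁻¹ ∈ C := C.mul_mem hφ1 (C.inv_mem hφ2)
      have hχx : (φ1 * φ2⁻¹) y2 = y1 := by
        rw [mul_app, ← hy2, inv_app_self, hy1]
      have := H1 (φ1 * φ2⁻¹) hχ y2 (by
        rw [abs_lt]
        constructor
        · linarith
        · linarith [min_le_left η ε']) (by rw [hχx]; exact hlt2)
      rw [hχx] at this
      linarith [min_le_right η ε']
  obtain ⟨φ, hφ, hφ0⟩ := hatt
  have hm0 : 0 < m := lt_of_lt_of_le hε hmε
  have hφpos : ∀ x, x < φ x := nd_pos hT hφ (x := 0) (by rw [hφ0]; exact hm0)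
  -- uniform displacement
  have hφper : ∀ x, φ (x + 1) = φ x + 1 := by
    intro x
    have := (hmem φ).1 hφ t ht
    have h2 : φ (t x) = t (φ x) := by rw [← mul_app, ← mul_app, this]
    rwa [htx, htx] at h2
  have hφint : ∀ (x : ℝ) (k : ℤ), φ (x + k) = φ x + k := fun x k => Per.add_int hφper x k
  obtain ⟨c, hc, hcφ⟩ : ∃ c > 0, ∀ x, x + c ≤ φ x := by
    have hcont : Continuous (fun z => φ z - z) := φ.continuous.sub continuous_id
    obtain ⟨z, -, hz⟩ := isCompact_Icc.exists_isMinOn (s := Icc (0 : ℝ) 1) ⟨0, by simp⟩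
      hcont.continuousOn
    refine ⟨φ z - z, by linarith [hφpos z], fun x => ?_⟩
    have h0 : (x - ⌊x⌋) ∈ Icc (0 : ℝ) 1 := by
      constructor
      · linarith [Int.floor_le x]
      · linarith [Int.lt_floor_add_one x]
    have h1 := hz h0
    have h2 : φ z - z ≤ φ (x - ⌊x⌋) - (x - ⌊x⌋) := h1
    have h3 := hφint x (-⌊x⌋)
    push_cast at h3
    rw [← sub_eq_add_neg, ← sub_eq_add_neg] at h3
    rw [h3] at h2
    linarith
  have hpow : ∀ (n : ℕ), (n : ℝ) * c ≤ (φ ^ n) 0 := by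
    intro n
    induction n with
    | zero => simp [one_app]
    | succ n ih =>
      rw [pow_succ', mul_app]
      have := hcφ ((φ ^ n) 0)
      push_cast
      linarith
  have hpowneg : ∀ (n : ℕ), (φ ^ (-(n : ℤ))) 0 ≤ -((n : ℝ) * c) := by
    intro n
    induction n with
    | zero => simp [one_app]
    | succ n ih =>
      have h1 : φ ((φ ^ (-((n + 1 : ℕ) : ℤ))) 0) = (φ ^ (-(n : ℤ))) 0 := by
        rw [← mul_app]
        congr 1
        rw [← zpow_one_add]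
        congr 1
        push_cast
        ring
      have h2 := hcφ ((φ ^ (-((n + 1 : ℕ) : ℤ))) 0)
      rw [h1] at h2
      push_cast at h2 ⊢
      linarith
  have hmono : ∀ i j : ℤ, i ≤ j → (φ ^ i) 0 ≤ (φ ^ j) 0 := by
    intro i j hij
    obtain ⟨n, rfl⟩ := Int.le.dest hij
    have h0 : (0 : ℝ) ≤ (φ ^ n) 0 := le_trans (by positivity) (hpow n)
    have h1 : (φ ^ (i + (n : ℤ))) 0 = (φ ^ i) ((φ ^ n) 0) := by
      rw [zpow_add, mul_app, zpow_natCast]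
    rw [h1]
    exact (φ ^ i).monotone h0
  have hall : ∀ ψ ∈ C, ∃ j : ℤ, ψ = φ ^ j := by
    intro ψ hψ
    obtain ⟨N, hN⟩ := exists_nat_gt (|ψ 0| / c)
    have hN' : |ψ 0| < N * c := by
      rwa [div_lt_iff₀ hc] at hN
    rw [abs_lt] at hN'
    have hb : ∃ b : ℤ, ∀ z : ℤ, (φ ^ z) 0 ≤ ψ 0 → z ≤ b := by
      refine ⟨N, fun z hz => ?_⟩
      by_contra hlt
      push Not at hlt
      have h1 := hmono N z hlt.le
      have h2 := hpow N
      rw [zpow_natCast] at h1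
      linarith
    have hex : ∃ z : ℤ, (φ ^ z) 0 ≤ ψ 0 := by
      refine ⟨-N, ?_⟩
      have := hpowneg N
      linarith
    obtain ⟨j, hj, hjmax⟩ := Int.exists_greatest_of_bdd hb hex
    refine ⟨j, ?_⟩
    have hj1 : ψ 0 < (φ ^ (j + 1)) 0 := by
      by_contra hlt
      push Not at hlt
      have := hjmax (j + 1) hlt
      omega
    have hχ : (φ ^ j)⁻¹ * ψ ∈ C := C.mul_mem (C.inv_mem (C.zpow_mem hφ j)) hψ
    have hχ0 : 0 ≤ ((φ ^ j)⁻¹ * ψ) 0 := by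
      rw [mul_app]
      have := ((φ ^ j)⁻¹).monotone hj
      rwa [inv_app_self] at this
    have hχ1 : ((φ ^ j)⁻¹ * ψ) 0 < m := by
      rw [mul_app]
      have := ((φ ^ j)⁻¹).strictMono hj1
      rw [zpow_add, mul_app, inv_app_self, zpow_one, hφ0] at this
      exact this
    rcases hχ0.eq_or_lt with h0 | h0
    · have := nd_free hT hχ h0.symm
      rwa [inv_mul_eq_one, eq_comm] at this
    · exfalso
      have : m ≤ ((φ ^ j)⁻¹ * ψ) 0 := csInf_le hSb ⟨_, hχ, rfl, h0⟩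
      linarith
  obtain ⟨j, hj⟩ := hall t htC
  have hjpos : 0 < j := by
    by_contra hlt
    push Not at hlt
    have h1 := hmono j 0 hlt
    rw [← hj, htx, zpow_zero, one_app] at h1
    linarith
  refine ⟨j.toNat, φ, by omega, hφpos, fun x => ?_, (hmem φ).1 hφ, fun ψ hψ => hall ψ ((hmem ψ).2 hψ)⟩
  have h1 : φ ^ j.toNat = t := by
    rw [hj, ← zpow_natCast, Int.toNat_of_nonneg hjpos.le]
  rw [h1, htx]


end Pool.Agent.Ghys
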