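import Mathlib
import Pool.Agent.Ghys.Basic

set_option autoImplicit false

namespace Pool.Agent.Ghys

open Filter Topology Set

variable {Γ : Subgroup (ℝ ≃o ℝ)}


theorem rescale_theta (k : ℕ) (hk : 0 < k) (φ : ℝ ≃o ℝ)
    (hφ : ∀ x, x < φ x) (hφk : ∀ x, (φ ^ k) x = x + 1) :
    ∃ θ : ℝ ≃o ℝ, (∀ x, θ (φ x) = θ x + 1) ∧
      (∀ ε > 0, ∃ δ > 0, ∀ x y, |x - y| < δ → |θ x - θ y| < ε) ∧
      (∀ ε > 0, ∃ δ > 0, ∀ x y, |x - y| < δ → |θ⁻¹ x - θ⁻¹ y| < ε) := by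
  have hkR : (0 : ℝ) < k := by exact_mod_cast hk
  have hpow_succ : ∀ (j : ℕ) (x : ℝ), (φ ^ (j + 1)) x = (φ ^ j) (φ x) := by
    intro j x
    rw [pow_succ, mul_app]
  have hpow_succ' : ∀ (j : ℕ) (x : ℝ), (φ ^ (j + 1)) x = φ ((φ ^ j) x) := by
    intro j x
    rw [pow_succ', mul_app]
  have hge : ∀ (j : ℕ) (x : ℝ), x ≤ (φ ^ j) x := by
    intro j
    induction j with
    | zero => intro x; rw [pow_zero, one_app]
    | succ j ih =>
      intro x
      rw [hpow_succ']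
      exact (ih x).trans (hφ _).le
  have hmono : ∀ (i j : ℕ) (x : ℝ), i ≤ j → (φ ^ i) x ≤ (φ ^ j) x := by
    intro i j x hij
    obtain ⟨m, rfl⟩ := Nat.exists_eq_add_of_le hij
    rw [add_comm, pow_add, mul_app]
    exact hge _ _
  -- the averaged function
  let F : ℝ → ℝ := fun x => (∑ j ∈ Finset.range k, (φ ^ j) x) / k
  have hFmono : StrictMono F := by
    intro x y hxy
    apply div_lt_div_of_pos_right _ hkR
    apply Finset.sum_lt_sum_of_nonempty (Finset.nonempty_range_iff.2 hk.ne')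
    intro j _
    exact (φ ^ j).strictMono hxy
  have hFcont : Continuous F := by
    apply Continuous.div_const
    exact continuous_finsetSum _ fun j _ => (φ ^ j).continuous
  have hFφ : ∀ x, F (φ x) = F x + 1 / k := by
    intro x
    show (∑ j ∈ Finset.range k, (φ ^ j) (φ x)) / k = (∑ j ∈ Finset.range k, (φ ^ j) x) / k + 1 / k
    have h1 : ∑ j ∈ Finset.range k, (φ ^ j) (φ x) = ∑ j ∈ Finset.range k, (φ ^ (j + 1)) x :=
      Finset.sum_congr rfl fun j _ => (hpow_succ j x).symm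
    have h2 := Finset.sum_range_succ (fun j => (φ ^ j) x) k
    have h3 := Finset.sum_range_succ' (fun j => (φ ^ j) x) k
    rw [h2] at h3
    rw [hφk, pow_zero, one_app] at h3
    rw [h1, ← add_div]
    congr 1
    linarith
  have hFle : ∀ x, x ≤ F x := by
    intro x
    show x ≤ (∑ j ∈ Finset.range k, (φ ^ j) x) / k
    rw [le_div_iff₀ hkR]
    have := Finset.sum_le_sum (s := Finset.range k) (f := fun _ => x) (g := fun j => (φ ^ j) x)
      (fun j _ => hge j x)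
    simpa [mul_comm] using this
  have hFge : ∀ x, F x ≤ x + 1 := by
    intro x
    show (∑ j ∈ Finset.range k, (φ ^ j) x) / k ≤ x + 1
    rw [div_le_iff₀ hkR]
    have := Finset.sum_le_sum (s := Finset.range k) (g := fun _ => x + 1)
      (f := fun j => (φ ^ j) x)
      (fun j hj => by
        rw [← hφk]
        exact hmono j k x (Finset.mem_range.1 hj).le)
    rw [Finset.sum_const, Finset.card_range, nsmul_eq_mul] at this
    linarith
  have hFsurj : Function.Surjective F := by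
    apply hFcont.surjective
    · exact tendsto_atTop_mono hFle tendsto_id
    · exact tendsto_atBot_mono hFge (tendsto_atBot_add_const_right _ _ tendsto_id)
  let t1 : ℝ ≃o ℝ := StrictMono.orderIsoOfSurjective F hFmono hFsurj
  have ht1 : ∀ x, t1 x = F x := fun x => rfl
  have hFj : ∀ (j : ℕ) (x : ℝ), F ((φ ^ j) x) = F x + j / k := by
    intro j
    induction j with
    | zero => intro x; rw [pow_zero, one_app]; simp
    | succ j ih =>
      intro x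
      rw [hpow_succ', hFφ, ih]
      push_cast
      ring
  have hper1 : Per t1 := by
    intro x
    rw [ht1, ht1, ← hφk x, hFj, div_self hkR.ne']
  let D : ℝ ≃o ℝ := OrderIso.mulLeft₀ (k : ℝ) hkR
  have hD : ∀ x, D x = k * x := fun x => rfl
  have hDinv : ∀ x, D⁻¹ x = x / k := by
    intro x
    rw [inv_eq_iff, hD]
    field_simp
  refine ⟨D * t1, ?_, ?_, ?_⟩
  · intro x
    rw [mul_app, mul_app, hD, hD, ht1, ht1, hFφ]
    field_simp
  · intro ε hε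
    obtain ⟨δ, hδ, H⟩ := hper1.uc (div_pos hε hkR)
    refine ⟨δ, hδ, fun x y hxy => ?_⟩
    have h1 := H x y hxy
    rw [mul_app, mul_app, hD, hD, ← mul_sub, abs_mul, abs_of_pos hkR]
    rw [lt_div_iff₀ hkR] at h1
    linarith
  · intro ε hε
    obtain ⟨δ, hδ, H⟩ := hper1.inv.uc hε
    refine ⟨δ * k, mul_pos hδ hkR, fun x y hxy => ?_⟩
    rw [mul_inv_rev, mul_app, mul_app, hDinv, hDinv]
    apply H
    rw [← sub_div, abs_div, abs_of_pos hkR, div_lt_iff₀ hkR]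
    exact hxy

theorem rescale (hΓ : Ok Γ) (hT : TR Γ 1) (k : ℕ) (hk : 0 < k) (φ : ℝ ≃o ℝ)
    (hφ : ∀ x, x < φ x) (hφk : ∀ x, (φ ^ k) x = x + 1) (hφc : ∀ g ∈ Γ, φ * g = g * φ)
    (hM : ∀ x y : ℝ, x < y → y < φ x → ∀ δ > 0, ∃ g ∈ Γ, Sm δ g ∧ g x = x ∧ g y ≠ y) :
    ∃ (θ : ℝ ≃o ℝ) (Γ' : Subgroup (ℝ ≃o ℝ)), (∀ x, θ (φ x) = θ x + 1) ∧
      (∀ f : ℝ ≃o ℝ, f ∈ Γ ↔ θ * f * θ⁻¹ ∈ Γ') ∧ Ok Γ' ∧ TR Γ' 1 ∧ MM Γ' 1 := by
  obtain ⟨θ, hθ, hu1, hu2⟩ := rescale_theta k hk φ hφ hφk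
  let Γ' : Subgroup (ℝ ≃o ℝ) := Γ.comap (MulAut.conj θ⁻¹).toMonoidHom
  have hmem : ∀ g : ℝ ≃o ℝ, g ∈ Γ' ↔ θ⁻¹ * g * θ ∈ Γ := by
    intro g
    show (MulAut.conj θ⁻¹) g ∈ Γ ↔ _
    rw [MulAut.conj_apply, inv_inv]
  have hmem2 : ∀ f : ℝ ≃o ℝ, f ∈ Γ ↔ θ * f * θ⁻¹ ∈ Γ' := by
    intro f
    rw [hmem]
    have : θ⁻¹ * (θ * f * θ⁻¹) * θ = f := by group
    rw [this]
  have hθinv : ∀ x, θ⁻¹ (x + 1) = φ (θ⁻¹ x) := by
    intro x
    rw [inv_eq_iff, hθ, app_inv_self]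
  have hcn1 : ∀ p : Fin 1 → ℝ, Cn 1 p := by
    intro p
    refine ⟨Subsingleton.strictMono p, fun i j => ?_⟩
    rw [Subsingleton.elim i j]
    linarith
  refine ⟨θ, Γ', hθ, hmem2, ⟨?_, ?_⟩, ?_, ?_⟩
  · intro g hg x
    rw [hmem] at hg
    have h1 := hφc _ hg
    have h2 : (φ * (θ⁻¹ * g * θ)) (θ⁻¹ x) = ((θ⁻¹ * g * θ) * φ) (θ⁻¹ x) := by rw [h1]
    rw [mul_app, mul_app, mul_app, app_inv_self, mul_app, mul_app, mul_app, hθ,
      app_inv_self] at h2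
    have h3 : θ (φ (θ⁻¹ (g x))) = θ (θ⁻¹ (g (x + 1))) := by rw [h2]
    rw [hθ, app_inv_self, app_inv_self] at h3
    exact h3.symm
  · intro f hf H
    rw [hmem]
    have hcomm : ∀ x, (θ⁻¹ * f * θ) (φ x) = φ ((θ⁻¹ * f * θ) x) := by
      intro x
      rw [mul_app, mul_app, hθ, hf, hθinv, mul_app, mul_app]
    have hcommj : ∀ (j : ℕ) (x : ℝ), (θ⁻¹ * f * θ) ((φ ^ j) x) = (φ ^ j) ((θ⁻¹ * f * θ) x) := by
      intro j
      induction j with
      | zero => intro x; rfl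
      | succ j ih =>
        intro x
        have e1 : (φ ^ (j + 1)) x = φ ((φ ^ j) x) := by rw [pow_succ', mul_app]
        have e2 : (φ ^ (j + 1)) ((θ⁻¹ * f * θ) x) = φ ((φ ^ j) ((θ⁻¹ * f * θ) x)) := by
          rw [pow_succ', mul_app]
        rw [e1, e2, hcomm, ih]
    apply hΓ.clo
    · intro x
      rw [← hφk, hcommj, hφk]
    · intro ε hε
      obtain ⟨δ, hδ, H2⟩ := hu2 ε hε
      obtain ⟨g, hg, H3⟩ := H δ hδ
      rw [hmem] at hg
      refine ⟨_, hg, fun x => ?_⟩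
      rw [mul_app, mul_app, mul_app, mul_app]
      exact H2 _ _ (H3 _)
  · intro p q _ _
    obtain ⟨g, hg, H⟩ := hT (fun i => θ⁻¹ (p i)) (fun i => θ⁻¹ (q i)) (hcn1 _) (hcn1 _)
    refine ⟨θ * g * θ⁻¹, (hmem2 g).1 hg, fun i => ?_⟩
    rw [mul_app, mul_app, H i, app_inv_self]
  · intro p y hpy δ hδ
    have hlt : p 0 < y := by
      have := hpy.1 (show Fin.castSucc (0 : Fin 1) < Fin.last 1 by decide)
      rwa [Fin.snoc_castSucc (α := fun _ => ℝ), Fin.snoc_last (α := fun _ => ℝ)] at this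
    have hlt2 : y < p 0 + 1 := by
      have := hpy.2 (Fin.last 1) (Fin.castSucc (0 : Fin 1))
      rwa [Fin.snoc_castSucc (α := fun _ => ℝ), Fin.snoc_last (α := fun _ => ℝ)] at this
    obtain ⟨δ1, hδ1, H1⟩ := hu1 δ hδ
    have h1 : θ⁻¹ (p 0) < θ⁻¹ y := θ⁻¹.strictMono hlt
    have h2 : θ⁻¹ y < φ (θ⁻¹ (p 0)) := by
      rw [← hθinv]
      exact θ⁻¹.strictMono hlt2
    obtain ⟨g, hg, hgs, hgx, hgy⟩ := hM _ _ h1 h2 δ1 hδ1
    refine ⟨θ * g * θ⁻¹, (hmem2 g).1 hg, ?_, ?_, ?_⟩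
    · intro x
      have := H1 _ _ (hgs (θ⁻¹ x))
      rw [app_inv_self] at this
      rw [mul_app, mul_app]
      exact this
    · intro i
      rw [Subsingleton.elim i 0, mul_app, mul_app, hgx, app_inv_self]
    · intro he
      apply hgy
      rw [mul_app, mul_app] at he
      have : θ⁻¹ (θ (g (θ⁻¹ y))) = θ⁻¹ y := by rw [he]
      rwa [inv_app_self] at this


end Pool.Agent.Ghys
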