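import Mathlib
import Pool.Agent.Ghys.Basic
import Pool.Agent.Ghys.L_LD_of_TR
import Pool.Agent.Ghys.L_EE_of_LD
import Pool.Agent.Ghys.L_comm_ext
import Pool.Agent.Ghys.L_Z_central
import Pool.Agent.Ghys.L_noMM_dense
import Pool.Agent.Ghys.L_noMM_discrete
import Pool.Agent.Ghys.L_rescale
import Pool.Agent.Ghys.L_MT

set_option autoImplicit false

namespace Pool.Agent.Ghys

open Filter Topology Set

variable {Γ : Subgroup (ℝ ≃o ℝ)}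


theorem le_pow_app8553 (φ : ℝ ≃o ℝ) (hφ : ∀ x, x < φ x) (n : ℕ) (x : ℝ) : x ≤ (φ ^ n) x := by
  induction n with
  | zero => rw [pow_zero, one_app]
  | succ n ih =>
    rw [pow_succ', mul_app]
    exact ih.trans (hφ _).le

theorem zpow_gap8553 (φ : ℝ ≃o ℝ) (hφ : ∀ x, x < φ x) (j : ℤ) (x y : ℝ) (h1 : x < y)
    (h2 : y < φ x) : (φ ^ j) x ≠ y := by
  intro h
  rcases le_or_gt j 0 with hj | hj
  · obtain ⟨n, hn⟩ := Int.exists_eq_neg_ofNat hj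
    have h3 : (φ ^ n) ((φ ^ j) x) = x := by
      rw [hn, ← mul_app, ← zpow_natCast, ← zpow_add, add_neg_cancel, zpow_zero, one_app]
    have h4 := le_pow_app8553 φ hφ n ((φ ^ j) x)
    rw [h3, h] at h4
    linarith
  · obtain ⟨n, hn⟩ : ∃ n : ℕ, j = n + 1 := ⟨(j - 1).toNat, by omega⟩
    have h3 : (φ ^ j) x = (φ ^ n) (φ x) := by
      rw [hn, zpow_add, zpow_natCast, zpow_one, mul_app]
    have h4 := le_pow_app8553 φ hφ n (φ x)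
    rw [← h3, h] at h4
    linarith

theorem theta_pow8553 (φ θ : ℝ ≃o ℝ) (h : ∀ x, θ (φ x) = θ x + 1) (k : ℕ) (x : ℝ) :
    θ ((φ ^ k) x) = θ x + k := by
  induction k with
  | zero => simp [one_app]
  | succ k ih =>
    rw [pow_succ', mul_app, h, ih]
    push_cast
    ring

theorem line_main (hΓ : Ok Γ) (hT : TR Γ 1)
    (hone : ∃ t ∈ Γ, ∀ x : ℝ, (t : ℝ ≃o ℝ) x = x + 1) :
    (∃ φ : ℝ ≃o ℝ, Per φ ∧ ∀ f : ℝ ≃o ℝ, f ∈ Γ ↔ ∃ t : ℝ, ∀ x, φ (f x) = φ x + t) ∨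
    ∃ (k : ℕ) (Θ : ℝ ≃o ℝ), 0 < k ∧ (∀ x, Θ (x + k) = Θ x + 1) ∧
      ((∀ f : ℝ ≃o ℝ, f ∈ Γ ↔ Mob (Θ⁻¹ * f * Θ)) ∨ (∀ f : ℝ ≃o ℝ, f ∈ Γ ↔ Per (Θ⁻¹ * f * Θ))) := by
  have hE : EE Γ 1 := EE_of_LD hΓ (LD_of_TR hΓ hT)
  by_cases h : ∀ ε > 0, ∃ φ : ℝ ≃o ℝ, (∀ g ∈ Γ, φ * g = g * φ) ∧ 0 < φ 0 ∧ φ 0 < ε
  · left
    exact noMM_dense hΓ hT hone h
  right
  push Not at h
  obtain ⟨ε, hε, h⟩ := h
  obtain ⟨k, φ, hk, hφ, hφk, hφc, hcent⟩ := noMM_discrete hΓ hE hT hone hε h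
  have hM : ∀ x y : ℝ, x < y → y < φ x → ∀ δ > 0, ∃ g ∈ Γ, Sm δ g ∧ g x = x ∧ g y ≠ y := by
    intro x y hxy hyx δ hδ
    by_contra hc
    push Not at hc
    obtain ⟨ψ, hψ, ε', hε', hcomm⟩ := comm_ext hΓ hE x y hδ hc
    obtain ⟨j, hj⟩ := hcent ψ (Z_central hΓ hE hone ψ hε' hcomm)
    rw [hj] at hψ
    exact zpow_gap8553 φ hφ j x y hxy hyx hψ
  obtain ⟨θ, Γ', hθ, hmem, hok, hT', hM'⟩ := rescale hΓ hT k hk φ hφ hφk hφc hM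
  have hθ1 : ∀ x, θ (x + 1) = θ x + k := by
    intro x
    rw [← hφk, theta_pow8553 φ θ hθ]
  have hθi : ∀ x, θ⁻¹ (x + k) = θ⁻¹ x + 1 := by
    intro x
    rw [inv_eq_iff, hθ1, app_inv_self]
  rcases MT hok hT' hM' with hF | ⟨φ1, hper, hmob⟩
  · refine ⟨k, θ⁻¹, hk, hθi, Or.inr ?_⟩
    intro f
    rw [hmem f, inv_inv]
    exact ⟨fun h => hok.per _ h, fun h => hF _ h⟩
  · refine ⟨k, θ⁻¹ * φ1, hk, ?_, Or.inl ?_⟩
    · intro x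
      rw [mul_app, mul_app]
      have := hper.add_int x (k : ℤ)
      rw [Int.cast_natCast] at this
      rw [this, hθi]
    · intro f
      rw [hmem f, hmob]
      have : φ1⁻¹ * (θ * f * θ⁻¹) * φ1 = (θ⁻¹ * φ1)⁻¹ * f * (θ⁻¹ * φ1) := by group
      rw [this]


end Pool.Agent.Ghys
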